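/-
Project ALT: configurations of disjoint segments in the plane and alternating paths.
-/
import Mathlib

set_option autoImplicit false

noncomputable section

namespace Pool.Agent.Lib.ALT

/-- Segments in the plane, none of them vertical: `P i` is the left end, `Q i` the right end. -/
structure Cfg (ι : Type*) where
  P : ι → ℝ × ℝ
  Q : ι → ℝ × ℝ

namespace Cfg

variable {ι : Type*} (C : Cfg ι)

/-- slope of the line of `i` -/
def slope (i : ι) : ℝ := ((C.Q i).2 - (C.P i).2) / ((C.Q i).1 - (C.P i).1)

/-- height of the line of `i` -/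
def ht (i : ι) (x : ℝ) : ℝ := (C.P i).2 + C.slope i * (x - (C.P i).1)

/-- the closed segment -/
def seg (i : ι) : Set (ℝ × ℝ) := segment ℝ (C.P i) (C.Q i)

/-- start point of an oriented segment, `true` means traversed from left to right -/
def st (u : ι × Bool) : ℝ × ℝ := if u.2 then C.P u.1 else C.Q u.1

/-- end point of an oriented segment -/
def en (u : ι × Bool) : ℝ × ℝ := if u.2 then C.Q u.1 else C.P u.1

/-- the link from `u` to `v` -/
def link (u v : ι × Bool) : Set (ℝ × ℝ) := segment ℝ (C.en u) (C.st v)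

/-- General position, with distinct abscissas of all end points. -/
structure GP : Prop where
  lt : ∀ i, (C.P i).1 < (C.Q i).1
  dis : ∀ i j, i ≠ j → Disjoint (C.seg i) (C.seg j)
  PP : ∀ i j, i ≠ j → (C.P i).1 ≠ (C.P j).1
  PQ : ∀ i j, (C.P i).1 ≠ (C.Q j).1
  QQ : ∀ i j, i ≠ j → (C.Q i).1 ≠ (C.Q j).1
  slope_ne : ∀ i j, i ≠ j → C.slope i ≠ C.slope j
  /-- no end point lies on the line of another segment -/
  P_off : ∀ i j, i ≠ j → C.ht i (C.P j).1 ≠ (C.P j).2
  Q_off : ∀ i j, i ≠ j → C.ht i (C.Q j).1 ≠ (C.Q j).2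

/-- a simple noncrossing alternating path, as a list of oriented segments: its links avoid
the other segments of the list and each other -/
structure Good (w : List (ι × Bool)) : Prop where
  nodup : (w.map Prod.fst).Nodup
  ls : ∀ u v, [u, v] <:+: w → ∀ t ∈ w, t ≠ u → t ≠ v → Disjoint (C.link u v) (C.seg t.1)
  ll : ∀ u v u' v', [u, v] <:+: w → [u', v'] <:+: w → u ≠ u' → Disjoint (C.link u v) (C.link u' v')

/-- all abscissas of the end points of the list are in the open interval -/
def InStrip (α β : ℝ) (w : List (ι × Bool)) : Prop :=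
  ∀ u ∈ w, α < (C.P u.1).1 ∧ (C.Q u.1).1 < β

/-- `w` is a group path from `z` (left of the strip) to `z'` (right of the strip): a good list in
the strip whose first and last element are traversed from left to right, and which stays good
when the links from `z` and to `z'` are added -/
structure GPath (z z' : ℝ × ℝ) (w : List (ι × Bool)) : Prop where
  good : C.Good w
  ne : w ≠ []
  left : ∀ t ∈ w, z.1 < (C.P t.1).1
  right : ∀ t ∈ w, (C.Q t.1).1 < z'.1
  headSeg : ∀ a ∈ w.head?, a.2 = true ∧ ∀ t ∈ w, t ≠ a → Disjoint (segment ℝ z (C.st a)) (C.seg t.1)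
  headLink : ∀ a ∈ w.head?, ∀ u v, [u, v] <:+: w → Disjoint (segment ℝ z (C.st a)) (C.link u v)
  lastSeg : ∀ a ∈ w.getLast?, a.2 = true ∧
    ∀ t ∈ w, t ≠ a → Disjoint (segment ℝ (C.en a) z') (C.seg t.1)
  lastLink : ∀ a ∈ w.getLast?, ∀ u v, [u, v] <:+: w → Disjoint (segment ℝ (C.en a) z') (C.link u v)
  cross : ∀ a ∈ w.head?, ∀ b ∈ w.getLast?, Disjoint (segment ℝ z (C.st a)) (segment ℝ (C.en b) z')

end Cfg

end Pool.Agent.Lib.ALT
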