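/-
Project ALT: a combinatorial lemma on sequences of distinct reals.
-/
import Mathlib

set_option autoImplicit false

namespace Pool.Agent.Lib.ALT

/-- The pairs `(i, i + 1)`, `i ∈ I`, are disjoint and clear. -/
structure IsClear (s : ℕ) (v : ℕ → ℝ) (I : Finset ℕ) : Prop where
  lt : ∀ i ∈ I, i + 1 < s
  disj : ∀ i ∈ I, ∀ j ∈ I, i < j → i + 2 ≤ j
  asc : ∀ i ∈ I, v i < v (i + 1) → ∀ j ∈ I, ∀ e, (e = j ∨ e = j + 1) → e < i →
    v i < v e → v e < v (i + 1) → ∃ u, e < u ∧ u < i ∧ v (i + 1) < v u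
  desc : ∀ i ∈ I, v (i + 1) < v i → ∀ j ∈ I, ∀ e, (e = j ∨ e = j + 1) → i + 1 < e →
    v (i + 1) < v e → v e < v i → ∃ u, i + 1 < u ∧ u < e ∧ v i < v u

theorem IsClear.reverse {s : ℕ} {v : ℕ → ℝ} {I : Finset ℕ}
    (h : IsClear s (fun i => v (s - 1 - i)) I) :
    IsClear s v (I.image (fun i => s - 2 - i)) := by
  refine ⟨?_, ?_, ?_, ?_⟩
  · intro i' hi'
    obtain ⟨i, hi, rfl⟩ := Finset.mem_image.1 hi'
    have := h.lt i hi
    omega
  · intro i' hi' j' hj' hij
    obtain ⟨i, hi, rfl⟩ := Finset.mem_image.1 hi'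
    obtain ⟨j, hj, rfl⟩ := Finset.mem_image.1 hj'
    have h1 := h.lt i hi
    have h2 := h.lt j hj
    have h3 := h.disj j hj i hi (by omega)
    omega
  · intro i' hi' hv j' hj' e he hei h3 h4
    obtain ⟨i, hi, rfl⟩ := Finset.mem_image.1 hi'
    obtain ⟨j, hj, rfl⟩ := Finset.mem_image.1 hj'
    have h1 := h.lt i hi
    have h2 := h.lt j hj
    have e1 : s - 1 - (i + 1) = s - 2 - i := by omega
    have e2 : s - 1 - i = s - 2 - i + 1 := by omega
    have e3 : s - 1 - (s - 1 - e) = e := by omega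
    obtain ⟨u, hu1, hu2, hu3⟩ := h.desc i hi (by simp only [e1, e2]; exact hv) j hj (s - 1 - e)
      (by omega) (by omega) (by simp only [e1, e3]; exact h3) (by simp only [e2, e3]; exact h4)
    refine ⟨s - 1 - u, by omega, by omega, ?_⟩
    simp only [e2] at hu3
    exact hu3
  · intro i' hi' hv j' hj' e he hei h3 h4
    obtain ⟨i, hi, rfl⟩ := Finset.mem_image.1 hi'
    obtain ⟨j, hj, rfl⟩ := Finset.mem_image.1 hj'
    have h1 := h.lt i hi
    have h2 := h.lt j hj
    have e1 : s - 1 - (i + 1) = s - 2 - i := by omega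
    have e2 : s - 1 - i = s - 2 - i + 1 := by omega
    have e3 : s - 1 - (s - 1 - e) = e := by omega
    obtain ⟨u, hu1, hu2, hu3⟩ := h.asc i hi (by simp only [e1, e2]; exact hv) j hj (s - 1 - e)
      (by omega) (by omega) (by simp only [e2, e3]; exact h3) (by simp only [e1, e3]; exact h4)
    refine ⟨s - 1 - u, by omega, by omega, ?_⟩
    simp only [e1] at hu3
    exact hu3

theorem IsClear.card_reverse {s : ℕ} {v : ℕ → ℝ} {I : Finset ℕ} (h : IsClear s v I) :
    (I.image (fun i => s - 2 - i)).card = I.card := by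
  apply Finset.card_image_of_injOn
  intro i hi j hj hij
  have h1 := h.lt i hi
  have h2 := h.lt j hj
  simp only at hij
  omega

/-- the number of valleys -/
noncomputable def nVal (s : ℕ) (v : ℕ → ℝ) : ℕ :=
  ((Finset.range (s - 2)).filter (fun j => v (j + 1) < v j ∧ ¬ v (j + 2) < v (j + 1))).card

/-- the number of descents -/
noncomputable def nDesc (s : ℕ) (v : ℕ → ℝ) : ℕ :=
  ((Finset.range (s - 1)).filter (fun j => v (j + 1) < v j)).card

theorem exists_clear_valley (s : ℕ) (v : ℕ → ℝ)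
    (hv : ∀ i < s, ∀ j < s, i ≠ j → v i ≠ v j) :
    ∃ I, IsClear s v I ∧ nVal s v ≤ 3 * I.card := by
  classical
  obtain ⟨A, hA⟩ : ∃ A, A = (Finset.range (s - 2)).filter
    (fun j => v (j + 1) < v j ∧ ¬ v (j + 2) < v (j + 1)) := ⟨_, rfl⟩
  have hmem : ∀ j ∈ A, j + 2 < s ∧ v (j + 1) < v j ∧ v (j + 1) < v (j + 2) := by
    intro j hj
    rw [hA, Finset.mem_filter, Finset.mem_range] at hj
    refine ⟨by omega, hj.2.1, ?_⟩
    have := hv (j + 1) (by omega) (j + 2) (by omega) (by omega)
    exact lt_of_le_of_ne (not_lt.1 hj.2.2) this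
  obtain ⟨r, hr⟩ : ∃ r, A.card ≤ 3 * (A.filter (fun j => j % 3 = r)).card := by
    by_contra hcon
    push Not at hcon
    have h0 := hcon 0
    have h1 := hcon 1
    have h2 := hcon 2
    have h3 : A.card = ∑ r ∈ Finset.range 3, (A.filter (fun j => j % 3 = r)).card := by
      refine Finset.card_eq_sum_card_fiberwise (fun j _ => ?_)
      exact Finset.mem_coe.2 (Finset.mem_range.2 (Nat.mod_lt j (by norm_num)))
    rw [Finset.sum_range_succ, Finset.sum_range_succ, Finset.sum_range_one] at h3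
    omega
  obtain ⟨φ, hφ⟩ : ∃ φ : ℕ → ℕ, φ = fun j => if v j < v (j + 2) then j else j + 1 := ⟨_, rfl⟩
  have hφ1 : ∀ j, j ≤ φ j ∧ φ j ≤ j + 1 := by
    intro j
    rw [hφ]
    simp only
    split_ifs <;> omega
  have hAr : ∀ j ∈ A.filter (fun j => j % 3 = r), ∀ j' ∈ A.filter (fun j => j % 3 = r),
      j < j' → j + 3 ≤ j' := by
    intro j hj j' hj' hlt
    have h1 := (Finset.mem_filter.1 hj).2
    have h2 := (Finset.mem_filter.1 hj').2
    omega
  have hinj : Set.InjOn φ (A.filter (fun j => j % 3 = r)) := by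
    intro j hj j' hj' hjj
    have h1 := hφ1 j
    have h2 := hφ1 j'
    rcases lt_trichotomy j j' with h | h | h
    · have := hAr j hj j' hj' h
      omega
    · exact h
    · have := hAr j' hj' j hj h
      omega
  refine ⟨(A.filter (fun j => j % 3 = r)).image φ, ⟨?_, ?_, ?_, ?_⟩, ?_⟩
  · intro i hi
    obtain ⟨j, hj, rfl⟩ := Finset.mem_image.1 hi
    have h1 := hφ1 j
    have h2 := hmem j (Finset.mem_filter.1 hj).1
    omega
  · intro i hi i' hi' hlt
    obtain ⟨j, hj, rfl⟩ := Finset.mem_image.1 hi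
    obtain ⟨j', hj', rfl⟩ := Finset.mem_image.1 hi'
    have h1 := hφ1 j
    have h2 := hφ1 j'
    rcases lt_trichotomy j j' with h | h | h
    · have := hAr j hj j' hj' h
      omega
    · subst h
      omega
    · have := hAr j' hj' j hj h
      omega
  · intro i hi hasc _ _ e _ hei h3 h4
    obtain ⟨j, hj, rfl⟩ := Finset.mem_image.1 hi
    obtain ⟨h1, h2, h2'⟩ := hmem j (Finset.mem_filter.1 hj).1
    by_cases hc : v j < v (j + 2)
    · have hφj : φ j = j := by rw [hφ]; simp only; rw [if_pos hc]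
      rw [hφj] at hasc
      exact absurd hasc (not_lt.2 h2.le)
    · have hφj : φ j = j + 1 := by rw [hφ]; simp only; rw [if_neg hc]
      rw [hφj] at h3 h4 hei ⊢
      have hne := hv j (by omega) (j + 2) (by omega) (by omega)
      have hlt : v (j + 2) < v j := lt_of_le_of_ne (not_lt.1 hc) hne.symm
      have hej : e ≠ j := by
        rintro rfl
        exact lt_irrefl _ (h4.trans hlt)
      exact ⟨j, by omega, by omega, hlt⟩
  · intro i hi hdesc _ _ e _ hei h3 h4
    obtain ⟨j, hj, rfl⟩ := Finset.mem_image.1 hi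
    obtain ⟨h1, h2, h2'⟩ := hmem j (Finset.mem_filter.1 hj).1
    by_cases hc : v j < v (j + 2)
    · have hφj : φ j = j := by rw [hφ]; simp only; rw [if_pos hc]
      rw [hφj] at h3 h4 hei ⊢
      have hej : e ≠ j + 2 := by
        rintro rfl
        exact lt_irrefl _ (h4.trans hc)
      exact ⟨j + 2, by omega, by omega, hc⟩
    · have hφj : φ j = j + 1 := by rw [hφ]; simp only; rw [if_neg hc]
      rw [hφj] at hdesc
      exact absurd hdesc (not_lt.2 h2'.le)
  · rw [Finset.card_image_of_injOn hinj]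
    unfold nVal
    rw [← hA]
    exact hr

theorem peaks_le (D : ℕ → Prop) [DecidablePred D] (m : ℕ) :
    ((Finset.range m).filter (fun j => ¬ D j ∧ D (j + 1))).card ≤
      ((Finset.range m).filter (fun j => D j ∧ ¬ D (j + 1))).card + (if D m then 1 else 0) := by
  induction m with
  | zero => simp
  | succ m ih =>
    rw [Finset.range_add_one, Finset.filter_insert, Finset.filter_insert]
    by_cases h1 : D m <;> by_cases h2 : D (m + 1)
    · rw [if_pos h1] at ih
      rw [if_neg (by simp [h1]), if_neg (by simp [h2]), if_pos h2]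
      exact ih
    · rw [if_pos h1] at ih
      rw [if_neg (by simp [h1]), if_pos ⟨h1, h2⟩, if_neg h2, Finset.card_insert_of_notMem]
      · omega
      · simp
    · rw [if_neg h1] at ih
      rw [if_pos ⟨h1, h2⟩, if_neg (by simp [h1]), if_pos h2, Finset.card_insert_of_notMem]
      · omega
      · simp
    · rw [if_neg h1] at ih
      rw [if_neg (by simp [h2]), if_neg (by simp [h1]), if_neg h2]
      exact ih

theorem exists_clear_desc (s : ℕ) (v : ℕ → ℝ)
    (hv : ∀ i < s, ∀ j < s, i ≠ j → v i ≠ v j) :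
    ∃ I, IsClear s v I ∧ nDesc s v ≤ 2 * I.card + nVal s v + 1 := by
  classical
  obtain ⟨A, hA⟩ : ∃ A, A = (Finset.range (s - 1)).filter (fun j => v (j + 1) < v j) := ⟨_, rfl⟩
  have hmem : ∀ j, j ∈ A ↔ j + 1 < s ∧ v (j + 1) < v j := by
    intro j
    rw [hA, Finset.mem_filter, Finset.mem_range]
    constructor
    · rintro ⟨h1, h2⟩; exact ⟨by omega, h2⟩
    · rintro ⟨h1, h2⟩; exact ⟨by omega, h2⟩
  obtain ⟨bad, hbad⟩ : ∃ bad : ℕ → Prop, bad = fun i => ∃ e, i + 1 < e ∧ e < s ∧
    (e ∈ A ∨ e - 1 ∈ A) ∧ v (i + 1) < v e ∧ v e < v i ∧ ∀ u, i + 1 < u → u < e → ¬ v i < v u :=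
    ⟨_, rfl⟩
  have hz : ∀ i ∈ A.filter bad, ∃ z, i + 1 < z ∧ z + 1 < s ∧ v (z - 1) < v z ∧ v (z + 1) < v z ∧
      v z < v i ∧ ∀ y, i + 1 ≤ y → y ≤ z → v y ≤ v z := by
    intro i hi
    obtain ⟨hi1, hi2⟩ := Finset.mem_filter.1 hi
    obtain ⟨hi3, hi4⟩ := (hmem i).1 hi1
    rw [hbad] at hi2
    obtain ⟨e, he1, he2, he3, he4, he5, he6⟩ := hi2
    obtain ⟨z, hz1, hz2⟩ := Finset.exists_max_image (Finset.Icc (i + 1) e) v
      ⟨e, Finset.mem_Icc.2 ⟨he1.le, le_rfl⟩⟩
    rw [Finset.mem_Icc] at hz1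
    have hzmax : ∀ y, i + 1 ≤ y → y ≤ e → v y ≤ v z := fun y h1 h2 =>
      hz2 y (Finset.mem_Icc.2 ⟨h1, h2⟩)
    have hze := hzmax e he1.le le_rfl
    have hzi : z ≠ i + 1 := by
      rintro rfl
      exact absurd hze (not_le.2 he4)
    have hz3 : v (z - 1) < v z :=
      lt_of_le_of_ne (hzmax (z - 1) (by omega) (by omega))
        (hv _ (by omega) _ (by omega) (by omega))
    have hz4 : z + 1 < s ∧ v (z + 1) < v z := by
      rcases lt_or_eq_of_le hz1.2 with h | h
      · refine ⟨by omega, lt_of_le_of_ne (hzmax (z + 1) (by omega) (by omega)) ?_⟩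
        exact hv _ (by omega) _ (by omega) (by omega)
      · subst h
        rcases he3 with h | h
        · exact (hmem z).1 h
        · exfalso
          have h2 := ((hmem _).1 h).2
          rw [Nat.sub_add_cancel (by omega)] at h2
          exact lt_irrefl _ (h2.trans hz3)
    have hz5 : v z < v i := by
      rcases lt_or_eq_of_le hz1.2 with h | h
      · refine lt_of_le_of_ne (not_lt.1 (he6 z (by omega) h)) ?_
        exact hv _ (by omega) _ (by omega) (by omega)
      · rw [h]; exact he5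
    exact ⟨z, by omega, hz4.1, hz3, hz4.2, hz5, fun y h1 h2 => hzmax y h1 (by omega)⟩
  have hbadcard : (A.filter bad).card ≤ nVal s v + 1 := by
    choose! f hf using hz
    have h1 : (A.filter bad).card ≤ ((Finset.range (s - 2)).filter
        (fun j => ¬ v (j + 1) < v j ∧ v (j + 2) < v (j + 1))).card := by
      refine Finset.card_le_card_of_injOn (fun i => f i - 1) ?_ ?_
      · intro i hi
        obtain ⟨h1, h2, h3, h4, h5, h6⟩ := hf i hi
        simp only [Finset.coe_filter, Finset.mem_range, Set.mem_ofPred_eq]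
        have e1 : f i - 1 + 1 = f i := by omega
        have e2 : f i - 1 + 2 = f i + 1 := by omega
        rw [e1, e2]
        exact ⟨by omega, not_lt.2 h3.le, h4⟩
      · intro i hi i' hi' hii
        obtain ⟨h1, h2, h3, h4, h5, h6⟩ := hf i hi
        obtain ⟨h1', h2', h3', h4', h5', h6'⟩ := hf i' hi'
        simp only at hii
        have hff : f i = f i' := by omega
        rcases lt_trichotomy i i' with h | h | h
        · exfalso
          have := h6 i' (by omega) (by omega)
          rw [hff] at this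
          exact absurd this (not_le.2 h5')
        · exact h
        · exfalso
          have := h6' i (by omega) (by omega)
          rw [← hff] at this
          exact absurd this (not_le.2 h5)
    have h2 := peaks_le (fun j => v (j + 1) < v j) (s - 2)
    refine h1.trans (h2.trans ?_)
    unfold nVal
    have h3 : (if v (s - 2 + 1) < v (s - 2) then 1 else 0) ≤ 1 := by split_ifs <;> omega
    exact Nat.add_le_add_left h3 _
  have hsum : (A.filter bad).card + (A.filter (fun i => ¬ bad i)).card = A.card :=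
    Finset.card_filter_add_card_filter_not bad
  obtain ⟨B, hB⟩ : ∃ B, B = A.filter (fun i => ¬ bad i) := ⟨_, rfl⟩
  obtain ⟨r, hr⟩ : ∃ r, B.card ≤ 2 * (B.filter (fun j => j % 2 = r)).card := by
    by_contra hcon
    push Not at hcon
    have h0 := hcon 0
    have h1 := hcon 1
    have h3 : B.card = ∑ r ∈ Finset.range 2, (B.filter (fun j => j % 2 = r)).card := by
      refine Finset.card_eq_sum_card_fiberwise (fun j _ => ?_)
      exact Finset.mem_coe.2 (Finset.mem_range.2 (Nat.mod_lt j (by norm_num)))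
    rw [Finset.sum_range_succ, Finset.sum_range_one] at h3
    omega
  have hI : ∀ i ∈ B.filter (fun j => j % 2 = r), i ∈ A ∧ ¬ bad i ∧ i % 2 = r := by
    intro i hi
    obtain ⟨h1, h2⟩ := Finset.mem_filter.1 hi
    rw [hB] at h1
    obtain ⟨h3, h4⟩ := Finset.mem_filter.1 h1
    exact ⟨h3, h4, h2⟩
  refine ⟨B.filter (fun j => j % 2 = r), ⟨?_, ?_, ?_, ?_⟩, ?_⟩
  · intro i hi
    exact ((hmem i).1 (hI i hi).1).1
  · intro i hi j hj hlt
    have h1 := (hI i hi).2.2
    have h2 := (hI j hj).2.2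
    omega
  · intro i hi hasc
    exact absurd hasc (not_lt.2 ((hmem i).1 (hI i hi).1).2.le)
  · intro i hi _ j hj e he hei h3 h4
    by_contra hcon
    apply (hI i hi).2.1
    rw [hbad]
    have hj1 := (hmem j).1 (hI j hj).1
    refine ⟨e, hei, ?_, ?_, h3, h4, ?_⟩
    · rcases he with rfl | rfl <;> omega
    · rcases he with rfl | rfl
      · exact Or.inl (hI _ hj).1
      · exact Or.inr (by simpa using (hI _ hj).1)
    · intro u hu1 hu2 hu3
      exact hcon ⟨u, hu1, hu2, hu3⟩
  · have h1 : nDesc s v = A.card := by rw [hA]; rfl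
    rw [h1]
    rw [← hB] at hsum
    omega

theorem nDesc_add (s : ℕ) (v : ℕ → ℝ) (hv : ∀ i < s, ∀ j < s, i ≠ j → v i ≠ v j) :
    s - 1 ≤ nDesc s v + nDesc s (fun i => v (s - 1 - i)) := by
  classical
  have h1 : nDesc s (fun i => v (s - 1 - i))
      = ((Finset.range (s - 1)).filter (fun j => v j < v (j + 1))).card := by
    unfold nDesc
    rw [Finset.card_filter, Finset.card_filter,
      ← Finset.sum_range_reflect (fun j => if v j < v (j + 1) then 1 else 0) (s - 1)]
    refine Finset.sum_congr rfl (fun j hj => ?_)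
    rw [Finset.mem_range] at hj
    have e1 : s - 1 - (j + 1) = s - 1 - 1 - j := by omega
    have e2 : s - 1 - j = s - 1 - 1 - j + 1 := by omega
    simp only [e1, e2]
  rw [h1]
  unfold nDesc
  have h2 : Finset.range (s - 1) ⊆ (Finset.range (s - 1)).filter (fun j => v (j + 1) < v j) ∪
      (Finset.range (s - 1)).filter (fun j => v j < v (j + 1)) := by
    intro j hj
    rw [Finset.mem_union, Finset.mem_filter, Finset.mem_filter]
    rw [Finset.mem_range] at hj
    rcases lt_or_gt_of_ne (hv j (by omega) (j + 1) (by omega) (by omega)) with h | h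
    · exact Or.inr ⟨Finset.mem_range.2 hj, h⟩
    · exact Or.inl ⟨Finset.mem_range.2 hj, h⟩
  have h3 := (Finset.card_le_card h2).trans (Finset.card_union_le _ _)
  rw [Finset.card_range] at h3
  exact h3

/-- In a sequence `v 0, ..., v (s - 1)` of distinct reals there are at least `(s - 6) / 24` disjoint
adjacent pairs `(i, i + 1)`, `i ∈ I`, each clear with respect to all elements of the chosen pairs:
in an ascending pair, an earlier chosen element with value between is separated from `i` by a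
later larger element than `v (i + 1)`, and similarly for descending pairs. -/
theorem clear_pairs (s : ℕ) (v : ℕ → ℝ) (hv : ∀ i < s, ∀ j < s, i ≠ j → v i ≠ v j) :
    ∃ I : Finset ℕ, (∀ i ∈ I, i + 1 < s) ∧ (∀ i ∈ I, ∀ j ∈ I, i < j → i + 2 ≤ j) ∧
      s ≤ 24 * I.card + 6 ∧
      (∀ i ∈ I, v i < v (i + 1) → ∀ j ∈ I, ∀ e, (e = j ∨ e = j + 1) → e < i →
        v i < v e → v e < v (i + 1) → ∃ u, e < u ∧ u < i ∧ v (i + 1) < v u) ∧
      (∀ i ∈ I, v (i + 1) < v i → ∀ j ∈ I, ∀ e, (e = j ∨ e = j + 1) → i + 1 < e →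
        v (i + 1) < v e → v e < v i → ∃ u, i + 1 < u ∧ u < e ∧ v i < v u) := by
  have key : ∃ I, IsClear s v I ∧ s ≤ 24 * I.card + 6 := by
    obtain ⟨v', hv'⟩ : ∃ v' : ℕ → ℝ, v' = fun i => v (s - 1 - i) := ⟨_, rfl⟩
    have hvd : ∀ i < s, ∀ j < s, i ≠ j → v' i ≠ v' j := by
      intro i hi j hj hij
      rw [hv']
      exact hv _ (by omega) _ (by omega) (by omega)
    have hadd := nDesc_add s v hv
    rw [← hv'] at hadd
    obtain ⟨I1, hI1, hc1⟩ := exists_clear_valley s v hv
    obtain ⟨I2, hI2, hc2⟩ := exists_clear_valley s v' hvd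
    obtain ⟨I3, hI3, hc3⟩ := exists_clear_desc s v hv
    obtain ⟨I4, hI4, hc4⟩ := exists_clear_desc s v' hvd
    by_cases h1 : s ≤ 24 * I1.card + 6
    · exact ⟨I1, hI1, h1⟩
    · by_cases h2 : s ≤ 24 * I2.card + 6
      · refine ⟨_, (hv' ▸ hI2).reverse, ?_⟩
        rw [hI2.card_reverse]
        exact h2
      · by_cases h3 : s ≤ 24 * I3.card + 6
        · exact ⟨I3, hI3, h3⟩
        · refine ⟨_, (hv' ▸ hI4).reverse, ?_⟩
          rw [hI4.card_reverse]
          omega
  obtain ⟨I, hI, hc⟩ := key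
  exact ⟨I, hI.lt, hI.disj, hc, hI.asc, hI.desc⟩

end Pool.Agent.Lib.ALT
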