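/-
Project ALT: Erdos-Szekeres for finite sets with two injective real functions.
-/
import Mathlib

set_option autoImplicit false

namespace Pool.Agent.Lib.ALT

section

variable {ι : Type*} (F : Finset ι) (y : ι → ℝ) (R : ι → ι → Prop)

/-- `S` is a chain for `R` in the order of `y`. -/
def IsCh (S : Finset ι) : Prop := ∀ a ∈ S, ∀ b ∈ S, y a < y b → R a b

open Classical in
/-- the chains in `F` -/
noncomputable def chs : Finset (Finset ι) := F.powerset.filter (fun S => IsCh y R S)

open Classical in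
/-- the chains in `F` with top element `i` -/
noncomputable def chsTop (i : ι) : Finset (Finset ι) :=
  (chs F y R).filter (fun S => i ∈ S ∧ ∀ a ∈ S, y a ≤ y i)

/-- the largest size of a chain with top element `i` -/
noncomputable def hgt (i : ι) : ℕ := (chsTop F y R i).sup Finset.card

variable {F y R}

theorem mem_chs {S : Finset ι} : S ∈ chs F y R ↔ S ⊆ F ∧ IsCh y R S := by
  unfold chs
  simp only [Finset.mem_filter, Finset.mem_powerset]

theorem mem_chsTop {S : Finset ι} {i : ι} :
    S ∈ chsTop F y R i ↔ (S ⊆ F ∧ IsCh y R S) ∧ i ∈ S ∧ ∀ a ∈ S, y a ≤ y i := by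
  unfold chsTop
  simp only [Finset.mem_filter, mem_chs]

theorem single_mem {i : ι} (hi : i ∈ F) : ({i} : Finset ι) ∈ chsTop F y R i := by
  rw [mem_chsTop]
  refine ⟨⟨Finset.singleton_subset_iff.2 hi, ?_⟩, Finset.mem_singleton_self i, ?_⟩
  · intro a ha b hb hab
    rw [Finset.mem_singleton] at ha hb
    subst ha
    subst hb
    exact absurd hab (lt_irrefl _)
  · intro a ha
    rw [Finset.mem_singleton] at ha
    rw [ha]

theorem one_le_hgt {y : ι → ℝ} {R : ι → ι → Prop} {i : ι} (hi : i ∈ F) : 1 ≤ hgt F y R i := by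
  have h := Finset.le_sup (f := Finset.card) (single_mem (y := y) (R := R) hi)
  rwa [Finset.card_singleton] at h

theorem hgt_le {i : ι} : hgt F y R i ≤ (chs F y R).sup Finset.card := by
  exact Finset.sup_mono (fun S hS => mem_chs.2 (mem_chsTop.1 hS).1)

theorem hgt_step [DecidableEq ι] (htr : ∀ a b c, R a b → R b c → R a c)
    (hy : ∀ i ∈ F, ∀ j ∈ F, i ≠ j → y i ≠ y j) {i j : ι} (hi : i ∈ F) (hj : j ∈ F)
    (hij : y i < y j) (hR : R i j) : hgt F y R i + 1 ≤ hgt F y R j := by
  obtain ⟨S, hS, hSc⟩ := Finset.exists_mem_eq_sup (chsTop F y R i) ⟨_, single_mem hi⟩ Finset.card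
  obtain ⟨⟨h1, h2⟩, h3, h4⟩ := mem_chsTop.1 hS
  have hjS : j ∉ S := fun h => absurd (h4 j h) (not_le.2 hij)
  have hmem : insert j S ∈ chsTop F y R j := by
    rw [mem_chsTop]
    refine ⟨⟨Finset.insert_subset hj h1, ?_⟩, Finset.mem_insert_self j S, ?_⟩
    · intro a ha b hb hab
      rw [Finset.mem_insert] at ha hb
      rcases ha with rfl | ha
      · rcases hb with rfl | hb
        · exact absurd hab (lt_irrefl _)
        · exact absurd (hab.trans_le (h4 b hb)) (not_lt.2 hij.le)
      · rcases hb with rfl | hb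
        · by_cases hai : a = i
          · rw [hai]; exact hR
          · exact htr a i b (h2 a ha i h3 (lt_of_le_of_ne (h4 a ha)
              (hy a (h1 ha) i hi hai))) hR
        · exact h2 a ha b hb hab
    · intro a ha
      rw [Finset.mem_insert] at ha
      rcases ha with rfl | ha
      · exact le_rfl
      · exact (h4 a ha).trans hij.le
  have h5 := Finset.le_sup (f := Finset.card) hmem
  rw [Finset.card_insert_of_notMem hjS] at h5
  unfold hgt
  rw [hSc]
  exact h5

end

theorem erdos_szekeres {ι : Type*} [DecidableEq ι] (F : Finset ι) (y s : ι → ℝ)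
    (hy : ∀ i ∈ F, ∀ j ∈ F, i ≠ j → y i ≠ y j) (hs : ∀ i ∈ F, ∀ j ∈ F, i ≠ j → s i ≠ s j) :
    ∃ S ⊆ F, F.card ≤ S.card ^ 2 ∧
      ((∀ i ∈ S, ∀ j ∈ S, y i < y j → s i < s j) ∨ (∀ i ∈ S, ∀ j ∈ S, y i < y j → s j < s i)) := by
  classical
  obtain ⟨R1, hR1⟩ : ∃ R1 : ι → ι → Prop, R1 = fun i j => s i < s j := ⟨_, rfl⟩
  obtain ⟨R2, hR2⟩ : ∃ R2 : ι → ι → Prop, R2 = fun i j => s j < s i := ⟨_, rfl⟩
  have ht1 : ∀ a b c, R1 a b → R1 b c → R1 a c := by
    rw [hR1]; intro a b c h1 h2; exact lt_trans h1 h2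
  have ht2 : ∀ a b c, R2 a b → R2 b c → R2 a c := by
    rw [hR2]; intro a b c h1 h2; exact lt_trans h2 h1
  have hne : ∀ R : ι → ι → Prop, (chs F y R).Nonempty := by
    intro R
    refine ⟨∅, mem_chs.2 ⟨Finset.empty_subset _, ?_⟩⟩
    intro a ha
    exact absurd ha (Finset.notMem_empty a)
  obtain ⟨S1, hS1, hc1⟩ := Finset.exists_mem_eq_sup (chs F y R1) (hne R1) Finset.card
  obtain ⟨S2, hS2, hc2⟩ := Finset.exists_mem_eq_sup (chs F y R2) (hne R2) Finset.card
  obtain ⟨m, hm⟩ : ∃ m, m = max S1.card S2.card := ⟨_, rfl⟩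
  have hcard : F.card ≤ m ^ 2 := by
    have h1 : F.card ≤ (Finset.Icc 1 m ×ˢ Finset.Icc 1 m).card := by
      refine Finset.card_le_card_of_injOn (fun i => (hgt F y R1 i, hgt F y R2 i)) ?_ ?_
      · intro i hi
        have h2 := one_le_hgt (y := y) (R := R1) hi
        have h3 := one_le_hgt (y := y) (R := R2) hi
        have h4 := hgt_le (F := F) (y := y) (R := R1) (i := i)
        have h5 := hgt_le (F := F) (y := y) (R := R2) (i := i)
        rw [hc1] at h4
        rw [hc2] at h5
        refine Finset.mem_coe.2 (Finset.mem_product.2 ⟨Finset.mem_Icc.2 ⟨h2, ?_⟩,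
          Finset.mem_Icc.2 ⟨h3, ?_⟩⟩)
        · rw [hm]; exact h4.trans (le_max_left _ _)
        · rw [hm]; exact h5.trans (le_max_right _ _)
      · intro i hi j hj hij
        simp only [Prod.mk.injEq] at hij
        by_contra hne'
        have key : ∀ i ∈ F, ∀ j ∈ F, i ≠ j → y i < y j → hgt F y R1 i = hgt F y R1 j →
            hgt F y R2 i = hgt F y R2 j → False := by
          intro i hi j hj hne hlt e1 e2
          rcases lt_or_gt_of_ne (hs i hi j hj hne) with h | h
          · have := hgt_step ht1 hy hi hj hlt (by rw [hR1]; exact h)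
            omega
          · have := hgt_step ht2 hy hi hj hlt (by rw [hR2]; exact h)
            omega
        rcases lt_or_gt_of_ne (hy i hi j hj hne') with h | h
        · exact key i hi j hj hne' h hij.1 hij.2
        · exact key j hj i hi (Ne.symm hne') h hij.1.symm hij.2.symm
    rw [Finset.card_product, Nat.card_Icc] at h1
    rw [sq]
    simpa using h1
  rcases le_total S1.card S2.card with h | h
  · obtain ⟨h1, h2⟩ := mem_chs.1 hS2
    refine ⟨S2, h1, ?_, Or.inr ?_⟩
    · rw [hm, max_eq_right h] at hcard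
      exact hcard
    · rw [hR2] at h2
      exact h2
  · obtain ⟨h1, h2⟩ := mem_chs.1 hS1
    refine ⟨S1, h1, ?_, Or.inl ?_⟩
    · rw [hm, max_eq_left h] at hcard
      exact hcard
    · rw [hR1] at h2
      exact h2

end Pool.Agent.Lib.ALT
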