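/-
Project ALT: adjacent elements of lists.
-/
import Mathlib

set_option autoImplicit false

namespace Pool.Agent.Lib.ALT

variable {α β : Type*}

theorem adj_nil {u v : α} : ¬ [u, v] <:+: ([] : List α) := by
  intro h
  have := h.length_le
  simp at this

theorem adj_singleton {u v a : α} : ¬ [u, v] <:+: [a] := by
  intro h
  have := h.length_le
  simp at this

theorem adj_cons {u v a : α} {w : List α} :
    [u, v] <:+: a :: w ↔ (u = a ∧ w.head? = some v) ∨ [u, v] <:+: w := by
  rw [List.infix_cons_iff]
  apply or_congr_left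
  rw [List.cons_prefix_cons]
  apply and_congr_right
  intro _
  cases w with
  | nil => simp
  | cons b w => simp [List.cons_prefix_cons, eq_comm]

theorem adj_append {u v : α} {w w' : List α} :
    [u, v] <:+: w ++ w' ↔ [u, v] <:+: w ∨ [u, v] <:+: w' ∨
      (w.getLast? = some u ∧ w'.head? = some v) := by
  induction w with
  | nil => simp
  | cons a w ih =>
    rw [List.cons_append, adj_cons, ih, adj_cons]
    cases w with
    | nil =>
      have : ¬ [u, v] <:+: ([] : List α) := adj_nil
      simp only [List.nil_append, List.head?_nil, List.getLast?_singleton, Option.some.injEq,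
        List.getLast?_nil]
      constructor
      · rintro (⟨rfl, h⟩ | h | h | h)
        · exact Or.inr (Or.inr ⟨rfl, h⟩)
        · exact absurd h this
        · exact Or.inr (Or.inl h)
        · simp at h
      · rintro ((h | h) | h | ⟨rfl, h⟩)
        · simp at h
        · exact absurd h this
        · exact Or.inr (Or.inr (Or.inl h))
        · exact Or.inl ⟨rfl, h⟩
    | cons b w =>
      simp only [List.cons_append, List.head?_cons, List.getLast?_cons_cons]
      tauto

theorem adj_reverse {u v : α} {w : List α} : [u, v] <:+: w.reverse ↔ [v, u] <:+: w := by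
  have : [u, v] = [v, u].reverse := rfl
  rw [this, List.reverse_infix]

theorem adj_map {f : α → β} {u v : β} {w : List α} :
    [u, v] <:+: w.map f ↔ ∃ a b, [a, b] <:+: w ∧ f a = u ∧ f b = v := by
  induction w with
  | nil => simp
  | cons a w ih =>
    rw [List.map_cons, adj_cons, ih]
    constructor
    · rintro (⟨rfl, h⟩ | ⟨c, d, h, h1, h2⟩)
      · cases w with
        | nil => simp at h
        | cons b w =>
          simp only [List.map_cons, List.head?_cons, Option.some.injEq] at h
          exact ⟨a, b, adj_cons.2 (Or.inl ⟨rfl, rfl⟩), rfl, h⟩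
      · exact ⟨c, d, adj_cons.2 (Or.inr h), h1, h2⟩
    · rintro ⟨c, d, h, h1, h2⟩
      rcases adj_cons.1 h with ⟨h3, h4⟩ | h5
      · left
        refine ⟨by rw [← h1, h3], ?_⟩
        rw [List.head?_map, h4, ← h2]; rfl
      · exact Or.inr ⟨c, d, h5, h1, h2⟩

theorem adj_mem_left {u v : α} {w : List α} (h : [u, v] <:+: w) : u ∈ w :=
  h.subset (by simp)

theorem adj_mem_right {u v : α} {w : List α} (h : [u, v] <:+: w) : v ∈ w :=
  h.subset (by simp)

theorem isChain_sub {R : α → α → Prop} {w w' : List α} (hw : w.IsChain R) (h : w' <:+: w) :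
    w'.IsChain R := by
  obtain ⟨s, t, rfl⟩ := h
  exact hw.left_of_append.right_of_append

/-- the relation of a chain holds for adjacent elements -/
theorem IsChain.adj {R : α → α → Prop} {w : List α} (hw : w.IsChain R) {u v : α}
    (h : [u, v] <:+: w) : R u v := by
  have := isChain_sub hw h
  simpa using this

theorem isChain_of_adj {R : α → α → Prop} {w : List α} (hw : ∀ u v, [u, v] <:+: w → R u v) :
    w.IsChain R := by
  induction w with
  | nil => exact List.isChain_nil
  | cons a w ih =>
    rw [List.isChain_cons]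
    exact ⟨fun v hv => hw a v (adj_cons.2 (Or.inl ⟨rfl, hv⟩)),
      ih (fun u v h => hw u v (adj_cons.2 (Or.inr h)))⟩

theorem adj_flatMap {l : List β} {f g : β → α} {u v : α} :
    [u, v] <:+: l.flatMap (fun i => [f i, g i]) ↔
      (∃ i ∈ l, u = f i ∧ v = g i) ∨ (∃ i j, [i, j] <:+: l ∧ u = g i ∧ v = f j) := by
  induction l with
  | nil => simp
  | cons a l ih =>
    rw [List.flatMap_cons, List.cons_append, List.cons_append, List.nil_append, adj_cons, adj_cons,
      ih]
    have hh : (l.flatMap (fun i => [f i, g i])).head? = l.head?.map f := by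
      cases l <;> simp
    rw [hh, List.head?_cons, Option.some.injEq]
    constructor
    · rintro (⟨rfl, rfl⟩ | ⟨rfl, h⟩ | ⟨i, hi, rfl, rfl⟩ | ⟨i, j, h, rfl, rfl⟩)
      · exact Or.inl ⟨a, List.mem_cons_self, rfl, rfl⟩
      · right
        rw [Option.map_eq_some_iff] at h
        obtain ⟨j, hj, rfl⟩ := h
        exact ⟨a, j, adj_cons.2 (Or.inl ⟨rfl, hj⟩), rfl, rfl⟩
      · exact Or.inl ⟨i, List.mem_cons_of_mem _ hi, rfl, rfl⟩
      · exact Or.inr ⟨i, j, adj_cons.2 (Or.inr h), rfl, rfl⟩
    · rintro (⟨i, hi, rfl, rfl⟩ | ⟨i, j, h, rfl, rfl⟩)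
      · rcases List.mem_cons.1 hi with rfl | hi
        · exact Or.inl ⟨rfl, rfl⟩
        · exact Or.inr (Or.inr (Or.inl ⟨i, hi, rfl, rfl⟩))
      · rcases adj_cons.1 h with ⟨rfl, h1⟩ | h1
        · exact Or.inr (Or.inl ⟨rfl, by rw [h1]; rfl⟩)
        · exact Or.inr (Or.inr (Or.inr ⟨i, j, h1, rfl, rfl⟩))

theorem length_flatMap_pair {l : List β} {f g : β → α} :
    (l.flatMap (fun i => [f i, g i])).length = 2 * l.length := by
  induction l with
  | nil => rfl
  | cons a l ih => simp [ih]; ring

/-- enumeration of a finite set by decreasing values of a function -/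
theorem exists_enum {ι : Type*} {S : Finset ι} (hS : S.Nonempty) (y : ι → ℝ)
    (hy : ∀ i ∈ S, ∀ j ∈ S, i ≠ j → y i ≠ y j) :
    ∃ e : ℕ → ι, (∀ i < S.card, e i ∈ S) ∧ (∀ i j, i < j → j < S.card → y (e j) < y (e i)) ∧
      (∀ t ∈ S, ∃ i < S.card, e i = t) := by
  classical
  obtain ⟨a0, ha0⟩ := hS
  set T := S.image (fun i => -y i) with hT
  have hinj : Set.InjOn (fun i => -y i) (S : Set ι) := by
    intro i hi j hj hij
    by_contra h
    exact hy i hi j hj h (neg_injective hij)
  have hc : T.card = S.card := Finset.card_image_of_injOn hinj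
  have hmem : ∀ k : Fin S.card, ∃ i ∈ S, -y i = T.orderEmbOfFin hc k := by
    intro k
    exact Finset.mem_image.1 (Finset.orderEmbOfFin_mem T hc k)
  choose e he1 he2 using hmem
  refine ⟨fun k => if h : k < S.card then e ⟨k, h⟩ else a0, ?_, ?_, ?_⟩
  · intro i hi
    simp only [hi, dif_pos]
    exact he1 _
  · intro i j hij hj
    simp only [hj, hij.trans hj, dif_pos]
    have h1 := he2 ⟨i, hij.trans hj⟩
    have h2 := he2 ⟨j, hj⟩
    have h3 : T.orderEmbOfFin hc ⟨i, hij.trans hj⟩ < T.orderEmbOfFin hc ⟨j, hj⟩ := by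
      rw [OrderEmbedding.lt_iff_lt]; exact hij
    linarith
  · intro t ht
    have : -y t ∈ Set.range (T.orderEmbOfFin hc) := by
      rw [Finset.range_orderEmbOfFin]
      exact Finset.mem_coe.2 (Finset.mem_image_of_mem _ ht)
    obtain ⟨k, hk⟩ := this
    refine ⟨k, k.2, ?_⟩
    simp only [k.2, dif_pos]
    exact hinj (he1 _) ht ((he2 _).trans hk)

/-- in a list without duplicates the successor is determined -/
theorem adj_right_unique {u v v' : α} {w : List α} (hw : w.Nodup) (h : [u, v] <:+: w)
    (h' : [u, v'] <:+: w) : v = v' := by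
  induction w with
  | nil => exact absurd h adj_nil
  | cons a w ih =>
    rw [List.nodup_cons] at hw
    rcases adj_cons.1 h with ⟨rfl, h1⟩ | h1 <;> rcases adj_cons.1 h' with ⟨h2, h3⟩ | h3
    · rw [h1] at h3; exact Option.some.inj h3
    · exact absurd (adj_mem_left h3) hw.1
    · rw [h2] at h1; exact absurd (adj_mem_left h1) hw.1
    · exact ih hw.2 h1 h3

theorem adj_left_unique {u u' v : α} {w : List α} (hw : w.Nodup) (h : [u, v] <:+: w)
    (h' : [u', v] <:+: w) : u = u' := by
  have h1 := adj_reverse.2 h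
  have h2 := adj_reverse.2 h'
  exact adj_right_unique (List.nodup_reverse.2 hw) h1 h2

theorem adj_ne {u v : α} {w : List α} (hw : w.Nodup) (h : [u, v] <:+: w) : u ≠ v := by
  have := hw.sublist h.sublist
  simpa using this

end Pool.Agent.Lib.ALT
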