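/-
Project ALT: alternating paths among disjoint segments.
One sided data: segments starting on a common line and going to one side of it.
-/
import Mathlib

set_option autoImplicit false

noncomputable section

namespace Pool.Agent.Lib.ALT

/-- One sided data: segment `i` is the graph of `x ↦ y i + s i * x` over `[0, E i]`. -/
structure Side (ι : Type*) where
  y : ι → ℝ
  s : ι → ℝ
  E : ι → ℝ

namespace Side

variable {ι : Type*} (S : Side ι)

/-- height of the line of `i` -/
def h (i : ι) (x : ℝ) : ℝ := S.y i + S.s i * x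

/-- height of the end point of `i` -/
def e (i : ι) : ℝ := S.h i (S.E i)

/-- height of the link between the end points of `i` and `j` -/
def lk (i j : ι) (x : ℝ) : ℝ :=
  S.e i + (S.e j - S.e i) / (S.E j - S.E i) * (x - S.E i)

/-- the link `i j` does not touch the segment `t` -/
def NT (i j t : ι) : Prop :=
  ∀ x, min (S.E i) (S.E j) ≤ x → x ≤ max (S.E i) (S.E j) → x ≤ S.E t → S.lk i j x ≠ S.h t x

/-- the segments of `F` are pairwise disjoint on this side, with different extents -/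
structure Ok (F : Set ι) : Prop where
  pos : ∀ i ∈ F, 0 < S.E i
  inj : ∀ i ∈ F, ∀ j ∈ F, i ≠ j → S.E i ≠ S.E j
  dis : ∀ i ∈ F, ∀ j ∈ F, i ≠ j → ∀ x, 0 ≤ x → x ≤ S.E i → x ≤ S.E j → S.h i x ≠ S.h j x

theorem Ok.mono {S : Side ι} {F G : Set ι} (h : S.Ok F) (hG : G ⊆ F) : S.Ok G :=
  ⟨fun i hi => h.pos i (hG hi), fun i hi j hj => h.inj i (hG hi) j (hG hj),
    fun i hi j hj => h.dis i (hG hi) j (hG hj)⟩

theorem lk_left (i j : ι) : S.lk i j (S.E i) = S.e i := by simp [lk]

theorem lk_right {i j : ι} (h : S.E i ≠ S.E j) : S.lk i j (S.E j) = S.e j := by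
  have : S.E j - S.E i ≠ 0 := sub_ne_zero.2 h.symm
  unfold lk; field_simp; ring

theorem lk_comm {i j : ι} (h : S.E i ≠ S.E j) (x : ℝ) : S.lk i j x = S.lk j i x := by
  have h1 : S.E j - S.E i ≠ 0 := sub_ne_zero.2 h.symm
  have h2 : S.E i - S.E j ≠ 0 := sub_ne_zero.2 h
  unfold lk; field_simp; ring

theorem NT.symm {S : Side ι} {i j t : ι} (hE : S.E i ≠ S.E j) (h : S.NT i j t) : S.NT j i t := by
  intro x h1 h2 h3
  rw [← S.lk_comm hE]
  exact h x (by rwa [min_comm]) (by rwa [max_comm]) h3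

/-- an affine function that does not vanish on `[a, b]` keeps its sign -/
theorem affine_pos {u v a b : ℝ} (hab : a ≤ b) (ha : 0 < u + v * a)
    (hne : ∀ x, a ≤ x → x ≤ b → u + v * x ≠ 0) : 0 < u + v * b := by
  by_contra hb
  push Not at hb
  have hc : ContinuousOn (fun x => u + v * x) (Set.Icc a b) := by fun_prop
  have := intermediate_value_Icc' hab hc
  obtain ⟨x, hx, hx0⟩ := this ⟨hb, ha.le⟩
  exact hne x hx.1 hx.2 hx0

/-- stack order: if `j` is below `i` on the line it stays below -/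
theorem Ok.lt {S : Side ι} {F : Set ι} (hS : S.Ok F) {i j : ι} (hi : i ∈ F) (hj : j ∈ F)
    (hij : S.y j < S.y i) {x : ℝ} (h0 : 0 ≤ x) (h1 : x ≤ S.E i) (h2 : x ≤ S.E j) :
    S.h j x < S.h i x := by
  have hne : i ≠ j := fun h => by rw [h] at hij; exact lt_irrefl _ hij
  have := affine_pos (u := S.y i - S.y j) (v := S.s i - S.s j) h0 (by linarith)
    (fun z hz1 hz2 hz => hS.dis i hi j hj hne z hz1 (hz2.trans h1) (hz2.trans h2) (by
      unfold h; linarith))
  unfold h; linarith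


/-! ### Links as affine functions -/

theorem lk_affine (i j : ι) (x : ℝ) :
    S.lk i j x = (S.e i - (S.e j - S.e i) / (S.E j - S.E i) * S.E i) +
      (S.e j - S.e i) / (S.E j - S.E i) * x := by
  unfold lk; ring

/-- if both end points of the link are above the line of `t`, so is the link -/
theorem lk_gt_of {i j : ι} (hE : S.E i < S.E j) {p q : ℝ} {x : ℝ} (h1 : S.E i ≤ x)
    (h2 : x ≤ S.E j) (hi : p + q * S.E i < S.e i) (hj : p + q * S.E j < S.e j) :
    p + q * x < S.lk i j x := by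
  have hd : 0 < S.E j - S.E i := sub_pos.2 hE
  unfold lk
  rw [div_mul_eq_mul_div, ← sub_pos, ← mul_pos_iff_of_pos_right hd]
  have : (S.e i + (S.e j - S.e i) * (x - S.E i) / (S.E j - S.E i) - (p + q * x)) *
      (S.E j - S.E i) = (S.e i - (p + q * S.E i)) * (S.E j - x) +
        (S.e j - (p + q * S.E j)) * (x - S.E i) := by
    field_simp; ring
  rw [this]
  rcases h2.lt_or_eq with h2 | h2
  · have := mul_pos (sub_pos.2 hi) (sub_pos.2 h2)
    have := mul_nonneg (sub_pos.2 hj).le (sub_nonneg.2 h1)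
    linarith
  · subst h2
    have := mul_pos (sub_pos.2 hj) (sub_pos.2 hE)
    rw [sub_self, mul_zero, zero_add]
    exact this

/-- reflection in the horizontal axis -/
def flip : Side ι := ⟨fun i => -S.y i, fun i => -S.s i, S.E⟩

@[simp] theorem flip_E : S.flip.E = S.E := rfl
@[simp] theorem flip_y (i : ι) : S.flip.y i = -S.y i := rfl
@[simp] theorem flip_s (i : ι) : S.flip.s i = -S.s i := rfl

@[simp] theorem flip_h (i : ι) (x : ℝ) : S.flip.h i x = -S.h i x := by
  simp only [h, flip_y, flip_s]; ring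

@[simp] theorem flip_e (i : ι) : S.flip.e i = -S.e i := by simp [e]

@[simp] theorem flip_lk (i j : ι) (x : ℝ) : S.flip.lk i j x = -S.lk i j x := by
  simp only [lk, flip_e, flip_E]; ring

@[simp] theorem flip_NT (i j t : ι) : S.flip.NT i j t ↔ S.NT i j t := by
  unfold NT
  simp only [flip_E, flip_lk, flip_h, ne_eq, neg_inj]

theorem flip_Ok {F : Set ι} (hS : S.Ok F) : S.flip.Ok F :=
  ⟨fun i hi => hS.pos i hi, fun i hi j hj => hS.inj i hi j hj, fun i hi j hj hij x h0 h1 h2 => by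
    rw [flip_h, flip_h]; exact fun h => hS.dis i hi j hj hij x h0 h1 h2 (neg_injective h)⟩

variable {S} {F : Set ι} (hS : S.Ok F)
include hS

omit hS in
/-- both end points above the line of `t` -/
theorem NT_of_above {i j t : ι} (hij : S.E i ≠ S.E j)
    (h1 : S.h t (S.E i) < S.e i) (h2 : S.h t (S.E j) < S.e j) : S.NT i j t := by
  intro x hx1 hx2 _
  rcases lt_or_gt_of_ne hij with h | h
  · rw [min_eq_left h.le] at hx1
    rw [max_eq_right h.le] at hx2
    exact (S.lk_gt_of h (p := S.y t) (q := S.s t) hx1 hx2 h1 h2).ne'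
  · rw [min_eq_right h.le] at hx1
    rw [max_eq_left h.le] at hx2
    rw [S.lk_comm hij]
    exact (S.lk_gt_of h (p := S.y t) (q := S.s t) hx1 hx2 h2 h1).ne'

/-- `t` below both `i` and `j`, `i` above `j`: sufficient conditions for the link `i j` not to
touch `t` -/
theorem Ok.NT_below {i j t : ι} (hi : i ∈ F) (hj : j ∈ F) (ht : t ∈ F)
    (hji : S.y j < S.y i) (htj : S.y t < S.y j)
    (h : S.E i < S.E j ∨ S.E t < S.E j ∨ S.E i < S.E t ∨ S.h t (S.E i) < S.h i (S.E i)) :
    S.NT i j t := by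
  have hne : i ≠ j := fun h => by rw [h] at hji; exact lt_irrefl _ hji
  have hE := hS.inj i hi j hj hne
  have hpi := hS.pos i hi
  have hpj := hS.pos j hj
  rcases lt_or_gt_of_ne hE with hlt | hlt
  · -- the lower one is longer
    intro x hx1 hx2 hx3
    rw [min_eq_left hlt.le] at hx1
    rw [max_eq_right hlt.le] at hx2
    have h0 : 0 ≤ x := hpi.le.trans hx1
    have h3 := hS.lt hj ht htj h0 hx2 hx3
    have h4 : S.h j x ≤ S.lk i j x := by
      have h5 := hS.lt hi hj hji hpi.le le_rfl hlt.le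
      have hd : 0 < S.E j - S.E i := sub_pos.2 hlt
      rw [← sub_nonneg, ← mul_nonneg_iff_of_pos_right hd]
      have : (S.lk i j x - S.h j x) * (S.E j - S.E i) = (S.h i (S.E i) - S.h j (S.E i)) *
          (S.E j - x) := by
        simp only [lk, e, Side.h]; field_simp; ring
      rw [this]
      exact mul_nonneg (sub_pos.2 h5).le (sub_nonneg.2 hx2)
    exact (h3.trans_le h4).ne'
  · -- the upper one is longer
    by_cases htj' : S.E t < S.E j
    · intro x hx1 hx2 hx3
      rw [min_eq_right hlt.le] at hx1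
      exact absurd (hx1.trans hx3) (not_le.2 htj')
    push Not at htj'
    refine NT_of_above hE ?_ ?_
    · rcases h with h | h | h | h
      · exact absurd h (not_lt.2 hlt.le)
      · exact absurd h (not_lt.2 htj')
      · exact hS.lt hi ht (htj.trans hji) hpi.le le_rfl h.le
      · exact h
    · exact hS.lt hj ht htj hpj.le le_rfl htj'

/-- as `NT_below`, with a long segment `u` between `t` and `j` as a separator -/
theorem Ok.NT_below_sep {i j t u : ι} (hi : i ∈ F) (hj : j ∈ F) (ht : t ∈ F) (hu : u ∈ F)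
    (hji : S.y j < S.y i) (huj : S.y u < S.y j) (htu : S.y t < S.y u)
    (hui : S.E i < S.E u) : S.NT i j t := by
  have hne : i ≠ j := fun h => by rw [h] at hji; exact lt_irrefl _ hji
  have hE := hS.inj i hi j hj hne
  have hpi := hS.pos i hi
  have hpj := hS.pos j hj
  rcases lt_or_gt_of_ne hE with hlt | hlt
  · exact hS.NT_below hi hj ht hji (htu.trans huj) (Or.inl hlt)
  · intro x hx1 hx2 hx3
    rw [min_eq_right hlt.le] at hx1
    rw [max_eq_left hlt.le] at hx2
    have h0 : 0 ≤ x := hpj.le.trans hx1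
    have h3 := hS.lt hu ht htu h0 (hx2.trans hui.le) hx3
    have h4 : S.h u x < S.lk i j x := by
      rw [S.lk_comm hE]
      exact S.lk_gt_of hlt (p := S.y u) (q := S.s u) hx1 hx2
        (hS.lt hj hu huj hpj.le le_rfl (hlt.trans hui).le)
        (hS.lt hi hu (huj.trans hji) hpi.le le_rfl hui.le)
    exact (h3.trans h4).ne'

/-- `t` above both `i` and `j`, `i` above `j` -/
theorem Ok.NT_above {i j t : ι} (hi : i ∈ F) (hj : j ∈ F) (ht : t ∈ F)
    (hji : S.y j < S.y i) (hti : S.y i < S.y t)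
    (h : S.E j < S.E i ∨ S.E t < S.E i ∨ S.E j < S.E t ∨ S.h j (S.E j) < S.h t (S.E j)) :
    S.NT i j t := by
  have hne : i ≠ j := fun h => by rw [h] at hji; exact lt_irrefl _ hji
  have hE := hS.inj i hi j hj hne
  have := (S.flip_Ok hS).NT_below (i := j) (j := i) (t := t) hj hi ht (by simpa) (by simpa)
    (by simpa using h)
  rw [flip_NT] at this
  exact this.symm hE.symm

theorem Ok.NT_above_sep {i j t u : ι} (hi : i ∈ F) (hj : j ∈ F) (ht : t ∈ F) (hu : u ∈ F)
    (hji : S.y j < S.y i) (hui : S.y i < S.y u) (htu : S.y u < S.y t)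
    (huj : S.E j < S.E u) : S.NT i j t := by
  have hne : i ≠ j := fun h => by rw [h] at hji; exact lt_irrefl _ hji
  have hE := hS.inj i hi j hj hne
  have := (S.flip_Ok hS).NT_below_sep (i := j) (j := i) (t := t) (u := u) hj hi ht hu (by simpa)
    (by simpa) (by simpa) (by simpa)
  rw [flip_NT] at this
  exact this.symm hE.symm

omit hS in
/-- an affine function positive at `p` and `q` is positive between -/
theorem affine_between {u v p q x : ℝ} (hp : 0 < u + v * p) (hq : 0 < u + v * q) (h1 : p ≤ x)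
    (h2 : x ≤ q) : 0 < u + v * x := by
  rcases le_total 0 v with hv | hv
  · nlinarith [mul_le_mul_of_nonneg_left h1 hv]
  · nlinarith [mul_le_mul_of_nonpos_left h2 hv]

/-- the height of the segment `a` minus the link `c d`, from `E c` on -/
theorem Ok.lk_lt_seg {a c d : ι} (ha : a ∈ F) (hc : c ∈ F) (hca : S.y c < S.y a)
    (hcd : S.E c < S.E d) (n : S.NT c d a) {x : ℝ} (h1 : S.E c ≤ x) (h2 : x ≤ S.E d)
    (h3 : x ≤ S.E a) : S.lk c d x < S.h a x := by
  have hpc := hS.pos c hc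
  have h0 := hS.lt ha hc hca hpc.le (h1.trans h3) le_rfl
  have key := affine_pos (u := S.y a - (S.e c - (S.e d - S.e c) / (S.E d - S.E c) * S.E c))
    (v := S.s a - (S.e d - S.e c) / (S.E d - S.E c)) h1 (by
      have := S.lk_affine c d (S.E c)
      rw [lk_left] at this
      simp only [e, h] at h0 this ⊢
      linarith) (fun z hz1 hz2 hz => by
      refine n z (by rw [min_eq_left hcd.le]; exact hz1)
        (by rw [max_eq_right hcd.le]; exact hz2.trans h2) (hz2.trans h3) ?_
      rw [S.lk_affine c d z]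
      simp only [h]
      linarith)
  rw [S.lk_affine c d x]
  simp only [h]
  linarith

/-- the link `a b` minus the height of the segment `c`, from `E a` on -/
theorem Ok.seg_lt_lk {a b c : ι} (ha : a ∈ F) (hc : c ∈ F) (hca : S.y c < S.y a)
    (hab : S.E a < S.E b) (n : S.NT a b c) {x : ℝ} (h1 : S.E a ≤ x) (h2 : x ≤ S.E b)
    (h3 : x ≤ S.E c) : S.h c x < S.lk a b x := by
  have := (S.flip_Ok hS).lk_lt_seg (a := c) (c := a) (d := b) hc ha (by simpa) (by simpa)
    (by simpa) (x := x) (by simpa) (by simpa) (by simpa)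
  simpa using this

theorem Ok.lk_lt_lk_aux {a b c d : ι} (ha : a ∈ F) (hb : b ∈ F) (hc : c ∈ F) (hd : d ∈ F)
    (hca : S.y c < S.y a) (hcb : S.y c < S.y b) (hda : S.y d < S.y a)
    (hab : S.E a < S.E b) (hcd : S.E c < S.E d)
    (n1 : S.NT a b c) (n2 : S.NT a b d) (n3 : S.NT c d a) (n4 : S.NT c d b) {x : ℝ}
    (h1 : S.E a ≤ x) (h2 : x ≤ S.E b) (h3 : S.E c ≤ x) (h4 : x ≤ S.E d) :
    S.lk c d x < S.lk a b x := by
  have key : ∀ z, (∃ p q : ℝ, p ≤ z ∧ z ≤ q ∧ S.lk c d p < S.lk a b p ∧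
      S.lk c d q < S.lk a b q) → S.lk c d z < S.lk a b z := by
    rintro z ⟨p, q, hp, hq, h5, h6⟩
    rw [S.lk_affine] at h5 h6 ⊢
    rw [S.lk_affine a b] at h5 h6 ⊢
    have := affine_between
      (u := (S.e a - (S.e b - S.e a) / (S.E b - S.E a) * S.E a) -
        (S.e c - (S.e d - S.e c) / (S.E d - S.E c) * S.E c))
      (v := (S.e b - S.e a) / (S.E b - S.E a) - (S.e d - S.e c) / (S.E d - S.E c))
      (p := p) (q := q) (x := z) (by linarith) (by linarith) hp hq
    linarith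
  have hp : ∃ p, p ≤ x ∧ S.lk c d p < S.lk a b p := by
    rcases le_total (S.E c) (S.E a) with h | h
    · refine ⟨S.E a, h1, ?_⟩
      rw [lk_left]
      exact hS.lk_lt_seg ha hc hca hcd n3 h (h1.trans h4) le_rfl
    · refine ⟨S.E c, h3, ?_⟩
      rw [lk_left]
      exact hS.seg_lt_lk ha hc hca hab n1 h (h3.trans h2) le_rfl
  have hq : ∃ q, x ≤ q ∧ S.lk c d q < S.lk a b q := by
    rcases le_total (S.E b) (S.E d) with h | h
    · refine ⟨S.E b, h2, ?_⟩
      rw [lk_right _ hab.ne]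
      exact hS.lk_lt_seg hb hc hcb hcd n4 (h3.trans h2) h le_rfl
    · refine ⟨S.E d, h4, ?_⟩
      rw [lk_right _ hcd.ne]
      exact hS.seg_lt_lk ha hd hda hab n2 (h1.trans h4) h le_rfl
  obtain ⟨p, hp1, hp2⟩ := hp
  obtain ⟨q, hq1, hq2⟩ := hq
  exact key x ⟨p, q, hp1, hq1, hp2, hq2⟩

/-- links that avoid the segments avoid each other -/
theorem Ok.lk_lt_lk {a b c d : ι} (ha : a ∈ F) (hb : b ∈ F) (hc : c ∈ F) (hd : d ∈ F)
    (hca : S.y c < S.y a) (hcb : S.y c < S.y b) (hda : S.y d < S.y a) (hdb : S.y d < S.y b)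
    (hab : a ≠ b) (hcd : c ≠ d)
    (n1 : S.NT a b c) (n2 : S.NT a b d) (n3 : S.NT c d a) (n4 : S.NT c d b) {x : ℝ}
    (h1 : min (S.E a) (S.E b) ≤ x) (h2 : x ≤ max (S.E a) (S.E b))
    (h3 : min (S.E c) (S.E d) ≤ x) (h4 : x ≤ max (S.E c) (S.E d)) :
    S.lk c d x < S.lk a b x := by
  have hEab := hS.inj a ha b hb hab
  have hEcd := hS.inj c hc d hd hcd
  rcases lt_or_gt_of_ne hEab with hab' | hab' <;> rcases lt_or_gt_of_ne hEcd with hcd' | hcd'
  · rw [min_eq_left hab'.le] at h1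
    rw [max_eq_right hab'.le] at h2
    rw [min_eq_left hcd'.le] at h3
    rw [max_eq_right hcd'.le] at h4
    exact hS.lk_lt_lk_aux ha hb hc hd hca hcb hda hab' hcd' n1 n2 n3 n4 h1 h2 h3 h4
  · rw [min_eq_left hab'.le] at h1
    rw [max_eq_right hab'.le] at h2
    rw [min_eq_right hcd'.le] at h3
    rw [max_eq_left hcd'.le] at h4
    rw [S.lk_comm hEcd]
    exact hS.lk_lt_lk_aux ha hb hd hc hda hdb hca hab' hcd' n2 n1 (n3.symm hEcd) (n4.symm hEcd)
      h1 h2 h3 h4
  · rw [min_eq_right hab'.le] at h1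
    rw [max_eq_left hab'.le] at h2
    rw [min_eq_left hcd'.le] at h3
    rw [max_eq_right hcd'.le] at h4
    rw [S.lk_comm hEab]
    exact hS.lk_lt_lk_aux hb ha hc hd hcb hca hdb hab' hcd' (n1.symm hEab) (n2.symm hEab) n4 n3
      h1 h2 h3 h4
  · rw [min_eq_right hab'.le] at h1
    rw [max_eq_left hab'.le] at h2
    rw [min_eq_right hcd'.le] at h3
    rw [max_eq_left hcd'.le] at h4
    rw [S.lk_comm hEab, S.lk_comm hEcd]
    exact hS.lk_lt_lk_aux hb ha hd hc hdb hda hcb hab' hcd' (n2.symm hEab) (n1.symm hEab)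
      (n4.symm hEcd) (n3.symm hEcd) h1 h2 h3 h4

omit hS in
/-- height of the link from the end point of `i` to the outer point `(X, Y)` -/
def att (S : Side ι) (i : ι) (X Y x : ℝ) : ℝ :=
  S.e i + (Y - S.e i) / (X - S.E i) * (x - S.E i)

omit hS in
theorem att_affine (i : ι) (X Y x : ℝ) :
    S.att i X Y x = (S.e i - (Y - S.e i) / (X - S.E i) * S.E i) +
      (Y - S.e i) / (X - S.E i) * x := by
  unfold att; ring

omit hS in
theorem att_left (i : ι) (X Y : ℝ) : S.att i X Y (S.E i) = S.e i := by simp [att]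

omit hS in
theorem att_right {i : ι} {X : ℝ} (Y : ℝ) (h : S.E i < X) : S.att i X Y X = Y := by
  have : X - S.E i ≠ 0 := (sub_pos.2 h).ne'
  unfold att; field_simp; ring

omit hS in
@[simp] theorem flip_att (i : ι) (X Y x : ℝ) : S.flip.att i X (-Y) x = -S.att i X Y x := by
  simp only [att, flip_e, flip_E]; ring

theorem Ok.att_lt_seg {i t : ι} (hi : i ∈ F) (ht : t ∈ F) {X Y : ℝ} (hX : S.E i < X)
    (hy : S.y i < S.y t) (hY : Y < S.h t X) (hit : S.E i ≤ S.E t) {x : ℝ} (h1 : S.E i ≤ x)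
    (h2 : x ≤ X) : S.att i X Y x < S.h t x := by
  have h3 := hS.lt ht hi hy (hS.pos i hi).le hit le_rfl
  have key := affine_between
    (u := S.y t - (S.e i - (Y - S.e i) / (X - S.E i) * S.E i))
    (v := S.s t - (Y - S.e i) / (X - S.E i)) (p := S.E i) (q := X) (x := x) (by
      have := S.att_affine i X Y (S.E i)
      rw [att_left] at this
      simp only [e, h] at h3 this ⊢
      linarith) (by
      have := S.att_affine i X Y X
      rw [att_right Y hX] at this
      simp only [h] at hY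
      linarith) h1 h2
  rw [S.att_affine i X Y x]
  simp only [h]
  linarith

/-- the link to the outer point does not touch the segment `t` -/
theorem Ok.att_ne_seg {i t : ι} (hi : i ∈ F) (ht : t ∈ F) {X Y : ℝ} (hX : S.E i < X)
    (hc : S.E t < S.E i ∨ (S.y i < S.y t ∧ Y < S.h t X) ∨ (S.y t < S.y i ∧ S.h t X < Y)) {x : ℝ}
    (h1 : S.E i ≤ x) (h2 : x ≤ X) (h3 : x ≤ S.E t) : S.att i X Y x ≠ S.h t x := by
  rcases hc with hc | ⟨hc, hY⟩ | ⟨hc, hY⟩
  · exact absurd (h1.trans h3) (not_le.2 hc)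
  · exact (hS.att_lt_seg hi ht hX hc hY (h1.trans h3) h1 h2).ne
  · have := (S.flip_Ok hS).att_lt_seg (i := i) (t := t) hi ht (X := X) (Y := -Y) (by simpa)
      (by simpa) (by simpa) (by simpa using h1.trans h3) (x := x) (by simpa) h2
    rw [flip_att, flip_h] at this
    exact (neg_lt_neg_iff.1 this).ne'

theorem Ok.att_lt_lk_aux {i a b : ι} (hi : i ∈ F) (ha : a ∈ F) (hb : b ∈ F) {X Y : ℝ}
    (hX : S.E i < X) (hab : S.E a < S.E b) (n : S.NT a b i)
    (hya : S.y i < S.y a) (hyb : S.y i < S.y b) (hYa : Y < S.h a X) (hYb : Y < S.h b X) {x : ℝ}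
    (hbX : S.E b < X)
    (h1 : S.E i ≤ x) (h3 : S.E a ≤ x) (h4 : x ≤ S.E b) :
    S.att i X Y x < S.lk a b x := by
  have key : ∀ z, (∃ p q : ℝ, p ≤ z ∧ z ≤ q ∧ S.att i X Y p < S.lk a b p ∧
      S.att i X Y q < S.lk a b q) → S.att i X Y z < S.lk a b z := by
    rintro z ⟨p, q, hp, hq, h5, h6⟩
    rw [S.att_affine] at h5 h6 ⊢
    rw [S.lk_affine a b] at h5 h6 ⊢
    have := affine_between
      (u := (S.e a - (S.e b - S.e a) / (S.E b - S.E a) * S.E a) -
        (S.e i - (Y - S.e i) / (X - S.E i) * S.E i))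
      (v := (S.e b - S.e a) / (S.E b - S.E a) - (Y - S.e i) / (X - S.E i))
      (p := p) (q := q) (x := z) (by linarith) (by linarith) hp hq
    linarith
  have hp : ∃ p, p ≤ x ∧ S.att i X Y p < S.lk a b p := by
    rcases le_total (S.E i) (S.E a) with h | h
    · refine ⟨S.E a, h3, ?_⟩
      rw [lk_left]
      exact hS.att_lt_seg hi ha hX hya hYa h h (hab.le.trans hbX.le)
    · refine ⟨S.E i, h1, ?_⟩
      rw [att_left]
      exact hS.seg_lt_lk ha hi hya hab n h (h1.trans h4) le_rfl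
  obtain ⟨p, hp1, hp2⟩ := hp
  refine key x ⟨p, S.E b, hp1, h4, hp2, ?_⟩
  rw [lk_right _ hab.ne]
  exact hS.att_lt_seg hi hb hX hyb hYb (h1.trans h4) (h1.trans h4) hbX.le

/-- the link to the outer point does not touch the link `a b` -/
theorem Ok.att_ne_lk {i a b : ι} (hi : i ∈ F) (ha : a ∈ F) (hb : b ∈ F) (hab : a ≠ b) {X Y : ℝ}
    (hX : S.E i < X) (haX : S.E a < X) (hbX : S.E b < X) (n : S.NT a b i)
    (hc : (S.E a < S.E i ∧ S.E b < S.E i) ∨
      ((S.y i < S.y a ∧ Y < S.h a X) ∧ (S.y i < S.y b ∧ Y < S.h b X)) ∨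
      ((S.y a < S.y i ∧ S.h a X < Y) ∧ (S.y b < S.y i ∧ S.h b X < Y))) {x : ℝ}
    (h1 : S.E i ≤ x) (h3 : min (S.E a) (S.E b) ≤ x) (h4 : x ≤ max (S.E a) (S.E b)) :
    S.att i X Y x ≠ S.lk a b x := by
  have hE := hS.inj a ha b hb hab
  have hlt : ∀ (S : Side ι), S.Ok F → S.E a ≠ S.E b → S.E i < X → S.E a < X → S.E b < X →
      S.NT a b i → ∀ Y,
      ((S.y i < S.y a ∧ Y < S.h a X) ∧ (S.y i < S.y b ∧ Y < S.h b X)) →
      S.E i ≤ x → min (S.E a) (S.E b) ≤ x → x ≤ max (S.E a) (S.E b) →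
      S.att i X Y x < S.lk a b x := by
    intro S hS hE hX haX hbX n Y hc h1 h3 h4
    rcases lt_or_gt_of_ne hE with h | h
    · rw [min_eq_left h.le] at h3
      rw [max_eq_right h.le] at h4
      exact hS.att_lt_lk_aux hi ha hb hX h n hc.1.1 hc.2.1 hc.1.2 hc.2.2 hbX h1 h3 h4
    · rw [min_eq_right h.le] at h3
      rw [max_eq_left h.le] at h4
      rw [S.lk_comm hE]
      exact hS.att_lt_lk_aux hi hb ha hX h (n.symm hE) hc.2.1 hc.1.1 hc.2.2 hc.1.2 haX h1 h3 h4
  rcases hc with ⟨hc1, hc2⟩ | hc | hc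
  · exact absurd (h1.trans h4) (not_le.2 (max_lt hc1 hc2))
  · exact (hlt S hS hE hX haX hbX n Y hc h1 h3 h4).ne
  · have := hlt S.flip (S.flip_Ok hS) (by simpa) (by simpa) (by simpa) (by simpa) (by simpa)
      (-Y) (by simpa using hc) (by simpa) h3 h4
    rw [flip_att, flip_lk] at this
    exact (neg_lt_neg_iff.1 this).ne'

end Side

end Pool.Agent.Lib.ALT
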