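/-
Project ALT: zigzags in a stabbed family.
-/
import Pool.Agent.Lib.ALT.Side
import Pool.Agent.Lib.ALT.Lists
import Pool.Agent.Lib.ALT.Clear
import Pool.Agent.Lib.ALT.ES

set_option autoImplicit false

noncomputable section

namespace Pool.Agent.Lib.ALT

theorem bnot_of_ne {a b : Bool} (h : a ≠ b) : a = !b := by
  revert h; revert a b; decide

/-- in a sorted list, an element is one of two adjacent elements, or before, or after both -/
theorem pairwise_adj {α : Type*} {R : α → α → Prop} {w : List α} (hw : w.Pairwise R) {u v t : α}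
    (h : [u, v] <:+: w) (ht : t ∈ w) :
    t = u ∨ t = v ∨ (R t u ∧ R t v) ∨ (R u t ∧ R v t) := by
  obtain ⟨l1, l2, rfl⟩ := h
  rw [List.pairwise_append, List.pairwise_append] at hw
  obtain ⟨⟨h1, h2, h3⟩, h4, h5⟩ := hw
  simp only [List.mem_append, List.mem_cons, List.not_mem_nil, or_false] at ht h3 h5
  rcases ht with (ht | rfl | rfl) | ht
  · exact Or.inr (Or.inr (Or.inl ⟨h3 t ht u (Or.inl rfl), h3 t ht v (Or.inr rfl)⟩))
  · exact Or.inl rfl
  · exact Or.inr (Or.inl rfl)
  · exact Or.inr (Or.inr (Or.inr ⟨h5 u (Or.inr (Or.inl rfl)) t ht,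
      h5 v (Or.inr (Or.inr rfl)) t ht⟩))

/-- a family stabbed by a line: height on the line, slope, extents to the right and to the left -/
structure Stab (ι : Type*) where
  y : ι → ℝ
  s : ι → ℝ
  R : ι → ℝ
  L : ι → ℝ

namespace Stab

variable {ι : Type*} (Z : Stab ι)

/-- the two sides, `true` is the right one -/
def sd : Bool → Side ι
  | true => ⟨Z.y, Z.s, Z.R⟩
  | false => ⟨Z.y, fun i => -Z.s i, Z.L⟩

@[simp] theorem sd_y (b : Bool) : (Z.sd b).y = Z.y := by cases b <;> rfl

theorem sd_s_not (b : Bool) (i : ι) : (Z.sd (!b)).s i = -(Z.sd b).s i := by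
  cases b <;> simp [sd]

structure Ok (F : Set ι) : Prop where
  ok : ∀ b, (Z.sd b).Ok F
  sl : ∀ i ∈ F, ∀ j ∈ F, i ≠ j → Z.s i ≠ Z.s j

variable {Z}

theorem Ok.mono {F G : Set ι} (h : Z.Ok F) (hG : G ⊆ F) : Z.Ok G :=
  ⟨fun b => (h.ok b).mono hG, fun i hi j hj => h.sl i (hG hi) j (hG hj)⟩

theorem Ok.y_ne {F : Set ι} (h : Z.Ok F) {i j : ι} (hi : i ∈ F) (hj : j ∈ F) (hij : i ≠ j) :
    Z.y i ≠ Z.y j := by
  have := (h.ok true).dis i hi j hj hij 0 le_rfl ((h.ok true).pos i hi).le ((h.ok true).pos j hj).le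
  simpa [Side.h, sd] using this

theorem Ok.sl' {F : Set ι} (h : Z.Ok F) (b : Bool) {i j : ι} (hi : i ∈ F) (hj : j ∈ F)
    (hij : i ≠ j) : (Z.sd b).s i ≠ (Z.sd b).s j := by
  have := h.sl i hi j hj hij
  cases b <;> simpa [sd] using this

variable (Z)

/-- a zigzag: a list of oriented segments from top to bottom, alternately traversed to the right
and to the left, whose links avoid the other segments of the list -/
structure Zig (w : List (ι × Bool)) : Prop where
  ch : w.IsChain (fun u v => v.2 = !u.2 ∧ Z.y v.1 < Z.y u.1)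
  nt : ∀ u v, [u, v] <:+: w → ∀ t ∈ w, t ≠ u → t ≠ v → (Z.sd u.2).NT u.1 v.1 t.1

variable {Z}

theorem Zig.pw {w : List (ι × Bool)} (h : Z.Zig w) :
    w.Pairwise (fun u v => Z.y v.1 < Z.y u.1) := by
  have h1 : w.IsChain (fun u v : ι × Bool => Z.y v.1 < Z.y u.1) := h.ch.imp (fun _ _ h => h.2)
  have : IsTrans (ι × Bool) (fun u v => Z.y v.1 < Z.y u.1) :=
    ⟨fun a b c h1 h2 => lt_trans h2 h1⟩
  exact h1.pairwise

theorem Zig.nodup {w : List (ι × Bool)} (h : Z.Zig w) : w.Nodup :=
  h.pw.imp (fun {a b} h1 h2 => by rw [h2] at h1; exact lt_irrefl _ h1)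

theorem Zig.nodup_fst {w : List (ι × Bool)} (h : Z.Zig w) : (w.map Prod.fst).Nodup := by
  rw [List.nodup_iff_pairwise_ne, List.pairwise_map]
  exact h.pw.imp (fun {a b} h1 h2 => by rw [h2] at h1; exact lt_irrefl _ h1)

theorem Zig.nil : Z.Zig ([] : List (ι × Bool)) :=
  ⟨List.isChain_nil, fun _ _ h => absurd h adj_nil⟩

theorem Zig.singleton (a : ι × Bool) : Z.Zig [a] :=
  ⟨List.isChain_singleton _, fun _ _ h => absurd h adj_singleton⟩

theorem Zig.adj {w : List (ι × Bool)} (h : Z.Zig w) {u v : ι × Bool} (huv : [u, v] <:+: w) :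
    v.2 = !u.2 ∧ Z.y v.1 < Z.y u.1 := IsChain.adj h.ch huv

theorem Zig.of_sub {w w' : List (ι × Bool)} (h : Z.Zig w) (hw : w' <:+: w) : Z.Zig w' :=
  ⟨isChain_sub h.ch hw, fun u v huv t ht => h.nt u v (huv.trans hw) t (hw.subset ht)⟩

theorem Zig.tail {w : List (ι × Bool)} (h : Z.Zig w) : Z.Zig w.tail :=
  h.of_sub (List.tail_suffix w).isInfix

theorem Zig.dropLast {w : List (ι × Bool)} (h : Z.Zig w) : Z.Zig w.dropLast :=
  h.of_sub (List.dropLast_prefix w).isInfix

/-- adding a segment on top -/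
theorem Zig.cons {w : List (ι × Bool)} (h : Z.Zig w) {j : ι × Bool}
    (hv : ∀ v ∈ w.head?, v.2 = (!j.2) ∧ Z.y v.1 < Z.y j.1 ∧
      ∀ t ∈ w, t ≠ v → (Z.sd j.2).NT j.1 v.1 t.1)
    (hj : ∀ u v, [u, v] <:+: w → (Z.sd u.2).NT u.1 v.1 j.1) : Z.Zig (j :: w) := by
  constructor
  · rw [List.isChain_cons]
    exact ⟨fun v hv' => ⟨(hv v hv').1, (hv v hv').2.1⟩, h.ch⟩
  · intro u v huv t ht htu htv
    rw [List.mem_cons] at ht
    rcases adj_cons.1 huv with ⟨rfl, h1⟩ | h1
    · rcases ht with rfl | ht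
      · exact absurd rfl htu
      · exact (hv v h1).2.2 t ht htv
    · rcases ht with rfl | ht
      · exact hj u v h1
      · exact h.nt u v h1 t ht htu htv

/-- A fan which is free on the side `f` has a long zigzag, starting with orientation `!f`. -/
theorem fan_zig {F : Set ι} (hZ : Z.Ok F) {S : Finset ι} (hSF : (S : Set ι) ⊆ F)
    (hS : S.Nonempty) (f : Bool)
    (hfan : ∀ i ∈ S, ∀ k ∈ S, Z.y k < Z.y i → (Z.sd f).s k < (Z.sd f).s i) :
    ∃ w : List (ι × Bool), Z.Zig w ∧ (∀ t ∈ w, t.1 ∈ S) ∧ S.card ≤ 12 * w.length + 6 ∧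
      (∀ a ∈ w.head?, a.2 = !f) := by
  obtain ⟨e, he1, he2, he3⟩ := exists_enum hS Z.y
    (fun i hi j hj hij => hZ.y_ne (hSF hi) (hSF hj) hij)
  have hlt : ∀ i j, i < S.card → j < S.card → (Z.y (e j) < Z.y (e i) ↔ i < j) := by
    intro i j hi hj
    constructor
    · intro h
      by_contra h'
      rcases (not_lt.1 h').lt_or_eq with h' | h'
      · exact lt_asymm h (he2 _ _ h' hi)
      · rw [h'] at h; exact lt_irrefl _ h
    · intro h; exact he2 _ _ h hj
  have hne : ∀ i j, i < S.card → j < S.card → i ≠ j → e i ≠ e j := by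
    intro i j hi hj hij h
    rcases lt_or_gt_of_ne hij with h' | h'
    · have := he2 i j h' hj; rw [h] at this; exact lt_irrefl _ this
    · have := he2 j i h' hi; rw [h] at this; exact lt_irrefl _ this
  obtain ⟨I, hI1, hI2, hI3, hI4, hI5⟩ := clear_pairs S.card (fun i => (Z.sd (!f)).E (e i))
    (fun i hi j hj hij => (hZ.ok (!f)).inj _ (hSF (he1 i hi)) _ (hSF (he1 j hj)) (hne i j hi hj hij))
  set l := I.sort (· ≤ ·) with hl
  have hml : ∀ i, i ∈ l ↔ i ∈ I := fun i => Finset.mem_sort _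
  have hls : l.Pairwise (· < ·) := Finset.sortedLT_sort I |>.pairwise
  set w : List (ι × Bool) := l.flatMap (fun i => [(e i, !f), (e (i + 1), f)]) with hw
  have hmw : ∀ t ∈ w, ∃ j ∈ I, t = (e j, !f) ∨ t = (e (j + 1), f) := by
    intro t ht
    rw [hw, List.mem_flatMap] at ht
    obtain ⟨j, hj, ht⟩ := ht
    refine ⟨j, (hml j).1 hj, ?_⟩
    simpa using ht
  have hch : w.IsChain (fun u v => v.2 = !u.2 ∧ Z.y v.1 < Z.y u.1) := by
    apply isChain_of_adj
    intro u v huv
    rcases adj_flatMap.1 huv with ⟨i, hi, rfl, rfl⟩ | ⟨i, j, hij, rfl, rfl⟩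
    · have := hI1 i ((hml i).1 hi)
      exact ⟨by simp, he2 i (i + 1) (by omega) this⟩
    · have h1 := pairwise_adj hls hij (adj_mem_left hij)
      have h2 : i < j := by
        have := hls.sublist hij.sublist
        simpa using this
      have h3 := hI2 i ((hml i).1 (adj_mem_left hij)) j ((hml j).1 (adj_mem_right hij)) h2
      have h4 := hI1 j ((hml j).1 (adj_mem_right hij))
      exact ⟨rfl, he2 (i + 1) j (by omega) (by omega)⟩
  have hpw : w.Pairwise (fun u v => Z.y v.1 < Z.y u.1) := by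
    have h1 : w.IsChain (fun u v : ι × Bool => Z.y v.1 < Z.y u.1) := hch.imp (fun _ _ h => h.2)
    have : IsTrans (ι × Bool) (fun u v => Z.y v.1 < Z.y u.1) :=
      ⟨fun a b c h1 h2 => lt_trans h2 h1⟩
    exact h1.pairwise
  have hmS : ∀ t ∈ w, t.1 ∈ S := by
    intro t ht
    obtain ⟨j, hj, rfl | rfl⟩ := hmw t ht
    · exact he1 _ (by have := hI1 j hj; omega)
    · exact he1 _ (hI1 j hj)
  refine ⟨w, ⟨hch, ?_⟩, hmS, ?_, ?_⟩
  · intro u v huv t ht htu htv
    have hside := pairwise_adj hpw huv ht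
    have huS := hSF (hmS u (adj_mem_left huv))
    have hvS := hSF (hmS v (adj_mem_right huv))
    have htS := hSF (hmS t ht)
    have hvu : Z.y v.1 < Z.y u.1 := (IsChain.adj hch huv).2
    rcases adj_flatMap.1 huv with ⟨i, hi, rfl, rfl⟩ | ⟨i, j, hij, rfl, rfl⟩
    · -- clear side
      have hiI := (hml i).1 hi
      have hi1 := hI1 i hiI
      obtain ⟨j, hj, hte⟩ := hmw t ht
      have hj1 := hI1 j hj
      obtain ⟨k, hk, hkj, hkS⟩ : ∃ k, t.1 = e k ∧ (k = j ∨ k = j + 1) ∧ k < S.card := by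
        rcases hte with rfl | rfl
        · exact ⟨j, rfl, Or.inl rfl, by omega⟩
        · exact ⟨j + 1, rfl, Or.inr rfl, hj1⟩
      simp only at hvu huS hvS
      rcases hside with h | h | ⟨h, h'⟩ | ⟨h, h'⟩
      · exact absurd h htu
      · exact absurd h htv
      · -- above
        simp only at h h'
        rw [hk] at h h' htS ⊢
        have hki : k < i := (hlt k i hkS (by omega)).1 h
        have hk1 := he2 k i hki (by omega)
        by_cases c1 : (Z.sd (!f)).E (e (i + 1)) < (Z.sd (!f)).E (e i)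
        · exact (hZ.ok _).NT_above huS hvS htS (by simpa) (by simpa) (Or.inl c1)
        by_cases c2 : (Z.sd (!f)).E (e k) < (Z.sd (!f)).E (e i)
        · exact (hZ.ok _).NT_above huS hvS htS (by simpa) (by simpa) (Or.inr (Or.inl c2))
        by_cases c3 : (Z.sd (!f)).E (e (i + 1)) < (Z.sd (!f)).E (e k)
        · exact (hZ.ok _).NT_above huS hvS htS (by simpa) (by simpa) (Or.inr (Or.inr (Or.inl c3)))
        have d1 := (hZ.ok (!f)).inj _ huS _ hvS (hne i (i + 1) (by omega) hi1 (by omega))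
        have d2 := (hZ.ok (!f)).inj _ htS _ huS (hne k i hkS (by omega) (by omega))
        have d3 := (hZ.ok (!f)).inj _ htS _ hvS (hne k (i + 1) hkS (by omega) (by omega))
        obtain ⟨u, hu1, hu2, hu3⟩ := hI4 i hiI (lt_of_le_of_ne (not_lt.1 c1) d1) j hj k hkj hki
          (lt_of_le_of_ne (not_lt.1 c2) d2.symm) (lt_of_le_of_ne (not_lt.1 c3) d3)
        exact (hZ.ok _).NT_above_sep huS hvS htS (hSF (he1 u (by omega))) (by simpa)
          (by simpa using he2 u i hu2 (by omega)) (by simpa using he2 k u hu1 (by omega)) hu3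
      · -- below
        simp only at h h'
        rw [hk] at h h' htS ⊢
        have hki : i + 1 < k := (hlt (i + 1) k (by omega) hkS).1 h'
        by_cases c1 : (Z.sd (!f)).E (e i) < (Z.sd (!f)).E (e (i + 1))
        · exact (hZ.ok _).NT_below huS hvS htS (by simpa) (by simpa) (Or.inl c1)
        by_cases c2 : (Z.sd (!f)).E (e k) < (Z.sd (!f)).E (e (i + 1))
        · exact (hZ.ok _).NT_below huS hvS htS (by simpa) (by simpa) (Or.inr (Or.inl c2))
        by_cases c3 : (Z.sd (!f)).E (e i) < (Z.sd (!f)).E (e k)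
        · exact (hZ.ok _).NT_below huS hvS htS (by simpa) (by simpa) (Or.inr (Or.inr (Or.inl c3)))
        have d1 := (hZ.ok (!f)).inj _ huS _ hvS (hne i (i + 1) (by omega) hi1 (by omega))
        have d2 := (hZ.ok (!f)).inj _ htS _ huS (hne k i hkS (by omega) (by omega))
        have d3 := (hZ.ok (!f)).inj _ htS _ hvS (hne k (i + 1) hkS (by omega) (by omega))
        obtain ⟨u, hu1, hu2, hu3⟩ := hI5 i hiI (lt_of_le_of_ne (not_lt.1 c1) d1.symm) j hj k hkj hki
          (lt_of_le_of_ne (not_lt.1 c2) d3.symm) (lt_of_le_of_ne (not_lt.1 c3) d2)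
        exact (hZ.ok _).NT_below_sep huS hvS htS (hSF (he1 u (by omega))) (by simpa)
          (by simpa using he2 (i + 1) u hu1 (by omega)) (by simpa using he2 u k hu2 (by omega)) hu3
    · -- free side
      simp only at hvu huS hvS ⊢
      have hp := (hZ.ok f).pos
      rcases hside with h | h | ⟨h, h'⟩ | ⟨h, h'⟩
      · exact absurd h htu
      · exact absurd h htv
      · simp only at h h'
        refine (hZ.ok f).NT_above huS hvS htS (by simpa) (by simpa) (Or.inr (Or.inr (Or.inr ?_)))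
        have h1 := hfan t.1 (hmS t ht) _ (hmS _ (adj_mem_right huv)) h'
        have h2 := hp _ hvS
        simp only [Side.h, sd_y]
        have := mul_lt_mul_of_pos_right h1 h2
        simp only at this
        linarith
      · simp only at h h'
        refine (hZ.ok f).NT_below huS hvS htS (by simpa) (by simpa) (Or.inr (Or.inr (Or.inr ?_)))
        have h1 := hfan _ (hmS _ (adj_mem_left huv)) t.1 (hmS t ht) h
        have h2 := hp _ huS
        simp only [Side.h, sd_y]
        have := mul_lt_mul_of_pos_right h1 h2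
        simp only at this
        linarith
  · rw [hw, length_flatMap_pair]
    have : l.length = I.card := Finset.length_sort _
    omega
  · intro a ha
    rw [hw] at ha
    cases hl' : l with
    | nil => rw [hl'] at ha; simp at ha
    | cons c l' =>
      rw [hl'] at ha
      simp only [List.flatMap_cons, List.cons_append, List.head?_cons, Option.mem_some_iff] at ha
      rw [← ha]

theorem Zig.head_tail {w : List (ι × Bool)} (h : Z.Zig w) {o : Bool}
    (ho : ∀ a ∈ w.head?, a.2 = o) : ∀ a ∈ w.tail.head?, a.2 = !o := by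
  intro a ha
  cases w with
  | nil => simp at ha
  | cons c w =>
    cases w with
    | nil => simp at ha
    | cons d w =>
      simp only [List.tail_cons, List.head?_cons, Option.mem_some_iff] at ha
      have h1 := (h.adj (u := c) (v := d) (adj_cons.2 (Or.inl ⟨rfl, rfl⟩))).1
      rw [← ha, h1, ho c rfl]

/-- Every family has a zigzag of length at least `sqrt |K| / 30`, with given orientation of its
first element. -/
theorem sqrt_zig [DecidableEq ι] {F : Set ι} (hZ : Z.Ok F) {K : Finset ι} (hKF : (K : Set ι) ⊆ F)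
    (hK : K.Nonempty) (o : Bool) :
    ∃ w : List (ι × Bool), Z.Zig w ∧ w ≠ [] ∧ (∀ t ∈ w, t.1 ∈ K) ∧
      (∀ a ∈ w.head?, a.2 = o) ∧ K.card ≤ 900 * w.length ^ 2 := by
  obtain ⟨S, hSK, hcard, hfan⟩ := erdos_szekeres K Z.y Z.s
    (fun i hi j hj hij => hZ.y_ne (hKF hi) (hKF hj) hij)
    (fun i hi j hj hij => hZ.sl i (hKF hi) j (hKF hj) hij)
  have hSF : (S : Set ι) ⊆ F := fun i hi => hKF (hSK hi)
  have hS : S.Nonempty := by
    rw [← Finset.card_pos]
    by_contra h
    have : S.card = 0 := by omega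
    rw [this] at hcard
    have := Finset.card_pos.2 hK
    omega
  obtain ⟨f, hf⟩ : ∃ f, ∀ i ∈ S, ∀ k ∈ S, Z.y k < Z.y i → (Z.sd f).s k < (Z.sd f).s i := by
    rcases hfan with h | h
    · exact ⟨true, fun i hi k hk hki => h k hk i hi hki⟩
    · exact ⟨false, fun i hi k hk hki => neg_lt_neg (h k hk i hi hki)⟩
  obtain ⟨w, hw1, hw2, hw3, hw4⟩ := fan_zig hZ hSF hS f hf
  obtain ⟨a0, ha0⟩ := hS
  -- a list with the right orientation
  obtain ⟨w', hw1', hw2', hw3', hw4'⟩ : ∃ w' : List (ι × Bool), Z.Zig w' ∧ (∀ t ∈ w', t.1 ∈ S) ∧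
      S.card ≤ 12 * w'.length + 18 ∧ (∀ a ∈ w'.head?, a.2 = o) := by
    by_cases ho : o = !f
    · exact ⟨w, hw1, hw2, by omega, by rw [ho]; exact hw4⟩
    · refine ⟨w.tail, hw1.tail, fun t ht => hw2 t (List.mem_of_mem_tail ht), ?_, ?_⟩
      · rw [List.length_tail]; omega
      · intro a ha
        rw [hw1.head_tail hw4 a ha]
        exact (bnot_of_ne ho).symm
  have hsq : ∀ n : ℕ, S.card ≤ 30 * n → K.card ≤ 900 * n ^ 2 := by
    intro n hn
    calc K.card ≤ S.card ^ 2 := hcard
      _ ≤ (30 * n) ^ 2 := Nat.pow_le_pow_left hn 2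
      _ = 900 * n ^ 2 := by ring
  by_cases hnil : w' = []
  · refine ⟨[(a0, o)], Zig.singleton _, by simp, ?_, ?_, hsq _ ?_⟩
    · intro t ht; rw [List.mem_singleton] at ht; rw [ht]; exact hSK ha0
    · intro a ha; simp only [List.head?_cons, Option.mem_some_iff] at ha; rw [← ha]
    · rw [hnil] at hw3'; simp at hw3' ⊢; omega
  · have := List.length_pos_iff.2 hnil
    exact ⟨w', hw1', hnil, fun t ht => hSK (hw2' t ht), hw4', hsq _ (by omega)⟩

/-- Cap lemma: if `j` is above all of `K` and longer on the side `b`, then there is a zigzag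
starting with `j` at an extreme vertex. -/
theorem cap [DecidableEq ι] {F : Set ι} (hZ : Z.Ok F) {K : Finset ι} (hKF : (K : Set ι) ⊆ F)
    (hK : K.Nonempty) {j : ι} (hj : j ∈ F) (b : Bool)
    (hy : ∀ i ∈ K, Z.y i < Z.y j) (hE : ∀ i ∈ K, (Z.sd b).E i < (Z.sd b).E j) :
    ∃ (w : List (ι × Bool)) (o : Bool), Z.Zig ((j, o) :: w) ∧ w ≠ [] ∧ (∀ t ∈ w, t.1 ∈ K) ∧
      (∀ t ∈ w, (Z.sd (!o)).E t.1 < (Z.sd (!o)).E j) ∧ K.card ≤ 2700 * w.length ^ 2 := by
  classical
  have hne : ∀ i ∈ K, i ≠ j := fun i hi h => by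
    have := hy i hi; rw [h] at this; exact lt_irrefl _ this
  set K1 := K.filter (fun i => (Z.sd (!b)).s i < (Z.sd (!b)).s j) with hK1
  set K2 := K.filter (fun i => (Z.sd b).s i < (Z.sd b).s j ∧ (Z.sd (!b)).E j < (Z.sd (!b)).E i)
    with hK2
  set K3 := K.filter (fun i => (Z.sd b).s i < (Z.sd b).s j ∧ (Z.sd (!b)).E i < (Z.sd (!b)).E j)
    with hK3
  have hcover : K ⊆ K1 ∪ (K2 ∪ K3) := by
    intro i hi
    rw [Finset.mem_union, Finset.mem_union, hK1, hK2, hK3, Finset.mem_filter, Finset.mem_filter,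
      Finset.mem_filter]
    have h1 := hZ.sl' b (hKF hi) hj (hne i hi)
    have h2 := (hZ.ok (!b)).inj i (hKF hi) j hj (hne i hi)
    rcases lt_or_gt_of_ne h1 with h1 | h1
    · rcases lt_or_gt_of_ne h2 with h2 | h2
      · exact Or.inr (Or.inr ⟨hi, h1, h2⟩)
      · exact Or.inr (Or.inl ⟨hi, h1, h2⟩)
    · left
      refine ⟨hi, ?_⟩
      rw [sd_s_not, sd_s_not]
      linarith
  have hcard : K.card ≤ K1.card + (K2.card + K3.card) :=
    (Finset.card_le_card hcover).trans ((Finset.card_union_le _ _).trans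
      (Nat.add_le_add_left (Finset.card_union_le _ _) _))
  -- the common construction
  have main : ∀ (K' : Finset ι) (o : Bool), K' ⊆ K → K.card ≤ 3 * K'.card →
      -- the gap below `j` is on the side `o`
      (∀ i ∈ K', (Z.sd (!o)).E i < (Z.sd (!o)).E j) →
      ((∀ i ∈ K', (Z.sd o).s i < (Z.sd o).s j) ∨
        (∀ i ∈ K', (Z.sd o).E j < (Z.sd o).E i)) →
      (∀ c : Bool, (∀ i ∈ K', (Z.sd c).E i < (Z.sd c).E j) ∨
        (∀ i ∈ K', (Z.sd c).E j < (Z.sd c).E i) ∨ (∀ i ∈ K', (Z.sd c).s i < (Z.sd c).s j)) →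
      ∃ (w : List (ι × Bool)) (o : Bool), Z.Zig ((j, o) :: w) ∧ w ≠ [] ∧ (∀ t ∈ w, t.1 ∈ K) ∧
      (∀ t ∈ w, (Z.sd (!o)).E t.1 < (Z.sd (!o)).E j) ∧ K.card ≤ 2700 * w.length ^ 2 := by
    intro K' o hK'K hK'card hW hgap hin
    have hK'ne : K'.Nonempty := by
      rw [← Finset.card_pos]
      have := Finset.card_pos.2 hK
      omega
    have hK'F : (K' : Set ι) ⊆ F := fun i hi => hKF (hK'K hi)
    obtain ⟨w, hw1, hw2, hw3, hw4, hw5⟩ := sqrt_zig hZ hK'F hK'ne (!o)
    refine ⟨w, o, ?_, hw2, fun t ht => hK'K (hw3 t ht), fun t ht => hW _ (hw3 t ht), by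
      calc K.card ≤ 3 * K'.card := hK'card
        _ ≤ 3 * (900 * w.length ^ 2) := Nat.mul_le_mul_left 3 hw5
        _ = 2700 * w.length ^ 2 := by ring⟩
    apply Zig.cons hw1
    · intro v hv
      have hvw : v ∈ w := List.mem_of_mem_head? hv
      refine ⟨hw4 v hv, hy _ (hK'K (hw3 v hvw)), ?_⟩
      intro t ht htv
      have hvt : Z.y t.1 < Z.y v.1 := by
        cases w with
        | nil => simp at hvw
        | cons c w =>
          simp only [List.head?_cons, Option.mem_some_iff] at hv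
          subst hv
          rcases List.mem_cons.1 ht with h | h
          · exact absurd h htv
          · exact (List.pairwise_cons.1 hw1.pw).1 t h
      have h1 := hy _ (hK'K (hw3 v hvw))
      refine (hZ.ok o).NT_below hj (hK'F (hw3 v hvw)) (hK'F (hw3 t ht)) (by simpa) (by simpa) ?_
      rcases hgap with h | h
      · right; right; right
        have h2 := h t.1 (hw3 t ht)
        have h3 := (hZ.ok o).pos j hj
        have h4 := mul_lt_mul_of_pos_right h2 h3
        simp only [Side.h, sd_y]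
        linarith
      · exact Or.inl (h v.1 (hw3 v hvw))
    · intro u v huv
      have hu := hw3 u (adj_mem_left huv)
      have hv := hw3 v (adj_mem_right huv)
      have h1 := (hw1.adj huv).2
      have h2 := hy _ (hK'K hu)
      have h3 := hy _ (hK'K hv)
      refine (hZ.ok u.2).NT_above (hK'F hu) (hK'F hv) hj (by simpa) (by simpa) ?_
      rcases hin u.2 with h | h | h
      · exact Or.inr (Or.inr (Or.inl (h v.1 hv)))
      · exact Or.inr (Or.inl (h u.1 hu))
      · right; right; right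
        have h4 := (hZ.ok u.2).pos v.1 (hK'F hv)
        have h5 := mul_lt_mul_of_pos_right (h v.1 hv) h4
        simp only [Side.h, sd_y]
        linarith
  have hor : K.card ≤ 3 * K1.card ∨ K.card ≤ 3 * K2.card ∨ K.card ≤ 3 * K3.card := by omega
  rcases hor with h | h | h
  · refine main K1 (!b) (Finset.filter_subset _ _) h ?_ (Or.inl ?_) ?_
    · intro i hi; rw [Bool.not_not]; exact hE i (Finset.mem_filter.1 hi).1
    · intro i hi; exact (Finset.mem_filter.1 hi).2
    · intro c
      by_cases hc : c = b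
      · left; intro i hi; rw [hc]; exact hE i (Finset.mem_filter.1 hi).1
      · right; right; intro i hi
        have : c = !b := bnot_of_ne hc
        rw [this]; exact (Finset.mem_filter.1 hi).2
  · refine main K2 (!b) (Finset.filter_subset _ _) h ?_ (Or.inr ?_) ?_
    · intro i hi; rw [Bool.not_not]; exact hE i (Finset.mem_filter.1 hi).1
    · intro i hi; exact (Finset.mem_filter.1 hi).2.2
    · intro c
      by_cases hc : c = b
      · left; intro i hi; rw [hc]; exact hE i (Finset.mem_filter.1 hi).1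
      · right; left; intro i hi
        have : c = !b := bnot_of_ne hc
        rw [this]; exact (Finset.mem_filter.1 hi).2.2
  · refine main K3 b (Finset.filter_subset _ _) h ?_ (Or.inl ?_) ?_
    · intro i hi; exact (Finset.mem_filter.1 hi).2.2
    · intro i hi; exact (Finset.mem_filter.1 hi).2.1
    · intro c
      by_cases hc : c = b
      · left; intro i hi; rw [hc]; exact hE i (Finset.mem_filter.1 hi).1
      · left; intro i hi
        have : c = !b := bnot_of_ne hc
        rw [this]; exact (Finset.mem_filter.1 hi).2.2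

end Stab

end Pool.Agent.Lib.ALT
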