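/-
Project ALT: chains of windows.
-/
import Pool.Agent.Lib.ALT.Zig

set_option autoImplicit false

noncomputable section

namespace Pool.Agent.Lib.ALT

namespace Stab

variable {ι : Type*} (Z : Stab ι)

/-- reflection in the horizontal axis -/
def flipY : Stab ι := ⟨fun i => -Z.y i, fun i => -Z.s i, Z.R, Z.L⟩

theorem flipY_sd (b : Bool) : Z.flipY.sd b = (Z.sd b).flip := by
  cases b <;> simp [flipY, sd, Side.flip]

@[simp] theorem flipY_y (i : ι) : Z.flipY.y i = -Z.y i := rfl
@[simp] theorem flipY_s (i : ι) : Z.flipY.s i = -Z.s i := rfl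
@[simp] theorem flipY_sd_E (b : Bool) : (Z.flipY.sd b).E = (Z.sd b).E := by
  rw [flipY_sd]; rfl
@[simp] theorem flipY_sd_s (b : Bool) (i : ι) : (Z.flipY.sd b).s i = -(Z.sd b).s i := by
  rw [flipY_sd]; rfl

variable {Z}

theorem Ok.flipY {F : Set ι} (h : Z.Ok F) : Z.flipY.Ok F :=
  ⟨fun b => by rw [flipY_sd]; exact Side.flip_Ok _ (h.ok b),
    fun i hi j hj hij h' => h.sl i hi j hj hij (neg_injective h')⟩

/-- the reversed list with reversed orientations -/
def rev (w : List (ι × Bool)) : List (ι × Bool) := (w.map (fun u => (u.1, !u.2))).reverse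

theorem mem_rev {w : List (ι × Bool)} {t : ι × Bool} : t ∈ rev w ↔ (t.1, !t.2) ∈ w := by
  unfold rev
  rw [List.mem_reverse, List.mem_map]
  constructor
  · rintro ⟨u, hu, rfl⟩; simpa using hu
  · intro h; exact ⟨_, h, by simp⟩

theorem adj_rev {w : List (ι × Bool)} {u v : ι × Bool} :
    [u, v] <:+: rev w ↔ [(v.1, !v.2), (u.1, !u.2)] <:+: w := by
  unfold rev
  rw [adj_reverse, adj_map]
  constructor
  · rintro ⟨a, b, h, rfl, rfl⟩; simpa using h
  · intro h; exact ⟨_, _, h, by simp, by simp⟩

theorem length_rev (w : List (ι × Bool)) : (rev w).length = w.length := by simp [rev]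

theorem Zig.of_flipY {w : List (ι × Bool)} (hF : ∀ u v, [u, v] <:+: w → ∀ b, (Z.sd b).E u.1 ≠ (Z.sd b).E v.1)
    (h : Z.flipY.Zig w) : Z.Zig (rev w) := by
  constructor
  · apply isChain_of_adj
    intro u v huv
    have := h.adj (adj_rev.1 huv)
    simp only [flipY_y, Bool.not_not, neg_lt_neg_iff] at this
    refine ⟨this.1.symm ▸ rfl, this.2⟩
  · intro u v huv t ht htu htv
    have h1 := adj_rev.1 huv
    have h2 := h.nt _ _ h1 (t.1, !t.2) (mem_rev.1 ht)
      (fun h => htv (by
        have h3 := congrArg Prod.fst h; have h4 := congrArg Prod.snd h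
        exact Prod.ext h3 (by simpa using h4)))
      (fun h => htu (by
        have h3 := congrArg Prod.fst h; have h4 := congrArg Prod.snd h
        exact Prod.ext h3 (by simpa using h4)))
    have h5 := (h.adj h1).1
    simp only [Bool.not_not] at h5
    simp only [← h5, Bool.not_not] at h2
    rw [flipY_sd, Side.flip_NT] at h2
    exact h2.symm (hF _ _ h1 _)

/-- Cap lemma for a bottom element. -/
theorem cap_bottom [DecidableEq ι] {F : Set ι} (hZ : Z.Ok F) {K : Finset ι}
    (hKF : (K : Set ι) ⊆ F)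
    (hK : K.Nonempty) {j : ι} (hj : j ∈ F) (b : Bool)
    (hy : ∀ i ∈ K, Z.y j < Z.y i) (hE : ∀ i ∈ K, (Z.sd b).E i < (Z.sd b).E j) :
    ∃ (w : List (ι × Bool)) (o : Bool), Z.Zig (w ++ [(j, o)]) ∧ w ≠ [] ∧ (∀ t ∈ w, t.1 ∈ K) ∧
      (∀ t ∈ w, (Z.sd o).E t.1 < (Z.sd o).E j) ∧ K.card ≤ 2700 * w.length ^ 2 := by
  obtain ⟨w, o, h1, h2, h3, h4, h5⟩ := cap hZ.flipY hKF hK hj b (fun i hi => by simpa using hy i hi)
    (fun i hi => by simpa using hE i hi)
  refine ⟨rev w, !o, ?_, ?_, ?_, ?_, ?_⟩
  · have := Zig.of_flipY (fun u v huv b' => (hZ.ok b').inj u.1 ?_ v.1 ?_ ?_) h1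
    · have he : rev ((j, o) :: w) = rev w ++ [(j, !o)] := by simp [rev]
      rwa [he] at this
    · rcases List.mem_cons.1 (adj_mem_left huv) with h | h
      · rw [h]; exact hj
      · exact hKF (h3 _ h)
    · rcases List.mem_cons.1 (adj_mem_right huv) with h | h
      · rw [h]; exact hj
      · exact hKF (h3 _ h)
    · intro h
      have := (h1.adj huv).2
      rw [h] at this; exact lt_irrefl _ this
  · intro h
    have := length_rev w
    rw [h] at this
    exact h2 (List.eq_nil_of_length_eq_zero this.symm)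
  · intro t ht; exact h3 (t.1, !t.2) (mem_rev.1 ht)
  · intro t ht
    have := h4 _ (mem_rev.1 ht)
    simpa using this
  · rw [length_rev]; exact h5

/-- concatenation of zigzags, the second one dominating the first one -/
theorem Zig.append {F : Set ι} (hZ : Z.Ok F) {w v : List (ι × Bool)} (hw : Z.Zig w) (hv : Z.Zig v)
    (hwF : ∀ t ∈ w, t.1 ∈ F) (hvF : ∀ t ∈ v, t.1 ∈ F)
    (hend : ∀ a ∈ w.getLast?, (∀ c ∈ v.head?, c.2 = !a.2) ∧
      ∀ t ∈ w, t ≠ a → (Z.sd a.2).E t.1 < (Z.sd a.2).E a.1)
    (hdom : ∀ t ∈ w, ∀ s ∈ v, Z.y s.1 < Z.y t.1 ∧ ∀ b, (Z.sd b).E t.1 < (Z.sd b).E s.1) :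
    Z.Zig (w ++ v) := by
  have hadj : ∀ u v', [u, v'] <:+: w ++ v → [u, v'] <:+: w ∨ [u, v'] <:+: v ∨
      (w.getLast? = some u ∧ v.head? = some v') := fun u v' h => adj_append.1 h
  have hch : (w ++ v).IsChain (fun u v => v.2 = !u.2 ∧ Z.y v.1 < Z.y u.1) := by
    apply isChain_of_adj
    intro a c hac
    rcases hadj a c hac with h | h | ⟨h, h'⟩
    · exact hw.adj h
    · exact hv.adj h
    · exact ⟨(hend a h).1 c h', (hdom a (List.mem_of_getLast? h) c (List.mem_of_head? h')).1⟩
  refine ⟨hch, ?_⟩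
  intro a c hac t ht hta htc
  rw [List.mem_append] at ht
  rcases hadj a c hac with h | h | ⟨h, h'⟩
  · rcases ht with ht | ht
    · exact hw.nt a c h t ht hta htc
    · have ha := adj_mem_left h
      have hc := adj_mem_right h
      have h1 := hdom a ha t ht
      have h2 := hdom c hc t ht
      exact (hZ.ok a.2).NT_below (hwF a ha) (hwF c hc) (hvF t ht) (by simpa using (hw.adj h).2)
        (by simpa using h2.1) (Or.inr (Or.inr (Or.inl (h1.2 _))))
  · rcases ht with ht | ht
    · have ha := adj_mem_left h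
      have hc := adj_mem_right h
      have h1 := hdom t ht a ha
      exact (hZ.ok a.2).NT_above (hvF a ha) (hvF c hc) (hwF t ht) (by simpa using (hv.adj h).2)
        (by simpa using h1.1) (Or.inr (Or.inl (h1.2 _)))
    · exact hv.nt a c h t ht hta htc
  · have ha := List.mem_of_getLast? h
    have hc := List.mem_of_head? h'
    have hac' := hdom a ha c hc
    rcases ht with ht | ht
    · -- above
      have h2 := (hend a h).2 t ht hta
      have h3 : Z.y a.1 < Z.y t.1 := by
        obtain ⟨w', rfl⟩ : ∃ w', w = w' ++ [a] := by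
          rw [List.getLast?_eq_some_iff] at h; exact h
        have h4 := hw.pw
        rw [List.pairwise_append] at h4
        rcases List.mem_append.1 ht with h5 | h5
        · exact h4.2.2 t h5 a (by simp)
        · exact absurd (by simpa using h5) hta
      exact (hZ.ok a.2).NT_above (hwF a ha) (hvF c hc) (hwF t ht) (by simpa using hac'.1)
        (by simpa using h3) (Or.inr (Or.inl h2))
    · -- below
      have h3 : Z.y t.1 < Z.y c.1 := by
        obtain ⟨v', rfl⟩ : ∃ v', v = c :: v' := by
          cases v with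
          | nil => simp at h'
          | cons c' v' => simp only [List.head?_cons, Option.some.injEq] at h'; exact ⟨v', by rw [h']⟩
        rcases List.mem_cons.1 ht with h5 | h5
        · exact absurd h5 htc
        · exact (List.pairwise_cons.1 hv.pw).1 t h5
      exact (hZ.ok a.2).NT_below (hwF a ha) (hvF c hc) (hvF t ht) (by simpa using hac'.1)
        (by simpa using h3) (Or.inl (hac'.2 _))

open Classical in
/-- the elements of `A` below `j` which are shorter than `j` on some side -/
def D (Z : Stab ι) (A : Finset ι) (j : ι) : Finset ι :=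
  A.filter (fun i => Z.y i < Z.y j ∧ ∃ b, (Z.sd b).E i < (Z.sd b).E j)

open Classical in
/-- Half of the family can be enumerated such that elements at distance at least `3 d + 2` are
nested. -/
theorem exists_nested {F : Set ι} (hZ : Z.Ok F) {A : Finset ι} (hAF : (A : Set ι) ⊆ F) {d : ℕ}
    (hA : A.Nonempty) (hD : ∀ j ∈ A, (Z.D A j).card ≤ d) :
    ∃ (N : ℕ) (e : ℕ → ι), A.card ≤ 2 * N ∧ (∀ i < N, e i ∈ A) ∧
      (∀ i j, i < j → j < N → Z.y (e j) < Z.y (e i)) ∧
      (∀ i j, i + 3 * d + 2 ≤ j → j < N → ∀ b, (Z.sd b).E (e i) < (Z.sd b).E (e j)) := by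
  set r : ι → ι → Prop := fun i j => Z.y j < Z.y i ∧ ∃ b, (Z.sd b).E j < (Z.sd b).E i with hr
  set I' : ι → Finset ι := fun j => A.filter (fun i => r i j) with hI'
  set F' := A.filter (fun j => (I' j).card ≤ 2 * d) with hF'
  have hsum : ∑ j ∈ A, (I' j).card ≤ d * A.card := by
    have h1 := Finset.sum_card_bipartiteAbove_eq_sum_card_bipartiteBelow r (s := A) (t := A)
    have h2 : ∑ i ∈ A, (A.bipartiteAbove r i).card ≤ ∑ _i ∈ A, d := by
      apply Finset.sum_le_sum
      intro i hi
      have := hD i hi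
      unfold D at this
      exact this
    rw [h1, Finset.sum_const, smul_eq_mul, mul_comm] at h2
    exact h2
  have hbad : (A \ F').card * (2 * d + 1) ≤ d * A.card := by
    refine le_trans ?_ hsum
    calc (A \ F').card * (2 * d + 1) = ∑ _j ∈ A \ F', (2 * d + 1) := by
          rw [Finset.sum_const, smul_eq_mul]
      _ ≤ ∑ j ∈ A \ F', (I' j).card := by
          apply Finset.sum_le_sum
          intro j hj
          rw [Finset.mem_sdiff] at hj
          by_contra h
          exact hj.2 (Finset.mem_filter.2 ⟨hj.1, by omega⟩)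
      _ ≤ ∑ j ∈ A, (I' j).card :=
          Finset.sum_le_sum_of_subset Finset.sdiff_subset
  have hF'A : F' ⊆ A := Finset.filter_subset _ _
  have hcard : A.card ≤ 2 * F'.card := by
    have h1 : (A \ F').card + F'.card = A.card := Finset.card_sdiff_add_card_eq_card hF'A
    have h2 : 2 * (A \ F').card ≤ A.card := by
      by_contra h
      push Not at h
      have : A.card * (2 * d + 1) < 2 * (A \ F').card * (2 * d + 1) :=
        Nat.mul_lt_mul_of_pos_right h (by omega)
      nlinarith
    omega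
  have hF'ne : F'.Nonempty := by
    rw [← Finset.card_pos]
    have := Finset.card_pos.2 hA
    omega
  obtain ⟨e, he1, he2, he3⟩ := exists_enum hF'ne Z.y
    (fun i hi j hj hij => hZ.y_ne (hAF (hF'A hi)) (hAF (hF'A hj)) hij)
  have hinj : ∀ i j, i < F'.card → j < F'.card → e i = e j → i = j := by
    intro i j hi hj h
    by_contra hij
    rcases lt_or_gt_of_ne hij with h' | h'
    · have := he2 i j h' hj; rw [h] at this; exact lt_irrefl _ this
    · have := he2 j i h' hi; rw [h] at this; exact lt_irrefl _ this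
  refine ⟨F'.card, e, hcard, fun i hi => hF'A (he1 i hi), he2, ?_⟩
  intro i j hij hj b
  have hi : i < F'.card := by omega
  have hiA := hF'A (he1 i hi)
  have hjA := hF'A (he1 j hj)
  have hne : e i ≠ e j := fun h => by have := hinj i j hi hj h; omega
  by_contra hlt
  have hlt' : (Z.sd b).E (e j) < (Z.sd b).E (e i) :=
    lt_of_le_of_ne (not_lt.1 hlt) ((hZ.ok b).inj _ (hAF hiA) _ (hAF hjA) hne).symm
  -- the elements between
  have hsub : (Finset.Ioo i j).image e ⊆ Z.D A (e i) ∪ I' (e j) := by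
    intro t ht
    rw [Finset.mem_image] at ht
    obtain ⟨k, hk, rfl⟩ := ht
    rw [Finset.mem_Ioo] at hk
    have hkN : k < F'.card := by omega
    have hkA := hF'A (he1 k hkN)
    rw [Finset.mem_union]
    by_cases h : (Z.sd b).E (e k) < (Z.sd b).E (e i)
    · left
      unfold D
      exact Finset.mem_filter.2 ⟨hkA, he2 i k hk.1 hkN, b, h⟩
    · right
      exact Finset.mem_filter.2 ⟨hkA, he2 k j hk.2 hj, b, lt_of_lt_of_le hlt' (not_lt.1 h)⟩
  have h1 := Finset.card_le_card hsub
  rw [Finset.card_image_of_injOn (by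
    intro k hk k' hk' h
    rw [Finset.coe_Ioo, Set.mem_Ioo] at hk hk'
    exact hinj k k' (by omega) (by omega) h), Nat.card_Ioo] at h1
  have h2 := Finset.card_union_le (Z.D A (e i)) (I' (e j))
  have h3 := hD (e i) hiA
  have h4 := (Finset.mem_filter.1 (he1 j hj)).2
  omega

open Classical in
/-- A window contains a zigzag from its top to an extreme vertex. -/
theorem window_zig {F : Set ι} (hZ : Z.Ok F) {A : Finset ι} (hAF : (A : Set ι) ⊆ F) {d : ℕ}
    (hd : 1 ≤ d) (hD : ∀ j ∈ A, (Z.D A j).card ≤ d) {W : Finset ι} (hW : W ⊆ A)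
    (hWc : 2 * d + 1 ≤ W.card) :
    ∃ (w : List (ι × Bool)) (a : ι × Bool), Z.Zig (w ++ [a]) ∧ w ≠ [] ∧
      (∀ t ∈ w ++ [a], t.1 ∈ W) ∧
      (∀ t ∈ w, (Z.sd a.2).E t.1 < (Z.sd a.2).E a.1) ∧ d ≤ 2700 * w.length ^ 2 := by
  obtain ⟨M, hM, hmax⟩ := W.exists_max_image (fun i => (Z.sd true).E i)
    (Finset.card_pos.1 (by omega))
  set U := W.filter (fun i => Z.y M < Z.y i) with hU
  have hlt : ∀ i ∈ W, i ≠ M → (Z.sd true).E i < (Z.sd true).E M := fun i hi hne =>
    lt_of_le_of_ne (hmax i hi) ((hZ.ok true).inj _ (hAF (hW hi)) _ (hAF (hW hM)) hne)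
  have hcov : W ⊆ insert M (U ∪ Z.D A M) := by
    intro i hi
    rw [Finset.mem_insert, Finset.mem_union]
    by_cases h : i = M
    · exact Or.inl h
    · right
      rcases lt_or_gt_of_ne (hZ.y_ne (hAF (hW hi)) (hAF (hW hM)) h) with h1 | h1
      · right; unfold D
        exact Finset.mem_filter.2 ⟨hW hi, h1, true, hlt i hi h⟩
      · left; exact Finset.mem_filter.2 ⟨hi, h1⟩
  have h1 := (Finset.card_le_card hcov).trans (Finset.card_insert_le _ _)
  have h2 := Finset.card_union_le U (Z.D A M)
  have h3 := hD M (hW hM)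
  have hUW : U ⊆ W := Finset.filter_subset _ _
  have hUc : d ≤ U.card := by omega
  obtain ⟨w, o, g1, g2, g3, g4, g5⟩ := cap_bottom hZ (K := U) (fun i hi => hAF (hW (hUW hi)))
    (Finset.card_pos.1 (by omega)) (hAF (hW hM)) true
    (fun i hi => (Finset.mem_filter.1 hi).2)
    (fun i hi => hlt i (hUW hi) (fun h => by
      have := (Finset.mem_filter.1 hi).2; rw [h] at this; exact lt_irrefl _ this))
  refine ⟨w, (M, o), g1, g2, ?_, g4, hUc.trans g5⟩
  intro t ht
  rw [List.mem_append, List.mem_singleton] at ht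
  rcases ht with ht | rfl
  · exact hUW (g3 t ht)
  · exact hM

open Classical in
theorem chain_windows {F : Set ι} (hZ : Z.Ok F) {A : Finset ι} (hAF : (A : Set ι) ⊆ F) {d τ : ℕ}
    (hd : 1 ≤ d) (hD : ∀ j ∈ A, (Z.D A j).card ≤ d) (hτ : ∀ n : ℕ, d ≤ 2700 * n ^ 2 → τ ≤ n)
    {N : ℕ} {e : ℕ → ι} (he1 : ∀ i < N, e i ∈ A)
    (he2 : ∀ i j, i < j → j < N → Z.y (e j) < Z.y (e i))
    (he3 : ∀ i j, i + 3 * d + 2 ≤ j → j < N → ∀ b, (Z.sd b).E (e i) < (Z.sd b).E (e j))
    (h : ℕ) (hN : h * (5 * d + 3) ≤ N) :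
    ∃ w : List (ι × Bool), Z.Zig w ∧
      (∀ t ∈ w, ∃ p, t.1 = e p ∧ p + (3 * d + 2) < h * (5 * d + 3)) ∧
      (∀ a ∈ w.getLast?, ∀ t ∈ w, t ≠ a → (Z.sd a.2).E t.1 < (Z.sd a.2).E a.1) ∧
      h * τ ≤ w.length := by
  induction h with
  | zero => exact ⟨[], Zig.nil, by simp, by simp, by simp⟩
  | succ h ih =>
    have hN' : h * (5 * d + 3) ≤ N := by
      refine le_trans ?_ hN; gcongr; omega
    obtain ⟨w, hw1, hw2, hw3, hw4⟩ := ih hN'
    set P := h * (5 * d + 3) with hP
    have hP1 : (h + 1) * (5 * d + 3) = P + (5 * d + 3) := by rw [hP]; ring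
    rw [hP1] at hN ⊢
    have hinj : ∀ i j, i < N → j < N → e i = e j → i = j := by
      intro i j hi hj hij
      by_contra hne
      rcases lt_or_gt_of_ne hne with h' | h'
      · have := he2 i j h' hj; rw [hij] at this; exact lt_irrefl _ this
      · have := he2 j i h' hi; rw [hij] at this; exact lt_irrefl _ this
    set W := (Finset.Ico P (P + (2 * d + 1))).image e with hW
    have hWA : W ⊆ A := by
      intro t ht
      rw [hW, Finset.mem_image] at ht
      obtain ⟨k, hk, rfl⟩ := ht
      rw [Finset.mem_Ico] at hk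
      exact he1 k (by omega)
    have hWc : W.card = 2 * d + 1 := by
      rw [hW, Finset.card_image_of_injOn, Nat.card_Ico]
      · omega
      · intro k hk k' hk' h
        rw [Finset.coe_Ico, Set.mem_Ico] at hk hk'
        exact hinj k k' (by omega) (by omega) h
    obtain ⟨v, a, hv1, hv2, hv3, hv4, hv5⟩ := window_zig hZ hAF hd hD hWA hWc.ge
    have hvτ := hτ _ hv5
    have hvW : ∀ t ∈ v ++ [a], ∃ p, t.1 = e p ∧ P ≤ p ∧ p + (3 * d + 2) < P + (5 * d + 3) := by
      intro t ht
      have := hv3 t ht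
      rw [hW, Finset.mem_image] at this
      obtain ⟨k, hk, hk'⟩ := this
      rw [Finset.mem_Ico] at hk
      exact ⟨k, hk'.symm, hk.1, by omega⟩
    -- the second list with an arbitrary orientation of its head
    have hchoose : ∀ o : Bool, ∃ x : List (ι × Bool), Z.Zig (x ++ [a]) ∧ x <:+ v ∧
        (∀ c ∈ (x ++ [a]).head?, c.2 = o) ∧ v.length ≤ x.length + 1 := by
      intro o
      obtain ⟨c, v', rfl⟩ : ∃ c v', v = c :: v' := by
        cases v with
        | nil => exact absurd rfl hv2
        | cons c v' => exact ⟨c, v', rfl⟩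
      by_cases hc : c.2 = o
      · refine ⟨c :: v', hv1, List.suffix_refl _, ?_, by omega⟩
        intro c' hc'
        simp only [List.cons_append, List.head?_cons, Option.mem_some_iff] at hc'
        rw [← hc']; exact hc
      · refine ⟨v', hv1.tail, List.suffix_cons _ _, ?_, by simp⟩
        have h1 := hv1.head_tail (o := c.2) (by
          intro c' hc'
          simp only [List.cons_append, List.head?_cons, Option.mem_some_iff] at hc'
          rw [← hc'])
        simp only [List.cons_append, List.tail_cons] at h1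
        intro c' hc'
        rw [h1 c' hc']
        exact (bnot_of_ne (Ne.symm hc)).symm
    by_cases hnil : w = []
    · refine ⟨v ++ [a], hv1, ?_, ?_, ?_⟩
      · intro t ht
        obtain ⟨p, h1, _, h3⟩ := hvW t ht
        exact ⟨p, h1, h3⟩
      · intro a' ha' t ht hta
        rw [List.getLast?_append, List.getLast?_singleton, Option.some_or,
          Option.mem_some_iff] at ha'
        subst ha'
        rcases List.mem_append.1 ht with ht | ht
        · exact hv4 t ht
        · exact absurd (by simpa using ht) hta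
      · rw [hnil] at hw4
        simp only [List.length_nil, Nat.le_zero_eq, mul_eq_zero] at hw4
        rw [List.length_append, List.length_singleton]
        rcases hw4 with h0 | h0
        · rw [h0]; omega
        · rw [h0]; simp
    · obtain ⟨a0, ha0⟩ : ∃ a0, w.getLast? = some a0 := by
        rw [← Option.isSome_iff_exists, List.getLast?_isSome]; exact hnil
      obtain ⟨x, hx1, hx2, hx3, hx4⟩ := hchoose (!a0.2)
      have hxsub : ∀ t ∈ x ++ [a], t ∈ v ++ [a] := by
        intro t ht
        rcases List.mem_append.1 ht with ht | ht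
        · exact List.mem_append_left _ (hx2.subset ht)
        · exact List.mem_append_right _ ht
      have hdom : ∀ t ∈ w, ∀ s ∈ x ++ [a],
          Z.y s.1 < Z.y t.1 ∧ ∀ b, (Z.sd b).E t.1 < (Z.sd b).E s.1 := by
        intro t ht s hs
        obtain ⟨p, h1, h2⟩ := hw2 t ht
        obtain ⟨p', h3, h4, h5⟩ := hvW s (hxsub s hs)
        rw [h1, h3]
        exact ⟨he2 p p' (by omega) (by omega), he3 p p' (by omega) (by omega)⟩
      refine ⟨w ++ (x ++ [a]), ?_, ?_, ?_, ?_⟩
      · refine Zig.append hZ hw1 hx1 ?_ ?_ ?_ hdom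
        · intro t ht
          obtain ⟨p, h1, h2⟩ := hw2 t ht
          rw [h1]; exact hAF (he1 p (by omega))
        · intro t ht
          exact hAF (hWA (hv3 t (hxsub t ht)))
        · intro a' ha'
          have : a' = a0 := by rw [ha0] at ha'; exact (Option.mem_some_iff.1 ha').symm
          subst this
          exact ⟨hx3, hw3 a' ha'⟩
      · intro t ht
        rcases List.mem_append.1 ht with ht | ht
        · obtain ⟨p, h1, h2⟩ := hw2 t ht
          exact ⟨p, h1, by omega⟩
        · obtain ⟨p, h1, _, h3⟩ := hvW t (hxsub t ht)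
          exact ⟨p, h1, h3⟩
      · intro a' ha' t ht hta
        rw [← List.append_assoc, List.getLast?_append, List.getLast?_singleton, Option.some_or,
          Option.mem_some_iff] at ha'
        subst ha'
        rcases List.mem_append.1 ht with ht | ht
        · exact (hdom t ht a (List.mem_append_right _ (by simp))).2 _
        · rcases List.mem_append.1 ht with ht | ht
          · exact hv4 t (hx2.subset ht)
          · exact absurd (by simpa using ht) hta
      · simp only [List.length_append, List.length_singleton]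
        have : (h + 1) * τ = h * τ + τ := by ring
        omega

/-- Lemma A': in every family there are a zigzag `(j, o) :: w` starting at an extreme vertex on top
and a zigzag `p` with `|A| ≤ C |w'| |p|`. -/
theorem key [DecidableEq ι] {F : Set ι} (hZ : Z.Ok F) {A : Finset ι} (hAF : (A : Set ι) ⊆ F)
    (hA : A.Nonempty) :
    ∃ (a : ι × Bool) (w p : List (ι × Bool)), Z.Zig (a :: w) ∧ (∀ t ∈ a :: w, t.1 ∈ A) ∧
      (∀ t ∈ w, (Z.sd (!a.2)).E t.1 < (Z.sd (!a.2)).E a.1) ∧ Z.Zig p ∧ (∀ t ∈ p, t.1 ∈ A) ∧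
      A.card ≤ 200000 * ((a :: w).length * p.length) := by
  classical
  obtain ⟨j0, hj0, hmax⟩ := A.exists_max_image (fun j => (Z.D A j).card) hA
  set d0 := (Z.D A j0).card with hd0
  set d := max 1 d0 with hd
  have hd1 : 1 ≤ d := le_max_left _ _
  have hD : ∀ j ∈ A, (Z.D A j).card ≤ d := fun j hj => (hmax j hj).trans (le_max_right _ _)
  -- the zigzag from the extreme vertex
  obtain ⟨a, w, hw1, hw2, hw3, hw4⟩ : ∃ (a : ι × Bool) (w : List (ι × Bool)), Z.Zig (a :: w) ∧
      (∀ t ∈ a :: w, t.1 ∈ A) ∧ (∀ t ∈ w, (Z.sd (!a.2)).E t.1 < (Z.sd (!a.2)).E a.1) ∧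
      d ≤ 5400 * (a :: w).length ^ 2 := by
    by_cases hz : d0 = 0
    · refine ⟨(j0, true), [], Zig.singleton _, by simpa using hj0, by simp, ?_⟩
      rw [hd, hz]; simp
    · set K : Bool → Finset ι := fun b =>
        A.filter (fun i => Z.y i < Z.y j0 ∧ (Z.sd b).E i < (Z.sd b).E j0) with hK
      have hcov : Z.D A j0 ⊆ K true ∪ K false := by
        intro i hi
        unfold D at hi
        obtain ⟨h1, h2, b, h3⟩ := Finset.mem_filter.1 hi
        rw [Finset.mem_union]
        cases b
        · exact Or.inr (Finset.mem_filter.2 ⟨h1, h2, h3⟩)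
        · exact Or.inl (Finset.mem_filter.2 ⟨h1, h2, h3⟩)
      have h1 := (Finset.card_le_card hcov).trans (Finset.card_union_le _ _)
      obtain ⟨b, hb⟩ : ∃ b, d0 ≤ 2 * (K b).card := by
        by_cases h : d0 ≤ 2 * (K true).card
        · exact ⟨true, h⟩
        · exact ⟨false, by omega⟩
      have hKA : K b ⊆ A := Finset.filter_subset _ _
      obtain ⟨w, o, g1, g2, g3, g4, g5⟩ := cap hZ (K := K b) (fun i hi => hAF (hKA hi))
        (Finset.card_pos.1 (by omega)) (hAF hj0) b
        (fun i hi => (Finset.mem_filter.1 hi).2.1) (fun i hi => (Finset.mem_filter.1 hi).2.2)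
      refine ⟨(j0, o), w, g1, ?_, g4, ?_⟩
      · intro t ht
        rcases List.mem_cons.1 ht with rfl | ht
        · exact hj0
        · exact hKA (g3 t ht)
      · have h2 : d = d0 := by rw [hd]; exact max_eq_right (by omega)
        rw [h2, List.length_cons]
        calc d0 ≤ 2 * (K b).card := hb
          _ ≤ 2 * (2700 * w.length ^ 2) := Nat.mul_le_mul_left 2 g5
          _ = 5400 * w.length ^ 2 := by ring
          _ ≤ 5400 * (w.length + 1) ^ 2 := by gcongr; omega
  set q := (a :: w).length with hq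
  by_cases hsmall : A.card < 16 * d
  · refine ⟨a, w, a :: w, hw1, hw2, hw3, hw1, hw2, ?_⟩
    rw [← hq]
    calc A.card ≤ 16 * d := hsmall.le
      _ ≤ 16 * (5400 * q ^ 2) := Nat.mul_le_mul_left 16 hw4
      _ ≤ 200000 * (q * q) := by nlinarith
  · push Not at hsmall
    obtain ⟨N, e, hN1, he1, he2, he3⟩ := exists_nested hZ hAF hA hD
    have hex : ∃ n : ℕ, d ≤ 2700 * n ^ 2 := ⟨d, by nlinarith⟩
    set τ := Nat.find hex with hτ
    have hτ1 : d ≤ 2700 * τ ^ 2 := Nat.find_spec hex
    have hτ2 : ∀ n : ℕ, d ≤ 2700 * n ^ 2 → τ ≤ n := fun n hn => Nat.find_min' hex hn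
    set h := N / (5 * d + 3) with hh
    have hhN : h * (5 * d + 3) ≤ N := Nat.div_mul_le_self _ _
    have hhN2 : N < (h + 1) * (5 * d + 3) := by
      have h1 := Nat.mod_lt N (show 0 < 5 * d + 3 by omega)
      have h2 := Nat.div_add_mod N (5 * d + 3)
      rw [← hh] at h2
      nlinarith
    obtain ⟨p, hp1, hp2, hp3, hp4⟩ := chain_windows hZ hAF hd1 hD hτ2 he1 he2 he3 h hhN
    refine ⟨a, w, p, hw1, hw2, hw3, hp1, ?_, ?_⟩
    · intro t ht
      obtain ⟨k, hk1, hk2⟩ := hp2 t ht
      rw [hk1]; exact he1 k (by omega)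
    · have hh1 : 1 ≤ h := by
        rw [hh, Nat.one_le_div_iff (by omega)]
        omega
      have h1 : A.card ≤ 32 * (d * h) := by
        have : (h + 1) * (5 * d + 3) ≤ (2 * h) * (8 * d) := Nat.mul_le_mul (by omega) (by omega)
        have h3 : (2 * h) * (8 * d) = 16 * (d * h) := by ring
        omega
      have h2 : d ≤ 3819 * (q * τ) := by
        have h3 : d ^ 2 ≤ (3819 * (q * τ)) ^ 2 := by
          calc d ^ 2 = d * d := by ring
            _ ≤ (5400 * q ^ 2) * (2700 * τ ^ 2) := Nat.mul_le_mul hw4 hτ1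
            _ = 14580000 * (q * τ) ^ 2 := by ring
            _ ≤ 14584761 * (q * τ) ^ 2 := Nat.mul_le_mul_right _ (by norm_num)
            _ = (3819 * (q * τ)) ^ 2 := by ring
        exact (Nat.pow_le_pow_iff_left (by norm_num)).1 h3
      calc A.card ≤ 32 * (d * h) := h1
        _ ≤ 32 * ((3819 * (q * τ)) * h) := by gcongr
        _ = 122208 * (q * (h * τ)) := by ring
        _ ≤ 200000 * (q * p.length) := by gcongr; norm_num

end Stab

end Pool.Agent.Lib.ALT
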