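/-
Project ALT: from the plane to one sided coordinates.
-/
import Pool.Agent.Lib.ALT.Defs
import Pool.Agent.Lib.ALT.Windows

set_option autoImplicit false

noncomputable section

namespace Pool.Agent.Lib.ALT

/-- points of a segment with different abscissas of its end points -/
theorem mem_segment_iff {p q z : ℝ × ℝ} (h : p.1 < q.1) :
    z ∈ segment ℝ p q ↔ p.1 ≤ z.1 ∧ z.1 ≤ q.1 ∧
      z.2 = p.2 + (q.2 - p.2) / (q.1 - p.1) * (z.1 - p.1) := by
  have hd : 0 < q.1 - p.1 := sub_pos.2 h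
  constructor
  · rintro ⟨a, b, ha, hb, hab, rfl⟩
    have ha' : a = 1 - b := by linarith
    subst ha'
    simp only [Prod.fst_add, Prod.smul_fst, smul_eq_mul, Prod.snd_add, Prod.smul_snd]
    refine ⟨by nlinarith, by nlinarith, ?_⟩
    field_simp; ring
  · rintro ⟨h1, h2, h3⟩
    refine ⟨(q.1 - z.1) / (q.1 - p.1), (z.1 - p.1) / (q.1 - p.1), by
      apply div_nonneg <;> linarith, by apply div_nonneg <;> linarith, by field_simp; ring, ?_⟩
    refine Prod.ext ?_ ?_
    · simp only [Prod.fst_add, Prod.smul_fst, smul_eq_mul]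
      field_simp; ring
    · simp only [Prod.snd_add, Prod.smul_snd, smul_eq_mul]
      rw [h3]; field_simp; ring

/-- the point with one sided coordinates `ξ, η` on the side `b` of the line `x = x0` -/
def pt (x0 : ℝ) (b : Bool) (ξ η : ℝ) : ℝ × ℝ := (if b then x0 + ξ else x0 - ξ, η)

@[simp] theorem pt_snd (x0 : ℝ) (b : Bool) (ξ η : ℝ) : (pt x0 b ξ η).2 = η := rfl

theorem pt_inj {x0 : ℝ} {b : Bool} {ξ η ξ' η' : ℝ} (h : pt x0 b ξ η = pt x0 b ξ' η') :
    ξ = ξ' ∧ η = η' := by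
  have h1 := congrArg Prod.fst h
  have h2 := congrArg Prod.snd h
  refine ⟨?_, h2⟩
  cases b <;> simp only [pt, if_true, Bool.false_eq_true, if_false] at h1 <;> linarith

theorem seg_param {x0 : ℝ} {b : Bool} {ξ₁ η₁ ξ₂ η₂ : ℝ} (h : ξ₁ ≠ ξ₂) {z : ℝ × ℝ}
    (hz : z ∈ segment ℝ (pt x0 b ξ₁ η₁) (pt x0 b ξ₂ η₂)) :
    ∃ ξ, min ξ₁ ξ₂ ≤ ξ ∧ ξ ≤ max ξ₁ ξ₂ ∧
      z = pt x0 b ξ (η₁ + (η₂ - η₁) / (ξ₂ - ξ₁) * (ξ - ξ₁)) := by
  obtain ⟨a, c, ha, hc, hac, rfl⟩ := hz
  have ha' : a = 1 - c := by linarith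
  subst ha'
  have hd : ξ₂ - ξ₁ ≠ 0 := sub_ne_zero.2 h.symm
  refine ⟨ξ₁ + c * (ξ₂ - ξ₁), ?_, ?_, ?_⟩
  · rcases le_total ξ₁ ξ₂ with h1 | h1
    · rw [min_eq_left h1]; nlinarith
    · rw [min_eq_right h1]; nlinarith
  · rcases le_total ξ₁ ξ₂ with h1 | h1
    · rw [max_eq_right h1]; nlinarith
    · rw [max_eq_left h1]; nlinarith
  · refine Prod.ext ?_ ?_
    · cases b <;> simp only [pt, Prod.fst_add, Prod.smul_fst, smul_eq_mul, if_true,
        Bool.false_eq_true, if_false] <;> ring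
    · simp only [pt, Prod.snd_add, Prod.smul_snd, smul_eq_mul]
      field_simp; ring

theorem Stab.Zig.y_ne {ι : Type*} {Z : Stab ι} {w : List (ι × Bool)} (hw : Z.Zig w)
    {a c : ι × Bool} (ha : a ∈ w) (hc : c ∈ w) (hac : a ≠ c) : Z.y a.1 ≠ Z.y c.1 := by
  have h1 : (w.map (fun u => Z.y u.1)).Nodup := by
    rw [List.nodup_iff_pairwise_ne, List.pairwise_map]
    exact hw.pw.imp (fun {a b} h => h.ne')
  intro h
  exact hac (List.inj_on_of_nodup_map h1 ha hc h)

namespace Cfg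

variable {ι : Type*} (C : Cfg ι)

/-- the stabbed family seen from the line `x = x0` -/
def stab (x0 : ℝ) : Stab ι :=
  ⟨fun i => C.ht i x0, C.slope, fun i => (C.Q i).1 - x0, fun i => x0 - (C.P i).1⟩

/-- end point of `i` on the side `b` -/
def V (b : Bool) (i : ι) : ℝ × ℝ := if b then C.Q i else C.P i

variable {C}

theorem ht_P (i : ι) : C.ht i (C.P i).1 = (C.P i).2 := by simp [ht]

theorem ht_Q (hC : C.GP) (i : ι) : C.ht i (C.Q i).1 = (C.Q i).2 := by
  have : (C.Q i).1 - (C.P i).1 ≠ 0 := (sub_pos.2 (hC.lt i)).ne'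
  unfold ht slope; field_simp; ring

theorem mem_seg (hC : C.GP) (i : ι) {z : ℝ × ℝ} :
    z ∈ C.seg i ↔ (C.P i).1 ≤ z.1 ∧ z.1 ≤ (C.Q i).1 ∧ z.2 = C.ht i z.1 :=
  mem_segment_iff (hC.lt i)

theorem stab_h (x0 : ℝ) (b : Bool) (i : ι) (ξ : ℝ) :
    ((C.stab x0).sd b).h i ξ = C.ht i (pt x0 b ξ 0).1 := by
  cases b <;> simp only [stab, Stab.sd, Side.h, ht, pt, if_true, Bool.false_eq_true, if_false] <;>
    ring

theorem V_eq (hC : C.GP) (x0 : ℝ) (b : Bool) (i : ι) :
    C.V b i = pt x0 b (((C.stab x0).sd b).E i) (((C.stab x0).sd b).e i) := by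
  refine Prod.ext ?_ ?_
  · cases b <;> simp [V, pt, stab, Stab.sd]
  · rw [pt_snd]
    unfold Side.e
    rw [stab_h]
    cases b
    · simp only [V, pt, stab, Stab.sd, Bool.false_eq_true, if_false, sub_sub_cancel]
      exact (ht_P i).symm
    · simp only [V, pt, stab, Stab.sd, if_true, add_sub_cancel]
      exact (ht_Q hC i).symm

/-- a point of the segment `i` on the side `b` -/
theorem mem_seg_side (hC : C.GP) {x0 : ℝ} {b : Bool} {i : ι} {ξ η : ℝ}
    (h : pt x0 b ξ η ∈ C.seg i) :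
    ξ ≤ ((C.stab x0).sd b).E i ∧ η = ((C.stab x0).sd b).h i ξ := by
  rw [mem_seg hC] at h
  obtain ⟨h1, h2, h3⟩ := h
  constructor
  · cases b
    · simp only [pt, stab, Stab.sd, Bool.false_eq_true, if_false] at h1 ⊢; linarith
    · simp only [pt, stab, Stab.sd, if_true] at h2 ⊢; linarith
  · rw [stab_h, ← pt_snd x0 b ξ η, h3]; rfl

/-- a family of segments crossing the line `x = x0` -/
theorem stab_ok (hC : C.GP) {x0 : ℝ} {F : Set ι}
    (hF : ∀ i ∈ F, (C.P i).1 < x0 ∧ x0 < (C.Q i).1) : (C.stab x0).Ok F := by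
  constructor
  · intro b
    refine ⟨?_, ?_, ?_⟩
    · intro i hi
      cases b
      · simp only [stab, Stab.sd]; linarith [(hF i hi).1]
      · simp only [stab, Stab.sd]; linarith [(hF i hi).2]
    · intro i _ j _ hij h
      cases b
      · simp only [stab, Stab.sd] at h; exact hC.PP i j hij (by linarith)
      · simp only [stab, Stab.sd] at h; exact hC.QQ i j hij (by linarith)
    · intro i hi j hj hij x h0 h1 h2 h
      have hmem : ∀ k ∈ F, x ≤ ((C.stab x0).sd b).E k →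
          pt x0 b x (((C.stab x0).sd b).h k x) ∈ C.seg k := by
        intro k hk hx
        rw [mem_seg hC, stab_h]
        cases b
        · simp only [stab, Stab.sd, pt, Bool.false_eq_true, if_false] at hx ⊢
          exact ⟨by linarith, by linarith [(hF k hk).2], trivial⟩
        · simp only [stab, Stab.sd, pt, if_true] at hx ⊢
          exact ⟨by linarith [(hF k hk).1], by linarith, trivial⟩
      have h3 := hmem i hi h1
      have h4 := hmem j hj h2
      rw [← h] at h4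
      exact Set.disjoint_left.1 (hC.dis i j hij) h3 h4
  · intro i _ j _ hij
    exact hC.slope_ne i j hij

theorem link_eq {u v : ι × Bool} (h : v.2 = !u.2) :
    C.link u v = segment ℝ (C.V u.2 u.1) (C.V u.2 v.1) := by
  unfold link en st V
  rw [h]
  cases u.2 <;> simp

/-- a point of a link on the side `b` -/
theorem mem_link (hC : C.GP) {x0 : ℝ} {F : Set ι} (hZ : (C.stab x0).Ok F) {b : Bool} {i j : ι}
    (hi : i ∈ F) (hj : j ∈ F) (hij : i ≠ j) {z : ℝ × ℝ}
    (hz : z ∈ segment ℝ (C.V b i) (C.V b j)) :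
    ∃ ξ, min (((C.stab x0).sd b).E i) (((C.stab x0).sd b).E j) ≤ ξ ∧
      ξ ≤ max (((C.stab x0).sd b).E i) (((C.stab x0).sd b).E j) ∧
      z = pt x0 b ξ (((C.stab x0).sd b).lk i j ξ) := by
  rw [V_eq hC x0, V_eq hC x0] at hz
  exact seg_param ((hZ.ok b).inj i hi j hj hij) hz

/-- abscissas on the two sides are different -/
theorem pt_ne {x0 : ℝ} {b b' : Bool} (hb : b ≠ b') {ξ η ξ' η' : ℝ} (h : 0 < ξ) (h' : 0 < ξ') :
    pt x0 b ξ η ≠ pt x0 b' ξ' η' := by
  intro he
  have h1 := congrArg Prod.fst he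
  cases b <;> cases b' <;> simp only [pt, if_true, Bool.false_eq_true, if_false] at h1
  · exact hb rfl
  · linarith
  · linarith
  · exact hb rfl

theorem link_disjoint_seg (hC : C.GP) {x0 : ℝ} {F : Set ι} (hZ : (C.stab x0).Ok F) {b : Bool}
    {i j t : ι} (hi : i ∈ F) (hj : j ∈ F) (hij : i ≠ j)
    (n : ((C.stab x0).sd b).NT i j t) :
    Disjoint (segment ℝ (C.V b i) (C.V b j)) (C.seg t) := by
  rw [Set.disjoint_left]
  intro z hz hz'
  obtain ⟨ξ, h1, h2, rfl⟩ := mem_link hC hZ hi hj hij hz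
  obtain ⟨h3, h4⟩ := mem_seg_side hC hz'
  exact n ξ h1 h2 h3 h4

/-- links of a zigzag are disjoint -/
theorem link_disjoint_link (hC : C.GP) {x0 : ℝ} {F : Set ι} (hZ : (C.stab x0).Ok F)
    {w : List (ι × Bool)} (hw : (C.stab x0).Zig w) (hwF : ∀ t ∈ w, t.1 ∈ F)
    {u v u' v' : ι × Bool} (h : [u, v] <:+: w) (h' : [u', v'] <:+: w) (hne : u ≠ u') :
    Disjoint (C.link u v) (C.link u' v') := by
  have hlt : ∀ {u v u' v' : ι × Bool}, [u, v] <:+: w → [u', v'] <:+: w → u ≠ u' →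
      u.2 = u'.2 → (C.stab x0).y u'.1 < (C.stab x0).y u.1 →
      ∀ z, z ∈ C.link u v → z ∈ C.link u' v' → False := by
    intro u v u' v' h h' hne hs hy z hz hz'
    have huv := hw.adj h
    have huv' := hw.adj h'
    rw [link_eq huv.1] at hz
    rw [link_eq huv'.1, ← hs] at hz'
    have hu := hwF u (adj_mem_left h)
    have hv := hwF v (adj_mem_right h)
    have hu' := hwF u' (adj_mem_left h')
    have hv' := hwF v' (adj_mem_right h')
    have hne1 : u.1 ≠ v.1 := fun h => by have := huv.2; rw [h] at this; exact lt_irrefl _ this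
    have hne2 : u'.1 ≠ v'.1 := fun h => by have := huv'.2; rw [h] at this; exact lt_irrefl _ this
    obtain ⟨ξ, h1, h2, h3⟩ := mem_link hC hZ hu hv hne1 hz
    obtain ⟨ξ', h1', h2', h3'⟩ := mem_link hC hZ hu' hv' hne2 hz'
    obtain ⟨h4, h5⟩ := pt_inj (h3.symm.trans h3')
    subst h4
    have hvu' : v ≠ u' := fun h => by
      have := huv.1; rw [h, hs] at this; revert this; cases u'.2 <;> simp
    have hbelow : (C.stab x0).y u'.1 < (C.stab x0).y v.1 := by
      rcases pairwise_adj hw.pw h (adj_mem_left h') with h | h | ⟨h, _⟩ | ⟨_, h⟩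
      · exact absurd h.symm hne
      · exact absurd h.symm hvu'
      · exact absurd h (lt_asymm hy)
      · exact h
    have hneq : ∀ {a c : ι × Bool}, (C.stab x0).y a.1 < (C.stab x0).y c.1 → a ≠ c :=
      fun h h' => by rw [h'] at h; exact lt_irrefl _ h
    have hy1 := huv'.2
    have n1 := hw.nt u v h u' (adj_mem_left h') (hneq hy) (hneq hbelow)
    have n2 := hw.nt u v h v' (adj_mem_right h') (hneq (hy1.trans hy)) (hneq (hy1.trans hbelow))
    have n3 := hw.nt u' v' h' u (adj_mem_left h) (hneq hy).symm (hneq (hy1.trans hy)).symm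
    have n4 := hw.nt u' v' h' v (adj_mem_right h) (hneq hbelow).symm
      (hneq (hy1.trans hbelow)).symm
    rw [← hs] at n3 n4
    have := (hZ.ok u.2).lk_lt_lk hu hv hu' hv' (by simpa using hy) (by simpa using hbelow)
      (by simpa using hy1.trans hy) (by simpa using hy1.trans hbelow) hne1 hne2 n1 n2 n3 n4
      h1 h2 h1' h2'
    exact this.ne' h5
  rw [Set.disjoint_left]
  intro z hz hz'
  by_cases hs : u.2 = u'.2
  · have hy : (C.stab x0).y u.1 ≠ (C.stab x0).y u'.1 :=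
      hw.y_ne (adj_mem_left h) (adj_mem_left h') hne
    rcases lt_or_gt_of_ne hy with hy | hy
    · exact hlt h' h hne.symm hs.symm hy z hz' hz
    · exact hlt h h' hne hs hy z hz hz'
  · have huv := hw.adj h
    have huv' := hw.adj h'
    rw [link_eq huv.1] at hz
    rw [link_eq huv'.1] at hz'
    have hne1 : u.1 ≠ v.1 := fun h => by have := huv.2; rw [h] at this; exact lt_irrefl _ this
    have hne2 : u'.1 ≠ v'.1 := fun h => by have := huv'.2; rw [h] at this; exact lt_irrefl _ this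
    obtain ⟨ξ, h1, h2, h3⟩ := mem_link hC hZ (hwF u (adj_mem_left h)) (hwF v (adj_mem_right h))
      hne1 hz
    obtain ⟨ξ', h1', h2', h3'⟩ := mem_link hC hZ (hwF u' (adj_mem_left h'))
      (hwF v' (adj_mem_right h')) hne2 hz'
    have hp : 0 < ξ := lt_of_lt_of_le (lt_min ((hZ.ok _).pos _ (hwF u (adj_mem_left h)))
      ((hZ.ok _).pos _ (hwF v (adj_mem_right h)))) h1
    have hp' : 0 < ξ' := lt_of_lt_of_le (lt_min ((hZ.ok _).pos _ (hwF u' (adj_mem_left h')))
      ((hZ.ok _).pos _ (hwF v' (adj_mem_right h')))) h1'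
    exact pt_ne hs hp hp' (h3.symm.trans h3')

/-- a zigzag is a good list -/
theorem good_of_zig (hC : C.GP) {x0 : ℝ} {F : Set ι} (hZ : (C.stab x0).Ok F)
    {w : List (ι × Bool)} (hw : (C.stab x0).Zig w) (hwF : ∀ t ∈ w, t.1 ∈ F) : C.Good w := by
  refine ⟨hw.nodup_fst, ?_, fun u v u' v' h h' hne => link_disjoint_link hC hZ hw hwF h h' hne⟩
  intro u v h t ht htu htv
  have huv := hw.adj h
  rw [link_eq huv.1]
  have hne1 : u.1 ≠ v.1 := fun h => by have := huv.2; rw [h] at this; exact lt_irrefl _ this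
  exact link_disjoint_seg hC hZ (hwF u (adj_mem_left h)) (hwF v (adj_mem_right h)) hne1
    (hw.nt u v h t ht htu htv)

end Cfg

end Pool.Agent.Lib.ALT
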