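/-
Project ALT: attaching a zigzag to outer points on both sides.
-/
import Pool.Agent.Lib.ALT.Geo

set_option autoImplicit false

noncomputable section

namespace Pool.Agent.Lib.ALT

open Stab

/-- conditions under which the end point of `i` on the side `b` can be linked to the outer point
`(X, Y)` -/
structure AttOk {ι : Type*} (Z : Stab ι) (b : Bool) (T : List (ι × Bool)) (i : ι × Bool)
    (X Y : ℝ) : Prop where
  out : ∀ t ∈ T, (Z.sd b).E t.1 < X
  cond : (∀ t ∈ T, t ≠ i → (Z.sd b).E t.1 < (Z.sd b).E i.1) ∨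
    (∀ t ∈ T, t ≠ i → Z.y i.1 < Z.y t.1 ∧ Y < (Z.sd b).h t.1 X) ∨
    (∀ t ∈ T, t ≠ i → Z.y t.1 < Z.y i.1 ∧ (Z.sd b).h t.1 X < Y)

namespace Cfg

variable {ι : Type*} {C : Cfg ι}

theorem st_eq (u : ι × Bool) : C.st u = C.V (!u.2) u.1 := by
  unfold st V; cases u.2 <;> simp

theorem en_eq (u : ι × Bool) : C.en u = C.V u.2 u.1 := rfl

theorem mem_att (hC : C.GP) {x0 : ℝ} {b : Bool} {i : ι} {X Y : ℝ}
    (hX : ((C.stab x0).sd b).E i < X) {z : ℝ × ℝ}
    (hz : z ∈ segment ℝ (C.V b i) (pt x0 b X Y)) :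
    ∃ ξ, ((C.stab x0).sd b).E i ≤ ξ ∧ ξ ≤ X ∧
      z = pt x0 b ξ (((C.stab x0).sd b).att i X Y ξ) := by
  rw [V_eq hC x0] at hz
  obtain ⟨ξ, h1, h2, h3⟩ := seg_param hX.ne hz
  rw [min_eq_left hX.le] at h1
  rw [max_eq_right hX.le] at h2
  exact ⟨ξ, h1, h2, h3⟩

theorem att_disjoint_seg (hC : C.GP) {x0 : ℝ} {F : Set ι} (hZ : (C.stab x0).Ok F)
    {T : List (ι × Bool)} (hT : ∀ t ∈ T, t.1 ∈ F) {b : Bool} {i : ι × Bool} (hi : i ∈ T) {X Y : ℝ}
    (hA : AttOk (C.stab x0) b T i X Y) {t : ι × Bool} (ht : t ∈ T) (hti : t ≠ i) :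
    Disjoint (segment ℝ (C.V b i.1) (pt x0 b X Y)) (C.seg t.1) := by
  rw [Set.disjoint_left]
  intro z hz hz'
  obtain ⟨ξ, h1, h2, rfl⟩ := mem_att hC (hA.out i hi) hz
  obtain ⟨h3, h4⟩ := mem_seg_side hC hz'
  refine (hZ.ok b).att_ne_seg (hT i hi) (hT t ht) (hA.out i hi) ?_ h1 h2 h3 h4
  rcases hA.cond with h | h | h
  · exact Or.inl (h t ht hti)
  · exact Or.inr (Or.inl (by simpa using h t ht hti))
  · exact Or.inr (Or.inr (by simpa using h t ht hti))

theorem att_disjoint_link (hC : C.GP) {x0 : ℝ} {F : Set ι} (hZ : (C.stab x0).Ok F)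
    {T : List (ι × Bool)} (hw : (C.stab x0).Zig T) (hT : ∀ t ∈ T, t.1 ∈ F) {b : Bool}
    {i : ι × Bool} (hi : i ∈ T) {X Y : ℝ}
    (hA : AttOk (C.stab x0) b T i X Y) {u v : ι × Bool} (huv : [u, v] <:+: T)
    (hne : u.2 = b → u ≠ i ∧ v ≠ i) :
    Disjoint (segment ℝ (C.V b i.1) (pt x0 b X Y)) (C.link u v) := by
  rw [Set.disjoint_left]
  intro z hz hz'
  have hu := adj_mem_left huv
  have hv := adj_mem_right huv
  have hadj := hw.adj huv
  have hne1 : u.1 ≠ v.1 := fun h => by have := hadj.2; rw [h] at this; exact lt_irrefl _ this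
  obtain ⟨ξ, h1, h2, h3⟩ := mem_att hC (hA.out i hi) hz
  rw [link_eq hadj.1] at hz'
  obtain ⟨ξ', h1', h2', h3'⟩ := mem_link hC hZ (hT u hu) (hT v hv) hne1 hz'
  by_cases hb : u.2 = b
  · obtain ⟨hui, hvi⟩ := hne hb
    subst hb
    obtain ⟨h4, h5⟩ := pt_inj (h3.symm.trans h3')
    subst h4
    refine (hZ.ok u.2).att_ne_lk (hT i hi) (hT u hu) (hT v hv) hne1 (hA.out i hi) (hA.out u hu)
      (hA.out v hv) (hw.nt u v huv i hi hui.symm hvi.symm) ?_ h1 h1' h2' h5
    rcases hA.cond with h | h | h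
    · exact Or.inl ⟨h u hu hui, h v hv hvi⟩
    · exact Or.inr (Or.inl (by simpa using ⟨h u hu hui, h v hv hvi⟩))
    · exact Or.inr (Or.inr (by simpa using ⟨h u hu hui, h v hv hvi⟩))
  · have hp : 0 < ξ := lt_of_lt_of_le ((hZ.ok _).pos _ (hT i hi)) h1
    have hp' : 0 < ξ' := lt_of_lt_of_le (lt_min ((hZ.ok _).pos _ (hT u hu))
      ((hZ.ok _).pos _ (hT v hv))) h1'
    exact pt_ne (Ne.symm hb) hp hp' (h3.symm.trans h3')

theorem link_rev (u v : ι × Bool) : C.link (v.1, !v.2) (u.1, !u.2) = C.link u v := by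
  unfold link
  rw [segment_symm]
  simp only [st_eq, en_eq, Bool.not_not]

theorem good_rev {w : List (ι × Bool)} (hw : C.Good w) : C.Good (rev w) := by
  have hinj : ∀ {a c : ι × Bool}, a ≠ c → ((a.1, !a.2) : ι × Bool) ≠ (c.1, !c.2) := by
    intro a c h h'
    apply h
    have h3 := congrArg Prod.fst h'
    have h4 := congrArg Prod.snd h'
    exact Prod.ext h3 (by simpa using h4)
  have hl : ∀ u v : ι × Bool, C.link u v = C.link (v.1, !v.2) (u.1, !u.2) :=
    fun u v => (link_rev u v).symm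
  refine ⟨?_, ?_, ?_⟩
  · have : (rev w).map Prod.fst = (w.map Prod.fst).reverse := by
      unfold rev
      rw [List.map_reverse, List.map_map]; rfl
    rw [this, List.nodup_reverse]
    exact hw.nodup
  · intro u v huv t ht htu htv
    rw [hl]
    exact hw.ls _ _ (adj_rev.1 huv) (t.1, !t.2) (mem_rev.1 ht) (hinj htv) (hinj htu)
  · intro u v u' v' huv huv' hne
    rw [hl u v, hl u' v']
    refine hw.ll _ _ _ _ (adj_rev.1 huv) (adj_rev.1 huv') ?_
    intro h
    -- the predecessors agree, so do the elements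
    have h1 := adj_rev.1 huv
    have h2 := adj_rev.1 huv'
    rw [h] at h1
    have h3 := adj_right_unique hw.nodup.of_map h1 h2
    exact hinj hne h3

/-- group path from a zigzag -/
theorem gpath_of_zig (hC : C.GP) {x0 : ℝ} {F : Set ι} (hZ : (C.stab x0).Ok F)
    {w : List (ι × Bool)} (hw : (C.stab x0).Zig w) (hT : ∀ t ∈ w, t.1 ∈ F) {a c : ι × Bool}
    (ha : w.head? = some a) (hc : w.getLast? = some c) (hac : c.2 = a.2) {X Y : Bool → ℝ}
    (hA : AttOk (C.stab x0) (!a.2) w a (X (!a.2)) (Y (!a.2)))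
    (hB : AttOk (C.stab x0) c.2 w c (X c.2) (Y c.2)) :
    C.GPath (pt x0 false (X false) (Y false)) (pt x0 true (X true) (Y true))
      (if a.2 then w else rev w) := by
  have haw := List.mem_of_head? ha
  have hcw := List.mem_of_getLast? hc
  -- `a` is on top and `c` at the bottom
  have htop : ∀ t ∈ w, t ≠ a → (C.stab x0).y t.1 < (C.stab x0).y a.1 := by
    intro t ht hta
    obtain ⟨w', rfl⟩ : ∃ w', w = a :: w' := by
      cases w with
      | nil => simp at ha
      | cons c' w' => simp only [List.head?_cons, Option.some.injEq] at ha; exact ⟨w', by rw [ha]⟩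
    rcases List.mem_cons.1 ht with h5 | h5
    · exact absurd h5 hta
    · exact (List.pairwise_cons.1 hw.pw).1 t h5
  have hbot : ∀ t ∈ w, t ≠ c → (C.stab x0).y c.1 < (C.stab x0).y t.1 := by
    intro t ht htc
    obtain ⟨w', rfl⟩ : ∃ w', w = w' ++ [c] := by
      rw [List.getLast?_eq_some_iff] at hc; exact hc
    have h4 := hw.pw
    rw [List.pairwise_append] at h4
    rcases List.mem_append.1 ht with h5 | h5
    · exact h4.2.2 t h5 c (by simp)
    · exact absurd (by simpa using h5) htc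
  have hneA : ∀ u v, [u, v] <:+: w → u.2 = (!a.2) → u ≠ a ∧ v ≠ a := by
    intro u v huv hu
    refine ⟨fun h => ?_, fun h => ?_⟩
    · rw [h] at hu; revert hu; cases a.2 <;> simp
    · have h1 := (hw.adj huv).2
      rw [h] at h1
      by_cases hua : u = a
      · rw [hua] at h1; exact lt_irrefl _ h1
      · exact lt_asymm h1 (htop u (adj_mem_left huv) hua)
  have hneC : ∀ u v, [u, v] <:+: w → u.2 = c.2 → u ≠ c ∧ v ≠ c := by
    intro u v huv hu
    refine ⟨fun h => ?_, fun h => ?_⟩
    · have h1 := (hw.adj huv).2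
      rw [h] at h1
      by_cases hvc : v = c
      · rw [hvc] at h1; exact lt_irrefl _ h1
      · exact lt_asymm h1 (hbot v (adj_mem_right huv) hvc)
    · have h1 := (hw.adj huv).1
      rw [h, hu] at h1; revert h1; cases c.2 <;> simp
  -- the four disjointness statements
  have sA : ∀ t ∈ w, t ≠ a →
      Disjoint (segment ℝ (C.V (!a.2) a.1) (pt x0 (!a.2) (X (!a.2)) (Y (!a.2)))) (C.seg t.1) :=
    fun t ht hta => att_disjoint_seg hC hZ hT haw hA ht hta
  have lA : ∀ u v, [u, v] <:+: w →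
      Disjoint (segment ℝ (C.V (!a.2) a.1) (pt x0 (!a.2) (X (!a.2)) (Y (!a.2)))) (C.link u v) :=
    fun u v huv => att_disjoint_link hC hZ hw hT haw hA huv (hneA u v huv)
  have sB : ∀ t ∈ w, t ≠ c →
      Disjoint (segment ℝ (C.V c.2 c.1) (pt x0 c.2 (X c.2) (Y c.2))) (C.seg t.1) :=
    fun t ht htc => att_disjoint_seg hC hZ hT hcw hB ht htc
  have lB : ∀ u v, [u, v] <:+: w →
      Disjoint (segment ℝ (C.V c.2 c.1) (pt x0 c.2 (X c.2) (Y c.2))) (C.link u v) :=
    fun u v huv => att_disjoint_link hC hZ hw hT hcw hB huv (hneC u v huv)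
  have hgood := good_of_zig hC hZ hw hT
  -- the two outer links are on different sides
  have cr : Disjoint (segment ℝ (C.V (!a.2) a.1) (pt x0 (!a.2) (X (!a.2)) (Y (!a.2))))
      (segment ℝ (C.V c.2 c.1) (pt x0 c.2 (X c.2) (Y c.2))) := by
    rw [Set.disjoint_left]
    intro z hz hz'
    obtain ⟨ξ, h1, h2, h3⟩ := mem_att hC (hA.out a haw) hz
    obtain ⟨ξ', h1', h2', h3'⟩ := mem_att hC (hB.out c hcw) hz'
    have hp : 0 < ξ := lt_of_lt_of_le ((hZ.ok _).pos _ (hT a haw)) h1
    have hp' : 0 < ξ' := lt_of_lt_of_le ((hZ.ok _).pos _ (hT c hcw)) h1'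
    exact pt_ne (by rw [hac]; cases a.2 <;> simp) hp hp' (h3.symm.trans h3')
  have outX : ∀ t ∈ w, (pt x0 false (X false) (Y false)).1 < (C.P t.1).1 ∧
      (C.Q t.1).1 < (pt x0 true (X true) (Y true)).1 := by
    intro t ht
    have h1 := hA.out t ht
    have h2 := hB.out t ht
    rw [hac] at h2
    cases ha2 : a.2 <;> rw [ha2] at h1 h2 <;>
      simp only [stab, sd, pt, if_true, Bool.false_eq_true, if_false, Bool.not_true,
        Bool.not_false] at h1 h2 ⊢ <;> constructor <;> linarith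
  cases ha2 : a.2
  · -- reversed
    rw [hac, ha2] at sB lB cr
    rw [ha2] at sA lA
    simp only [Bool.not_false] at sA lA cr
    simp only [Bool.false_eq_true, if_false]
    have hhead : (rev w).head? = some (c.1, true) := by
      unfold rev
      rw [List.head?_reverse, List.getLast?_map, hc, Option.map_some, hac, ha2]; rfl
    have hlast : (rev w).getLast? = some (a.1, true) := by
      unfold rev
      rw [List.getLast?_reverse, List.head?_map, ha, Option.map_some, ha2]; rfl
    have hlr : ∀ u v : ι × Bool, C.link u v = C.link (v.1, !v.2) (u.1, !u.2) :=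
      fun u v => (link_rev u v).symm
    have hcne : ∀ t : ι × Bool, t ≠ (c.1, true) → (t.1, !t.2) ≠ c := by
      intro t h h'
      apply h
      have h3 := congrArg Prod.fst h'
      have h4 := congrArg Prod.snd h'
      rw [hac, ha2] at h4
      exact Prod.ext h3 (by simpa using h4)
    have hane : ∀ t : ι × Bool, t ≠ (a.1, true) → (t.1, !t.2) ≠ a := by
      intro t h h'
      apply h
      have h3 := congrArg Prod.fst h'
      have h4 := congrArg Prod.snd h'
      rw [ha2] at h4
      exact Prod.ext h3 (by simpa using h4)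
    refine ⟨good_rev hgood, ?_, ?_, ?_, ?_, ?_, ?_, ?_, ?_⟩
    · intro h; rw [h] at hhead; simp at hhead
    · intro t ht; exact (outX _ (mem_rev.1 ht)).1
    · intro t ht; exact (outX _ (mem_rev.1 ht)).2
    · intro a' ha'
      rw [hhead, Option.mem_some_iff] at ha'
      subst ha'
      refine ⟨rfl, fun t ht hta => ?_⟩
      rw [segment_symm, st_eq]
      exact sB (t.1, !t.2) (mem_rev.1 ht) (hcne t hta)
    · intro a' ha' u v huv
      rw [hhead, Option.mem_some_iff] at ha'
      subst ha'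
      rw [segment_symm, st_eq, hlr]
      exact lB _ _ (adj_rev.1 huv)
    · intro a' ha'
      rw [hlast, Option.mem_some_iff] at ha'
      subst ha'
      refine ⟨rfl, fun t ht hta => ?_⟩
      exact sA (t.1, !t.2) (mem_rev.1 ht) (hane t hta)
    · intro a' ha' u v huv
      rw [hlast, Option.mem_some_iff] at ha'
      subst ha'
      rw [hlr]
      exact lA _ _ (adj_rev.1 huv)
    · intro a' ha' b' hb'
      rw [hhead, Option.mem_some_iff] at ha'
      rw [hlast, Option.mem_some_iff] at hb'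
      subst ha' hb'
      rw [segment_symm, st_eq]
      exact cr.symm
  · rw [hac, ha2] at sB lB cr
    rw [ha2] at sA lA
    simp only [Bool.not_true] at sA lA cr
    simp only [if_true]
    refine ⟨hgood, ?_, ?_, ?_, ?_, ?_, ?_, ?_, ?_⟩
    · intro h; rw [h] at ha; simp at ha
    · intro t ht; exact (outX _ ht).1
    · intro t ht; exact (outX _ ht).2
    · intro a' ha'
      rw [ha, Option.mem_some_iff] at ha'
      subst ha'
      refine ⟨ha2, fun t ht hta => ?_⟩
      rw [segment_symm, st_eq, ha2]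
      exact sA t ht hta
    · intro a' ha' u v huv
      rw [ha, Option.mem_some_iff] at ha'
      subst ha'
      rw [segment_symm, st_eq, ha2]
      exact lA _ _ huv
    · intro a' ha'
      rw [hc, Option.mem_some_iff] at ha'
      subst ha'
      refine ⟨hac.trans ha2, fun t ht hta => ?_⟩
      rw [en_eq, hac, ha2]
      exact sB t ht hta
    · intro a' ha' u v huv
      rw [hc, Option.mem_some_iff] at ha'
      subst ha'
      rw [en_eq, hac, ha2]
      exact lB _ _ huv
    · intro a' ha' b' hb'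
      rw [ha, Option.mem_some_iff] at ha'
      rw [hc, Option.mem_some_iff] at hb'
      subst ha' hb'
      rw [segment_symm, st_eq, en_eq, hac, ha2]
      exact cr

end Cfg

end Pool.Agent.Lib.ALT
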