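/-
Project ALT: group paths in a stabbed family.
-/
import Pool.Agent.Lib.ALT.Attach

set_option autoImplicit false

noncomputable section

namespace Pool.Agent.Lib.ALT

open Stab

/-- the constant of the group theorem -/
def K0 : ℕ := 10 ^ 8

/-- reflection of the plane in the horizontal axis -/
def refl : (ℝ × ℝ) →ₗ[ℝ] (ℝ × ℝ) := LinearMap.prodMap LinearMap.id (-LinearMap.id)

@[simp] theorem refl_fst (z : ℝ × ℝ) : (refl z).1 = z.1 := rfl
@[simp] theorem refl_snd (z : ℝ × ℝ) : (refl z).2 = -z.2 := rfl

theorem refl_inj : Function.Injective refl := by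
  intro z z' h
  have h1 := congrArg Prod.fst h
  have h2 := congrArg Prod.snd h
  simp only [refl_fst] at h1
  simp only [refl_snd, neg_inj] at h2
  exact Prod.ext h1 h2

theorem refl_segment (p q : ℝ × ℝ) : segment ℝ (refl p) (refl q) = refl '' segment ℝ p q :=
  (image_segment ℝ refl.toAffineMap p q).symm

theorem refl_disjoint {s t : Set (ℝ × ℝ)} : Disjoint (refl '' s) (refl '' t) ↔ Disjoint s t :=
  Set.disjoint_image_iff refl_inj

namespace Cfg

variable {ι : Type*} {C : Cfg ι}

/-- reflected configuration -/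
def flipY (C : Cfg ι) : Cfg ι := ⟨fun i => refl (C.P i), fun i => refl (C.Q i)⟩

theorem flipY_slope (i : ι) : C.flipY.slope i = -C.slope i := by
  simp only [slope, flipY, refl_fst, refl_snd]
  ring

theorem flipY_ht (i : ι) (x : ℝ) : C.flipY.ht i x = -C.ht i x := by
  simp only [ht, flipY_slope]
  simp only [flipY, refl_fst, refl_snd]
  ring

theorem flipY_seg (i : ι) : C.flipY.seg i = refl '' C.seg i := refl_segment _ _

theorem flipY_st (u : ι × Bool) : C.flipY.st u = refl (C.st u) := by
  unfold st flipY; split_ifs <;> rfl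

theorem flipY_en (u : ι × Bool) : C.flipY.en u = refl (C.en u) := by
  unfold en flipY; split_ifs <;> rfl

theorem flipY_link (u v : ι × Bool) : C.flipY.link u v = refl '' C.link u v := by
  unfold link
  rw [flipY_en, flipY_st, refl_segment]

theorem GP.flipY (hC : C.GP) : C.flipY.GP := by
  refine ⟨hC.lt, ?_, hC.PP, hC.PQ, hC.QQ, ?_, ?_, ?_⟩
  · intro i j hij
    rw [flipY_seg, flipY_seg, refl_disjoint]; exact hC.dis i j hij
  · intro i j hij
    rw [flipY_slope, flipY_slope, ne_eq, neg_inj]; exact hC.slope_ne i j hij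
  · intro i j hij
    rw [flipY_ht]
    intro h
    exact hC.P_off i j hij (neg_injective h)
  · intro i j hij
    rw [flipY_ht]
    intro h
    exact hC.Q_off i j hij (neg_injective h)

theorem Good.of_flipY {w : List (ι × Bool)} (h : C.flipY.Good w) : C.Good w := by
  refine ⟨h.nodup, ?_, ?_⟩
  · intro u v huv t ht htu htv
    have := h.ls u v huv t ht htu htv
    rwa [flipY_link, flipY_seg, refl_disjoint] at this
  · intro u v u' v' huv huv' hne
    have := h.ll u v u' v' huv huv' hne
    rwa [flipY_link, flipY_link, refl_disjoint] at this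

theorem GPath.of_flipY {z z' : ℝ × ℝ} {w : List (ι × Bool)}
    (h : C.flipY.GPath (refl z) (refl z') w) : C.GPath z z' w := by
  refine ⟨h.good.of_flipY, h.ne, h.left, h.right, ?_, ?_, ?_, ?_, ?_⟩
  · intro a ha
    refine ⟨(h.headSeg a ha).1, fun t ht hta => ?_⟩
    have := (h.headSeg a ha).2 t ht hta
    rwa [flipY_st, refl_segment, flipY_seg, refl_disjoint] at this
  · intro a ha u v huv
    have := h.headLink a ha u v huv
    rwa [flipY_st, refl_segment, flipY_link, refl_disjoint] at this
  · intro a ha
    refine ⟨(h.lastSeg a ha).1, fun t ht hta => ?_⟩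
    have := (h.lastSeg a ha).2 t ht hta
    rwa [flipY_en, refl_segment, flipY_seg, refl_disjoint] at this
  · intro a ha u v huv
    have := h.lastLink a ha u v huv
    rwa [flipY_en, refl_segment, flipY_link, refl_disjoint] at this
  · intro a ha b hb
    have := h.cross a ha b hb
    rwa [flipY_st, flipY_en, refl_segment, refl_segment, refl_disjoint] at this

/-- the last element of a chain of alternating orientations -/
theorem last_orient : ∀ (w : List (ι × Bool)) (a c : ι × Bool),
    (a :: w).IsChain (fun u v => v.2 = !u.2) → (a :: w).getLast? = some c → Even w.length →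
    c.2 = a.2
  | [], a, c, _, h, _ => by
    rw [List.getLast?_singleton, Option.some.injEq] at h
    rw [h]
  | [b], a, c, _, _, he => by simp at he
  | b :: d :: w, a, c, hch, h, he => by
    rw [List.getLast?_cons_cons, List.getLast?_cons_cons] at h
    have h1 : (d :: w).IsChain (fun u v : ι × Bool => v.2 = !u.2) := hch.tail.tail
    have h2 := last_orient w d c h1 h (by
      rw [List.length_cons, List.length_cons] at he
      have := Nat.even_add (m := w.length) (n := 2)
      rw [show w.length + 1 + 1 = w.length + 2 from rfl, this] at he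
      exact he.2 (by norm_num))
    have h3 : b.2 = !a.2 := IsChain.adj hch (adj_cons.2 (Or.inl ⟨rfl, rfl⟩))
    have h4 : d.2 = !b.2 := IsChain.adj hch.tail (adj_cons.2 (Or.inl ⟨rfl, rfl⟩))
    rw [h2, h4, h3, Bool.not_not]

/-- a zigzag of odd length, at least half as long, with the same head -/
theorem exists_odd {Z : Stab ι} {a : ι × Bool} {w : List (ι × Bool)} (hw : Z.Zig (a :: w)) :
    ∃ (w' : List (ι × Bool)) (c : ι × Bool), a :: w' <+: a :: w ∧ Z.Zig (a :: w') ∧
      (a :: w').getLast? = some c ∧ c.2 = a.2 ∧ (a :: w).length ≤ 2 * (a :: w').length := by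
  have key : ∀ w' : List (ι × Bool), a :: w' <+: a :: w → Even w'.length →
      (a :: w).length ≤ 2 * (a :: w').length →
      ∃ (w' : List (ι × Bool)) (c : ι × Bool), a :: w' <+: a :: w ∧ Z.Zig (a :: w') ∧
      (a :: w').getLast? = some c ∧ c.2 = a.2 ∧ (a :: w).length ≤ 2 * (a :: w').length := by
    intro w' h1 h2 h3
    have h4 := hw.of_sub h1.isInfix
    obtain ⟨c, hc⟩ : ∃ c, (a :: w').getLast? = some c := by
      rw [← Option.isSome_iff_exists, List.getLast?_isSome]; simp
    exact ⟨w', c, h1, h4, hc, last_orient w' a c (h4.ch.imp (fun _ _ h => h.1)) hc h2, h3⟩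
  by_cases he : Even w.length
  · exact key w (List.prefix_refl _) he (by omega)
  · refine key w.dropLast (List.prefix_cons_inj a |>.2 (List.dropLast_prefix w)) ?_ ?_
    · rw [List.length_dropLast]
      rw [Nat.not_even_iff_odd] at he
      obtain ⟨k, hk⟩ := he
      exact ⟨k, by omega⟩
    · rw [List.length_cons, List.length_cons, List.length_dropLast]
      rw [Nat.not_even_iff_odd] at he
      obtain ⟨k, hk⟩ := he
      omega

variable [DecidableEq ι]

theorem group_aux (hC : C.GP) {F : Finset ι} (hF : F.Nonempty) {x0 : ℝ}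
    (hx0 : ∀ i ∈ F, (C.P i).1 < x0 ∧ x0 < (C.Q i).1) {z z' : ℝ × ℝ}
    (hz : ∀ i ∈ F, z.1 < (C.P i).1) (hz' : ∀ i ∈ F, (C.Q i).1 < z'.1)
    (hb : ∀ i ∈ F, z.2 < C.ht i z.1)
    (hb' : (∀ i ∈ F, z'.2 < C.ht i z'.1) ∨ (∀ i ∈ F, C.ht i z'.1 < z'.2)) :
    ∃ w p : List (ι × Bool), C.GPath z z' w ∧ (∀ t ∈ w, t.1 ∈ F) ∧ C.Good p ∧
      (∀ t ∈ p, t.1 ∈ F) ∧ F.card ≤ 400000 * (w.length * p.length) := by
  have hZ : (C.stab x0).Ok (F : Set ι) := stab_ok hC (fun i hi => hx0 i hi)
  set X : Bool → ℝ := fun b => if b then z'.1 - x0 else x0 - z.1 with hX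
  set Y : Bool → ℝ := fun b => if b then z'.2 else z.2 with hY
  have hzX : pt x0 false (X false) (Y false) = z := by
    simp only [pt, hX, hY, Bool.false_eq_true, if_false]
    exact Prod.ext (by simp) rfl
  have hzX' : pt x0 true (X true) (Y true) = z' := by
    simp only [pt, hX, hY, if_true]
    exact Prod.ext (by simp) rfl
  have hout : ∀ b, ∀ i ∈ F, ((C.stab x0).sd b).E i < X b := by
    intro b i hi
    cases b
    · simp only [hX, stab, sd, Bool.false_eq_true, if_false]; linarith [hz i hi]
    · simp only [hX, stab, sd, if_true]; linarith [hz' i hi]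
  have hhX : ∀ b, ∀ i, ((C.stab x0).sd b).h i (X b) =
      C.ht i (if b then z'.1 else z.1) := by
    intro b i
    rw [stab_h]
    cases b
    · simp only [pt, hX, Bool.false_eq_true, if_false, sub_sub_cancel]
    · simp only [pt, hX, if_true, add_sub_cancel]
  have hlist : ∀ {w : List (ι × Bool)}, (∀ t ∈ w, t.1 ∈ F) → ∀ b : Bool,
      ∀ t ∈ (if b then w else rev w), t.1 ∈ F := by
    intro w hw b t ht
    cases b
    · simp only [Bool.false_eq_true, if_false] at ht
      exact hw (t.1, !t.2) (mem_rev.1 ht)
    · simp only [if_true] at ht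
      exact hw t ht
  have hlen : ∀ (w : List (ι × Bool)) (b : Bool), (if b then w else rev w).length = w.length := by
    intro w b
    cases b
    · simp [length_rev]
    · simp
  have hbelow : ∀ {w : List (ι × Bool)} {c : ι × Bool}, (C.stab x0).Zig w →
      w.getLast? = some c → ∀ t ∈ w, t ≠ c → (C.stab x0).y c.1 < (C.stab x0).y t.1 := by
    intro w c hw hc t ht htc
    obtain ⟨w', rfl⟩ : ∃ w', w = w' ++ [c] := by
      rw [List.getLast?_eq_some_iff] at hc; exact hc
    have h4 := hw.pw
    rw [List.pairwise_append] at h4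
    rcases List.mem_append.1 ht with h5 | h5
    · exact h4.2.2 t h5 c (by simp)
    · exact absurd (by simpa using h5) htc
  rcases hb' with hb' | hb'
  · -- both outer points are below
    have hYlt : ∀ b, ∀ i ∈ F, Y b < ((C.stab x0).sd b).h i (X b) := by
      intro b i hi
      rw [hhX]
      cases b
      · simp only [hY, Bool.false_eq_true, if_false]; exact hb i hi
      · simp only [hY, if_true]; exact hb' i hi
    obtain ⟨a, w, p, hw1, hw2, hw3, hp1, hp2, hcard⟩ := key hZ (A := F) le_rfl hF
    obtain ⟨w', c, h1, h2, h3, h4, h5⟩ := exists_odd hw1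
    have hw'F : ∀ t ∈ a :: w', t.1 ∈ F := fun t ht => hw2 t (h1.subset ht)
    have hG := gpath_of_zig (X := X) (Y := Y) hC hZ h2 hw'F (a := a) (c := c) rfl h3 h4
      ⟨fun t ht => hout _ _ (hw'F t ht), Or.inl (fun t ht hta => by
        rcases List.mem_cons.1 (h1.subset ht) with h | h
        · exact absurd h hta
        · exact hw3 t h)⟩
      ⟨fun t ht => hout _ _ (hw'F t ht), Or.inr (Or.inl (fun t ht htc =>
        ⟨hbelow h2 h3 t ht htc, hYlt _ _ (hw'F t ht)⟩))⟩
    rw [hzX, hzX'] at hG
    refine ⟨_, p, hG, hlist hw'F _, good_of_zig hC hZ hp1 hp2, hp2, ?_⟩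
    rw [hlen]
    calc F.card ≤ 200000 * ((a :: w).length * p.length) := hcard
      _ ≤ 200000 * ((2 * (a :: w').length) * p.length) := by gcongr
      _ = 400000 * ((a :: w').length * p.length) := by ring
  · -- `z` below, `z'` above
    obtain ⟨w0, hw1, hw0, hw2, hw3, hcard⟩ := sqrt_zig hZ (K := F) le_rfl hF false
    obtain ⟨a, w, rfl⟩ : ∃ a w, w0 = a :: w := by
      cases w0 with
      | nil => exact absurd rfl hw0
      | cons a w => exact ⟨a, w, rfl⟩
    have ha2 : a.2 = false := hw3 a rfl
    obtain ⟨w', c, h1, h2, h3, h4, h5⟩ := exists_odd hw1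
    have hw'F : ∀ t ∈ a :: w', t.1 ∈ F := fun t ht => hw2 t (h1.subset ht)
    have hG := gpath_of_zig (X := X) (Y := Y) hC hZ h2 hw'F (a := a) (c := c) rfl h3 h4
      ⟨fun t ht => hout _ _ (hw'F t ht), Or.inr (Or.inr (fun t ht hta => by
        refine ⟨?_, ?_⟩
        · rcases List.mem_cons.1 ht with h | h
          · exact absurd h hta
          · exact (List.pairwise_cons.1 h2.pw).1 t h
        · rw [hhX, ha2]
          simp only [Bool.not_false, if_true, hY]
          exact hb' _ (hw'F t ht)))⟩
      ⟨fun t ht => hout _ _ (hw'F t ht), Or.inr (Or.inl (fun t ht htc => by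
        refine ⟨hbelow h2 h3 t ht htc, ?_⟩
        rw [hhX, h4, ha2]
        simp only [Bool.false_eq_true, if_false, hY]
        exact hb _ (hw'F t ht)))⟩
    rw [hzX, hzX'] at hG
    refine ⟨_, a :: w, hG, hlist hw'F _, good_of_zig hC hZ hw1 hw2, hw2, ?_⟩
    rw [hlen]
    calc F.card ≤ 900 * (a :: w).length ^ 2 := hcard
      _ = 900 * ((a :: w).length * (a :: w).length) := by ring
      _ ≤ 900 * ((2 * (a :: w').length) * (a :: w).length) := by gcongr
      _ = 1800 * ((a :: w').length * (a :: w).length) := by ring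
      _ ≤ 400000 * ((a :: w').length * (a :: w).length) := by gcongr; norm_num

variable (C)

/-- In a family of segments stabbed by a vertical line, for given points `z` on the left and `z'`
on the right there are a group path `w` from `z` to `z'` and a good path `p` with
`|F| ≤ K0 |w| |p|`. -/
theorem group_path (hC : C.GP) {F : Finset ι} (hF : F.Nonempty)
    (stab : ∀ i ∈ F, ∀ j ∈ F, (C.P i).1 < (C.Q j).1) {z z' : ℝ × ℝ}
    (hz : ∀ i ∈ F, z.1 < (C.P i).1) (hz' : ∀ i ∈ F, (C.Q i).1 < z'.1)
    (hoff : ∀ i ∈ F, C.ht i z.1 ≠ z.2) (hoff' : ∀ i ∈ F, C.ht i z'.1 ≠ z'.2) :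
    ∃ w p : List (ι × Bool), C.GPath z z' w ∧ (∀ t ∈ w, t.1 ∈ F) ∧ C.Good p ∧
      (∀ t ∈ p, t.1 ∈ F) ∧ F.card ≤ K0 * (w.length * p.length) := by
  classical
  obtain ⟨i1, hi1, hmax⟩ := F.exists_max_image (fun i => (C.P i).1) hF
  obtain ⟨i2, hi2, hmin⟩ := F.exists_min_image (fun i => (C.Q i).1) hF
  have h12 := stab i1 hi1 i2 hi2
  set x0 := ((C.P i1).1 + (C.Q i2).1) / 2 with hx0
  have hx : ∀ i ∈ F, (C.P i).1 < x0 ∧ x0 < (C.Q i).1 := by
    intro i hi
    have := hmax i hi
    have := hmin i hi
    constructor <;> simp only [hx0] at * <;> linarith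
  -- the four classes
  set G : Bool → Bool → Finset ι := fun b b' => F.filter (fun i =>
    (if b then z.2 < C.ht i z.1 else C.ht i z.1 < z.2) ∧
    (if b' then z'.2 < C.ht i z'.1 else C.ht i z'.1 < z'.2)) with hG
  have hGF : ∀ b b', G b b' ⊆ F := fun b b' => Finset.filter_subset _ _
  have hcov : F ⊆ (G true true ∪ G true false) ∪ (G false true ∪ G false false) := by
    intro i hi
    simp only [hG, Finset.mem_union, Finset.mem_filter, if_true, Bool.false_eq_true, if_false]
    rcases lt_or_gt_of_ne (hoff i hi) with h1 | h1 <;> rcases lt_or_gt_of_ne (hoff' i hi) with h2 | h2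
    · exact Or.inr (Or.inr ⟨hi, h1, h2⟩)
    · exact Or.inr (Or.inl ⟨hi, h1, h2⟩)
    · exact Or.inl (Or.inr ⟨hi, h1, h2⟩)
    · exact Or.inl (Or.inl ⟨hi, h1, h2⟩)
  have hc1 := Finset.card_le_card hcov
  have hc2 := Finset.card_union_le (G true true ∪ G true false) (G false true ∪ G false false)
  have hc3 := Finset.card_union_le (G true true) (G true false)
  have hc4 := Finset.card_union_le (G false true) (G false false)
  have hpos := Finset.card_pos.2 hF
  obtain ⟨b, b', hbb⟩ : ∃ b b', F.card ≤ 4 * (G b b').card := by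
    by_contra hcon
    push Not at hcon
    have h1 := hcon true true
    have h2 := hcon true false
    have h3 := hcon false true
    have h4 := hcon false false
    omega
  have hne : (G b b').Nonempty := Finset.card_pos.1 (by omega)
  have hK : ∀ w p : List (ι × Bool), (G b b').card ≤ 400000 * (w.length * p.length) →
      F.card ≤ K0 * (w.length * p.length) := by
    intro w p h
    calc F.card ≤ 4 * (G b b').card := hbb
      _ ≤ 4 * (400000 * (w.length * p.length)) := Nat.mul_le_mul_left 4 h
      _ = 1600000 * (w.length * p.length) := by ring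
      _ ≤ K0 * (w.length * p.length) := Nat.mul_le_mul_right _ (by norm_num [K0])
  cases b
  · -- `z` is above: reflect
    obtain ⟨w, p, h1, h2, h3, h4, h5⟩ := group_aux (C := C.flipY) hC.flipY hne (x0 := x0)
      (fun i hi => hx i (hGF _ _ hi)) (z := refl z) (z' := refl z')
      (fun i hi => hz i (hGF _ _ hi)) (fun i hi => hz' i (hGF _ _ hi))
      (fun i hi => by
        have := (Finset.mem_filter.1 hi).2.1
        simp only [Bool.false_eq_true, if_false] at this
        rw [flipY_ht, refl_snd, refl_fst]; linarith)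
      (by
        cases b'
        · left; intro i hi
          have := (Finset.mem_filter.1 hi).2.2
          simp only [Bool.false_eq_true, if_false] at this
          rw [flipY_ht, refl_snd, refl_fst]; linarith
        · right; intro i hi
          have := (Finset.mem_filter.1 hi).2.2
          simp only [if_true] at this
          rw [flipY_ht, refl_snd, refl_fst]; linarith)
    exact ⟨w, p, h1.of_flipY, fun t ht => hGF _ _ (h2 t ht), h3.of_flipY,
      fun t ht => hGF _ _ (h4 t ht), hK w p h5⟩
  · obtain ⟨w, p, h1, h2, h3, h4, h5⟩ := group_aux (C := C) hC hne (x0 := x0)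
      (fun i hi => hx i (hGF _ _ hi)) (z := z) (z' := z')
      (fun i hi => hz i (hGF _ _ hi)) (fun i hi => hz' i (hGF _ _ hi))
      (fun i hi => by
        have := (Finset.mem_filter.1 hi).2.1
        simp only [if_true] at this
        exact this)
      (by
        cases b'
        · right; intro i hi
          have := (Finset.mem_filter.1 hi).2.2
          simp only [Bool.false_eq_true, if_false] at this
          exact this
        · left; intro i hi
          have := (Finset.mem_filter.1 hi).2.2
          simp only [if_true] at this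
          exact this)
    exact ⟨w, p, h1, fun t ht => hGF _ _ (h2 t ht), h3,
      fun t ht => hGF _ _ (h4 t ht), hK w p h5⟩

end Cfg

end Pool.Agent.Lib.ALT
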