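/-
Project ALT: assembly of the group paths from left to right.
-/
import Pool.Agent.Lib.ALT.Group
import Pool.Agent.Lib.ALT.Lists

set_option autoImplicit false

noncomputable section

namespace Pool.Agent.Lib.ALT.Cfg

section Abscissas

theorem fst_le_of_mem {a b x : ℝ × ℝ} {c : ℝ} (ha : a.1 ≤ c) (hb : b.1 ≤ c)
    (hx : x ∈ segment ℝ a b) : x.1 ≤ c := by
  obtain ⟨s, t, hs, ht, hst, rfl⟩ := hx
  simp only [Prod.fst_add, Prod.smul_fst, smul_eq_mul]
  have h1 := mul_le_mul_of_nonneg_left ha hs
  have h2 := mul_le_mul_of_nonneg_left hb ht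
  have h3 : s * c + t * c = c := by rw [← add_mul, hst, one_mul]
  linarith

theorem le_fst_of_mem {a b x : ℝ × ℝ} {c : ℝ} (ha : c ≤ a.1) (hb : c ≤ b.1)
    (hx : x ∈ segment ℝ a b) : c ≤ x.1 := by
  obtain ⟨s, t, hs, ht, hst, rfl⟩ := hx
  simp only [Prod.fst_add, Prod.smul_fst, smul_eq_mul]
  have h1 := mul_le_mul_of_nonneg_left ha hs
  have h2 := mul_le_mul_of_nonneg_left hb ht
  have h3 : s * c + t * c = c := by rw [← add_mul, hst, one_mul]
  linarith

theorem disj_of_lt {a b a' b' : ℝ × ℝ} {c c' : ℝ} (hc : c < c') (ha : a.1 ≤ c) (hb : b.1 ≤ c)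
    (ha' : c' ≤ a'.1) (hb' : c' ≤ b'.1) : Disjoint (segment ℝ a b) (segment ℝ a' b') := by
  rw [Set.disjoint_left]
  intro x hx hx'
  have h1 := fst_le_of_mem ha hb hx
  have h2 := le_fst_of_mem ha' hb' hx'
  linarith

theorem disj_of_lt_min {a b a' b' : ℝ × ℝ} {c : ℝ} (ha : a.1 ≤ c) (hb : b.1 ≤ c)
    (ha' : c < a'.1) (hb' : c < b'.1) : Disjoint (segment ℝ a b) (segment ℝ a' b') :=
  disj_of_lt (lt_min ha' hb') ha hb (min_le_left _ _) (min_le_right _ _)

theorem disj_of_max_lt {a b a' b' : ℝ × ℝ} {c : ℝ} (ha : a.1 < c) (hb : b.1 < c)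
    (ha' : c ≤ a'.1) (hb' : c ≤ b'.1) : Disjoint (segment ℝ a b) (segment ℝ a' b') :=
  disj_of_lt (max_lt ha hb) (le_max_left _ _) (le_max_right _ _) ha' hb'

end Abscissas

variable {ι : Type*} {C : Cfg ι}

theorem st_le (hC : C.GP) (u : ι × Bool) : (C.st u).1 ≤ (C.Q u.1).1 := by
  unfold st
  split_ifs
  · exact (hC.lt u.1).le
  · exact le_rfl

theorem le_st (hC : C.GP) (u : ι × Bool) : (C.P u.1).1 ≤ (C.st u).1 := by
  unfold st
  split_ifs
  · exact le_rfl
  · exact (hC.lt u.1).le

theorem en_le (hC : C.GP) (u : ι × Bool) : (C.en u).1 ≤ (C.Q u.1).1 := by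
  unfold en
  split_ifs
  · exact le_rfl
  · exact (hC.lt u.1).le

theorem le_en (hC : C.GP) (u : ι × Bool) : (C.P u.1).1 ≤ (C.en u).1 := by
  unfold en
  split_ifs
  · exact (hC.lt u.1).le
  · exact le_rfl

theorem st_true (e : ι) : C.st (e, true) = C.P e := rfl

theorem en_true (e : ι) : C.en (e, true) = C.Q e := rfl

/-- Joining two good lists in disjoint vertical strips. -/
theorem Good.append (hC : C.GP) {X : List (ι × Bool)} {e : ι} {Y : List (ι × Bool)} {a : ι × Bool}
    (hX : C.Good (X ++ [(e, true)])) (hX0 : ∀ t ∈ X, (C.Q t.1).1 < (C.P e).1)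
    (hY : C.Good Y) (ha : Y.head? = some a) (hsep : ∀ t ∈ Y, (C.Q e).1 < (C.P t.1).1)
    (hseg : ∀ t ∈ Y, t ≠ a → Disjoint (segment ℝ (C.Q e) (C.st a)) (C.seg t.1))
    (hlink : ∀ u v, [u, v] <:+: Y → Disjoint (segment ℝ (C.Q e) (C.st a)) (C.link u v)) :
    C.Good (X ++ [(e, true)] ++ Y) := by
  have he := hC.lt e
  have haY : a ∈ Y := List.mem_of_mem_head? (by rw [ha]; rfl)
  have hXe : ∀ t ∈ X ++ [(e, true)], (C.Q t.1).1 ≤ (C.Q e).1 := by
    intro t ht
    rcases List.mem_append.1 ht with h | h
    · exact ((hX0 t h).trans he).le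
    · rw [List.mem_singleton] at h
      rw [h]
  have hlast : ∀ u, (X ++ [(e, true)]).getLast? = some u → u = (e, true) := by
    intro u hu
    rw [List.getLast?_append_of_ne_nil] at hu
    · simp at hu
      exact hu.symm
    · simp
  have hadjX : ∀ u v, [u, v] <:+: X ++ [(e, true)] →
      (C.en u).1 ≤ (C.P e).1 ∧ (C.st v).1 ≤ (C.P e).1 := by
    intro u v huv
    rcases adj_append.1 huv with h | h | h
    · have h1 := hX0 u (adj_mem_left h)
      have h2 := hX0 v (adj_mem_right h)
      exact ⟨((en_le hC u).trans h1.le), ((st_le hC v).trans h2.le)⟩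
    · exact absurd h adj_singleton
    · have h1 := hX0 u (List.mem_of_mem_getLast? (by rw [h.1]; rfl))
      have h2 : v = (e, true) := by
        have := h.2
        simp at this
        exact this.symm
      rw [h2, st_true]
      exact ⟨((en_le hC u).trans h1.le), le_rfl⟩
  have hYl : ∀ u v, [u, v] <:+: Y → (C.Q e).1 < (C.en u).1 ∧ (C.Q e).1 < (C.st v).1 := by
    intro u v huv
    exact ⟨(hsep u (adj_mem_left huv)).trans_le (le_en hC u),
      (hsep v (adj_mem_right huv)).trans_le (le_st hC v)⟩
  have hsta : (C.Q e).1 ≤ (C.st a).1 := ((hsep a haY).trans_le (le_st hC a)).le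
  refine ⟨?_, ?_, ?_⟩
  · rw [List.map_append, List.nodup_append]
    refine ⟨hX.nodup, hY.nodup, ?_⟩
    intro i hi j hj hij
    obtain ⟨t, ht, rfl⟩ := List.mem_map.1 hi
    obtain ⟨t', ht', rfl⟩ := List.mem_map.1 hj
    have h1 := hXe t ht
    have h2 := hsep t' ht'
    have h3 := hC.lt t.1
    rw [← hij] at h2
    linarith
  · intro u v huv t ht htu htv
    rcases adj_append.1 huv with h | h | h
    · rcases List.mem_append.1 ht with h' | h'
      · exact hX.ls u v h t h' htu htv
      · obtain ⟨h1, h2⟩ := hadjX u v h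
        have h3 := hsep t h'
        have h4 := hC.lt t.1
        exact disj_of_lt_min (c := (C.Q e).1) (h1.trans he.le) (h2.trans he.le) h3 (h3.trans h4)
    · rcases List.mem_append.1 ht with h' | h'
      · obtain ⟨h1, h2⟩ := hYl u v h
        have h3 := hXe t h'
        have h4 := hC.lt t.1
        exact (disj_of_lt_min (c := (C.Q e).1) (h4.le.trans h3) h3 h1 h2).symm
      · exact hY.ls u v h t h' htu htv
    · have h1 := hlast u h.1
      have h2 : v = a := by
        have := h.2.symm.trans ha
        exact Option.some.inj this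
      subst h1
      subst h2
      change Disjoint (segment ℝ (C.Q e) (C.st v)) _
      rcases List.mem_append.1 ht with h' | h'
      · rcases List.mem_append.1 h' with h'' | h''
        · have h3 := (hX0 t h'').trans he
          exact (disj_of_max_lt (c := (C.Q e).1) ((hC.lt t.1).trans h3) h3 le_rfl hsta).symm
        · rw [List.mem_singleton] at h''
          exact absurd h'' htu
      · exact hseg t h' htv
  · intro u v u' v' huv huv' hne
    have key1 : ∀ u v, [u, v] <:+: X ++ [(e, true)] →
        Disjoint (C.link u v) (segment ℝ (C.Q e) (C.st a)) := by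
      intro u v h
      obtain ⟨h1, h2⟩ := hadjX u v h
      exact disj_of_lt he h1 h2 le_rfl hsta
    have key2 : ∀ u v u' v', [u, v] <:+: X ++ [(e, true)] → [u', v'] <:+: Y →
        Disjoint (C.link u v) (C.link u' v') := by
      intro u v u' v' h h'
      obtain ⟨h1, h2⟩ := hadjX u v h
      obtain ⟨h3, h4⟩ := hYl u' v' h'
      exact disj_of_lt_min (c := (C.Q e).1) (h1.trans he.le) (h2.trans he.le) h3 h4
    have key3 : ∀ u v, ((X ++ [(e, true)]).getLast? = some u ∧ Y.head? = some v) →
        C.link u v = segment ℝ (C.Q e) (C.st a) := by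
      intro u v h
      have h1 := hlast u h.1
      have h2 : v = a := Option.some.inj (h.2.symm.trans ha)
      rw [h1, h2]
      rfl
    rcases adj_append.1 huv with h | h | h <;> rcases adj_append.1 huv' with h' | h' | h'
    · exact hX.ll u v u' v' h h' hne
    · exact key2 u v u' v' h h'
    · rw [key3 u' v' h']
      exact key1 u v h
    · exact (key2 u' v' u v h' h).symm
    · exact hY.ll u v u' v' h h' hne
    · rw [key3 u' v' h']
      exact (hlink u v h).symm
    · rw [key3 u v h]
      exact (key1 u' v' h').symm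
    · rw [key3 u v h]
      exact hlink u' v' h'
    · exact absurd ((hlast u h.1).trans (hlast u' h'.1).symm) hne

/-- A group path and the next buffer. -/
theorem GPath.append (hC : C.GP) {z : ℝ × ℝ} {e' : ι} {Z : List (ι × Bool)}
    (hZ : C.GPath z (C.P e') Z) :
    C.Good (Z ++ [(e', true)]) := by
  have he := hC.lt e'
  have hhead : ∀ v, ([(e', true)] : List (ι × Bool)).head? = some v → v = (e', true) := by
    intro v hv
    simp at hv
    exact hv.symm
  refine ⟨?_, ?_, ?_⟩
  · rw [List.map_append, List.nodup_append]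
    refine ⟨hZ.good.nodup, by simp, ?_⟩
    intro i hi j hj hij
    obtain ⟨t, ht, rfl⟩ := List.mem_map.1 hi
    obtain ⟨t', ht', rfl⟩ := List.mem_map.1 hj
    rw [List.mem_singleton] at ht'
    subst ht'
    have h1 := hZ.right t ht
    have h2 := hC.lt t.1
    rw [hij] at h1 h2
    simp only at h1 h2
    linarith
  · intro u v huv t ht htu htv
    rcases adj_append.1 huv with h | h | h
    · rcases List.mem_append.1 ht with h' | h'
      · exact hZ.good.ls u v h t h' htu htv
      · rw [List.mem_singleton] at h'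
        subst h'
        have h1 := (en_le hC u).trans_lt (hZ.right u (adj_mem_left h))
        have h2 := (st_le hC v).trans_lt (hZ.right v (adj_mem_right h))
        exact disj_of_max_lt (c := (C.P e').1) h1 h2 le_rfl he.le
    · exact absurd h adj_singleton
    · have h1 := hhead v h.2
      subst h1
      rcases List.mem_append.1 ht with h' | h'
      · exact (hZ.lastSeg u (by rw [h.1]; rfl)).2 t h' htu
      · rw [List.mem_singleton] at h'
        exact absurd h' htv
  · intro u v u' v' huv huv' hne
    rcases adj_append.1 huv with h | h | h <;> rcases adj_append.1 huv' with h' | h' | h'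
    · exact hZ.good.ll u v u' v' h h' hne
    · exact absurd h' adj_singleton
    · have h1 := hhead v' h'.2
      subst h1
      exact (hZ.lastLink u' (by rw [h'.1]; rfl) u v h).symm
    · exact absurd h adj_singleton
    · exact absurd h adj_singleton
    · exact absurd h adj_singleton
    · have h1 := hhead v h.2
      subst h1
      exact hZ.lastLink u (by rw [h.1]; rfl) u' v' h'
    · exact absurd h' adj_singleton
    · have := h.1.symm.trans h'.1
      exact absurd (Option.some.inj this) hne

/-- One step of the assembly. -/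
theorem glue (hC : C.GP) {X : List (ι × Bool)} {e e' : ι} {Z : List (ι × Bool)}
    (hX : C.Good (X ++ [(e, true)])) (hX0 : ∀ t ∈ X, (C.Q t.1).1 < (C.P e).1)
    (hZ : C.GPath (C.Q e) (C.P e') Z) :
    C.Good ((X ++ [(e, true)] ++ Z) ++ [(e', true)]) ∧
      ∀ t ∈ X ++ [(e, true)] ++ Z, (C.Q t.1).1 < (C.P e').1 := by
  have he := hC.lt e
  have he' := hC.lt e'
  obtain ⟨a, ha⟩ : ∃ a, Z.head? = some a := by
    cases hz : Z with
    | nil => exact absurd hz hZ.ne
    | cons b Z' => exact ⟨b, rfl⟩
  have haZ : a ∈ Z := List.mem_of_mem_head? (by rw [ha]; rfl)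
  have haZ1 := hZ.left a haZ
  have haZ2 := hZ.right a haZ
  have haZ3 := hC.lt a.1
  have hee : (C.Q e).1 < (C.P e').1 := by linarith
  have hY := hZ.append hC
  constructor
  · rw [List.append_assoc]
    refine Good.append hC hX hX0 hY (a := a) ?_ ?_ ?_ ?_
    · rw [List.head?_append, ha]; rfl
    · intro t ht
      rcases List.mem_append.1 ht with h | h
      · exact hZ.left t h
      · rw [List.mem_singleton] at h
        rw [h]
        exact hee
    · intro t ht hta
      rcases List.mem_append.1 ht with h | h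
      · exact (hZ.headSeg a (by rw [ha]; rfl)).2 t h hta
      · rw [List.mem_singleton] at h
        rw [h]
        exact disj_of_max_lt (c := (C.P e').1) hee ((st_le hC a).trans_lt haZ2) le_rfl he'.le
    · intro u v huv
      rcases adj_append.1 huv with h | h | h
      · exact hZ.headLink a (by rw [ha]; rfl) u v h
      · exact absurd h adj_singleton
      · have h1 : v = (e', true) := by
          have := h.2
          simp at this
          exact this.symm
        subst h1
        exact hZ.cross a (by rw [ha]; rfl) u (by rw [h.1]; rfl)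
  · intro t ht
    rcases List.mem_append.1 ht with h | h
    · rcases List.mem_append.1 h with h' | h'
      · have := hX0 t h'
        linarith
      · rw [List.mem_singleton] at h'
        rw [h']
        exact hee
    · exact hZ.right t h

/-- the sum of `f` over the elements at even places that are not the last ones -/
def altSum (f : ℕ → ℕ) : List ℕ → ℕ
  | [] => 0
  | [_] => 0
  | r :: _ :: L => f r + altSum f L

theorem sum_eq_altSum (f : ℕ → ℕ) : ∀ (L : List ℕ) (M : ℕ), (∀ c ∈ L, f c ≤ M) →
    (L.map f).sum ≤ altSum f L + altSum f L.tail + M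
  | [], M, _ => by simp
  | [a], M, h => by
      have := h a (by simp)
      simp [altSum, this]
  | a :: b :: L, M, h => by
      have ih := sum_eq_altSum f (b :: L) M (fun c hc => h c (List.mem_cons_of_mem _ hc))
      simp only [List.tail_cons] at ih ⊢
      rw [List.map_cons, List.sum_cons]
      simp only [altSum]
      omega

variable [DecidableEq ι] (C)

theorem assembly_step (hC : C.GP) (A : Finset ι) (g : ι → ℕ)
    (h1 : ∀ i ∈ A, ∀ j ∈ A, g i = g j → (C.P i).1 < (C.Q j).1)
    (h2 : ∀ i ∈ A, ∀ j ∈ A, g i < g j → (C.Q i).1 < (C.P j).1)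
    (T : ℕ) (hT : ∀ w, C.Good w → w.length ≤ T) :
    ∀ (L : List ℕ) (X : List (ι × Bool)) (e : ι), (∀ c ∈ L, ∃ i ∈ A, g i = c) →
      L.Pairwise (· < ·) → C.Good (X ++ [(e, true)]) → (∀ t ∈ X, (C.Q t.1).1 < (C.P e).1) →
      (∀ i ∈ A, g i ∈ L → (C.Q e).1 < (C.P i).1) →
      altSum (fun c => (A.filter (fun i => g i = c)).card) L + X.length * (K0 * T) ≤ K0 * T * T
  | [], X, e, _, _, hX, _, _ => by
      have := hT _ hX
      rw [List.length_append, List.length_singleton] at this
      simp only [altSum, zero_add]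
      rw [mul_comm]
      exact Nat.mul_le_mul_left _ (by omega)
  | [_], X, e, _, _, hX, _, _ => by
      have := hT _ hX
      rw [List.length_append, List.length_singleton] at this
      simp only [altSum, zero_add]
      rw [mul_comm]
      exact Nat.mul_le_mul_left _ (by omega)
  | r :: b :: L, X, e, hL, hs, hX, hX0, he => by
      rw [List.pairwise_cons, List.pairwise_cons] at hs
      obtain ⟨hs1, hs2, hs3⟩ := hs
      obtain ⟨i0, hi0, hi0'⟩ := hL r (by simp)
      obtain ⟨e', he', he''⟩ := hL b (by simp)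
      have hrb : r < b := hs1 b (by simp)
      have hF : ∀ i ∈ A.filter (fun i => g i = r), i ∈ A ∧ g i = r := by
        intro i hi
        exact Finset.mem_filter.1 hi
      obtain ⟨Z, p, hZ, hZF, hp, hpF, hcard⟩ := C.group_path hC
        (F := A.filter (fun i => g i = r)) ⟨i0, Finset.mem_filter.2 ⟨hi0, hi0'⟩⟩
        (fun i hi j hj => h1 i (hF i hi).1 j (hF j hj).1 ((hF i hi).2.trans (hF j hj).2.symm))
        (z := C.Q e) (z' := C.P e')
        (fun i hi => he i (hF i hi).1 (by rw [(hF i hi).2]; simp))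
        (fun i hi => h2 i (hF i hi).1 e' he' (by rw [(hF i hi).2, he'']; exact hrb))
        (fun i hi => hC.Q_off i e (by
          rintro rfl
          have h3 := he i (hF i hi).1 (by rw [(hF i hi).2]; simp)
          have h4 := hC.lt i
          linarith))
        (fun i hi => hC.P_off i e' (by
          rintro rfl
          have h3 := (hF i hi).2
          omega))
      obtain ⟨hG, hG0⟩ := glue hC hX hX0 hZ
      have ih := assembly_step hC A g h1 h2 T hT L (X ++ [(e, true)] ++ Z) e'
        (fun c hc => hL c (by simp [hc])) hs3 hG hG0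
        (fun i hi hgi => h2 e' he' i hi (by rw [he'']; exact hs2 _ hgi))
      have hpT := hT p hp
      have h5 : (A.filter (fun i => g i = r)).card ≤ Z.length * (K0 * T) := by
        refine hcard.trans ?_
        calc K0 * (Z.length * p.length) ≤ K0 * (Z.length * T) :=
              Nat.mul_le_mul_left _ (Nat.mul_le_mul_left _ hpT)
          _ = Z.length * (K0 * T) := by ring
      simp only [List.length_append, List.length_singleton] at ih
      simp only [altSum]
      have h6 : (X.length + 1 + Z.length) * (K0 * T) =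
          X.length * (K0 * T) + K0 * T + Z.length * (K0 * T) := by ring
      rw [h6] at ih
      omega

omit [DecidableEq ι] in
theorem good_single (i : ι) : C.Good [(i, true)] := by
  refine ⟨by simp, ?_, ?_⟩
  · intro u v h
    exact absurd h adj_singleton
  · intro u v u' v' h
    exact absurd h adj_singleton

omit [DecidableEq ι] in
theorem exists_off (F : Finset ι) (α : ℝ) : ∃ z : ℝ × ℝ, z.1 = α ∧ ∀ i ∈ F, C.ht i z.1 ≠ z.2 := by
  obtain ⟨β, hβ⟩ := Infinite.exists_notMem_finset (F.image (fun i => C.ht i α))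
  refine ⟨(α, β), rfl, ?_⟩
  intro i hi h
  apply hβ
  rw [Finset.mem_image]
  exact ⟨i, hi, h⟩

theorem one_group (hC : C.GP) (F : Finset ι)
    (h1 : ∀ i ∈ F, ∀ j ∈ F, (C.P i).1 < (C.Q j).1)
    (T : ℕ) (hT : ∀ w, C.Good w → w.length ≤ T) : F.card ≤ K0 * T * T := by
  rcases F.eq_empty_or_nonempty with rfl | hF
  · simp
  · obtain ⟨α, hα⟩ : ∃ α : ℝ, ∀ i ∈ F, α < (C.P i).1 := by
      obtain ⟨i, hi, hmin⟩ := Finset.exists_min_image F (fun i => (C.P i).1) hF
      exact ⟨(C.P i).1 - 1, fun j hj => by linarith [hmin j hj]⟩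
    obtain ⟨α', hα'⟩ : ∃ α : ℝ, ∀ i ∈ F, (C.Q i).1 < α := by
      obtain ⟨i, hi, hmax⟩ := Finset.exists_max_image F (fun i => (C.Q i).1) hF
      exact ⟨(C.Q i).1 + 1, fun j hj => by linarith [hmax j hj]⟩
    obtain ⟨z, hz, hoff⟩ := C.exists_off F α
    obtain ⟨z', hz', hoff'⟩ := C.exists_off F α'
    obtain ⟨w, p, hw, -, hp, -, hcard⟩ := C.group_path hC hF h1 (z := z) (z' := z')
      (fun i hi => by rw [hz]; exact hα i hi) (fun i hi => by rw [hz']; exact hα' i hi) hoff hoff'
    have hw' := hT w hw.good
    have hp' := hT p hp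
    calc F.card ≤ K0 * (w.length * p.length) := hcard
      _ ≤ K0 * (T * T) := Nat.mul_le_mul_left _ (Nat.mul_le_mul hw' hp')
      _ = K0 * T * T := by ring

/-- `A` is divided into groups `{i ∈ A | g i = c}`, each stabbed by a vertical line, and the groups
lie in disjoint vertical strips in the order of `c`. If all good lists have length at most `T`
then `|A| ≤ 4 K0 T ^ 2`. -/
theorem assembly (hC : C.GP) (A : Finset ι) (g : ι → ℕ)
    (h1 : ∀ i ∈ A, ∀ j ∈ A, g i = g j → (C.P i).1 < (C.Q j).1)
    (h2 : ∀ i ∈ A, ∀ j ∈ A, g i < g j → (C.Q i).1 < (C.P j).1)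
    (T : ℕ) (hT : ∀ w, C.Good w → w.length ≤ T) : A.card ≤ 4 * K0 * T ^ 2 := by
  obtain ⟨f, hf⟩ : ∃ f : ℕ → ℕ, f = fun c => (A.filter (fun i => g i = c)).card := ⟨_, rfl⟩
  obtain ⟨L, hL⟩ : ∃ L : List ℕ, L = (A.image g).sort (· ≤ ·) := ⟨_, rfl⟩
  have hmem : ∀ c, c ∈ L ↔ ∃ i ∈ A, g i = c := by
    intro c
    rw [hL, Finset.mem_sort, Finset.mem_image]
  have hsort : L.Pairwise (· < ·) := by
    rw [hL]
    exact (Finset.sortedLT_sort _).pairwise
  have hsum : A.card = (L.map f).sum := by
    have h3 : A.card = ∑ c ∈ A.image g, f c := by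
      rw [hf]
      exact Finset.card_eq_sum_card_image g A
    rw [h3, hL]
    rw [← List.sum_toFinset f (Finset.sort_nodup _ _), Finset.sort_toFinset]
  have hfM : ∀ c, f c ≤ K0 * T * T := by
    intro c
    rw [hf]
    refine C.one_group hC _ ?_ T hT
    intro i hi j hj
    have hi' := Finset.mem_filter.1 hi
    have hj' := Finset.mem_filter.1 hj
    exact h1 i hi'.1 j hj'.1 (hi'.2.trans hj'.2.symm)
  have hstep : ∀ c (L' : List ℕ), (∃ i ∈ A, g i = c) → (∀ c' ∈ L', ∃ i ∈ A, g i = c') →
      (c :: L').Pairwise (· < ·) → altSum f L' ≤ K0 * T * T := by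
    intro c L' hc hL' hp
    obtain ⟨e, he, he'⟩ := hc
    rw [List.pairwise_cons] at hp
    have := C.assembly_step hC A g h1 h2 T hT L' [] e hL' hp.2 (C.good_single e)
      (fun t ht => absurd ht (by simp))
      (fun i hi hgi => h2 e he i hi (by rw [he']; exact hp.1 _ hgi))
    rw [hf]
    simpa using this
  have hfin : A.card ≤ 4 * (K0 * T * T) := by
    rw [hsum]
    cases hL0 : L with
    | nil => simp
    | cons c1 L1 =>
      rw [hL0] at hmem hsort
      have h3 := hstep c1 L1 ((hmem c1).1 (by simp)) (fun c hc => (hmem c).1 (by simp [hc])) hsort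
      have h4 : altSum f L1.tail ≤ K0 * T * T := by
        cases hL1 : L1 with
        | nil => simp [altSum]
        | cons c2 L2 =>
          rw [hL1] at hmem hsort
          exact hstep c2 L2 ((hmem c2).1 (by simp)) (fun c hc => (hmem c).1 (by simp [hc]))
            (List.pairwise_cons.1 hsort).2
      have h5 := sum_eq_altSum f L1 (K0 * T * T) (fun c _ => hfM c)
      have h6 := hfM c1
      rw [List.map_cons, List.sum_cons]
      omega
  calc A.card ≤ 4 * (K0 * T * T) := hfin
    _ = 4 * K0 * T ^ 2 := by ring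

end Pool.Agent.Lib.ALT.Cfg
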