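/-
Project ALT: consequences of an upper bound on the length of zigzags linked to two outer points.
-/
import Pool.Agent.Lib.ALT.Group

set_option autoImplicit false

noncomputable section

namespace Pool.Agent.Lib.ALT

namespace Stab

variable {ι : Type*} {Z : Stab ι}

/-- all zigzags in `W` have length at most `k` -/
def Zb (Z : Stab ι) (W : Finset ι) (k : ℕ) : Prop :=
  ∀ w : List (ι × Bool), Z.Zig w → (∀ t ∈ w, t.1 ∈ W) → w.length ≤ k

theorem Zb.mono {W W' : Finset ι} {k : ℕ} (h : Z.Zb W k) (hW : W' ⊆ W) : Z.Zb W' k :=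
  fun w hw hw' => h w hw (fun t ht => hW (hw' t ht))

theorem Zb.longest {W : Finset ι} {k : ℕ} (h : Z.Zb W k) :
    ∃ v : List (ι × Bool), Z.Zig v ∧ (∀ t ∈ v, t.1 ∈ W) ∧ Z.Zb W v.length := by
  classical
  obtain ⟨v, hv1, hv2, hv3⟩ := Nat.findGreatest_spec
    (P := fun m => ∃ v : List (ι × Bool), Z.Zig v ∧ (∀ t ∈ v, t.1 ∈ W) ∧ v.length = m)
    (Nat.zero_le k) ⟨[], Zig.nil, by simp, rfl⟩
  refine ⟨v, hv1, hv2, ?_⟩
  intro w hw hw'
  rw [hv3]
  exact Nat.le_findGreatest
    (P := fun m => ∃ v : List (ι × Bool), Z.Zig v ∧ (∀ t ∈ v, t.1 ∈ W) ∧ v.length = m)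
    (h w hw hw') ⟨w, hw, hw', rfl⟩

theorem flipY_flipY : Z.flipY.flipY = Z := by
  cases Z; simp [flipY]

theorem Zig.ne_fst {w : List (ι × Bool)} (hw : Z.Zig w) {u v : ι × Bool} (h : [u, v] <:+: w) :
    u.1 ≠ v.1 := fun h' => by
  have := (hw.adj h).2
  rw [h'] at this
  exact lt_irrefl _ this

theorem Zig.from_flipY {F : Set ι} (hZ : Z.Ok F) {w : List (ι × Bool)} (hw : Z.flipY.Zig w)
    (hwF : ∀ t ∈ w, t.1 ∈ F) : Z.Zig (rev w) :=
  Zig.of_flipY (fun u v h b => (hZ.ok b).inj _ (hwF u (adj_mem_left h)) _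
    (hwF v (adj_mem_right h)) (hw.ne_fst h)) hw

theorem Zig.to_flipY {F : Set ι} (hZ : Z.Ok F) {w : List (ι × Bool)} (hw : Z.Zig w)
    (hwF : ∀ t ∈ w, t.1 ∈ F) : Z.flipY.Zig (rev w) :=
  Zig.from_flipY hZ.flipY (by rw [flipY_flipY]; exact hw) hwF

theorem mem_rev_fst {W : Finset ι} {w : List (ι × Bool)} (h : ∀ t ∈ w, t.1 ∈ W) :
    ∀ t ∈ rev w, t.1 ∈ W := fun t ht => h (t.1, !t.2) (mem_rev.1 ht)

theorem Zb.flipY {F : Set ι} (hZ : Z.Ok F) {W : Finset ι} (hW : (W : Set ι) ⊆ F) {k : ℕ}
    (h : Z.Zb W k) : Z.flipY.Zb W k := by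
  intro w hw hw'
  have := h (rev w) (Zig.from_flipY hZ hw (fun t ht => hW (hw' t ht))) (mem_rev_fst hw')
  rwa [length_rev] at this

theorem Zb.of_flipY {F : Set ι} (hZ : Z.Ok F) {W : Finset ι} (hW : (W : Set ι) ⊆ F) {k : ℕ}
    (h : Z.flipY.Zb W k) : Z.Zb W k := by
  intro w hw hw'
  have := h (rev w) (Zig.to_flipY hZ hw (fun t ht => hW (hw' t ht))) (mem_rev_fst hw')
  rwa [length_rev] at this

theorem head?_rev {w : List (ι × Bool)} {c : ι × Bool} (h : w.getLast? = some c) :
    (rev w).head? = some (c.1, !c.2) := by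
  unfold rev
  rw [List.head?_reverse, List.getLast?_map, h, Option.map_some]

theorem getLast?_rev {w : List (ι × Bool)} {c : ι × Bool} (h : w.head? = some c) :
    (rev w).getLast? = some (c.1, !c.2) := by
  unfold rev
  rw [List.getLast?_reverse, List.head?_map, h, Option.map_some]

theorem AttOk.of_flipY {b : Bool} {w : List (ι × Bool)} {i : ι × Bool} {X Y : ℝ}
    (h : AttOk Z.flipY b w i X (-Y)) : AttOk Z b (rev w) (i.1, !i.2) X Y := by
  have hne : ∀ t : ι × Bool, t ≠ (i.1, !i.2) → (t.1, !t.2) ≠ i := by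
    intro t h h'
    apply h
    have h3 := congrArg Prod.fst h'
    have h4 := congrArg Prod.snd h'
    exact Prod.ext h3 (by rw [← h4]; simp)
  refine ⟨fun t ht => ?_, ?_⟩
  · have := h.out _ (mem_rev.1 ht)
    rwa [flipY_sd_E] at this
  · rcases h.cond with h | h | h
    · left
      intro t ht hti
      have := h _ (mem_rev.1 ht) (hne t hti)
      rwa [flipY_sd_E] at this
    · right; right
      intro t ht hti
      have := h _ (mem_rev.1 ht) (hne t hti)
      rw [flipY_sd, Side.flip_h] at this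
      simp only [flipY_y, neg_lt_neg_iff] at this
      exact this
    · right; left
      intro t ht hti
      have := h _ (mem_rev.1 ht) (hne t hti)
      rw [flipY_sd, Side.flip_h] at this
      simp only [flipY_y, neg_lt_neg_iff] at this
      exact this

/-- a zigzag can be shortened at both ends to get given orientations of its ends -/
theorem Zig.adjust {w : List (ι × Bool)} (hw : Z.Zig w) (o f : Bool) :
    ∃ v, v <:+: w ∧ w.length ≤ v.length + 2 ∧ (∀ a ∈ v.head?, a.2 = o) ∧
      (∀ c ∈ v.getLast?, c.2 = f) := by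
  obtain ⟨v, hv1, hv2, hv3⟩ : ∃ v, v <:+: w ∧ w.length ≤ v.length + 1 ∧
      (∀ a ∈ v.head?, a.2 = o) := by
    cases w with
    | nil => exact ⟨[], List.infix_rfl, by simp, by simp⟩
    | cons c w =>
      by_cases hc : c.2 = o
      · refine ⟨c :: w, List.infix_rfl, by omega, ?_⟩
        intro a ha
        simp only [List.head?_cons, Option.mem_some_iff] at ha
        rw [← ha]; exact hc
      · refine ⟨w, (List.suffix_cons _ _).isInfix, by simp, ?_⟩
        have h1 := hw.head_tail (o := c.2) (by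
          intro c' hc'
          simp only [List.head?_cons, Option.mem_some_iff] at hc'
          rw [← hc'])
        simp only [List.tail_cons] at h1
        intro a ha
        rw [h1 a ha]
        exact (bnot_of_ne (Ne.symm hc)).symm
  have hvz := hw.of_sub hv1
  rcases List.eq_nil_or_concat v with rfl | ⟨v', c, rfl⟩
  · exact ⟨[], hv1, by rw [List.length_nil] at hv2 ⊢; omega, by simp, by simp⟩
  · rw [List.concat_eq_append] at hv1 hv2 hv3 hvz
    by_cases hc : c.2 = f
    · refine ⟨v' ++ [c], hv1, by omega, hv3, ?_⟩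
      intro a ha
      rw [List.getLast?_append, List.getLast?_singleton, Option.some_or,
        Option.mem_some_iff] at ha
      rw [← ha]; exact hc
    · refine ⟨v', (List.prefix_append _ _).isInfix.trans hv1, ?_, ?_, ?_⟩
      · rw [List.length_append, List.length_singleton] at hv2; omega
      · intro a ha
        apply hv3 a
        cases v' with
        | nil => simp at ha
        | cons d v' => simpa using ha
      · intro a ha
        have h1 := (hvz.adj (u := a) (v := c) (adj_append.2 (Or.inr (Or.inr ⟨ha, rfl⟩)))).1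
        rw [h1] at hc
        have := bnot_of_ne hc
        revert this
        cases a.2 <;> cases f <;> simp

/-- outer points on both sides, such that all linked zigzags in `U` have length less than `q` -/
structure Outer (Z : Stab ι) (U : Finset ι) (X Y : Bool → ℝ) (q : ℕ) : Prop where
  pos : 0 < q
  out : ∀ i ∈ U, ∀ b, (Z.sd b).E i < X b
  off : ∀ i ∈ U, ∀ b, (Z.sd b).h i (X b) ≠ Y b
  bd : ∀ (w : List (ι × Bool)) (a c : ι × Bool), Z.Zig w → (∀ t ∈ w, t.1 ∈ U) →
    w.head? = some a → w.getLast? = some c → c.2 = a.2 →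
    AttOk Z (!a.2) w a (X (!a.2)) (Y (!a.2)) → AttOk Z c.2 w c (X c.2) (Y c.2) → w.length < q

variable {U : Finset ι} {X Y : Bool → ℝ} {q : ℕ}

theorem Outer.flipY {F : Set ι} (hZ : Z.Ok F) (hUF : (U : Set ι) ⊆ F) (hO : Outer Z U X Y q) :
    Outer Z.flipY U X (fun b => -Y b) q := by
  refine ⟨hO.pos, ?_, ?_, ?_⟩
  · intro i hi b
    rw [flipY_sd_E]; exact hO.out i hi b
  · intro i hi b h
    rw [flipY_sd, Side.flip_h] at h
    exact hO.off i hi b (neg_injective h)
  · intro w a c hw hwU ha hc hac hA hB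
    have h1 := AttOk.of_flipY hA
    have h2 := AttOk.of_flipY hB
    have := hO.bd (rev w) (c.1, !c.2) (a.1, !a.2) (Zig.from_flipY hZ hw (fun t ht => hUF (hwU t ht)))
      (mem_rev_fst hwU) (head?_rev hc) (getLast?_rev ha) (by rw [hac])
      (by rw [Bool.not_not]; exact h2) h1
    rwa [length_rev] at this

theorem Zig.above_last {w : List (ι × Bool)} {c : ι × Bool} (hw : Z.Zig w)
    (hc : w.getLast? = some c) : ∀ t ∈ w, t ≠ c → Z.y c.1 < Z.y t.1 := by
  intro t ht htc
  obtain ⟨w', rfl⟩ : ∃ w', w = w' ++ [c] := by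
    rw [List.getLast?_eq_some_iff] at hc; exact hc
  have h4 := hw.pw
  rw [List.pairwise_append] at h4
  rcases List.mem_append.1 ht with h5 | h5
  · exact h4.2.2 t h5 c (by simp)
  · exact absurd (by simpa using h5) htc

theorem Zig.below_head {w : List (ι × Bool)} {a : ι × Bool} (hw : Z.Zig (a :: w)) :
    ∀ t ∈ a :: w, t ≠ a → Z.y t.1 < Z.y a.1 := by
  intro t ht hta
  rcases List.mem_cons.1 ht with h | h
  · exact absurd h hta
  · exact (List.pairwise_cons.1 hw.pw).1 t h

/-- Lists attached below on the side `β` and above on the other side. -/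
theorem Outer.zb_mixed (hO : Outer Z U X Y q) {D : Finset ι} (hD : D ⊆ U) (β : Bool)
    (h1 : ∀ i ∈ D, Y β < (Z.sd β).h i (X β))
    (h2 : ∀ i ∈ D, (Z.sd (!β)).h i (X (!β)) < Y (!β)) : Z.Zb D (2 * q) := by
  intro w hw hwD
  have hq := hO.pos
  obtain ⟨v, hv1, hv2, hv3⟩ : ∃ v, v <:+: w ∧ w.length ≤ v.length + 1 ∧
      (∀ a ∈ v.head?, a.2 = β) := by
    cases w with
    | nil => exact ⟨[], List.infix_rfl, by simp, by simp⟩
    | cons c w =>
      by_cases hc : c.2 = β
      · refine ⟨c :: w, List.infix_rfl, by omega, ?_⟩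
        intro a ha
        simp only [List.head?_cons, Option.mem_some_iff] at ha
        rw [← ha]; exact hc
      · refine ⟨w, (List.suffix_cons _ _).isInfix, by simp, ?_⟩
        have h1 := hw.head_tail (o := c.2) (by
          intro c' hc'
          simp only [List.head?_cons, Option.mem_some_iff] at hc'
          rw [← hc'])
        simp only [List.tail_cons] at h1
        intro a ha
        rw [h1 a ha]
        exact (bnot_of_ne (Ne.symm hc)).symm
  cases v with
  | nil => simp only [List.length_nil] at hv2; omega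
  | cons a v =>
    have ha2 : a.2 = β := hv3 a rfl
    obtain ⟨w', c, g1, g2, g3, g4, g5⟩ := Cfg.exists_odd (hw.of_sub hv1)
    have hwD' : ∀ t ∈ a :: w', t.1 ∈ D := fun t ht => hwD t (hv1.subset (g1.subset ht))
    have := hO.bd (a :: w') a c g2 (fun t ht => hD (hwD' t ht)) rfl g3 g4
      ⟨fun t ht => hO.out _ (hD (hwD' t ht)) _, Or.inr (Or.inr (fun t ht hta =>
        ⟨g2.below_head t ht hta, by rw [ha2]; exact h2 _ (hwD' t ht)⟩))⟩
      ⟨fun t ht => hO.out _ (hD (hwD' t ht)) _, Or.inr (Or.inl (fun t ht htc =>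
        ⟨g2.above_last g3 t ht htc, by rw [g4, ha2]; exact h1 _ (hwD' t ht)⟩))⟩
    omega

theorem sum_le_of_cover [DecidableEq ι] {D A B : Finset ι} (h : D ⊆ A ∪ B) (f : ι → ℕ) :
    ∑ i ∈ D, f i ≤ ∑ i ∈ A, f i + ∑ i ∈ B, f i := by
  have h1 : ∑ i ∈ D, f i ≤ ∑ i ∈ A ∪ B, f i := Finset.sum_le_sum_of_subset h
  have h2 := Finset.sum_union_inter (s₁ := A) (s₂ := B) (f := f)
  omega

/-- Families below an element which is longer on one side. -/
theorem Outer.cap_wt {F : Set ι} (hZ : Z.Ok F) (hUF : (U : Set ι) ⊆ F) (hO : Outer Z U X Y q)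
    {D : Finset ι} (hD : D ⊆ U) {j : ι} (hj : j ∈ U) (b : Bool)
    (hy : ∀ i ∈ D, Z.y i < Z.y j) (hE : ∀ i ∈ D, (Z.sd b).E i < (Z.sd b).E j)
    (hbj : ∀ b, Y b < (Z.sd b).h j (X b)) (hbD : ∀ i ∈ D, ∀ b, Y b < (Z.sd b).h i (X b))
    (wt : ι → ℕ) (B : ℕ) (hB : ∀ K ⊆ D, Z.Zb K (2 * q) → ∑ i ∈ K, wt i ≤ B) :
    ∑ i ∈ D, wt i ≤ 3 * B := by
  classical
  have hjF : j ∈ F := hUF hj
  have hDF : ∀ i ∈ D, i ∈ F := fun i hi => hUF (hD hi)
  have hne : ∀ i ∈ D, i ≠ j := fun i hi h => by
    have := hy i hi; rw [h] at this; exact lt_irrefl _ this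
  -- the common construction
  have main : ∀ (K : Finset ι) (o : Bool), K ⊆ D →
      (∀ i ∈ K, (Z.sd (!o)).E i < (Z.sd (!o)).E j) →
      ((∀ i ∈ K, (Z.sd o).s i < (Z.sd o).s j) ∨
        (∀ i ∈ K, (Z.sd o).E j < (Z.sd o).E i)) →
      (∀ c : Bool, (∀ i ∈ K, (Z.sd c).E i < (Z.sd c).E j) ∨
        (∀ i ∈ K, (Z.sd c).E j < (Z.sd c).E i) ∨ (∀ i ∈ K, (Z.sd c).s i < (Z.sd c).s j)) →
      Z.Zb K (2 * q) := by
    intro K o hK hW hgap hin w0 hw0 hw0K
    have hq := hO.pos
    obtain ⟨w, hv1, hv2, hv3⟩ : ∃ v, v <:+: w0 ∧ w0.length ≤ v.length + 1 ∧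
        (∀ a ∈ v.head?, a.2 = !o) := by
      cases w0 with
      | nil => exact ⟨[], List.infix_rfl, by simp, by simp⟩
      | cons c w =>
        by_cases hc : c.2 = !o
        · refine ⟨c :: w, List.infix_rfl, by omega, ?_⟩
          intro a ha
          simp only [List.head?_cons, Option.mem_some_iff] at ha
          rw [← ha]; exact hc
        · refine ⟨w, (List.suffix_cons _ _).isInfix, by simp, ?_⟩
          have h1 := hw0.head_tail (o := c.2) (by
            intro c' hc'
            simp only [List.head?_cons, Option.mem_some_iff] at hc'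
            rw [← hc'])
          simp only [List.tail_cons] at h1
          intro a ha
          rw [h1 a ha]
          exact (bnot_of_ne (Ne.symm hc)).symm
    have hw1 := hw0.of_sub hv1
    have hwK : ∀ t ∈ w, t.1 ∈ K := fun t ht => hw0K t (hv1.subset ht)
    have hKF : ∀ i ∈ K, i ∈ F := fun i hi => hDF i (hK hi)
    have hzig : Z.Zig ((j, o) :: w) := by
      apply Zig.cons hw1
      · intro v hv
        have hvw : v ∈ w := List.mem_of_mem_head? hv
        refine ⟨hv3 v hv, hy _ (hK (hwK v hvw)), ?_⟩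
        intro t ht htv
        have hvt : Z.y t.1 < Z.y v.1 := by
          cases w with
          | nil => simp at hvw
          | cons c w =>
            simp only [List.head?_cons, Option.mem_some_iff] at hv
            subst hv
            exact hw1.below_head t ht htv
        have h1 := hy _ (hK (hwK v hvw))
        refine (hZ.ok o).NT_below hjF (hKF _ (hwK v hvw)) (hKF _ (hwK t ht)) (by simpa) (by simpa) ?_
        rcases hgap with h | h
        · right; right; right
          have h2 := h t.1 (hwK t ht)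
          have h3 := (hZ.ok o).pos j hjF
          have h4 := mul_lt_mul_of_pos_right h2 h3
          simp only [Side.h, sd_y]
          linarith
        · exact Or.inl (h v.1 (hwK v hvw))
      · intro u v huv
        have hu := hwK u (adj_mem_left huv)
        have hv := hwK v (adj_mem_right huv)
        have h1 := (hw1.adj huv).2
        have h2 := hy _ (hK hu)
        have h3 := hy _ (hK hv)
        refine (hZ.ok u.2).NT_above (hKF _ hu) (hKF _ hv) hjF (by simpa) (by simpa) ?_
        rcases hin u.2 with h | h | h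
        · exact Or.inr (Or.inr (Or.inl (h v.1 hv)))
        · exact Or.inr (Or.inl (h u.1 hu))
        · right; right; right
          have h4 := (hZ.ok u.2).pos v.1 (hKF _ hv)
          have h5 := mul_lt_mul_of_pos_right (h v.1 hv) h4
          simp only [Side.h, sd_y]
          linarith
    obtain ⟨w', c, g1, g2, g3, g4, g5⟩ := Cfg.exists_odd hzig
    have hmem : ∀ t ∈ (j, o) :: w', t = (j, o) ∨ t.1 ∈ K := by
      intro t ht
      rcases List.mem_cons.1 (g1.subset ht) with h | h
      · exact Or.inl h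
      · exact Or.inr (hwK t h)
    have hmemU : ∀ t ∈ (j, o) :: w', t.1 ∈ U := by
      intro t ht
      rcases hmem t ht with h | h
      · rw [h]; exact hj
      · exact hD (hK h)
    have := hO.bd ((j, o) :: w') (j, o) c g2 hmemU rfl g3 g4
      ⟨fun t ht => hO.out _ (hmemU t ht) _, Or.inl (fun t ht hta => by
        rcases hmem t ht with h | h
        · exact absurd h hta
        · exact hW _ h)⟩
      ⟨fun t ht => hO.out _ (hmemU t ht) _, Or.inr (Or.inl (fun t ht htc =>
        ⟨g2.above_last g3 t ht htc, by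
          rcases hmem t ht with h | h
          · rw [h]; exact hbj _
          · exact hbD _ (hK h) _⟩))⟩
    simp only [List.length_cons] at this g5
    omega
  set K1 := D.filter (fun i => (Z.sd (!b)).s i < (Z.sd (!b)).s j) with hK1
  set K2 := D.filter (fun i => (Z.sd b).s i < (Z.sd b).s j ∧ (Z.sd (!b)).E j < (Z.sd (!b)).E i)
    with hK2
  set K3 := D.filter (fun i => (Z.sd b).s i < (Z.sd b).s j ∧ (Z.sd (!b)).E i < (Z.sd (!b)).E j)
    with hK3
  have hcover : D ⊆ K1 ∪ (K2 ∪ K3) := by
    intro i hi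
    rw [Finset.mem_union, Finset.mem_union, hK1, hK2, hK3, Finset.mem_filter, Finset.mem_filter,
      Finset.mem_filter]
    have h1 := hZ.sl' b (hDF i hi) hjF (hne i hi)
    have h2 := (hZ.ok (!b)).inj i (hDF i hi) j hjF (hne i hi)
    rcases lt_or_gt_of_ne h1 with h1 | h1
    · rcases lt_or_gt_of_ne h2 with h2 | h2
      · exact Or.inr (Or.inr ⟨hi, h1, h2⟩)
      · exact Or.inr (Or.inl ⟨hi, h1, h2⟩)
    · left
      refine ⟨hi, ?_⟩
      rw [sd_s_not, sd_s_not]
      linarith
  have h1 := sum_le_of_cover hcover wt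
  have h2 := sum_le_of_cover (Finset.Subset.refl (K2 ∪ K3)) wt
  have e1 := hB K1 (Finset.filter_subset _ _) (main K1 (!b) (Finset.filter_subset _ _)
    (fun i hi => by rw [Bool.not_not]; exact hE i (Finset.mem_filter.1 hi).1)
    (Or.inl (fun i hi => (Finset.mem_filter.1 hi).2)) (fun c => by
      by_cases hc : c = b
      · left; intro i hi; rw [hc]; exact hE i (Finset.mem_filter.1 hi).1
      · right; right; intro i hi
        have : c = !b := bnot_of_ne hc
        rw [this]; exact (Finset.mem_filter.1 hi).2))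
  have e2 := hB K2 (Finset.filter_subset _ _) (main K2 (!b) (Finset.filter_subset _ _)
    (fun i hi => by rw [Bool.not_not]; exact hE i (Finset.mem_filter.1 hi).1)
    (Or.inr (fun i hi => (Finset.mem_filter.1 hi).2.2)) (fun c => by
      by_cases hc : c = b
      · left; intro i hi; rw [hc]; exact hE i (Finset.mem_filter.1 hi).1
      · right; left; intro i hi
        have : c = !b := bnot_of_ne hc
        rw [this]; exact (Finset.mem_filter.1 hi).2.2))
  have e3 := hB K3 (Finset.filter_subset _ _) (main K3 b (Finset.filter_subset _ _)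
    (fun i hi => (Finset.mem_filter.1 hi).2.2)
    (Or.inl (fun i hi => (Finset.mem_filter.1 hi).2.1)) (fun c => by
      by_cases hc : c = b
      · left; intro i hi; rw [hc]; exact hE i (Finset.mem_filter.1 hi).1
      · left; intro i hi
        have : c = !b := bnot_of_ne hc
        rw [this]; exact (Finset.mem_filter.1 hi).2.2))
  omega

/-- group theorem for outer points which are both below the lines -/
theorem Outer.card_below [DecidableEq ι] {F : Set ι} (hZ : Z.Ok F) (hUF : (U : Set ι) ⊆ F)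
    (hO : Outer Z U X Y q) {V : Finset ι} (hV : V ⊆ U)
    (hb : ∀ i ∈ V, ∀ b, Y b < (Z.sd b).h i (X b)) {k : ℕ} (hk : Z.Zb V k) :
    V.card ≤ 400000 * (q * k) := by
  rcases V.eq_empty_or_nonempty with rfl | hne
  · simp
  have hVF : (V : Set ι) ⊆ F := fun i hi => hUF (hV hi)
  obtain ⟨a, w, p, hw1, hw2, hw3, hp1, hp2, hcard⟩ := key hZ (A := V) hVF hne
  obtain ⟨w', c, h1, h2, h3, h4, h5⟩ := Cfg.exists_odd hw1
  have hw'V : ∀ t ∈ a :: w', t.1 ∈ V := fun t ht => hw2 t (h1.subset ht)
  have hG := hO.bd (a :: w') a c h2 (fun t ht => hV (hw'V t ht)) rfl h3 h4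
    ⟨fun t ht => hO.out _ (hV (hw'V t ht)) _, Or.inl (fun t ht hta => by
      rcases List.mem_cons.1 (h1.subset ht) with h | h
      · exact absurd h hta
      · exact hw3 t h)⟩
    ⟨fun t ht => hO.out _ (hV (hw'V t ht)) _, Or.inr (Or.inl (fun t ht htc =>
      ⟨h2.above_last h3 t ht htc, hb _ (hw'V t ht) _⟩))⟩
  have hp := hk p hp1 hp2
  calc V.card ≤ 200000 * ((a :: w).length * p.length) := hcard
    _ ≤ 200000 * ((2 * q) * k) := by gcongr; omega
    _ = 400000 * (q * k) := by ring

theorem Outer.card_mixed [DecidableEq ι] {F : Set ι} (hZ : Z.Ok F) (hUF : (U : Set ι) ⊆ F)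
    (hO : Outer Z U X Y q) {V : Finset ι} (hV : V ⊆ U) (β : Bool)
    (h1 : ∀ i ∈ V, Y β < (Z.sd β).h i (X β))
    (h2 : ∀ i ∈ V, (Z.sd (!β)).h i (X (!β)) < Y (!β)) {k : ℕ} (hk : Z.Zb V k) :
    V.card ≤ 400000 * (q * k) := by
  rcases V.eq_empty_or_nonempty with rfl | hne
  · simp
  obtain ⟨w, hw1, hw2, hw3, hw4, hw5⟩ := sqrt_zig hZ (K := V) (fun i hi => hUF (hV hi)) hne true
  have e1 := hO.zb_mixed hV β h1 h2 w hw1 hw3
  have e2 := hk w hw1 hw3
  calc V.card ≤ 900 * w.length ^ 2 := hw5
    _ = 900 * (w.length * w.length) := by ring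
    _ ≤ 900 * ((2 * q) * k) := by gcongr
    _ = 1800 * (q * k) := by ring
    _ ≤ 400000 * (q * k) := by gcongr; norm_num

open Classical in
/-- elements above both outer points, or below both, or between -/
def typ (Z : Stab ι) (X Y : Bool → ℝ) (H : Finset ι) (b b' : Bool) : Finset ι :=
  H.filter (fun i => (if b then Y true < (Z.sd true).h i (X true) else
      (Z.sd true).h i (X true) < Y true) ∧
    (if b' then Y false < (Z.sd false).h i (X false) else
      (Z.sd false).h i (X false) < Y false))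

theorem typ_sub (H : Finset ι) (b b' : Bool) : Z.typ X Y H b b' ⊆ H := Finset.filter_subset _ _

theorem typ_tt {H : Finset ι} {i : ι} (hi : i ∈ Z.typ X Y H true true) (b : Bool) :
    Y b < (Z.sd b).h i (X b) := by
  have := (Finset.mem_filter.1 hi).2
  simp only [if_true] at this
  cases b
  · exact this.2
  · exact this.1

theorem typ_ff {H : Finset ι} {i : ι} (hi : i ∈ Z.typ X Y H false false) (b : Bool) :
    (Z.sd b).h i (X b) < Y b := by
  have := (Finset.mem_filter.1 hi).2
  simp only [Bool.false_eq_true, if_false] at this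
  cases b
  · exact this.2
  · exact this.1

theorem typ_mix {H : Finset ι} {i : ι} {β : Bool} (hi : i ∈ Z.typ X Y H β (!β)) :
    Y β < (Z.sd β).h i (X β) ∧ (Z.sd (!β)).h i (X (!β)) < Y (!β) := by
  have := (Finset.mem_filter.1 hi).2
  cases β
  · simp only [Bool.false_eq_true, if_false, Bool.not_false, if_true] at this ⊢
    exact this.symm
  · simp only [Bool.false_eq_true, if_false, Bool.not_true, if_true] at this ⊢
    exact this

theorem typ_cover [DecidableEq ι] (hO : Outer Z U X Y q) {H : Finset ι} (hH : H ⊆ U) :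
    H ⊆ (Z.typ X Y H true true ∪ Z.typ X Y H false false) ∪
      (Z.typ X Y H true false ∪ Z.typ X Y H false true) := by
  intro i hi
  have h1 := hO.off i (hH hi) true
  have h2 := hO.off i (hH hi) false
  simp only [typ, Finset.mem_union, Finset.mem_filter, if_true, Bool.false_eq_true, if_false]
  rcases lt_or_gt_of_ne h1 with h1 | h1 <;> rcases lt_or_gt_of_ne h2 with h2 | h2
  · exact Or.inl (Or.inr ⟨hi, h1, h2⟩)
  · exact Or.inr (Or.inr ⟨hi, h1, h2⟩)
  · exact Or.inr (Or.inl ⟨hi, h1, h2⟩)
  · exact Or.inl (Or.inl ⟨hi, h1, h2⟩)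

theorem sum_typ (hO : Outer Z U X Y q) {H : Finset ι} (hH : H ⊆ U) (f : ι → ℕ) :
    ∑ i ∈ H, f i ≤ ∑ i ∈ Z.typ X Y H true true, f i + ∑ i ∈ Z.typ X Y H false false, f i +
      (∑ i ∈ Z.typ X Y H true false, f i + ∑ i ∈ Z.typ X Y H false true, f i) := by
  classical
  have h1 := sum_le_of_cover (typ_cover hO hH) f
  have h2 := sum_le_of_cover (Finset.Subset.refl
    (Z.typ X Y H true true ∪ Z.typ X Y H false false)) f
  have h3 := sum_le_of_cover (Finset.Subset.refl
    (Z.typ X Y H true false ∪ Z.typ X Y H false true)) f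
  omega

/-- the group theorem -/
theorem Outer.card_le {F : Set ι} (hZ : Z.Ok F) (hUF : (U : Set ι) ⊆ F)
    (hO : Outer Z U X Y q) {V : Finset ι} (hV : V ⊆ U) {k : ℕ} (hk : Z.Zb V k) :
    V.card ≤ K0 * (q * k) := by
  classical
  have h := sum_typ hO hV (fun _ => 1)
  simp only [Finset.sum_const, smul_eq_mul, mul_one] at h
  have hs : ∀ b b', Z.typ X Y V b b' ⊆ U := fun b b' => (typ_sub V b b').trans hV
  have h1 := hO.card_below hZ hUF (hs true true) (fun i hi b => typ_tt hi b)
    (hk.mono (typ_sub V true true))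
  have h2 := (hO.flipY hZ hUF).card_below hZ.flipY hUF (hs false false) (fun i hi b => by
    rw [flipY_sd, Side.flip_h, neg_lt_neg_iff]; exact typ_ff hi b)
    ((hk.mono (typ_sub V false false)).flipY hZ (fun i hi => hUF (hs false false hi)))
  have h3 := hO.card_mixed hZ hUF (hs true false) true (fun i hi => (typ_mix (β := true) hi).1)
    (fun i hi => (typ_mix (β := true) hi).2) (hk.mono (typ_sub V true false))
  have h4 := hO.card_mixed hZ hUF (hs false true) false
    (fun i hi => (typ_mix (β := false) hi).1)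
    (fun i hi => (typ_mix (β := false) hi).2) (hk.mono (typ_sub V false true))
  calc V.card ≤ 1600000 * (q * k) := by omega
    _ ≤ K0 * (q * k) := Nat.mul_le_mul_right _ (by norm_num [K0])

end Stab

end Pool.Agent.Lib.ALT
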