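/-
Project ALT: the weight of a chain of windows, each window dominated by the next one.
-/
import Pool.Agent.Lib.ALT.Bounds
import Pool.Agent.Lib.ALT.Assembly

set_option autoImplicit false

noncomputable section

namespace Pool.Agent.Lib.ALT

namespace Stab

variable {ι : Type*} {Z : Stab ι}

/-- appending a long segment at the bottom, through its free side -/
theorem Zig.snoc_free {F : Set ι} (hZ : Z.Ok F) {v : List (ι × Bool)} (hv : Z.Zig v)
    (hvF : ∀ t ∈ v, t.1 ∈ F) {τ : ι} (hτ : τ ∈ F) (f : Bool) (hlast : ∀ c ∈ v.getLast?, c.2 = f)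
    (hy : ∀ t ∈ v, Z.y τ < Z.y t.1) (hE : ∀ t ∈ v, ∀ b, (Z.sd b).E t.1 < (Z.sd b).E τ)
    (hs : ∀ t ∈ v, (Z.sd f).s τ < (Z.sd f).s t.1) : Z.Zig (v ++ [(τ, !f)]) := by
  constructor
  · apply isChain_of_adj
    intro a c hac
    rcases adj_append.1 hac with h | h | ⟨h, h'⟩
    · exact hv.adj h
    · exact absurd h adj_singleton
    · simp only [List.head?_cons, Option.some.injEq] at h'
      subst h'
      have h2 := hlast a h
      exact ⟨by rw [h2], hy a (List.mem_of_getLast? h)⟩
  · intro a c hac t ht hta htc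
    rcases adj_append.1 hac with h | h | ⟨h, h'⟩
    · rcases List.mem_append.1 ht with ht | ht
      · exact hv.nt a c h t ht hta htc
      · rw [List.mem_singleton] at ht
        subst ht
        have ha := adj_mem_left h
        have hc := adj_mem_right h
        exact (hZ.ok a.2).NT_below (hvF a ha) (hvF c hc) hτ (by simpa using (hv.adj h).2)
          (by simpa using hy c hc) (Or.inr (Or.inr (Or.inl (hE a ha _))))
    · exact absurd h adj_singleton
    · simp only [List.head?_cons, Option.some.injEq] at h'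
      subst h'
      have ha := List.mem_of_getLast? h
      have h2 := hlast a h
      rcases List.mem_append.1 ht with ht | ht
      · have h3 := hv.above_last h t ht hta
        rw [h2]
        refine (hZ.ok f).NT_above (hvF a ha) hτ (hvF t ht) (by simpa using hy a ha)
          (by simpa using h3) (Or.inr (Or.inr (Or.inr ?_)))
        have h4 := hs t ht
        have h5 := (hZ.ok f).pos τ hτ
        have h6 := mul_lt_mul_of_pos_right h4 h5
        have h7 := hy t ht
        simp only [Side.h, sd_y]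
        linarith
      · rw [List.mem_singleton] at ht
        exact absurd ht htc

/-- one block of a chain of windows -/
theorem block {F : Set ι} (hZ : Z.Ok F) {V : Finset ι} (hVF : (V : Set ι) ⊆ F) {τ : ι}
    (hτ : τ ∈ F) (hy : ∀ i ∈ V, Z.y τ < Z.y i)
    (hE : ∀ i ∈ V, ∀ b, (Z.sd b).E i < (Z.sd b).E τ) (wt : ι → ℕ) (κ : ℕ)
    (hfib : ∀ W ⊆ V, ∀ k, Z.Zb W k → ∑ i ∈ W, wt i ≤ κ * k) {k : ℕ} (hk : Z.Zb V k) (o : Bool) :
    ∃ (v : List (ι × Bool)) (c : Bool), Z.Zig (v ++ [(τ, c)]) ∧ (∀ t ∈ v, t.1 ∈ V) ∧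
      (∀ a ∈ (v ++ [(τ, c)]).head?, a.2 = o) ∧
      ∑ i ∈ V, wt i ≤ 4 * κ * (v ++ [(τ, c)]).length := by
  classical
  have hne : ∀ i ∈ V, i ≠ τ := fun i hi h => by
    have := hy i hi; rw [h] at this; exact lt_irrefl _ this
  set G : Bool → Finset ι := fun f => V.filter (fun i => (Z.sd f).s τ < (Z.sd f).s i) with hG
  have hcov : V ⊆ G true ∪ G false := by
    intro i hi
    rw [Finset.mem_union, hG, Finset.mem_filter, Finset.mem_filter]
    rcases lt_or_gt_of_ne (hZ.sl' true (hVF hi) hτ (hne i hi)) with h | h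
    · right
      refine ⟨hi, ?_⟩
      have e1 := Z.sd_s_not true i
      have e2 := Z.sd_s_not true τ
      simp only [Bool.not_true] at e1 e2
      rw [e1, e2]; linarith
    · exact Or.inl ⟨hi, h⟩
  have hsum := sum_le_of_cover hcov wt
  obtain ⟨f, hf⟩ : ∃ f, ∑ i ∈ V, wt i ≤ 2 * ∑ i ∈ G f, wt i := by
    by_contra hcon
    push Not at hcon
    have h1 := hcon true
    have h2 := hcon false
    omega
  have hGV : G f ⊆ V := Finset.filter_subset _ _
  obtain ⟨v0, g1, g2, g3⟩ := (hk.mono hGV).longest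
  have h1 := hfib (G f) hGV _ g3
  obtain ⟨v, k1, k2, k3, k4⟩ := g1.adjust o f
  have hvG : ∀ t ∈ v, t.1 ∈ G f := fun t ht => g2 t (k1.subset ht)
  have hvz := g1.of_sub k1
  by_cases hv : v = []
  · subst hv
    refine ⟨[], o, Zig.singleton _, by simp, ?_, ?_⟩
    · intro a ha
      simp only [List.nil_append, List.head?_cons, Option.mem_some_iff] at ha
      rw [← ha]
    · simp only [List.length_nil, zero_add, List.nil_append, List.length_singleton] at k2 ⊢
      have : κ * v0.length ≤ κ * 2 := Nat.mul_le_mul_left _ k2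
      omega
  · refine ⟨v, !f, ?_, fun t ht => hGV (hvG t ht), ?_, ?_⟩
    · exact hvz.snoc_free hZ (fun t ht => hVF (hGV (hvG t ht))) hτ f k4
        (fun t ht => hy _ (hGV (hvG t ht))) (fun t ht => hE _ (hGV (hvG t ht)))
        (fun t ht => (Finset.mem_filter.1 (hvG t ht)).2)
    · intro a ha
      apply k3 a
      cases v with
      | nil => exact absurd rfl hv
      | cons d v => simpa using ha
    · rw [List.length_append, List.length_singleton]
      have h2 : κ * v0.length ≤ κ * (v.length + 2) := Nat.mul_le_mul_left _ k2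
      have h3 : 2 * (κ * (v.length + 2)) ≤ 4 * κ * (v.length + 1) := by
        have : 4 * κ * (v.length + 1) = 2 * (κ * (v.length + 2)) + 2 * (κ * v.length) := by ring
        omega
      omega

section

open Classical in
/-- the window of a value -/
def fib (H : Finset ι) (ω : ι → ℕ) (c : ℕ) : Finset ι := H.filter (fun i => ω i = c)

theorem mem_fib {H : Finset ι} {ω : ι → ℕ} {c : ℕ} {i : ι} : i ∈ fib H ω c ↔ i ∈ H ∧ ω i = c := by
  unfold fib
  rw [Finset.mem_filter]

theorem chain_step {F : Set ι} (hZ : Z.Ok F) {H : Finset ι} (hHF : (H : Set ι) ⊆ F) {ω : ι → ℕ}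
    (hω : ∀ i ∈ H, ∀ j ∈ H, ω i < ω j → Z.y j < Z.y i ∧ ∀ b, (Z.sd b).E i < (Z.sd b).E j)
    (wt : ι → ℕ) (κ : ℕ)
    (hfib : ∀ W ⊆ H, (∀ i ∈ W, ∀ j ∈ W, ω i = ω j) → ∀ k, Z.Zb W k → ∑ i ∈ W, wt i ≤ κ * k)
    {k : ℕ} (hk : Z.Zb H k) :
    ∀ (L : List ℕ) (w : List (ι × Bool)), (∀ c ∈ L, ∃ i ∈ H, ω i = c) → L.Pairwise (· < ·) →
      Z.Zig w → (∀ t ∈ w, t.1 ∈ H) →
      (∀ a ∈ w.getLast?, ∀ t ∈ w, t ≠ a → (Z.sd a.2).E t.1 < (Z.sd a.2).E a.1) →
      (∀ t ∈ w, ∀ c ∈ L, ω t.1 < c) →
      Cfg.altSum (fun c => ∑ i ∈ fib H ω c, wt i) L + 4 * κ * w.length ≤ 4 * κ * k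
  | [], w, _, _, hw, hwH, _, _ => by
      simp only [Cfg.altSum, zero_add]
      exact Nat.mul_le_mul_left _ (hk w hw hwH)
  | [_], w, _, _, hw, hwH, _, _ => by
      simp only [Cfg.altSum, zero_add]
      exact Nat.mul_le_mul_left _ (hk w hw hwH)
  | r :: s :: L, w, hL, hs, hw, hwH, hlast, hlt => by
      rw [List.pairwise_cons, List.pairwise_cons] at hs
      obtain ⟨hs1, hs2, hs3⟩ := hs
      have hrs : r < s := hs1 s (by simp)
      obtain ⟨τ, hτ, hτs⟩ := hL s (by simp)
      have hV : fib H ω r ⊆ H := fun i hi => (mem_fib.1 hi).1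
      have hVω : ∀ i ∈ fib H ω r, ω i = r := fun i hi => (mem_fib.1 hi).2
      have hdomτ : ∀ i ∈ fib H ω r, Z.y τ < Z.y i ∧ ∀ b, (Z.sd b).E i < (Z.sd b).E τ :=
        fun i hi => hω i (hV hi) τ hτ (by rw [hVω i hi, hτs]; exact hrs)
      -- the orientation needed
      obtain ⟨o, ho⟩ : ∃ o : Bool, ∀ a ∈ w.getLast?, o = !a.2 := by
        cases h : w.getLast? with
        | none => exact ⟨true, by simp⟩
        | some a => exact ⟨!a.2, by simp⟩
      obtain ⟨v, c, hv1, hv2, hv3, hv4⟩ := block hZ (fun i hi => hHF (hV hi)) (hHF hτ)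
        (fun i hi => (hdomτ i hi).1) (fun i hi => (hdomτ i hi).2) wt κ
        (fun W hW k' hk' => hfib W (hW.trans hV) (fun i hi j hj => by
          rw [hVω i (hW hi), hVω j (hW hj)]) k' hk') (hk.mono hV) o
      have hvmem : ∀ t ∈ v ++ [(τ, c)], t.1 ∈ H ∧ r ≤ ω t.1 ∧ ω t.1 ≤ s := by
        intro t ht
        rcases List.mem_append.1 ht with h | h
        · have := hv2 t h
          exact ⟨hV this, (hVω _ this).ge, by rw [hVω _ this]; exact hrs.le⟩
        · rw [List.mem_singleton] at h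
          rw [h]
          exact ⟨hτ, by simp only [hτs]; exact hrs.le, by simp only [hτs]; exact le_rfl⟩
      have hdom : ∀ t ∈ w, ∀ u ∈ v ++ [(τ, c)],
          Z.y u.1 < Z.y t.1 ∧ ∀ b, (Z.sd b).E t.1 < (Z.sd b).E u.1 := by
        intro t ht u hu
        obtain ⟨h1, h2, _⟩ := hvmem u hu
        exact hω _ (hwH t ht) _ h1 ((hlt t ht r (by simp)).trans_le h2)
      have hnew : Z.Zig (w ++ (v ++ [(τ, c)])) := by
        refine Zig.append hZ hw hv1 (fun t ht => hHF (hwH t ht))
          (fun t ht => hHF (hvmem t ht).1) ?_ hdom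
        intro a ha
        refine ⟨fun c' hc' => ?_, hlast a ha⟩
        rw [hv3 c' hc']; exact ho a ha
      have ih := chain_step hZ hHF hω wt κ hfib hk L (w ++ (v ++ [(τ, c)]))
        (fun c' hc' => hL c' (by simp [hc'])) hs3 hnew
        (by
          intro t ht
          rcases List.mem_append.1 ht with h | h
          · exact hwH t h
          · exact (hvmem t h).1)
        (by
          intro a ha t ht hta
          rw [← List.append_assoc, List.getLast?_append, List.getLast?_singleton, Option.some_or,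
            Option.mem_some_iff] at ha
          subst ha
          rcases List.mem_append.1 ht with ht | ht
          · exact (hdom t ht (τ, c) (List.mem_append_right _ (by simp))).2 _
          · rcases List.mem_append.1 ht with ht | ht
            · exact (hdomτ _ (hv2 t ht)).2 _
            · exact absurd (by simpa using ht) hta)
        (by
          intro t ht c' hc'
          rcases List.mem_append.1 ht with h | h
          · exact hlt t h c' (by simp [hc'])
          · exact (hvmem t h).2.2.trans_lt (hs2 c' hc'))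
      simp only [Cfg.altSum]
      rw [List.length_append, mul_add] at ih
      omega

/-- The weight of a chain of windows is bounded by the maximal length of its zigzags. -/
theorem chain_wt {F : Set ι} (hZ : Z.Ok F) {H : Finset ι} (hHF : (H : Set ι) ⊆ F) {ω : ι → ℕ}
    (hω : ∀ i ∈ H, ∀ j ∈ H, ω i < ω j → Z.y j < Z.y i ∧ ∀ b, (Z.sd b).E i < (Z.sd b).E j)
    (wt : ι → ℕ) (κ : ℕ)
    (hfib : ∀ W ⊆ H, (∀ i ∈ W, ∀ j ∈ W, ω i = ω j) → ∀ k, Z.Zb W k → ∑ i ∈ W, wt i ≤ κ * k)
    {k : ℕ} (hk : Z.Zb H k) : ∑ i ∈ H, wt i ≤ 9 * (κ * k) := by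
  classical
  obtain ⟨f, hf⟩ : ∃ f : ℕ → ℕ, f = fun c => ∑ i ∈ fib H ω c, wt i := ⟨_, rfl⟩
  obtain ⟨L, hL⟩ : ∃ L : List ℕ, L = (H.image ω).sort (· ≤ ·) := ⟨_, rfl⟩
  have hmem : ∀ c, c ∈ L → ∃ i ∈ H, ω i = c := by
    intro c hc
    rwa [hL, Finset.mem_sort, Finset.mem_image] at hc
  have hsort : L.Pairwise (· < ·) := by
    rw [hL]
    exact (Finset.sortedLT_sort _).pairwise
  have hsum : ∑ i ∈ H, wt i = (L.map f).sum := by
    rw [hL, ← List.sum_toFinset f (Finset.sort_nodup _ _), Finset.sort_toFinset, hf]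
    rw [← Finset.sum_fiberwise_of_maps_to (g := ω) (t := H.image ω)
      (fun i hi => Finset.mem_image_of_mem _ hi)]
    refine Finset.sum_congr rfl (fun c _ => ?_)
    refine Finset.sum_congr ?_ (fun _ _ => rfl)
    ext i
    rw [mem_fib, Finset.mem_filter]
  have hfM : ∀ c, f c ≤ κ * k := by
    intro c
    rw [hf]
    refine hfib _ (fun i hi => (mem_fib.1 hi).1) ?_ k
      (hk.mono (fun i hi => (mem_fib.1 hi).1))
    intro i hi j hj
    rw [(mem_fib.1 hi).2, (mem_fib.1 hj).2]
  have hstep : ∀ L' : List ℕ, (∀ c ∈ L', ∃ i ∈ H, ω i = c) → L'.Pairwise (· < ·) →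
      Cfg.altSum f L' ≤ 4 * κ * k := by
    intro L' h1 h2
    have := chain_step hZ hHF hω wt κ hfib hk L' [] h1 h2 Zig.nil (by simp) (by simp) (by simp)
    rw [hf]
    simpa using this
  have h1 := Cfg.sum_eq_altSum f L (κ * k) (fun c _ => hfM c)
  have h2 := hstep L hmem hsort
  have h3 := hstep L.tail (fun c hc => hmem c (List.mem_of_mem_tail hc))
    (hsort.sublist (List.tail_sublist L))
  rw [mul_assoc] at h2 h3
  omega

end

end Stab

end Pool.Agent.Lib.ALT
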