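/-
Project ALT: a stabbed family divided into levels; the total weight of all levels is bounded by
the length of the longest zigzag.
-/
import Pool.Agent.Lib.ALT.Chain

set_option autoImplicit false

noncomputable section

namespace Pool.Agent.Lib.ALT

namespace Stab

variable {ι : Type*} {Z : Stab ι}

def K3 : ℕ := 576 * K0 + 2

def K5 : ℕ := 9408 * K0 + 4 * K3

/-- weight of an element -/
def wgt (lev : ι → ℕ) (E : ℕ) (i : ι) : ℕ := 2 ^ (E - lev i)

open Classical in
/-- elements of level at most `e` -/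
def upTo (F : Finset ι) (lev : ι → ℕ) (e : ℕ) : Finset ι := F.filter (fun i => lev i ≤ e)

theorem mem_upTo {F : Finset ι} {lev : ι → ℕ} {e : ℕ} {i : ι} :
    i ∈ upTo F lev e ↔ i ∈ F ∧ lev i ≤ e := by
  unfold upTo
  rw [Finset.mem_filter]

/-- a family with levels -/
structure Lvl (Z : Stab ι) (F : Finset ι) (lev : ι → ℕ) (E : ℕ) (X Y : ℕ → Bool → ℝ) : Prop where
  ok : Z.Ok (F : Set ι)
  le : ∀ i ∈ F, lev i ≤ E
  outer : ∀ e, Outer Z (upTo F lev e) (X e) (Y e) (2 ^ (e + 2))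
  long : ∀ y ∈ F, ∀ e < lev y, ∃ b, ∀ u ∈ F, lev u ≤ e → (Z.sd b).E u < (Z.sd b).E y

theorem Lvl.mono {F F' : Finset ι} {lev : ι → ℕ} {E : ℕ} {X Y : ℕ → Bool → ℝ}
    (hL : Lvl Z F lev E X Y) (hF : F' ⊆ F) : Lvl Z F' lev E X Y := by
  refine ⟨hL.ok.mono (fun i hi => hF hi), fun i hi => hL.le i (hF hi), fun e => ?_,
    fun y hy e he => ?_⟩
  · have h := hL.outer e
    have hs : ∀ i ∈ upTo F' lev e, i ∈ upTo F lev e := fun i hi =>
      mem_upTo.2 ⟨hF (mem_upTo.1 hi).1, (mem_upTo.1 hi).2⟩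
    exact ⟨h.pos, fun i hi => h.out i (hs i hi), fun i hi => h.off i (hs i hi),
      fun w a c h1 h2 => h.bd w a c h1 (fun t ht => hs _ (h2 t ht))⟩
  · obtain ⟨b, hb⟩ := hL.long y (hF hy) e he
    exact ⟨b, fun u hu => hb u (hF hu)⟩

theorem Lvl.flipY {F : Finset ι} {lev : ι → ℕ} {E : ℕ} {X Y : ℕ → Bool → ℝ}
    (hL : Lvl Z F lev E X Y) : Lvl Z.flipY F lev E X (fun e b => -Y e b) := by
  refine ⟨hL.ok.flipY, hL.le, fun e => ?_, fun y hy e he => ?_⟩
  · exact (hL.outer e).flipY hL.ok (fun i hi => (mem_upTo.1 hi).1)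
  · obtain ⟨b, hb⟩ := hL.long y hy e he
    exact ⟨b, fun u hu h => by rw [flipY_sd_E]; exact hb u hu h⟩

theorem sum_wgt_level {W : Finset ι} {lev : ι → ℕ} {E e : ℕ} (h : ∀ i ∈ W, lev i = e) :
    ∑ i ∈ W, wgt lev E i = W.card * 2 ^ (E - e) := by
  rw [Finset.sum_congr rfl (fun i hi => by unfold wgt; rw [h i hi]), Finset.sum_const,
    smul_eq_mul]

variable {F : Finset ι} {lev : ι → ℕ} {E : ℕ} {X Y : ℕ → Bool → ℝ}

theorem Lvl.level_wt (hL : Lvl Z F lev E X Y) {W : Finset ι} (hW : W ⊆ F) {e : ℕ}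
    (he : ∀ i ∈ W, lev i = e) {k : ℕ} (hk : Z.Zb W k) :
    ∑ i ∈ W, wgt lev E i ≤ 4 * K0 * 2 ^ E * k := by
  rcases W.eq_empty_or_nonempty with rfl | ⟨i0, hi0⟩
  · simp
  have heE : e ≤ E := by rw [← he i0 hi0]; exact hL.le i0 (hW hi0)
  have hcard := (hL.outer e).card_le hL.ok (fun i hi => (mem_upTo.1 hi).1) (V := W)
    (fun i hi => mem_upTo.2 ⟨hW hi, (he i hi).le⟩) hk
  rw [sum_wgt_level he]
  have h2 : 2 ^ E = 2 ^ e * 2 ^ (E - e) := by rw [← pow_add]; congr 1; omega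
  calc W.card * 2 ^ (E - e) ≤ K0 * (2 ^ (e + 2) * k) * 2 ^ (E - e) := Nat.mul_le_mul_right _ hcard
    _ = 4 * K0 * (2 ^ e * 2 ^ (E - e)) * k := by ring
    _ = 4 * K0 * 2 ^ E * k := by rw [h2]

open Classical in
/-- elements of level less than `e` -/
def below (F : Finset ι) (lev : ι → ℕ) (e : ℕ) : Finset ι := F.filter (fun i => lev i < e)

open Classical in
/-- elements of level `e` -/
def level (F : Finset ι) (lev : ι → ℕ) (e : ℕ) : Finset ι := F.filter (fun i => lev i = e)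

theorem mem_below {e : ℕ} {i : ι} : i ∈ below F lev e ↔ i ∈ F ∧ lev i < e := by
  unfold below
  rw [Finset.mem_filter]

theorem mem_level {e : ℕ} {i : ι} : i ∈ level F lev e ↔ i ∈ F ∧ lev i = e := by
  unfold level
  rw [Finset.mem_filter]

theorem sum_below_succ (f : ι → ℕ) (e : ℕ) :
    ∑ i ∈ below F lev (e + 1), f i = ∑ i ∈ below F lev e, f i + ∑ i ∈ level F lev e, f i := by
  classical
  rw [← Finset.sum_union]
  · refine Finset.sum_congr ?_ (fun _ _ => rfl)
    ext i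
    rw [Finset.mem_union, mem_below, mem_below, mem_level]
    constructor
    · rintro ⟨h1, h2⟩
      rcases Nat.lt_succ_iff_lt_or_eq.1 h2 with h | h
      · exact Or.inl ⟨h1, h⟩
      · exact Or.inr ⟨h1, h⟩
    · rintro (⟨h1, h2⟩ | ⟨h1, h2⟩)
      · exact ⟨h1, by omega⟩
      · exact ⟨h1, by omega⟩
  · rw [Finset.disjoint_left]
    intro i h1 h2
    have := (mem_below.1 h1).2
    have := (mem_level.1 h2).2
    omega

/-- The state of the construction: a chain of windows containing a fixed part of the weight. -/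
structure St (Z : Stab ι) (F : Finset ι) (lev : ι → ℕ) (E e : ℕ) (H : Finset ι) (ω : ι → ℕ) :
    Prop where
  sub : ∀ i ∈ H, i ∈ F ∧ lev i < e
  dom : ∀ i ∈ H, ∀ j ∈ H, ω i < ω j → Z.y j < Z.y i ∧ ∀ b, (Z.sd b).E i < (Z.sd b).E j
  lvl : ∀ i ∈ H, ∀ j ∈ H, ω i = ω j → lev i = lev j
  size : ∀ r, ∑ i ∈ fib H ω r, wgt lev E i ≤ K3 * (2 ^ e * 2 ^ E)
  loss : ∑ i ∈ below F lev e, wgt lev E i ≤ 4 * ∑ i ∈ H, wgt lev E i + K5 * (2 ^ e * 2 ^ E)

theorem St.sub_wt (hL : Lvl Z F lev E X Y) {e : ℕ} {H : Finset ι} {ω : ι → ℕ}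
    (hS : St Z F lev E e H ω) {W : Finset ι} (hW : W ⊆ H) {k : ℕ} (hk : Z.Zb W k) :
    ∑ i ∈ W, wgt lev E i ≤ 9 * (4 * K0 * 2 ^ E * k) := by
  refine chain_wt hL.ok (fun i hi => (hS.sub i (hW hi)).1) (ω := ω)
    (fun i hi j hj => hS.dom i (hW hi) j (hW hj)) (wgt lev E) (4 * K0 * 2 ^ E) ?_ hk
  intro V hV hω k' hk'
  rcases V.eq_empty_or_nonempty with rfl | ⟨i0, hi0⟩
  · simp
  exact hL.level_wt (fun i hi => (hS.sub i (hW (hV hi))).1) (e := lev i0)
    (fun i hi => hS.lvl i (hW (hV hi)) i0 (hW (hV hi0)) (hω i hi i0 hi0)) hk'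

/-- First part of a step: elements of the chain which do not fit are removed. -/
theorem St.clean (hL : Lvl Z F lev E X Y)
    (hbb : ∀ i ∈ F, ∀ b, Y (lev i) b < (Z.sd b).h i (X (lev i) b)) {e : ℕ} {H : Finset ι}
    {ω : ι → ℕ} (hS : St Z F lev E e H ω) (hG : (level F lev e).Nonempty) :
    ∃ H2 ⊆ H, (∀ i ∈ H2, ∀ b, Y e b < (Z.sd b).h i (X e b)) ∧
      (∀ i ∈ H2, ∀ g ∈ level F lev e, Z.y g < Z.y i) ∧
      ∑ i ∈ H, wgt lev E i ≤ ∑ i ∈ H2, wgt lev E i + 2304 * (K0 * (2 ^ e * 2 ^ E)) +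
        K3 * (2 ^ e * 2 ^ E) := by
  classical
  have hO := hL.outer e
  have hHU : H ⊆ upTo F lev e := fun i hi => mem_upTo.2 ⟨(hS.sub i hi).1, (hS.sub i hi).2.le⟩
  have hUF : ((upTo F lev e : Finset ι) : Set ι) ⊆ (F : Set ι) := fun i hi => (mem_upTo.1 hi).1
  have hsum := sum_typ hO hHU (wgt lev E)
  have hP : 9 * (4 * K0 * 2 ^ E * (2 * 2 ^ (e + 2))) = 288 * (K0 * (2 ^ e * 2 ^ E)) := by ring
  have hts : ∀ b b', Z.typ (X e) (Y e) H b b' ⊆ H := fun b b' => typ_sub H b b'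
  -- mixed types
  have h1 : ∑ i ∈ Z.typ (X e) (Y e) H true false, wgt lev E i ≤ 288 * (K0 * (2 ^ e * 2 ^ E)) := by
    rw [← hP]
    exact hS.sub_wt hL (hts _ _) (hO.zb_mixed ((hts _ _).trans hHU) true
      (fun i hi => (typ_mix (β := true) hi).1) (fun i hi => (typ_mix (β := true) hi).2))
  have h2 : ∑ i ∈ Z.typ (X e) (Y e) H false true, wgt lev E i ≤ 288 * (K0 * (2 ^ e * 2 ^ E)) := by
    rw [← hP]
    exact hS.sub_wt hL (hts _ _) (hO.zb_mixed ((hts _ _).trans hHU) false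
      (fun i hi => (typ_mix (β := false) hi).1) (fun i hi => (typ_mix (β := false) hi).2))
  -- elements below both outer points
  have h3 : ∑ i ∈ Z.typ (X e) (Y e) H false false, wgt lev E i ≤
      864 * (K0 * (2 ^ e * 2 ^ E)) + K3 * (2 ^ e * 2 ^ E) := by
    rcases (Z.typ (X e) (Y e) H false false).eq_empty_or_nonempty with h0 | h0
    · rw [h0]; simp
    obtain ⟨τ, hτ, hmax⟩ := (Z.typ (X e) (Y e) H false false).exists_max_image ω h0
    have hτH := hts _ _ hτ
    set D := (Z.typ (X e) (Y e) H false false).filter (fun i => ω i < ω τ) with hD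
    have hDs : D ⊆ Z.typ (X e) (Y e) H false false := Finset.filter_subset _ _
    have hcov : Z.typ (X e) (Y e) H false false ⊆ fib H ω (ω τ) ∪ D := by
      intro i hi
      rw [Finset.mem_union, mem_fib, hD, Finset.mem_filter]
      rcases lt_or_eq_of_le (hmax i hi) with h | h
      · exact Or.inr ⟨hi, h⟩
      · exact Or.inl ⟨hts _ _ hi, h⟩
    have g1 := sum_le_of_cover hcov (wgt lev E)
    have g2 := hS.size (ω τ)
    have g3 := (hO.flipY hL.ok hUF).cap_wt hL.ok.flipY hUF (D := D) (hDs.trans ((hts _ _).trans hHU))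
      (hHU hτH) true
      (fun i hi => by
        simp only [flipY_y, neg_lt_neg_iff]
        exact (hS.dom i (hts _ _ (hDs hi)) τ hτH (Finset.mem_filter.1 hi).2).1)
      (fun i hi => by
        rw [flipY_sd_E]
        exact (hS.dom i (hts _ _ (hDs hi)) τ hτH (Finset.mem_filter.1 hi).2).2 true)
      (fun b => by rw [flipY_sd, Side.flip_h, neg_lt_neg_iff]; exact typ_ff hτ b)
      (fun i hi b => by rw [flipY_sd, Side.flip_h, neg_lt_neg_iff]; exact typ_ff (hDs hi) b)
      (wgt lev E) (288 * (K0 * (2 ^ e * 2 ^ E)))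
      (fun K hK hK' => by
        rw [← hP]
        have hKH : K ⊆ H := hK.trans (hDs.trans (hts _ _))
        exact hS.sub_wt hL hKH (hK'.of_flipY hL.ok (fun i hi => (hS.sub i (hKH hi)).1)))
    omega
  -- elements below the top of the level
  obtain ⟨y0, hy0, hmax⟩ := (level F lev e).exists_max_image Z.y hG
  obtain ⟨hy0F, hy0e⟩ := mem_level.1 hy0
  obtain ⟨b, hb⟩ : ∃ b, ∀ i ∈ H, (Z.sd b).E i < (Z.sd b).E y0 := by
    rcases Nat.eq_zero_or_pos e with h | h
    · refine ⟨true, fun i hi => ?_⟩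
      have := (hS.sub i hi).2
      omega
    · obtain ⟨b, hb⟩ := hL.long y0 hy0F (e - 1) (by omega)
      refine ⟨b, fun i hi => hb i (hS.sub i hi).1 ?_⟩
      have := (hS.sub i hi).2
      omega
  set D := (Z.typ (X e) (Y e) H true true).filter (fun i => Z.y i < Z.y y0) with hD
  have hDs : D ⊆ Z.typ (X e) (Y e) H true true := Finset.filter_subset _ _
  have h4 := hO.cap_wt hL.ok hUF (D := D) (hDs.trans ((hts _ _).trans hHU))
    (mem_upTo.2 ⟨hy0F, hy0e.le⟩) b (fun i hi => (Finset.mem_filter.1 hi).2)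
    (fun i hi => hb i (hts _ _ (hDs hi)))
    (fun b => by
      have := hbb y0 hy0F b
      rwa [hy0e] at this)
    (fun i hi b => typ_tt (hDs hi) b) (wgt lev E) (288 * (K0 * (2 ^ e * 2 ^ E)))
    (fun K hK hK' => by
      rw [← hP]
      exact hS.sub_wt hL (hK.trans (hDs.trans (hts _ _))) hK')
  set H2 := (Z.typ (X e) (Y e) H true true).filter (fun i => ¬ Z.y i < Z.y y0) with hH2
  have hH2s : H2 ⊆ Z.typ (X e) (Y e) H true true := Finset.filter_subset _ _
  have hcov : Z.typ (X e) (Y e) H true true ⊆ D ∪ H2 := by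
    intro i hi
    rw [Finset.mem_union, hD, hH2, Finset.mem_filter, Finset.mem_filter]
    by_cases h : Z.y i < Z.y y0
    · exact Or.inl ⟨hi, h⟩
    · exact Or.inr ⟨hi, h⟩
  have h5 := sum_le_of_cover hcov (wgt lev E)
  refine ⟨H2, hH2s.trans (hts _ _), fun i hi b => typ_tt (hH2s hi) b, ?_, by omega⟩
  intro i hi g hg
  have h6 := not_lt.1 (Finset.mem_filter.1 hi).2
  have h7 := hmax g hg
  have hiH := hts _ _ (hH2s hi)
  obtain ⟨hgF, hge⟩ := mem_level.1 hg
  refine lt_of_le_of_ne (h7.trans h6) (hL.ok.y_ne hgF (hS.sub i hiH).1 ?_)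
  intro h
  have := (hS.sub i hiH).2
  rw [← h, hge] at this
  exact lt_irrefl _ this

/-- Second part of a step: elements of the new level shorter than a chain element. -/
theorem Lvl.clean_level (hL : Lvl Z F lev E X Y)
    (hbb : ∀ i ∈ F, ∀ b, Y (lev i) b < (Z.sd b).h i (X (lev i) b)) {e : ℕ} {H2 : Finset ι}
    (hsub : ∀ i ∈ H2, i ∈ F ∧ lev i < e)
    (h2b : ∀ i ∈ H2, ∀ b, Y e b < (Z.sd b).h i (X e b))
    (h2y : ∀ i ∈ H2, ∀ g ∈ level F lev e, Z.y g < Z.y i) :
    ∃ G2 ⊆ level F lev e, (∀ g ∈ G2, ∀ i ∈ H2, ∀ b, (Z.sd b).E i < (Z.sd b).E g) ∧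
      ∑ i ∈ level F lev e, wgt lev E i ≤ ∑ i ∈ G2, wgt lev E i +
        192 * (K0 * (2 ^ e * 2 ^ E)) := by
  classical
  have hO := hL.outer e
  have hUF : ((upTo F lev e : Finset ι) : Set ι) ⊆ (F : Set ι) := fun i hi => (mem_upTo.1 hi).1
  have hGU : level F lev e ⊆ upTo F lev e := fun i hi =>
    mem_upTo.2 ⟨(mem_level.1 hi).1, (mem_level.1 hi).2.le⟩
  have hP : 4 * K0 * 2 ^ E * (2 * 2 ^ (e + 2)) = 32 * (K0 * (2 ^ e * 2 ^ E)) := by ring
  set D : Bool → Finset ι := fun b => (level F lev e).filter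
    (fun g => ∃ i ∈ H2, ¬ (Z.sd b).E i < (Z.sd b).E g) with hD
  have hDs : ∀ b, D b ⊆ level F lev e := fun b => Finset.filter_subset _ _
  have hDw : ∀ b, ∑ i ∈ D b, wgt lev E i ≤ 96 * (K0 * (2 ^ e * 2 ^ E)) := by
    intro b
    rcases H2.eq_empty_or_nonempty with h0 | h0
    · have : D b = ∅ := by
        rw [Finset.eq_empty_iff_forall_notMem]
        intro g hg
        obtain ⟨i, hi, _⟩ := (Finset.mem_filter.1 hg).2
        rw [h0] at hi
        exact absurd hi (Finset.notMem_empty i)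
      rw [this]; simp
    obtain ⟨t, ht, hmax⟩ := H2.exists_max_image (fun i => (Z.sd b).E i) h0
    have htU : t ∈ upTo F lev e := mem_upTo.2 ⟨(hsub t ht).1, (hsub t ht).2.le⟩
    have h1 := hO.cap_wt hL.ok hUF (D := D b) ((hDs b).trans hGU) htU b
      (fun i hi => h2y t ht i (hDs b hi))
      (fun g hg => by
        obtain ⟨i, hi, hi'⟩ := (Finset.mem_filter.1 hg).2
        have h3 := mem_level.1 (hDs b hg)
        refine lt_of_le_of_ne ((not_lt.1 hi').trans (hmax i hi)) ?_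
        refine (hL.ok.ok b).inj g h3.1 t (hsub t ht).1 ?_
        intro h
        have := (hsub t ht).2
        rw [← h, h3.2] at this
        exact lt_irrefl _ this)
      (h2b t ht)
      (fun i hi b' => by
        have h3 := mem_level.1 (hDs b hi)
        have := hbb i h3.1 b'
        rwa [h3.2] at this)
      (wgt lev E) (32 * (K0 * (2 ^ e * 2 ^ E)))
      (fun K hK hK' => by
        rw [← hP]
        exact hL.level_wt (fun i hi => (mem_level.1 (hDs b (hK hi))).1)
          (fun i hi => (mem_level.1 (hDs b (hK hi))).2) hK')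
    omega
  set G2 := (level F lev e).filter (fun g => ∀ i ∈ H2, ∀ b, (Z.sd b).E i < (Z.sd b).E g) with hG2
  have hcov : level F lev e ⊆ G2 ∪ (D true ∪ D false) := by
    intro g hg
    rw [Finset.mem_union, Finset.mem_union, hG2, hD, Finset.mem_filter, Finset.mem_filter,
      Finset.mem_filter]
    by_cases h : ∀ i ∈ H2, ∀ b, (Z.sd b).E i < (Z.sd b).E g
    · exact Or.inl ⟨hg, h⟩
    · push Not at h
      obtain ⟨i, hi, b, hb⟩ := h
      cases b
      · exact Or.inr (Or.inr ⟨hg, i, hi, not_lt.2 hb⟩)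
      · exact Or.inr (Or.inl ⟨hg, i, hi, not_lt.2 hb⟩)
  have h1 := sum_le_of_cover hcov (wgt lev E)
  have h2 := sum_le_of_cover (Finset.Subset.refl (D true ∪ D false)) (wgt lev E)
  have h3 := hDw true
  have h4 := hDw false
  exact ⟨G2, Finset.filter_subset _ _, fun g hg => (Finset.mem_filter.1 hg).2, by omega⟩

/-- A quarter of a family is a chain of windows of bounded size. -/
theorem exists_windows {F : Set ι} (hZ : Z.Ok F) {A : Finset ι} (hAF : (A : Set ι) ⊆ F) {d : ℕ}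
    (hD : ∀ j ∈ A, (Z.D A j).card ≤ d) :
    ∃ (A' : Finset ι) (idx : ι → ℕ), A' ⊆ A ∧ A.card ≤ 4 * A'.card ∧
      (∀ i ∈ A', ∀ j ∈ A', idx i < idx j → Z.y j < Z.y i ∧ ∀ b, (Z.sd b).E i < (Z.sd b).E j) ∧
      (∀ r, (fib A' idx r).card ≤ 3 * d + 2) := by
  classical
  rcases A.eq_empty_or_nonempty with rfl | hA
  · exact ⟨∅, fun _ => 0, Finset.Subset.refl _, by simp, by simp, by simp [fib]⟩
  obtain ⟨N, en, h1, h2, h3, h4⟩ := exists_nested hZ hAF hA hD
  obtain ⟨M, hM⟩ : ∃ M, M = 3 * d + 2 := ⟨_, rfl⟩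
  have hinj : ∀ i j, i < N → j < N → en i = en j → i = j := by
    intro i j hi hj hij
    by_contra hne
    rcases lt_or_gt_of_ne hne with h' | h'
    · have := h3 i j h' hj; rw [hij] at this; exact lt_irrefl _ this
    · have := h3 j i h' hi; rw [hij] at this; exact lt_irrefl _ this
  obtain ⟨g, hg⟩ : ∃ g : ι → ℕ, ∀ i < N, g (en i) = i := by
    refine ⟨fun x => if h : ∃ i, i < N ∧ en i = x then h.choose else 0, ?_⟩
    intro i hi
    have hex : ∃ i', i' < N ∧ en i' = en i := ⟨i, hi, rfl⟩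
    simp only [dif_pos hex]
    exact hinj _ _ hex.choose_spec.1 hi hex.choose_spec.2
  set P : ℕ → Finset ℕ := fun r => (Finset.range N).filter (fun i => i / M % 2 = r) with hP
  obtain ⟨π, hπ⟩ : ∃ π, N ≤ 2 * (P π).card := by
    by_contra hcon
    push Not at hcon
    have e0 := hcon 0
    have e1 := hcon 1
    have e3 : (Finset.range N).card = ∑ r ∈ Finset.range 2, (P r).card := by
      refine Finset.card_eq_sum_card_fiberwise (fun j _ => ?_)
      exact Finset.mem_coe.2 (Finset.mem_range.2 (Nat.mod_lt _ (by norm_num)))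
    rw [Finset.sum_range_succ, Finset.sum_range_one, Finset.card_range] at e3
    omega
  have hPm : ∀ i ∈ P π, i < N ∧ i / M % 2 = π := by
    intro i hi
    rw [hP, Finset.mem_filter, Finset.mem_range] at hi
    exact hi
  refine ⟨(P π).image en, fun x => g x / M, ?_, ?_, ?_, ?_⟩
  · intro x hx
    obtain ⟨i, hi, rfl⟩ := Finset.mem_image.1 hx
    exact h2 i (hPm i hi).1
  · rw [Finset.card_image_of_injOn]
    · omega
    · intro i hi j hj hij
      exact hinj i j (hPm i hi).1 (hPm j hj).1 hij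
  · intro x hx x' hx' hlt
    obtain ⟨i, hi, rfl⟩ := Finset.mem_image.1 hx
    obtain ⟨j, hj, rfl⟩ := Finset.mem_image.1 hx'
    obtain ⟨hi1, hi2⟩ := hPm i hi
    obtain ⟨hj1, hj2⟩ := hPm j hj
    simp only [hg i hi1, hg j hj1] at hlt
    have e1 : i / M + 2 ≤ j / M := by omega
    have e2 : i + M ≤ j := by
      have f1 : i < (i / M + 1) * M := by
        have := Nat.lt_mul_div_succ i (show 0 < M by omega)
        rwa [mul_comm] at this
      have f2 : j / M * M ≤ j := Nat.div_mul_le_self j M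
      have f3 : (i / M + 2) * M ≤ j / M * M := Nat.mul_le_mul_right _ e1
      have f4 : (i / M + 2) * M = (i / M + 1) * M + M := by ring
      omega
    exact ⟨h3 i j (by omega) hj1, h4 i j (by omega) hj1⟩
  · intro r
    have hsub : fib ((P π).image en) (fun x => g x / M) r ⊆
        (Finset.Ico (r * M) (r * M + M)).image en := by
      intro x hx
      obtain ⟨hx1, hx2⟩ := mem_fib.1 hx
      obtain ⟨i, hi, rfl⟩ := Finset.mem_image.1 hx1
      simp only [hg i (hPm i hi).1] at hx2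
      refine Finset.mem_image_of_mem _ (Finset.mem_Ico.2 ⟨?_, ?_⟩)
      · rw [← hx2]; exact Nat.div_mul_le_self i M
      · have := Nat.lt_mul_div_succ i (show 0 < M by omega)
        rw [hx2, mul_comm, Nat.succ_mul] at this
        exact this
    have h5 := (Finset.card_le_card hsub).trans Finset.card_image_le
    rw [Nat.card_Ico] at h5
    omega

/-- Third part of a step: windows in the new level. -/
theorem Lvl.windows (hL : Lvl Z F lev E X Y)
    (hbb : ∀ i ∈ F, ∀ b, Y (lev i) b < (Z.sd b).h i (X (lev i) b)) {e : ℕ} (he : e ≤ E)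
    {G2 : Finset ι} (hG2 : G2 ⊆ level F lev e) :
    ∃ (G' : Finset ι) (idx : ι → ℕ), G' ⊆ G2 ∧
      ∑ i ∈ G2, wgt lev E i ≤ 4 * ∑ i ∈ G', wgt lev E i ∧
      (∀ i ∈ G', ∀ j ∈ G', idx i < idx j → Z.y j < Z.y i ∧ ∀ b, (Z.sd b).E i < (Z.sd b).E j) ∧
      (∀ r, ∑ i ∈ fib G' idx r, wgt lev E i ≤ K3 * (2 ^ e * 2 ^ E)) := by
  classical
  have hO := hL.outer e
  have hUF : ((upTo F lev e : Finset ι) : Set ι) ⊆ (F : Set ι) := fun i hi => (mem_upTo.1 hi).1
  have hGU : level F lev e ⊆ upTo F lev e := fun i hi =>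
    mem_upTo.2 ⟨(mem_level.1 hi).1, (mem_level.1 hi).2.le⟩
  have hP : 4 * K0 * 2 ^ E * (2 * 2 ^ (e + 2)) = 32 * (K0 * (2 ^ e * 2 ^ E)) := by ring
  have h2E : 2 ^ E = 2 ^ e * 2 ^ (E - e) := by rw [← pow_add]; congr 1; omega
  have hGe : ∀ {W : Finset ι}, W ⊆ level F lev e → ∑ i ∈ W, wgt lev E i = W.card * 2 ^ (E - e) :=
    fun hW => sum_wgt_level (fun i hi => (mem_level.1 (hW hi)).2)
  have hbe : ∀ i ∈ level F lev e, ∀ b, Y e b < (Z.sd b).h i (X e b) := by
    intro i hi b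
    have h3 := mem_level.1 hi
    have := hbb i h3.1 b
    rwa [h3.2] at this
  have hD : ∀ j ∈ G2, (Z.D G2 j).card ≤ 192 * K0 * (2 ^ e * 2 ^ e) := by
    intro j hj
    set Dj : Bool → Finset ι := fun b =>
      G2.filter (fun i => Z.y i < Z.y j ∧ (Z.sd b).E i < (Z.sd b).E j) with hDj
    have hDs : ∀ b, Dj b ⊆ level F lev e := fun b => (Finset.filter_subset _ _).trans hG2
    have hDw : ∀ b, ∑ i ∈ Dj b, wgt lev E i ≤ 96 * (K0 * (2 ^ e * 2 ^ E)) := by
      intro b
      have h1 := hO.cap_wt hL.ok hUF (D := Dj b) ((hDs b).trans hGU) (hGU (hG2 hj)) b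
        (fun i hi => (Finset.mem_filter.1 hi).2.1) (fun i hi => (Finset.mem_filter.1 hi).2.2)
        (hbe j (hG2 hj)) (fun i hi => hbe i (hDs b hi))
        (wgt lev E) (32 * (K0 * (2 ^ e * 2 ^ E)))
        (fun K hK hK' => by
          rw [← hP]
          exact hL.level_wt (fun i hi => (mem_level.1 (hDs b (hK hi))).1)
            (fun i hi => (mem_level.1 (hDs b (hK hi))).2) hK')
      omega
    have hcov : Z.D G2 j ⊆ Dj true ∪ Dj false := by
      intro i hi
      unfold D at hi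
      obtain ⟨h1, h2, b, h3⟩ := Finset.mem_filter.1 hi
      rw [Finset.mem_union]
      cases b
      · exact Or.inr (Finset.mem_filter.2 ⟨h1, h2, h3⟩)
      · exact Or.inl (Finset.mem_filter.2 ⟨h1, h2, h3⟩)
    have h1 := sum_le_of_cover hcov (wgt lev E)
    have h2 := hDw true
    have h3 := hDw false
    have hDsub : Z.D G2 j ⊆ level F lev e := by
      unfold D
      exact (Finset.filter_subset _ _).trans hG2
    rw [hGe hDsub] at h1
    have h4 : (Z.D G2 j).card * 2 ^ (E - e) ≤ (192 * K0 * (2 ^ e * 2 ^ e)) * 2 ^ (E - e) := by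
      calc (Z.D G2 j).card * 2 ^ (E - e) ≤ 192 * (K0 * (2 ^ e * 2 ^ E)) := by omega
        _ = (192 * K0 * (2 ^ e * 2 ^ e)) * 2 ^ (E - e) := by rw [h2E]; ring
    exact Nat.le_of_mul_le_mul_right h4 (by positivity)
  obtain ⟨G', idx, h1, h2, h3, h4⟩ := exists_windows hL.ok
    (fun i hi => (mem_level.1 (hG2 hi)).1) hD
  refine ⟨G', idx, h1, ?_, h3, ?_⟩
  · rw [hGe hG2, hGe (h1.trans hG2), ← mul_assoc]
    exact Nat.mul_le_mul_right _ h2
  · intro r
    have hf : fib G' idx r ⊆ level F lev e := fun i hi => hG2 (h1 (mem_fib.1 hi).1)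
    rw [hGe hf]
    have h5 : 1 ≤ 2 ^ e * 2 ^ e := Nat.one_le_iff_ne_zero.2 (by positivity)
    calc (fib G' idx r).card * 2 ^ (E - e)
        ≤ (3 * (192 * K0 * (2 ^ e * 2 ^ e)) + 2) * 2 ^ (E - e) := Nat.mul_le_mul_right _ (h4 r)
      _ ≤ (3 * (192 * K0 * (2 ^ e * 2 ^ e)) + 2 * (2 ^ e * 2 ^ e)) * 2 ^ (E - e) := by
          apply Nat.mul_le_mul_right; omega
      _ = K3 * (2 ^ e * (2 ^ e * 2 ^ (E - e))) := by unfold K3; ring
      _ = K3 * (2 ^ e * 2 ^ E) := by rw [← h2E]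

/-- One step of the construction. -/
theorem St.step (hL : Lvl Z F lev E X Y)
    (hbb : ∀ i ∈ F, ∀ b, Y (lev i) b < (Z.sd b).h i (X (lev i) b)) {e : ℕ} {H : Finset ι}
    {ω : ι → ℕ} (hS : St Z F lev E e H ω) : ∃ H' ω', St Z F lev E (e + 1) H' ω' := by
  classical
  have hpow : 2 ^ (e + 1) * 2 ^ E = 2 * (2 ^ e * 2 ^ E) := by ring
  have hsucc := sum_below_succ (F := F) (lev := lev) (wgt lev E) e
  have hloss := hS.loss
  rcases (level F lev e).eq_empty_or_nonempty with hG | hG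
  · refine ⟨H, ω, fun i hi => ⟨(hS.sub i hi).1, (hS.sub i hi).2.trans (Nat.lt_succ_self e)⟩,
      hS.dom, hS.lvl, fun r => ?_, ?_⟩
    · have := hS.size r
      rw [hpow, ← mul_assoc, mul_comm K3 2, mul_assoc]
      omega
    · rw [hG, Finset.sum_empty] at hsucc
      rw [hpow, ← mul_assoc K5, mul_comm K5 2, mul_assoc]
      omega
  have heE : e ≤ E := by
    obtain ⟨g, hg⟩ := hG
    rw [← (mem_level.1 hg).2]
    exact hL.le g (mem_level.1 hg).1
  obtain ⟨H2, a1, a2, a3, a4⟩ := hS.clean hL hbb hG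
  obtain ⟨G2, b1, b2, b3⟩ := hL.clean_level hbb (fun i hi => hS.sub i (a1 hi)) a2 a3
  obtain ⟨G', idx, c1, c2, c3, c4⟩ := hL.windows hbb heE b1
  have hG'l : ∀ i ∈ G', i ∈ F ∧ lev i = e := fun i hi => mem_level.1 (b1 (c1 hi))
  have hH2l : ∀ i ∈ H2, i ∈ F ∧ lev i < e := fun i hi => hS.sub i (a1 hi)
  have hdisj : Disjoint H2 G' := by
    rw [Finset.disjoint_left]
    intro i h1 h2
    have := (hH2l i h1).2
    rw [(hG'l i h2).2] at this
    exact lt_irrefl _ this
  obtain ⟨Ω, hΩ⟩ : ∃ Ω, ∀ i ∈ H2, ω i < Ω :=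
    ⟨H2.sup ω + 1, fun i hi => Nat.lt_succ_of_le (Finset.le_sup hi)⟩
  obtain ⟨ω', hω'⟩ : ∃ ω' : ι → ℕ, ω' = fun i => if i ∈ H2 then ω i else Ω + idx i := ⟨_, rfl⟩
  have hωH : ∀ i ∈ H2, ω' i = ω i := fun i hi => by rw [hω']; simp only; rw [if_pos hi]
  have hωG : ∀ i ∈ G', ω' i = Ω + idx i := fun i hi => by
    rw [hω']; simp only; rw [if_neg (fun h => Finset.disjoint_left.1 hdisj h hi)]
  refine ⟨H2 ∪ G', ω', ?_, ?_, ?_, ?_, ?_⟩
  · intro i hi
    rcases Finset.mem_union.1 hi with h | h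
    · exact ⟨(hH2l i h).1, (hH2l i h).2.trans (Nat.lt_succ_self e)⟩
    · exact ⟨(hG'l i h).1, by rw [(hG'l i h).2]; exact Nat.lt_succ_self e⟩
  · intro i hi j hj hij
    rcases Finset.mem_union.1 hi with h | h <;> rcases Finset.mem_union.1 hj with h' | h'
    · rw [hωH i h, hωH j h'] at hij
      exact hS.dom i (a1 h) j (a1 h') hij
    · exact ⟨a3 i h j (b1 (c1 h')), b2 j (c1 h') i h⟩
    · rw [hωG i h, hωH j h'] at hij
      have := hΩ j h'
      omega
    · rw [hωG i h, hωG j h'] at hij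
      exact c3 i h j h' (by omega)
  · intro i hi j hj hij
    rcases Finset.mem_union.1 hi with h | h <;> rcases Finset.mem_union.1 hj with h' | h'
    · rw [hωH i h, hωH j h'] at hij
      exact hS.lvl i (a1 h) j (a1 h') hij
    · rw [hωH i h, hωG j h'] at hij
      have := hΩ i h
      omega
    · rw [hωG i h, hωH j h'] at hij
      have := hΩ j h'
      omega
    · rw [(hG'l i h).2, (hG'l j h').2]
  · intro r
    rw [hpow, ← mul_assoc, mul_comm K3 2, mul_assoc]
    by_cases hr : r < Ω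
    · have hsub : fib (H2 ∪ G') ω' r ⊆ fib H ω r := by
        intro i hi
        obtain ⟨h1, h2⟩ := mem_fib.1 hi
        rcases Finset.mem_union.1 h1 with h | h
        · rw [hωH i h] at h2
          exact mem_fib.2 ⟨a1 h, h2⟩
        · rw [hωG i h] at h2
          omega
      have h1 := Finset.sum_le_sum_of_subset (f := wgt lev E) hsub
      have h2 := hS.size r
      omega
    · have hsub : fib (H2 ∪ G') ω' r ⊆ fib G' idx (r - Ω) := by
        intro i hi
        obtain ⟨h1, h2⟩ := mem_fib.1 hi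
        rcases Finset.mem_union.1 h1 with h | h
        · rw [hωH i h] at h2
          have := hΩ i h
          omega
        · rw [hωG i h] at h2
          exact mem_fib.2 ⟨h, by omega⟩
      have h1 := Finset.sum_le_sum_of_subset (f := wgt lev E) hsub
      have h2 := c4 (r - Ω)
      omega
  · rw [Finset.sum_union hdisj, hpow, hsucc]
    have hK5 : K5 * (2 * (2 ^ e * 2 ^ E)) = K5 * (2 ^ e * 2 ^ E) +
        (9408 * (K0 * (2 ^ e * 2 ^ E)) + 4 * (K3 * (2 ^ e * 2 ^ E))) := by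
      unfold K5; ring
    rw [hK5]
    omega

/-- The additivity lemma. -/
theorem Lvl.additive (hL : Lvl Z F lev E X Y)
    (hbb : ∀ i ∈ F, ∀ b, Y (lev i) b < (Z.sd b).h i (X (lev i) b)) {T : ℕ} (hT : Z.Zb F T) :
    ∑ i ∈ F, wgt lev E i ≤ 144 * (K0 * (2 ^ E * T)) + 2 * K5 * (2 ^ E * 2 ^ E) := by
  classical
  have h0 : ∀ e, ∃ H ω, St Z F lev E e H ω := by
    intro e
    induction e with
    | zero =>
      refine ⟨∅, fun _ => 0, by simp, by simp, by simp, fun r => ?_, ?_⟩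
      · have : fib (∅ : Finset ι) (fun _ => 0) r = ∅ := by simp [fib]
        rw [this]; simp
      · have : below F lev 0 = ∅ := by
          rw [Finset.eq_empty_iff_forall_notMem]
          intro i hi
          have := (mem_below.1 hi).2
          omega
        rw [this]; simp
    | succ e ih =>
      obtain ⟨H, ω, hS⟩ := ih
      exact hS.step hL hbb
  obtain ⟨H, ω, hS⟩ := h0 (E + 1)
  have h1 : below F lev (E + 1) = F := by
    ext i
    rw [mem_below]
    exact ⟨fun h => h.1, fun h => ⟨h, Nat.lt_succ_of_le (hL.le i h)⟩⟩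
  have h2 := hS.loss
  rw [h1] at h2
  have h3 := hS.sub_wt hL (W := H) (Finset.Subset.refl H)
    (hT.mono (fun i hi => (hS.sub i hi).1))
  calc ∑ i ∈ F, wgt lev E i ≤ 4 * ∑ i ∈ H, wgt lev E i + K5 * (2 ^ (E + 1) * 2 ^ E) := h2
    _ ≤ 4 * (9 * (4 * K0 * 2 ^ E * T)) + K5 * (2 ^ (E + 1) * 2 ^ E) := by
        exact Nat.add_le_add_right (Nat.mul_le_mul_left 4 h3) _
    _ = 144 * (K0 * (2 ^ E * T)) + 2 * K5 * (2 ^ E * 2 ^ E) := by ring

theorem sum_pow_le (E : ℕ) (m : ℕ) : ∑ e ∈ Finset.range m, 2 ^ e * 2 ^ E ≤ 2 ^ m * 2 ^ E := by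
  rw [← Finset.sum_mul]
  apply Nat.mul_le_mul_right
  induction m with
  | zero => simp
  | succ m ih => rw [Finset.sum_range_succ, pow_succ]; omega

/-- elements which are of mixed type with respect to their own level -/
theorem Lvl.mixed (hL : Lvl Z F lev E X Y) (β : Bool)
    (h1 : ∀ i ∈ F, Y (lev i) β < (Z.sd β).h i (X (lev i) β))
    (h2 : ∀ i ∈ F, (Z.sd (!β)).h i (X (lev i) (!β)) < Y (lev i) (!β)) :
    ∑ i ∈ F, wgt lev E i ≤ 64 * (K0 * (2 ^ E * 2 ^ E)) := by
  classical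
  have hle : ∀ e, ∑ i ∈ level F lev e, wgt lev E i ≤ 32 * (K0 * (2 ^ e * 2 ^ E)) := by
    intro e
    have hGU : level F lev e ⊆ upTo F lev e := fun i hi =>
      mem_upTo.2 ⟨(mem_level.1 hi).1, (mem_level.1 hi).2.le⟩
    have hP : 4 * K0 * 2 ^ E * (2 * 2 ^ (e + 2)) = 32 * (K0 * (2 ^ e * 2 ^ E)) := by ring
    rw [← hP]
    refine hL.level_wt (fun i hi => (mem_level.1 hi).1) (fun i hi => (mem_level.1 hi).2)
      ((hL.outer e).zb_mixed hGU β ?_ ?_)
    · intro i hi
      have h3 := mem_level.1 hi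
      have := h1 i h3.1
      rwa [h3.2] at this
    · intro i hi
      have h3 := mem_level.1 hi
      have := h2 i h3.1
      rwa [h3.2] at this
  have hsum : ∑ i ∈ F, wgt lev E i = ∑ e ∈ Finset.range (E + 1),
      ∑ i ∈ level F lev e, wgt lev E i := by
    rw [← Finset.sum_fiberwise_of_maps_to (g := lev) (t := Finset.range (E + 1))
      (fun i hi => Finset.mem_range.2 (Nat.lt_succ_of_le (hL.le i hi)))]
    refine Finset.sum_congr rfl (fun e _ => ?_)
    refine Finset.sum_congr ?_ (fun _ _ => rfl)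
    ext i
    rw [mem_level, Finset.mem_filter]
  rw [hsum]
  calc ∑ e ∈ Finset.range (E + 1), ∑ i ∈ level F lev e, wgt lev E i
      ≤ ∑ e ∈ Finset.range (E + 1), 32 * (K0 * (2 ^ e * 2 ^ E)) :=
        Finset.sum_le_sum (fun e _ => hle e)
    _ = 32 * (K0 * ∑ e ∈ Finset.range (E + 1), 2 ^ e * 2 ^ E) := by
        rw [Finset.mul_sum, Finset.mul_sum]
    _ ≤ 32 * (K0 * (2 ^ (E + 1) * 2 ^ E)) := by
        exact Nat.mul_le_mul_left _ (Nat.mul_le_mul_left _ (sum_pow_le E (E + 1)))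
    _ = 64 * (K0 * (2 ^ E * 2 ^ E)) := by ring

/-- the constants of `Lvl.total` -/
def K6 : ℕ := 4 * K5 + 128 * K0

open Classical in
theorem Lvl.total (hL : Lvl Z F lev E X Y) {T : ℕ} (hT : Z.Zb F T) :
    ∑ i ∈ F, wgt lev E i ≤ 288 * (K0 * (2 ^ E * T)) + K6 * (2 ^ E * 2 ^ E) := by
  have hoff : ∀ i ∈ F, ∀ b, (Z.sd b).h i (X (lev i) b) ≠ Y (lev i) b := fun i hi b =>
    (hL.outer (lev i)).off i (mem_upTo.2 ⟨hi, le_rfl⟩) b
  set G : Bool → Bool → Finset ι := fun b b' => F.filter (fun i =>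
    (if b then Y (lev i) true < (Z.sd true).h i (X (lev i) true) else
      (Z.sd true).h i (X (lev i) true) < Y (lev i) true) ∧
    (if b' then Y (lev i) false < (Z.sd false).h i (X (lev i) false) else
      (Z.sd false).h i (X (lev i) false) < Y (lev i) false)) with hG
  have hGF : ∀ b b', G b b' ⊆ F := fun b b' => Finset.filter_subset _ _
  have hcov : F ⊆ (G true true ∪ G false false) ∪ (G true false ∪ G false true) := by
    intro i hi
    have h1 := hoff i hi true
    have h2 := hoff i hi false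
    simp only [hG, Finset.mem_union, Finset.mem_filter, if_true, Bool.false_eq_true, if_false]
    rcases lt_or_gt_of_ne h1 with h1 | h1 <;> rcases lt_or_gt_of_ne h2 with h2 | h2
    · exact Or.inl (Or.inr ⟨hi, h1, h2⟩)
    · exact Or.inr (Or.inr ⟨hi, h1, h2⟩)
    · exact Or.inr (Or.inl ⟨hi, h1, h2⟩)
    · exact Or.inl (Or.inl ⟨hi, h1, h2⟩)
  have s1 := sum_le_of_cover hcov (wgt lev E)
  have s2 := sum_le_of_cover (Finset.Subset.refl (G true true ∪ G false false)) (wgt lev E)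
  have s3 := sum_le_of_cover (Finset.Subset.refl (G true false ∪ G false true)) (wgt lev E)
  have e1 := (hL.mono (hGF true true)).additive (fun i hi b => by
    have := (Finset.mem_filter.1 hi).2
    simp only [if_true] at this
    cases b
    · exact this.2
    · exact this.1) (hT.mono (hGF true true))
  have e2 := (hL.mono (hGF false false)).flipY.additive (fun i hi b => by
    have := (Finset.mem_filter.1 hi).2
    simp only [Bool.false_eq_true, if_false] at this
    rw [flipY_sd, Side.flip_h, neg_lt_neg_iff]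
    cases b
    · exact this.2
    · exact this.1) ((hT.mono (hGF false false)).flipY hL.ok (fun i hi => hGF _ _ hi))
  have e3 := (hL.mono (hGF true false)).mixed true (fun i hi => by
    have := (Finset.mem_filter.1 hi).2
    simp only [if_true, Bool.false_eq_true, if_false] at this
    exact this.1) (fun i hi => by
    have := (Finset.mem_filter.1 hi).2
    simp only [if_true, Bool.false_eq_true, if_false] at this
    exact this.2)
  have e4 := (hL.mono (hGF false true)).mixed false (fun i hi => by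
    have := (Finset.mem_filter.1 hi).2
    simp only [if_true, Bool.false_eq_true, if_false] at this
    exact this.2) (fun i hi => by
    have := (Finset.mem_filter.1 hi).2
    simp only [if_true, Bool.false_eq_true, if_false] at this
    exact this.1)
  have hK6 : K6 * (2 ^ E * 2 ^ E) = 2 * (2 * K5 * (2 ^ E * 2 ^ E)) +
      128 * (K0 * (2 ^ E * 2 ^ E)) := by unfold K6; ring
  rw [hK6]
  omega

end Stab

end Pool.Agent.Lib.ALT
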