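/-
Project ALT: dyadic levels of the abscissa ranks.
-/
import Pool.Agent.Lib.ALT.Defs

set_option autoImplicit false

noncomputable section

namespace Pool.Agent.Lib.ALT

section Rank

variable (X : Finset ℝ)

/-- the rank of a real number in a finite set -/
def rk (x : ℝ) : ℕ := (X.filter (fun y => y < x)).card

variable {X}

theorem rk_mono {x y : ℝ} (h : x ≤ y) : rk X x ≤ rk X y := by
  unfold rk
  refine Finset.card_le_card (fun z hz => ?_)
  rw [Finset.mem_filter] at hz ⊢
  exact ⟨hz.1, hz.2.trans_le h⟩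

theorem lt_of_rk_lt {x y : ℝ} (h : rk X x < rk X y) : x < y := by
  by_contra hc
  exact absurd (rk_mono (not_lt.1 hc)) (not_le.2 h)

theorem rk_lt {x y : ℝ} (hx : x ∈ X) (h : x < y) : rk X x < rk X y := by
  unfold rk
  refine Finset.card_lt_card ?_
  rw [Finset.ssubset_iff_of_subset]
  · exact ⟨x, Finset.mem_filter.2 ⟨hx, h⟩, fun h' => lt_irrefl _ (Finset.mem_filter.1 h').2⟩
  · intro z hz
    rw [Finset.mem_filter] at hz ⊢
    exact ⟨hz.1, hz.2.trans h⟩

theorem rk_lt_card {x : ℝ} (hx : x ∈ X) : rk X x < X.card := by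
  unfold rk
  refine Finset.card_lt_card ?_
  rw [Finset.ssubset_iff_of_subset (Finset.filter_subset _ _)]
  exact ⟨x, hx, fun h' => lt_irrefl _ (Finset.mem_filter.1 h').2⟩

end Rank

namespace Cfg

/-- Some dyadic level contains at least `n / (log2 (2 n) + 1)` of the segments; `g i` is the index
of the block of `i`. -/
theorem dyadic {n : ℕ} (hn : 0 < n) (C : Cfg (Fin n)) (hC : C.GP) :
    ∃ (A : Finset (Fin n)) (g : Fin n → ℕ),
      (∀ i ∈ A, ∀ j ∈ A, g i = g j → (C.P i).1 < (C.Q j).1) ∧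
      (∀ i ∈ A, ∀ j ∈ A, g i < g j → (C.Q i).1 < (C.P j).1) ∧
      n ≤ A.card * (Nat.log 2 (2 * n) + 1) := by
  classical
  obtain ⟨X, hX⟩ : ∃ X : Finset ℝ, X = Finset.univ.image (fun i => (C.P i).1) ∪
    Finset.univ.image (fun i => (C.Q i).1) := ⟨_, rfl⟩
  have hXc : X.card ≤ 2 * n := by
    rw [hX]
    refine (Finset.card_union_le _ _).trans ?_
    have h1 := Finset.card_image_le (s := Finset.univ) (f := fun i => (C.P i).1)
    have h2 := Finset.card_image_le (s := Finset.univ) (f := fun i => (C.Q i).1)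
    rw [Finset.card_univ, Fintype.card_fin] at h1 h2
    omega
  have hPX : ∀ i, (C.P i).1 ∈ X := by
    intro i
    rw [hX]
    exact Finset.mem_union_left _ (Finset.mem_image_of_mem _ (Finset.mem_univ i))
  have hQX : ∀ i, (C.Q i).1 ∈ X := by
    intro i
    rw [hX]
    exact Finset.mem_union_right _ (Finset.mem_image_of_mem _ (Finset.mem_univ i))
  obtain ⟨a, ha⟩ : ∃ a : Fin n → ℕ, a = fun i => rk X (C.P i).1 := ⟨_, rfl⟩
  obtain ⟨b, hb⟩ : ∃ b : Fin n → ℕ, b = fun i => rk X (C.Q i).1 := ⟨_, rfl⟩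
  have hab : ∀ i, a i < b i := by
    intro i
    rw [ha, hb]
    exact rk_lt (hPX i) (hC.lt i)
  have hb2 : ∀ i, b i < 2 * n := by
    intro i
    rw [hb]
    exact (rk_lt_card (hQX i)).trans_le hXc
  obtain ⟨L, hL⟩ : ∃ L, L = Nat.log 2 (2 * n) := ⟨_, rfl⟩
  have hL2 : 2 * n < 2 ^ (L + 1) := by
    rw [hL]
    exact Nat.lt_pow_succ_log_self (by norm_num) _
  obtain ⟨lev, hlev⟩ : ∃ lev : Fin n → ℕ,
    lev = fun i => Nat.findGreatest (fun h => a i / 2 ^ h ≠ b i / 2 ^ h) L := ⟨_, rfl⟩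
  have hlevL : ∀ i, lev i ≤ L := by
    intro i
    rw [hlev]
    exact Nat.findGreatest_le L
  have hlev1 : ∀ i, a i / 2 ^ (lev i) ≠ b i / 2 ^ (lev i) := by
    intro i
    rw [hlev]
    exact Nat.findGreatest_spec (P := fun h => a i / 2 ^ h ≠ b i / 2 ^ h) (Nat.zero_le L)
      (by simpa using (hab i).ne)
  have hlev2 : ∀ i, a i / 2 ^ (lev i + 1) = b i / 2 ^ (lev i + 1) := by
    intro i
    rcases lt_or_eq_of_le (hlevL i) with h | h
    · by_contra hcon
      have h1 : lev i + 1 ≤ Nat.findGreatest (fun h => a i / 2 ^ h ≠ b i / 2 ^ h) L :=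
        Nat.le_findGreatest (P := fun h => a i / 2 ^ h ≠ b i / 2 ^ h) h hcon
      have h2 : lev i = Nat.findGreatest (fun h => a i / 2 ^ h ≠ b i / 2 ^ h) L := by rw [hlev]
      omega
    · rw [h, Nat.div_eq_of_lt, Nat.div_eq_of_lt]
      · exact (hb2 i).trans hL2
      · exact ((hab i).trans (hb2 i)).trans hL2
  have hhalf : ∀ i, a i / 2 ^ (lev i) = 2 * (a i / 2 ^ (lev i + 1)) ∧
      b i / 2 ^ (lev i) = 2 * (a i / 2 ^ (lev i + 1)) + 1 := by
    intro i
    have h1 := hlev1 i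
    have h2 := hlev2 i
    have h3 : a i / 2 ^ (lev i) ≤ b i / 2 ^ (lev i) := Nat.div_le_div_right (hab i).le
    rw [pow_succ, ← Nat.div_div_eq_div_mul, ← Nat.div_div_eq_div_mul] at h2
    rw [pow_succ, ← Nat.div_div_eq_div_mul]
    omega
  -- pigeonhole
  obtain ⟨h, -, hh⟩ : ∃ h ∈ Finset.range (L + 1),
      n ≤ (Finset.univ.filter (fun i => lev i = h)).card * (L + 1) := by
    refine Finset.exists_le_of_sum_le (s := Finset.range (L + 1)) (f := fun _ => n) ⟨0, by simp⟩ ?_
    rw [← Finset.sum_mul]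
    have h1 : (Finset.univ : Finset (Fin n)).card =
        ∑ h ∈ Finset.range (L + 1), (Finset.univ.filter (fun i => lev i = h)).card := by
      refine Finset.card_eq_sum_card_fiberwise (fun i _ => ?_)
      exact Finset.mem_coe.2 (Finset.mem_range.2 (Nat.lt_succ_of_le (hlevL i)))
    rw [← h1, Finset.card_univ, Fintype.card_fin, Finset.sum_const, Finset.card_range,
      smul_eq_mul, mul_comm]
  refine ⟨Finset.univ.filter (fun i => lev i = h), fun i => a i / 2 ^ (h + 1), ?_, ?_, ?_⟩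
  · intro i hi j hj hij
    have hi' := (Finset.mem_filter.1 hi).2
    have hj' := (Finset.mem_filter.1 hj).2
    simp only at hij
    obtain ⟨h1, -⟩ := hhalf i
    obtain ⟨-, h2⟩ := hhalf j
    rw [hi'] at h1
    rw [hj'] at h2
    have h3 : a i < b j := by
      by_contra hc
      have h4 : b j / 2 ^ h ≤ a i / 2 ^ h := Nat.div_le_div_right (not_lt.1 hc)
      omega
    rw [ha, hb] at h3
    exact lt_of_rk_lt h3
  · intro i hi j hj hij
    have hi' := (Finset.mem_filter.1 hi).2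
    simp only at hij
    have h1 := hlev2 i
    rw [hi'] at h1
    rw [h1] at hij
    have h3 : b i < a j := by
      by_contra hc
      have h4 : a j / 2 ^ (h + 1) ≤ b i / 2 ^ (h + 1) := Nat.div_le_div_right (not_lt.1 hc)
      omega
    rw [ha, hb] at h3
    exact lt_of_rk_lt h3
  · rw [← hL]
    exact hh

end Cfg

end Pool.Agent.Lib.ALT
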