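/-
Project ALT: packings of families through which every two outer points can be linked.
-/
import Pool.Agent.Lib.ALT.Assembly

set_option autoImplicit false

noncomputable section

namespace Pool.Agent.Lib.ALT

/-- the sum of the second components over the elements at even places that are not the last -/
def altP {α : Type*} : List (α × ℕ) → ℕ
  | [] => 0
  | [_] => 0
  | r :: _ :: L => r.2 + altP L

theorem sum_eq_altP {α : Type*} : ∀ (L : List (α × ℕ)) (M : ℕ), (∀ c ∈ L, c.2 ≤ M) →
    (L.map Prod.snd).sum ≤ altP L + altP L.tail + M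
  | [], M, _ => by simp
  | [a], M, h => by
      have := h a (by simp)
      simp [altP, this]
  | a :: b :: L, M, h => by
      have ih := sum_eq_altP (b :: L) M (fun c hc => h c (List.mem_cons_of_mem _ hc))
      simp only [List.tail_cons] at ih ⊢
      rw [List.map_cons, List.sum_cons]
      simp only [altP]
      omega

namespace Cfg

variable {ι : Type*} (C : Cfg ι)

/-- Every two outer points can be linked through `k` elements of `A`. -/
def Rich (A : Finset ι) (k : ℕ) : Prop :=
  ∀ z z' : ℝ × ℝ, (∀ i ∈ A, z.1 < (C.P i).1) → (∀ i ∈ A, (C.Q i).1 < z'.1) →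
    (∀ i ∈ A, C.ht i z.1 ≠ z.2) → (∀ i ∈ A, C.ht i z'.1 ≠ z'.2) →
    ∃ w, C.GPath z z' w ∧ (∀ t ∈ w, t.1 ∈ A) ∧ k ≤ w.length

structure Packing (L : List (Finset ι × ℕ)) : Prop where
  ne : ∀ a ∈ L, a.1.Nonempty
  rich : ∀ a ∈ L, C.Rich a.1 a.2
  pw : L.Pairwise (fun a b => ∀ i ∈ a.1, ∀ j ∈ b.1, (C.Q i).1 < (C.P j).1)

variable {C}

theorem Packing.nil : C.Packing [] := ⟨by simp, by simp, List.Pairwise.nil⟩

theorem Packing.tail {a : Finset ι × ℕ} {L : List (Finset ι × ℕ)} (h : C.Packing (a :: L)) :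
    C.Packing L :=
  ⟨fun b hb => h.ne b (List.mem_cons_of_mem _ hb), fun b hb => h.rich b (List.mem_cons_of_mem _ hb),
    (List.pairwise_cons.1 h.pw).2⟩

theorem pack_step (hC : C.GP) (T : ℕ) (hT : ∀ w, C.Good w → w.length ≤ T) :
    ∀ (L : List (Finset ι × ℕ)) (X : List (ι × Bool)) (e : ι), C.Packing L →
      C.Good (X ++ [(e, true)]) → (∀ t ∈ X, (C.Q t.1).1 < (C.P e).1) →
      (∀ a ∈ L, ∀ i ∈ a.1, (C.Q e).1 < (C.P i).1) → altP L + X.length ≤ T
  | [], X, e, _, hX, _, _ => by
      have := hT _ hX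
      rw [List.length_append, List.length_singleton] at this
      simp only [altP, zero_add]
      omega
  | [_], X, e, _, hX, _, _ => by
      have := hT _ hX
      rw [List.length_append, List.length_singleton] at this
      simp only [altP, zero_add]
      omega
  | r :: b :: L, X, e, hL, hX, hX0, he => by
      have hp := hL.pw
      rw [List.pairwise_cons, List.pairwise_cons] at hp
      obtain ⟨hs1, hs2, hs3⟩ := hp
      obtain ⟨i0, hi0⟩ := hL.ne r (by simp)
      obtain ⟨e', he'⟩ := hL.ne b (by simp)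
      have her : ∀ i ∈ r.1, (C.Q e).1 < (C.P i).1 := he r (by simp)
      have hre : ∀ i ∈ r.1, (C.Q i).1 < (C.P e').1 := fun i hi => hs1 b (by simp) i hi e' he'
      obtain ⟨w, hw, hwr, hlen⟩ := hL.rich r (by simp) (C.Q e) (C.P e') her hre
        (fun i hi => hC.Q_off i e (by
          rintro rfl
          have h3 := her i hi
          have h4 := hC.lt i
          linarith))
        (fun i hi => hC.P_off i e' (by
          rintro rfl
          have h3 := hre i hi
          have h4 := hC.lt i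
          linarith))
      obtain ⟨hG, hG0⟩ := glue hC hX hX0 hw
      have ih := pack_step hC T hT L (X ++ [(e, true)] ++ w) e' hL.tail.tail hG hG0
        (fun a ha i hi => hs2 a ha e' he' i hi)
      simp only [List.length_append, List.length_singleton] at ih
      simp only [altP]
      omega

theorem Packing.bound (hC : C.GP) {T : ℕ} (hT : ∀ w, C.Good w → w.length ≤ T)
    {L : List (Finset ι × ℕ)} (hL : C.Packing L) : (L.map Prod.snd).sum ≤ 4 * T := by
  classical
  have hM : ∀ a ∈ L, a.2 ≤ T := by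
    intro a ha
    obtain ⟨i0, hi0⟩ := hL.ne a ha
    obtain ⟨α, hα⟩ : ∃ α : ℝ, ∀ i ∈ a.1, α < (C.P i).1 := by
      obtain ⟨i, hi, hmin⟩ := Finset.exists_min_image a.1 (fun i => (C.P i).1) ⟨i0, hi0⟩
      exact ⟨(C.P i).1 - 1, fun j hj => by linarith [hmin j hj]⟩
    obtain ⟨α', hα'⟩ : ∃ α : ℝ, ∀ i ∈ a.1, (C.Q i).1 < α := by
      obtain ⟨i, hi, hmax⟩ := Finset.exists_max_image a.1 (fun i => (C.Q i).1) ⟨i0, hi0⟩
      exact ⟨(C.Q i).1 + 1, fun j hj => by linarith [hmax j hj]⟩
    obtain ⟨z, hz, hoff⟩ := C.exists_off a.1 α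
    obtain ⟨z', hz', hoff'⟩ := C.exists_off a.1 α'
    obtain ⟨w, hw, -, hlen⟩ := hL.rich a ha z z' (fun i hi => by rw [hz]; exact hα i hi)
      (fun i hi => by rw [hz']; exact hα' i hi) hoff hoff'
    exact hlen.trans (hT w hw.good)
  cases L with
  | nil => simp
  | cons a L =>
    have hstep : ∀ (a : Finset ι × ℕ) (L : List (Finset ι × ℕ)), C.Packing (a :: L) →
        altP L ≤ T := by
      intro a L h
      obtain ⟨e, he⟩ := h.ne a (by simp)
      have := pack_step hC T hT L [] e h.tail (C.good_single e) (by simp)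
        (fun b hb i hi => (List.pairwise_cons.1 h.pw).1 b hb e he i hi)
      simpa using this
    have h1 := hstep a L hL
    have h2 : altP L.tail ≤ T := by
      cases L with
      | nil => simp [altP]
      | cons b L => exact hstep b L hL.tail
    have h3 := sum_eq_altP L T (fun c hc => hM c (List.mem_cons_of_mem _ hc))
    have h4 := hM a (by simp)
    rw [List.map_cons, List.sum_cons]
    omega

variable (C)

open Classical in
/-- the potential: the largest value of a packing on the left of `t`, at most `B` -/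
def pot (B : ℕ) (t : ℝ) : ℕ :=
  Nat.findGreatest (fun m => ∃ L, C.Packing L ∧ (∀ a ∈ L, ∀ i ∈ a.1, (C.Q i).1 ≤ t) ∧
    (L.map Prod.snd).sum = m) B

theorem pot_le (B : ℕ) (t : ℝ) : C.pot B t ≤ B := by
  classical
  unfold pot
  exact Nat.findGreatest_le B

theorem pot_spec (B : ℕ) (t : ℝ) : ∃ L, C.Packing L ∧ (∀ a ∈ L, ∀ i ∈ a.1, (C.Q i).1 ≤ t) ∧
    (L.map Prod.snd).sum = C.pot B t := by
  classical
  exact Nat.findGreatest_spec (P := fun m => ∃ L, C.Packing L ∧
    (∀ a ∈ L, ∀ i ∈ a.1, (C.Q i).1 ≤ t) ∧ (L.map Prod.snd).sum = m) (Nat.zero_le B)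
    ⟨[], Packing.nil, by simp, by simp⟩

variable {C}

theorem le_pot (hC : C.GP) {T : ℕ} (hT : ∀ w, C.Good w → w.length ≤ T)
    {L : List (Finset ι × ℕ)} (hL : C.Packing L) {t : ℝ}
    (ht : ∀ a ∈ L, ∀ i ∈ a.1, (C.Q i).1 ≤ t) : (L.map Prod.snd).sum ≤ C.pot (4 * T) t := by
  classical
  exact Nat.le_findGreatest (P := fun m => ∃ L, C.Packing L ∧
    (∀ a ∈ L, ∀ i ∈ a.1, (C.Q i).1 ≤ t) ∧ (L.map Prod.snd).sum = m) (hL.bound hC hT)
    ⟨L, hL, ht, rfl⟩

theorem pot_mono (hC : C.GP) {T : ℕ} (hT : ∀ w, C.Good w → w.length ≤ T) {s t : ℝ} (h : s ≤ t) :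
    C.pot (4 * T) s ≤ C.pot (4 * T) t := by
  obtain ⟨L, h1, h2, h3⟩ := C.pot_spec (4 * T) s
  rw [← h3]
  exact le_pot hC hT h1 (fun a ha i hi => (h2 a ha i hi).trans h)

theorem pot_add (hC : C.GP) {T : ℕ} (hT : ∀ w, C.Good w → w.length ≤ T) {A : Finset ι} {k : ℕ}
    (hA : A.Nonempty) (hk : C.Rich A k) {s t : ℝ} (hs : ∀ i ∈ A, s ≤ (C.P i).1)
    (ht : ∀ i ∈ A, (C.Q i).1 ≤ t) : C.pot (4 * T) s + k ≤ C.pot (4 * T) t := by
  obtain ⟨L, h1, h2, h3⟩ := C.pot_spec (4 * T) s
  obtain ⟨i0, hi0⟩ := hA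
  have hst : s ≤ t := (hs i0 hi0).trans ((hC.lt i0).le.trans (ht i0 hi0))
  have hP : C.Packing (L ++ [(A, k)]) := by
    refine ⟨?_, ?_, ?_⟩
    · intro a ha
      rcases List.mem_append.1 ha with h | h
      · exact h1.ne a h
      · rw [List.mem_singleton] at h
        rw [h]; exact ⟨i0, hi0⟩
    · intro a ha
      rcases List.mem_append.1 ha with h | h
      · exact h1.rich a h
      · rw [List.mem_singleton] at h
        rw [h]; exact hk
    · rw [List.pairwise_append]
      refine ⟨h1.pw, List.pairwise_singleton _ _, ?_⟩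
      intro a ha b hb i hi j hj
      rw [List.mem_singleton] at hb
      rw [hb] at hj
      exact lt_of_le_of_ne ((h2 a ha i hi).trans (hs j hj)) (hC.PQ j i).symm
  have h4 := le_pot hC hT hP (t := t) (by
    intro a ha i hi
    rcases List.mem_append.1 ha with h | h
    · exact (h2 a h i hi).trans hst
    · rw [List.mem_singleton] at h
      rw [h] at hi
      exact ht i hi)
  rw [List.map_append, List.sum_append, h3] at h4
  simpa using h4

/-- a single segment is rich -/
theorem rich_single (hC : C.GP) (i : ι) : C.Rich {i} 1 := by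
  intro z z' hz hz' _ _
  have h1 := hz i (Finset.mem_singleton_self i)
  have h2 := hz' i (Finset.mem_singleton_self i)
  have h3 := hC.lt i
  have hadj : ∀ u v : ι × Bool, ¬ [u, v] <:+: [(i, true)] := fun u v h => adj_singleton h
  refine ⟨[(i, true)], ⟨C.good_single i, by simp, ?_, ?_, ?_, ?_, ?_, ?_, ?_⟩, by simp, by simp⟩
  · intro t ht
    rw [List.mem_singleton] at ht
    rw [ht]; exact h1
  · intro t ht
    rw [List.mem_singleton] at ht
    rw [ht]; exact h2
  · intro a ha
    simp only [List.head?_cons, Option.mem_some_iff] at ha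
    subst ha
    refine ⟨rfl, fun t ht hta => ?_⟩
    rw [List.mem_singleton] at ht
    exact absurd ht hta
  · intro a _ u v h
    exact absurd h (hadj u v)
  · intro a ha
    simp only [List.getLast?_singleton, Option.mem_some_iff] at ha
    subst ha
    refine ⟨rfl, fun t ht hta => ?_⟩
    rw [List.mem_singleton] at ht
    exact absurd ht hta
  · intro a _ u v h
    exact absurd h (hadj u v)
  · intro a ha b hb
    simp only [List.head?_cons, Option.mem_some_iff] at ha
    simp only [List.getLast?_singleton, Option.mem_some_iff] at hb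
    subst ha hb
    rw [st_true, en_true]
    exact disj_of_lt h3 h1.le le_rfl le_rfl h2.le

end Cfg

end Pool.Agent.Lib.ALT
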