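/-
Project ALT: the statement about polygonal paths in the plane, and its reduction to
configurations with distinct abscissas.
-/
import Pool.Agent.Lib.ALT.Assembly
import Pool.Agent.Lib.ALT.Dyadic

set_option autoImplicit false

noncomputable section

namespace Pool.Agent.Lib.ALT

/-- cross product of two vectors of the plane -/
def cross (u v : ℝ × ℝ) : ℝ := u.1 * v.2 - u.2 * v.1

/-- The closed segments with end points `a i`, `b i` are pairwise disjoint and in general
position: no two are parallel, all end points are distinct, and no three end points lie on a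
common line. -/
structure IsCollection {n : ℕ} (a b : Fin n → ℝ × ℝ) : Prop where
  disjoint : ∀ i j, i ≠ j → Disjoint (segment ℝ (a i) (b i)) (segment ℝ (a j) (b j))
  not_parallel : ∀ i j, i ≠ j → cross (b i - a i) (b j - a j) ≠ 0
  a_ne_b : ∀ i j, a i ≠ b j
  a_ne_a : ∀ i j, i ≠ j → a i ≠ a j
  b_ne_b : ∀ i j, i ≠ j → b i ≠ b j
  not_collinear : ∀ x ∈ Set.range a ∪ Set.range b, ∀ y ∈ Set.range a ∪ Set.range b,
    ∀ z ∈ Set.range a ∪ Set.range b, x ≠ y → x ≠ z → y ≠ z → ¬ Collinear ℝ {x, y, z}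

/-- `x y` is an edge equal to one of the segments -/
def IsMember {n : ℕ} (a b : Fin n → ℝ × ℝ) (x y : ℝ × ℝ) : Prop :=
  ∃ k, (x = a k ∧ y = b k) ∨ (x = b k ∧ y = a k)

/-- The polygonal path `p 0, p 1, ..., p (m - 1)` is simple, noncrossing and alternating with
respect to the segments `a i b i`. -/
structure IsAlternatingPath {n : ℕ} (a b : Fin n → ℝ × ℝ) (m : ℕ) (p : ℕ → ℝ × ℝ) : Prop where
  vertices : ∀ i < m, p i ∈ Set.range a ∪ Set.range b
  simple : ∀ i < m, ∀ j < m, i ≠ j → p i ≠ p j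
  noncrossing : ∀ i j, i + 1 < m → j + 1 < m → i ≠ j →
    ∀ z ∈ segment ℝ (p i) (p (i + 1)), z ∈ segment ℝ (p j) (p (j + 1)) →
      z ∉ openSegment ℝ (p i) (p (i + 1)) ∧ z ∉ openSegment ℝ (p j) (p (j + 1))
  alternating : ∃ r < 2, ∀ i, i + 1 < m → i % 2 = r → IsMember a b (p i) (p (i + 1))

open Classical in
/-- the length of the path: the number of edges that are segments of the collection -/
def pathLength {n : ℕ} (a b : Fin n → ℝ × ℝ) (m : ℕ) (p : ℕ → ℝ × ℝ) : ℕ :=
  ((Finset.range (m - 1)).filter (fun i => IsMember a b (p i) (p (i + 1)))).card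

/-! ### From a good list to a path -/

namespace Cfg

variable {ι : Type*} {C : Cfg ι}

/-- vertical distance from the line of `i` -/
def off (C : Cfg ι) (i : ι) (x : ℝ × ℝ) : ℝ := x.2 - C.ht i x.1

theorem off_comb (i : ι) (x y : ℝ × ℝ) {s t : ℝ} (h : s + t = 1) :
    C.off i (s • x + t • y) = s * C.off i x + t * C.off i y := by
  obtain rfl : s = 1 - t := by linarith
  simp only [off, ht, Prod.fst_add, Prod.snd_add, Prod.smul_fst, Prod.smul_snd, smul_eq_mul]
  ring

theorem off_P (i : ι) : C.off i (C.P i) = 0 := by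
  simp [off, ht]

theorem off_Q (hC : C.GP) (i : ι) : C.off i (C.Q i) = 0 := by
  have h : (C.Q i).1 - (C.P i).1 ≠ 0 := sub_ne_zero.2 (hC.lt i).ne'
  simp only [off, ht, slope]
  field_simp
  ring

theorem off_seg (hC : C.GP) {i : ι} {z : ℝ × ℝ} (hz : z ∈ C.seg i) : C.off i z = 0 := by
  obtain ⟨s, t, hs, ht, hst, rfl⟩ := hz
  rw [off_comb i _ _ hst, off_P, off_Q hC]
  ring

theorem off_st (hC : C.GP) (u : ι × Bool) : C.off u.1 (C.st u) = 0 := by
  unfold st
  split_ifs
  · exact off_P _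
  · exact off_Q hC _

theorem off_en (hC : C.GP) (u : ι × Bool) : C.off u.1 (C.en u) = 0 := by
  unfold en
  split_ifs
  · exact off_Q hC _
  · exact off_P _

theorem off_st_ne (hC : C.GP) {i : ι} {v : ι × Bool} (h : i ≠ v.1) : C.off i (C.st v) ≠ 0 := by
  unfold st off
  split_ifs
  · exact sub_ne_zero.2 (hC.P_off i v.1 h).symm
  · exact sub_ne_zero.2 (hC.Q_off i v.1 h).symm

theorem off_en_ne (hC : C.GP) {i : ι} {v : ι × Bool} (h : i ≠ v.1) : C.off i (C.en v) ≠ 0 := by
  unfold en off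
  split_ifs
  · exact sub_ne_zero.2 (hC.Q_off i v.1 h).symm
  · exact sub_ne_zero.2 (hC.P_off i v.1 h).symm

theorem link_seg_left (hC : C.GP) {u v : ι × Bool} (h : u.1 ≠ v.1) {z : ℝ × ℝ}
    (hz : z ∈ C.seg u.1) (hz' : z ∈ C.link u v) : z = C.en u := by
  have h0 := off_seg hC hz
  obtain ⟨s, t, hs, ht, hst, rfl⟩ := hz'
  rw [off_comb u.1 _ _ hst, off_en hC, mul_zero, zero_add] at h0
  have h1 : t = 0 := by
    rcases mul_eq_zero.1 h0 with h1 | h1
    · exact h1
    · exact absurd h1 (off_st_ne hC h)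
  have h2 : s = 1 := by linarith
  rw [h1, h2, one_smul, zero_smul, add_zero]

theorem link_seg_right (hC : C.GP) {u v : ι × Bool} (h : u.1 ≠ v.1) {z : ℝ × ℝ}
    (hz : z ∈ C.seg v.1) (hz' : z ∈ C.link u v) : z = C.st v := by
  have h0 := off_seg hC hz
  obtain ⟨s, t, hs, ht, hst, rfl⟩ := hz'
  rw [off_comb v.1 _ _ hst, off_st hC, mul_zero, add_zero] at h0
  have h1 : s = 0 := by
    rcases mul_eq_zero.1 h0 with h1 | h1
    · exact h1
    · exact absurd h1 (off_en_ne hC h.symm)
  have h2 : t = 1 := by linarith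
  rw [h1, h2, one_smul, zero_smul, zero_add]

theorem seg_eq (u : ι × Bool) : segment ℝ (C.st u) (C.en u) = C.seg u.1 := by
  unfold st en seg
  split_ifs
  · rfl
  · exact segment_symm ℝ _ _

theorem st_mem (u : ι × Bool) : C.st u ∈ C.seg u.1 := by
  rw [← seg_eq]
  exact left_mem_segment ℝ _ _

theorem en_mem (u : ι × Bool) : C.en u ∈ C.seg u.1 := by
  rw [← seg_eq]
  exact right_mem_segment ℝ _ _

theorem st_ne_en (hC : C.GP) (u : ι × Bool) : C.st u ≠ C.en u := by
  have h : C.P u.1 ≠ C.Q u.1 := fun h => (hC.lt u.1).ne (by rw [h])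
  unfold st en
  split_ifs
  · exact h
  · exact h.symm

end Cfg

/-- from a good list to a path -/
theorem Cfg.Good.path {n : ℕ} {C : Cfg (Fin n)} (hC : C.GP) {w : List (Fin n × Bool)}
    (hw : C.Good w) : ∃ p : ℕ → ℝ × ℝ, IsAlternatingPath C.P C.Q (2 * w.length) p ∧
      w.length ≤ pathLength C.P C.Q (2 * w.length) p := by
  classical
  by_cases hw0 : w = []
  · subst hw0
    refine ⟨fun _ => 0, ⟨?_, ?_, ?_, 0, by norm_num, ?_⟩, by simp⟩
    · intro i hi
      simp at hi
    · intro i hi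
      simp at hi
    · intro i j hi
      simp at hi
    · intro i hi
      simp at hi
  obtain ⟨d, w', hd⟩ := List.exists_cons_of_ne_nil hw0
  obtain ⟨u, hu⟩ : ∃ u : ℕ → Fin n × Bool, u = fun k => w.getD k d := ⟨_, rfl⟩
  have huk : ∀ k (hk : k < w.length), u k = w[k] := by
    intro k hk
    rw [hu]
    exact List.getD_eq_getElem w d hk
  have F1 : ∀ k, k < w.length → u k ∈ w := by
    intro k hk
    rw [huk k hk]
    exact List.getElem_mem hk
  have F2 : ∀ k k', k < w.length → k' < w.length → k ≠ k' → (u k).1 ≠ (u k').1 := by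
    intro k k' hk hk' hne h
    apply hne
    have h1 : (w.map Prod.fst)[k]'(by simpa using hk) = (w.map Prod.fst)[k']'(by simpa using hk') := by
      rw [List.getElem_map, List.getElem_map, ← huk k hk, ← huk k' hk']
      exact h
    exact (List.Nodup.getElem_inj_iff hw.nodup).1 h1
  have F3 : ∀ k, k + 1 < w.length → [u k, u (k + 1)] <:+: w := by
    intro k hk
    rw [huk k (by omega), huk (k + 1) hk]
    refine ⟨w.take k, w.drop (k + 2), ?_⟩
    have h1 : w.drop k = w[k] :: w[k + 1] :: w.drop (k + 2) := by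
      rw [List.drop_eq_getElem_cons (by omega), List.drop_eq_getElem_cons (by omega)]
    have h2 := List.take_append_drop k w
    rw [h1] at h2
    rw [List.append_assoc]
    exact h2
  have hdis : ∀ k k', k < w.length → k' < w.length → k ≠ k' →
      Disjoint (C.seg (u k).1) (C.seg (u k').1) := by
    intro k k' hk hk' hne
    exact hC.dis _ _ (F2 k k' hk hk' hne)
  have hune : ∀ k k', k < w.length → k' < w.length → k ≠ k' → u k ≠ u k' := by
    intro k k' hk hk' hne h
    exact F2 k k' hk hk' hne (by rw [h])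
  obtain ⟨p, hp⟩ : ∃ p : ℕ → ℝ × ℝ, p = fun k => if k % 2 = 0 then C.st (u (k / 2))
    else C.en (u (k / 2)) := ⟨_, rfl⟩
  have hp0 : ∀ a, p (2 * a) = C.st (u a) := by
    intro a
    rw [hp]
    simp only
    rw [if_pos (by omega)]
    congr 2
    omega
  have hp1 : ∀ a, p (2 * a + 1) = C.en (u a) := by
    intro a
    rw [hp]
    simp only
    rw [if_neg (by omega)]
    congr 2
    omega
  have hpmem : ∀ k, p k ∈ C.seg (u (k / 2)).1 := by
    intro k
    rcases Nat.even_or_odd' k with ⟨a, rfl | rfl⟩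
    · rw [hp0]
      have : 2 * a / 2 = a := by omega
      rw [this]
      exact Cfg.st_mem _
    · rw [hp1]
      have : (2 * a + 1) / 2 = a := by omega
      rw [this]
      exact Cfg.en_mem _
  have hsimple : ∀ i < 2 * w.length, ∀ j < 2 * w.length, i ≠ j → p i ≠ p j := by
    intro i hi j hj hij heq
    by_cases h : i / 2 = j / 2
    · rcases Nat.even_or_odd' i with ⟨a, rfl | rfl⟩ <;>
        rcases Nat.even_or_odd' j with ⟨b, rfl | rfl⟩
      · omega
      · have : a = b := by omega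
        subst this
        rw [hp0, hp1] at heq
        exact Cfg.st_ne_en hC _ heq
      · have : a = b := by omega
        subst this
        rw [hp0, hp1] at heq
        exact Cfg.st_ne_en hC _ heq.symm
      · omega
    · have h1 := hpmem i
      have h2 := hpmem j
      rw [heq] at h1
      exact Set.disjoint_left.1 (hdis _ _ (by omega) (by omega) h) h1 h2
  have hseg : ∀ a, segment ℝ (p (2 * a)) (p (2 * a + 1)) = C.seg (u a).1 := by
    intro a
    rw [hp0, hp1]
    exact Cfg.seg_eq _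
  have hlink : ∀ a, segment ℝ (p (2 * a + 1)) (p (2 * a + 1 + 1)) = C.link (u a) (u (a + 1)) := by
    intro a
    have h1 : 2 * a + 1 + 1 = 2 * (a + 1) := by ring
    rw [h1, hp0, hp1]
    rfl
  -- an edge of the collection and a link
  have key : ∀ a b, a < w.length → b + 1 < w.length → ∀ z ∈ C.seg (u a).1,
      z ∈ C.link (u b) (u (b + 1)) → (z = p (2 * b + 1) ∧ a = b) ∨ (z = p (2 * (b + 1)) ∧ a = b + 1) := by
    intro a b ha hb z hz hz'
    by_cases h1 : a = b
    · left
      subst h1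
      refine ⟨?_, rfl⟩
      rw [hp1]
      exact Cfg.link_seg_left hC (F2 _ _ ha hb (by omega)) hz hz'
    · by_cases h2 : a = b + 1
      · right
        subst h2
        refine ⟨?_, rfl⟩
        rw [hp0]
        exact Cfg.link_seg_right hC (F2 _ _ (by omega) hb (by omega)) hz hz'
      · exfalso
        have h3 := hw.ls _ _ (F3 b hb) (u a) (F1 a ha) (hune _ _ ha (by omega) h1)
          (hune _ _ ha hb h2)
        exact Set.disjoint_left.1 h3 hz' hz
  have hcross : ∀ a b, a < w.length → b + 1 < w.length →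
      ∀ z ∈ segment ℝ (p (2 * a)) (p (2 * a + 1)), z ∈ segment ℝ (p (2 * b + 1)) (p (2 * b + 1 + 1)) →
        z ∉ openSegment ℝ (p (2 * a)) (p (2 * a + 1)) ∧
          z ∉ openSegment ℝ (p (2 * b + 1)) (p (2 * b + 1 + 1)) := by
    intro a b ha hb z hz hz'
    rw [hseg] at hz
    rw [hlink] at hz'
    have hne1 : p (2 * a) ≠ p (2 * a + 1) := hsimple _ (by omega) _ (by omega) (by omega)
    have hne2 : p (2 * b + 1) ≠ p (2 * b + 1 + 1) := hsimple _ (by omega) _ (by omega) (by omega)
    rcases key a b ha hb z hz hz' with ⟨h1, h2⟩ | ⟨h1, h2⟩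
    · subst h2
      rw [h1, right_mem_openSegment_iff, left_mem_openSegment_iff]
      exact ⟨hne1, hne2⟩
    · subst h2
      have h3 : 2 * b + 1 + 1 = 2 * (b + 1) := by ring
      rw [h3] at hne2 ⊢
      rw [h1, left_mem_openSegment_iff, right_mem_openSegment_iff]
      exact ⟨hne1, hne2⟩
  have hmember : ∀ a, IsMember C.P C.Q (p (2 * a)) (p (2 * a + 1)) := by
    intro a
    refine ⟨(u a).1, ?_⟩
    rw [hp0, hp1]
    unfold Cfg.st Cfg.en
    split_ifs
    · exact Or.inl ⟨rfl, rfl⟩
    · exact Or.inr ⟨rfl, rfl⟩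
  have hvert : ∀ k, p k ∈ Set.range C.P ∪ Set.range C.Q := by
    intro k
    rcases Nat.even_or_odd' k with ⟨a, rfl | rfl⟩
    · rw [hp0]
      unfold Cfg.st
      split_ifs
      · exact Or.inl ⟨_, rfl⟩
      · exact Or.inr ⟨_, rfl⟩
    · rw [hp1]
      unfold Cfg.en
      split_ifs
      · exact Or.inr ⟨_, rfl⟩
      · exact Or.inl ⟨_, rfl⟩
  refine ⟨p, ⟨fun k _ => hvert k, hsimple, ?_, 0, by norm_num, ?_⟩, ?_⟩
  · intro i j hi hj hij z hz hz'
    rcases Nat.even_or_odd' i with ⟨a, rfl | rfl⟩ <;>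
      rcases Nat.even_or_odd' j with ⟨b, rfl | rfl⟩
    · exfalso
      rw [hseg] at hz hz'
      exact Set.disjoint_left.1 (hdis a b (by omega) (by omega) (by omega)) hz hz'
    · exact hcross a b (by omega) (by omega) z hz hz'
    · exact (hcross b a (by omega) (by omega) z hz' hz).symm
    · exfalso
      rw [hlink] at hz hz'
      have h1 := hw.ll _ _ _ _ (F3 a (by omega)) (F3 b (by omega))
        (hune a b (by omega) (by omega) (by omega))
      exact Set.disjoint_left.1 h1 hz hz'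
  · intro i hi hi2
    rcases Nat.even_or_odd' i with ⟨a, rfl | rfl⟩
    · exact hmember a
    · omega
  · unfold pathLength
    have h1 : (Finset.range w.length).image (fun a => 2 * a) ⊆
        (Finset.range (2 * w.length - 1)).filter
          (fun i => IsMember C.P C.Q (p i) (p (i + 1))) := by
      intro i hi
      obtain ⟨a, ha, rfl⟩ := Finset.mem_image.1 hi
      rw [Finset.mem_range] at ha
      rw [Finset.mem_filter, Finset.mem_range]
      exact ⟨by omega, hmember a⟩
    have h2 := Finset.card_le_card h1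
    rw [Finset.card_image_of_injective _ (fun a b h => by simpa using h), Finset.card_range] at h2
    convert h2

/-! ### Reduction to distinct abscissas -/

/-- the shear `(x, y) ↦ (x + ε y, y)` -/
def shear (ε : ℝ) : (ℝ × ℝ) →ₗ[ℝ] (ℝ × ℝ) where
  toFun x := (x.1 + ε * x.2, x.2)
  map_add' x y := by ext <;> simp; ring
  map_smul' c x := by ext <;> simp; ring

theorem shear_fst (ε : ℝ) (x : ℝ × ℝ) : (shear ε x).1 = x.1 + ε * x.2 := rfl

theorem shear_snd (ε : ℝ) (x : ℝ × ℝ) : (shear ε x).2 = x.2 := rfl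

theorem shear_neg (ε : ℝ) (x : ℝ × ℝ) : shear (-ε) (shear ε x) = x := by
  ext
  · rw [shear_fst, shear_fst, shear_snd]; ring
  · rw [shear_snd, shear_snd]

theorem shear_neg' (ε : ℝ) (x : ℝ × ℝ) : shear ε (shear (-ε) x) = x := by
  have := shear_neg (-ε) x
  rwa [neg_neg] at this

theorem shear_inj {ε : ℝ} {x y : ℝ × ℝ} (h : shear ε x = shear ε y) : x = y := by
  rw [← shear_neg ε x, h, shear_neg]

theorem map_seg (f : (ℝ × ℝ) →ₗ[ℝ] (ℝ × ℝ)) {x y z : ℝ × ℝ} (h : z ∈ segment ℝ x y) :
    f z ∈ segment ℝ (f x) (f y) := by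
  obtain ⟨s, t, hs, ht, hst, rfl⟩ := h
  exact ⟨s, t, hs, ht, hst, by rw [map_add, map_smul, map_smul]⟩

theorem map_openSeg (f : (ℝ × ℝ) →ₗ[ℝ] (ℝ × ℝ)) {x y z : ℝ × ℝ} (h : z ∈ openSegment ℝ x y) :
    f z ∈ openSegment ℝ (f x) (f y) := by
  obtain ⟨s, t, hs, ht, hst, rfl⟩ := h
  exact ⟨s, t, hs, ht, hst, by rw [map_add, map_smul, map_smul]⟩

theorem cross_ne_of_not_collinear {x y z : ℝ × ℝ} (hxy : x ≠ y)
    (h : ¬ Collinear ℝ {x, y, z}) : cross (y - x) (z - x) ≠ 0 := by
  intro h0
  apply h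
  rw [collinear_iff_of_mem (p₀ := x) (by simp)]
  refine ⟨y - x, ?_⟩
  obtain ⟨r, hr⟩ : ∃ r : ℝ, z - x = r • (y - x) := by
    unfold cross at h0
    by_cases h1 : (y - x).1 = 0
    · have h2 : (y - x).2 ≠ 0 := by
        intro h2
        apply hxy
        have : y - x = 0 := Prod.ext h1 h2
        exact (sub_eq_zero.1 this).symm
      refine ⟨(z - x).2 / (y - x).2, Prod.ext ?_ ?_⟩
      · rw [Prod.smul_fst, smul_eq_mul, h1, mul_zero]
        rw [h1, zero_mul, zero_sub, neg_eq_zero, mul_eq_zero] at h0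
        exact h0.resolve_left h2
      · rw [Prod.smul_snd, smul_eq_mul, div_mul_cancel₀ _ h2]
    · refine ⟨(z - x).1 / (y - x).1, Prod.ext ?_ ?_⟩
      · rw [Prod.smul_fst, smul_eq_mul, div_mul_cancel₀ _ h1]
      · rw [Prod.smul_snd, smul_eq_mul, div_mul_eq_mul_div, eq_div_iff h1]
        linarith
  intro p hp
  simp only [Set.mem_insert_iff, Set.mem_singleton_iff] at hp
  rcases hp with rfl | rfl | rfl
  · exact ⟨0, by simp⟩
  · exact ⟨1, by simp⟩
  · refine ⟨r, ?_⟩
    rw [← hr]
    simp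

theorem exists_shear_param (S : Finset (ℝ × ℝ)) :
    ∃ ε : ℝ, ∀ x ∈ S, ∀ y ∈ S, x ≠ y → (shear ε x).1 ≠ (shear ε y).1 := by
  classical
  obtain ⟨ε, hε⟩ := Infinite.exists_notMem_finset
    ((S ×ˢ S).image (fun q => (q.2.1 - q.1.1) / (q.1.2 - q.2.2)))
  refine ⟨ε, ?_⟩
  intro x hx y hy hxy h
  rw [shear_fst, shear_fst] at h
  by_cases h2 : x.2 = y.2
  · apply hxy
    refine Prod.ext ?_ h2
    rw [h2] at h
    linarith
  · apply hε
    rw [Finset.mem_image]
    refine ⟨(x, y), Finset.mem_product.2 ⟨hx, hy⟩, ?_⟩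
    simp only
    rw [div_eq_iff (sub_ne_zero.2 h2)]
    linarith

/-- Reduction to distinct abscissas by a shear. -/
theorem exists_shear {n : ℕ} {a b : Fin n → ℝ × ℝ} (hab : IsCollection a b) :
    ∃ C : Cfg (Fin n), C.GP ∧ ∀ m p, IsAlternatingPath C.P C.Q m p →
      ∃ q, IsAlternatingPath a b m q ∧ pathLength a b m q = pathLength C.P C.Q m p := by
  classical
  obtain ⟨ε, hε⟩ := exists_shear_param (Finset.univ.image a ∪ Finset.univ.image b)
  obtain ⟨P', hP'⟩ : ∃ P' : Fin n → ℝ × ℝ, P' = fun i => if (shear ε (a i)).1 < (shear ε (b i)).1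
    then a i else b i := ⟨_, rfl⟩
  obtain ⟨Q', hQ'⟩ : ∃ Q' : Fin n → ℝ × ℝ, Q' = fun i => if (shear ε (a i)).1 < (shear ε (b i)).1
    then b i else a i := ⟨_, rfl⟩
  have hcase : ∀ i, (P' i = a i ∧ Q' i = b i) ∨ (P' i = b i ∧ Q' i = a i) := by
    intro i
    rw [hP', hQ']
    simp only
    split_ifs
    · exact Or.inl ⟨rfl, rfl⟩
    · exact Or.inr ⟨rfl, rfl⟩
  have hmema : ∀ i, a i ∈ Finset.univ.image a ∪ Finset.univ.image b := fun i =>
    Finset.mem_union_left _ (Finset.mem_image_of_mem _ (Finset.mem_univ i))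
  have hmemb : ∀ i, b i ∈ Finset.univ.image a ∪ Finset.univ.image b := fun i =>
    Finset.mem_union_right _ (Finset.mem_image_of_mem _ (Finset.mem_univ i))
  have hlt : ∀ i, (shear ε (P' i)).1 < (shear ε (Q' i)).1 := by
    intro i
    rw [hP', hQ']
    simp only
    split_ifs with h
    · exact h
    · exact lt_of_le_of_ne (not_lt.1 h) (hε _ (hmemb i) _ (hmema i) (hab.a_ne_b i i).symm)
  have hmemP : ∀ i, P' i ∈ Finset.univ.image a ∪ Finset.univ.image b := by
    intro i
    rcases hcase i with h | h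
    · rw [h.1]; exact hmema i
    · rw [h.1]; exact hmemb i
  have hmemQ : ∀ i, Q' i ∈ Finset.univ.image a ∪ Finset.univ.image b := by
    intro i
    rcases hcase i with h | h
    · rw [h.2]; exact hmemb i
    · rw [h.2]; exact hmema i
  have hPP : ∀ i j, i ≠ j → P' i ≠ P' j := by
    intro i j hij
    rcases hcase i with h | h <;> rcases hcase j with h' | h' <;> rw [h.1, h'.1]
    · exact hab.a_ne_a i j hij
    · exact hab.a_ne_b i j
    · exact (hab.a_ne_b j i).symm
    · exact hab.b_ne_b i j hij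
  have hQQ : ∀ i j, i ≠ j → Q' i ≠ Q' j := by
    intro i j hij
    rcases hcase i with h | h <;> rcases hcase j with h' | h' <;> rw [h.2, h'.2]
    · exact hab.b_ne_b i j hij
    · exact (hab.a_ne_b j i).symm
    · exact hab.a_ne_b i j
    · exact hab.a_ne_a i j hij
  have hPQ : ∀ i j, P' i ≠ Q' j := by
    intro i j
    by_cases hij : i = j
    · subst hij
      intro h
      exact (hlt i).ne (by rw [h])
    · rcases hcase i with h | h <;> rcases hcase j with h' | h' <;> rw [h.1, h'.2]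
      · exact hab.a_ne_b i j
      · exact hab.a_ne_a i j hij
      · exact hab.b_ne_b i j hij
      · exact (hab.a_ne_b j i).symm
  have hrange : ∀ x, x ∈ Finset.univ.image a ∪ Finset.univ.image b →
      x ∈ Set.range a ∪ Set.range b := by
    intro x hx
    rw [Finset.mem_union, Finset.mem_image, Finset.mem_image] at hx
    rcases hx with ⟨i, -, h⟩ | ⟨i, -, h⟩
    · exact Or.inl ⟨i, h⟩
    · exact Or.inr ⟨i, h⟩
  have hcr : ∀ i c, c ∈ Finset.univ.image a ∪ Finset.univ.image b → P' i ≠ c → Q' i ≠ c →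
      cross (Q' i - P' i) (c - P' i) ≠ 0 := by
    intro i c hc h1 h2
    exact cross_ne_of_not_collinear (hPQ i i)
      (hab.not_collinear _ (hrange _ (hmemP i)) _ (hrange _ (hmemQ i)) _ (hrange _ hc)
        (hPQ i i) h1 h2)
  obtain ⟨C, hC⟩ : ∃ C : Cfg (Fin n), C = ⟨fun i => shear ε (P' i), fun i => shear ε (Q' i)⟩ :=
    ⟨_, rfl⟩
  have hCP : ∀ i, C.P i = shear ε (P' i) := by intro i; rw [hC]
  have hCQ : ∀ i, C.Q i = shear ε (Q' i) := by intro i; rw [hC]
  have hoff : ∀ i c, c ∈ Finset.univ.image a ∪ Finset.univ.image b → P' i ≠ c → Q' i ≠ c →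
      C.ht i (shear ε c).1 ≠ (shear ε c).2 := by
    intro i c hc h1 h2 h
    apply hcr i c hc h1 h2
    have h3 := hlt i
    rw [shear_fst, shear_fst] at h3
    simp only [Cfg.ht, Cfg.slope, hCP, hCQ, shear_fst, shear_snd] at h
    have h4 : (Q' i).1 + ε * (Q' i).2 - ((P' i).1 + ε * (P' i).2) ≠ 0 := by
      intro h5; linarith
    rw [div_mul_eq_mul_div, ← eq_sub_iff_add_eq', div_eq_iff h4] at h
    simp only [cross, Prod.fst_sub, Prod.snd_sub]
    linarith
  refine ⟨C, ⟨?_, ?_, ?_, ?_, ?_, ?_, ?_, ?_⟩, ?_⟩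
  · intro i
    rw [hCP, hCQ]
    exact hlt i
  · intro i j hij
    rw [Set.disjoint_left]
    intro z hz hz'
    have key : ∀ i, z ∈ C.seg i → shear (-ε) z ∈ segment ℝ (a i) (b i) := by
      intro i hz
      have h1 := map_seg (shear (-ε)) hz
      rw [hCP, hCQ, shear_neg, shear_neg] at h1
      rcases hcase i with h | h
      · rwa [h.1, h.2] at h1
      · rw [h.1, h.2, segment_symm] at h1
        exact h1
    exact Set.disjoint_left.1 (hab.disjoint i j hij) (key i hz) (key j hz')
  · intro i j hij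
    rw [hCP, hCP]
    exact hε _ (hmemP i) _ (hmemP j) (hPP i j hij)
  · intro i j
    rw [hCP, hCQ]
    exact hε _ (hmemP i) _ (hmemQ j) (hPQ i j)
  · intro i j hij
    rw [hCQ, hCQ]
    exact hε _ (hmemQ i) _ (hmemQ j) (hQQ i j hij)
  · intro i j hij h
    have h1 := hlt i
    have h2 := hlt j
    rw [shear_fst, shear_fst] at h1 h2
    simp only [Cfg.slope, hCP, hCQ, shear_fst, shear_snd] at h
    rw [div_eq_div_iff (by intro h5; linarith) (by intro h5; linarith)] at h
    have h3 : cross (Q' i - P' i) (Q' j - P' j) = 0 := by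
      simp only [cross, Prod.fst_sub, Prod.snd_sub]
      linarith
    apply hab.not_parallel i j hij
    simp only [cross, Prod.fst_sub, Prod.snd_sub] at h3 ⊢
    rcases hcase i with h | h <;> rcases hcase j with h' | h' <;>
      rw [h.1, h.2, h'.1, h'.2] at h3 <;> linarith
  · intro i j hij
    rw [hCP j]
    exact hoff i _ (hmemP j) (hPP i j hij) (hPQ j i).symm
  · intro i j hij
    rw [hCQ j]
    exact hoff i _ (hmemQ j) (hPQ i j) (hQQ i j hij)
  · intro m p hp
    have hmember : ∀ x y, IsMember a b (shear (-ε) x) (shear (-ε) y) ↔ IsMember C.P C.Q x y := by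
      intro x y
      have hinv : ∀ x c, shear (-ε) x = c ↔ x = shear ε c := by
        intro x c
        constructor
        · intro h; rw [← h, shear_neg']
        · intro h; rw [h, shear_neg]
      unfold IsMember
      refine exists_congr (fun k => ?_)
      rw [hinv, hinv, hinv, hinv, hCP, hCQ]
      rcases hcase k with h | h
      · rw [h.1, h.2]
      · rw [h.1, h.2, or_comm]
    have hpt : ∀ x ∈ Set.range C.P ∪ Set.range C.Q, shear (-ε) x ∈ Set.range a ∪ Set.range b := by
      rintro x (⟨k, rfl⟩ | ⟨k, rfl⟩)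
      · rw [hCP, shear_neg]
        exact hrange _ (hmemP k)
      · rw [hCQ, shear_neg]
        exact hrange _ (hmemQ k)
    refine ⟨fun i => shear (-ε) (p i), ⟨fun i hi => hpt _ (hp.vertices i hi), ?_, ?_, ?_⟩, ?_⟩
    · intro i hi j hj hij h
      exact hp.simple i hi j hj hij (shear_inj h)
    · intro i j hi hj hij z hz hz'
      have h1 := map_seg (shear ε) hz
      have h2 := map_seg (shear ε) hz'
      simp only [shear_neg'] at h1 h2
      obtain ⟨h3, h4⟩ := hp.noncrossing i j hi hj hij _ h1 h2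
      constructor
      · intro h
        have h5 := map_openSeg (shear ε) h
        simp only [shear_neg'] at h5
        exact h3 h5
      · intro h
        have h5 := map_openSeg (shear ε) h
        simp only [shear_neg'] at h5
        exact h4 h5
    · obtain ⟨r, hr, h⟩ := hp.alternating
      exact ⟨r, hr, fun i hi hi' => (hmember _ _).2 (h i hi hi')⟩
    · unfold pathLength
      congr 1
      ext i
      rw [Finset.mem_filter, Finset.mem_filter, hmember]

theorem log_bound {n : ℕ} (hn : 2 ≤ n) :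
    ((Nat.log 2 (2 * n) + 1 : ℕ) : ℝ) * Real.log 2 ≤ 3 * Real.log n := by
  have h2 : 0 < Real.log 2 := Real.log_pos (by norm_num)
  have hn0 : (0 : ℝ) < n := by exact_mod_cast (by omega : 0 < n)
  have h1 : (Nat.log 2 (2 * n) : ℝ) * Real.log 2 ≤ Real.log 2 + Real.log n := by
    rw [← Real.log_mul (by norm_num) hn0.ne', ← Real.log_pow]
    apply Real.log_le_log (by positivity)
    have := Nat.pow_log_le_self 2 (x := 2 * n) (by omega)
    exact_mod_cast this
  have h3 : Real.log 2 ≤ Real.log n :=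
    Real.log_le_log (by norm_num) (by exact_mod_cast hn)
  push_cast
  nlinarith

/-- **Main theorem.** -/
theorem main : ∃ c : ℝ, 0 < c ∧ ∀ n : ℕ, 2 ≤ n → ∀ a b : Fin n → ℝ × ℝ, IsCollection a b →
    ∃ m p, IsAlternatingPath a b m p ∧
      c * Real.sqrt (n / Real.log n) ≤ (pathLength a b m p : ℝ) := by
  have hK : (0 : ℝ) < K0 := by unfold K0; positivity
  have hl2 : 0 < Real.log 2 := Real.log_pos (by norm_num)
  refine ⟨Real.sqrt (Real.log 2 / (12 * K0)), Real.sqrt_pos.2 (by positivity), ?_⟩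
  intro n hn a b hab
  obtain ⟨C, hC, hmap⟩ := exists_shear hab
  -- the longest good list
  obtain ⟨w, hw, hwmax⟩ : ∃ w, C.Good w ∧ ∀ w', C.Good w' → w'.length ≤ w.length := by
    have hbdd : ∀ w', C.Good w' → w'.length ≤ n := by
      intro w' hw'
      have h1 := List.Nodup.length_le_card hw'.nodup
      rw [List.length_map, Fintype.card_fin] at h1
      exact h1
    have hnil : C.Good [] := by
      refine ⟨by simp, ?_, ?_⟩
      · intro u v h
        exact absurd h adj_nil
      · intro u v u' v' h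
        exact absurd h adj_nil
    classical
    obtain ⟨w, hw, hwk⟩ := Nat.findGreatest_spec (P := fun k => ∃ w, C.Good w ∧ w.length = k)
      (Nat.zero_le n) ⟨[], hnil, rfl⟩
    refine ⟨w, hw, ?_⟩
    intro w' hw'
    rw [hwk]
    exact Nat.le_findGreatest (P := fun k => ∃ w, C.Good w ∧ w.length = k) (hbdd w' hw')
      ⟨w', hw', rfl⟩
  obtain ⟨A, g, h1, h2, hA⟩ := C.dyadic (by omega) hC
  have hAs := C.assembly hC A g h1 h2 w.length hwmax
  obtain ⟨p, hp, hplen⟩ := hw.path hC
  obtain ⟨q, hq, hqlen⟩ := hmap _ p hp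
  refine ⟨_, q, hq, ?_⟩
  rw [hqlen]
  obtain ⟨T, hT⟩ : ∃ T : ℝ, T = (w.length : ℝ) := ⟨_, rfl⟩
  have hT0 : 0 ≤ T := by rw [hT]; exact Nat.cast_nonneg _
  have hTp : T ≤ (pathLength C.P C.Q (2 * w.length) p : ℝ) := by
    rw [hT]; exact_mod_cast hplen
  refine le_trans ?_ hTp
  have hlogn : 0 < Real.log n := Real.log_pos (by exact_mod_cast (by omega : 1 < n))
  have hL := log_bound hn
  have hmain : (n : ℝ) ≤ 4 * K0 * T ^ 2 * ((Nat.log 2 (2 * n) + 1 : ℕ) : ℝ) := by
    have h3 : n ≤ 4 * K0 * w.length ^ 2 * (Nat.log 2 (2 * n) + 1) :=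
      hA.trans (Nat.mul_le_mul_right _ hAs)
    rw [hT]
    exact_mod_cast h3
  rw [← Real.sqrt_mul (by positivity)]
  refine (Real.sqrt_le_sqrt ?_).trans (Real.sqrt_sq hT0).le
  rw [div_mul_div_comm, div_le_iff₀ (by positivity)]
  calc Real.log 2 * n ≤ Real.log 2 * (4 * K0 * T ^ 2 * ((Nat.log 2 (2 * n) + 1 : ℕ) : ℝ)) :=
        mul_le_mul_of_nonneg_left hmain hl2.le
    _ = 4 * K0 * T ^ 2 * (((Nat.log 2 (2 * n) + 1 : ℕ) : ℝ) * Real.log 2) := by ring
    _ ≤ 4 * K0 * T ^ 2 * (3 * Real.log n) := by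
        apply mul_le_mul_of_nonneg_left hL; positivity
    _ = T ^ 2 * (12 * K0 * Real.log n) := by ring

end Pool.Agent.Lib.ALT
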