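/-
Project ALT: the lower bound of order `√n`.
-/
import Pool.Agent.Lib.ALT.Additive
import Pool.Agent.Lib.ALT.Pack
import Pool.Agent.Lib.ALT.Statement

set_option autoImplicit false

noncomputable section

namespace Pool.Agent.Lib.ALT

open Stab

namespace Cfg

variable {ι : Type*} {C : Cfg ι}

/-- distances of the outer points from the line `x = x0` -/
def outX (x0 : ℝ) (z z' : ℝ × ℝ) (b : Bool) : ℝ := if b then z'.1 - x0 else x0 - z.1

/-- heights of the outer points -/
def outY (z z' : ℝ × ℝ) (b : Bool) : ℝ := if b then z'.2 else z.2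

theorem outer_of (hC : C.GP) {F : Finset ι} {x0 : ℝ}
    (hx0 : ∀ i ∈ F, (C.P i).1 < x0 ∧ x0 < (C.Q i).1) {U : Finset ι} (hU : U ⊆ F) {z z' : ℝ × ℝ}
    (hz : ∀ i ∈ U, z.1 < (C.P i).1) (hz' : ∀ i ∈ U, (C.Q i).1 < z'.1)
    (hoff : ∀ i ∈ U, C.ht i z.1 ≠ z.2) (hoff' : ∀ i ∈ U, C.ht i z'.1 ≠ z'.2) {q : ℕ} (hq : 0 < q)
    (hbd : ∀ w, C.GPath z z' w → (∀ t ∈ w, t.1 ∈ U) → w.length < q) :
    Outer (C.stab x0) U (outX x0 z z') (outY z z') q := by
  have hZ : (C.stab x0).Ok (F : Set ι) := stab_ok hC (fun i hi => hx0 i hi)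
  have hzX : pt x0 false (outX x0 z z' false) (outY z z' false) = z := by
    simp only [pt, outX, outY, Bool.false_eq_true, if_false]
    exact Prod.ext (by simp) rfl
  have hzX' : pt x0 true (outX x0 z z' true) (outY z z' true) = z' := by
    simp only [pt, outX, outY, if_true]
    exact Prod.ext (by simp) rfl
  have hhX : ∀ b, ∀ i, ((C.stab x0).sd b).h i (outX x0 z z' b) =
      C.ht i (if b then z'.1 else z.1) := by
    intro b i
    rw [stab_h]
    cases b
    · simp only [pt, outX, Bool.false_eq_true, if_false, sub_sub_cancel]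
    · simp only [pt, outX, if_true, add_sub_cancel]
  refine ⟨hq, ?_, ?_, ?_⟩
  · intro i hi b
    cases b
    · simp only [outX, stab, sd, Bool.false_eq_true, if_false]; linarith [hz i hi]
    · simp only [outX, stab, sd, if_true]; linarith [hz' i hi]
  · intro i hi b
    rw [hhX]
    cases b
    · simp only [outY, Bool.false_eq_true, if_false]; exact hoff i hi
    · simp only [outY, if_true]; exact hoff' i hi
  · intro w a c hw hwU ha hc hac hA hB
    have hG := gpath_of_zig (X := outX x0 z z') (Y := outY z z') hC hZ hw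
      (fun t ht => hU (hwU t ht)) ha hc hac hA hB
    rw [hzX, hzX'] at hG
    have h1 := hbd _ hG (by
      intro t ht
      cases h2 : a.2 <;> rw [h2] at ht
      · simp only [Bool.false_eq_true, if_false] at ht
        exact hwU (t.1, !t.2) (mem_rev.1 ht)
      · simp only [if_true] at ht
        exact hwU t ht)
    cases h2 : a.2 <;> rw [h2] at h1
    · simp only [Bool.false_eq_true, if_false, length_rev] at h1
      exact h1
    · simpa using h1

/-- a family of pairwise overlapping segments is stabbed -/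
theorem exists_stab {F : Finset ι} (hF : F.Nonempty)
    (h : ∀ i ∈ F, ∀ j ∈ F, (C.P i).1 < (C.Q j).1) :
    ∃ x0 : ℝ, ∀ i ∈ F, (C.P i).1 < x0 ∧ x0 < (C.Q i).1 := by
  obtain ⟨i1, hi1, hmax⟩ := F.exists_max_image (fun i => (C.P i).1) hF
  obtain ⟨i2, hi2, hmin⟩ := F.exists_min_image (fun i => (C.Q i).1) hF
  have h12 := h i1 hi1 i2 hi2
  refine ⟨((C.P i1).1 + (C.Q i2).1) / 2, fun i hi => ?_⟩
  have h1 := hmax i hi
  have h2 := hmin i hi
  constructor <;> linarith

section

variable (C)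

/-- increment of the potential over a segment -/
def mu (T : ℕ) (y : ι) : ℕ := C.pot (4 * T) (C.Q y).1 - C.pot (4 * T) (C.P y).1

/-- level of a segment -/
def lev (T : ℕ) (y : ι) : ℕ := Nat.log 2 (C.mu T y)

variable {C}

theorem mu_pos (hC : C.GP) {T : ℕ} (hT : ∀ w, C.Good w → w.length ≤ T) (y : ι) :
    C.pot (4 * T) (C.P y).1 + 1 ≤ C.pot (4 * T) (C.Q y).1 := by
  refine pot_add hC hT (Finset.singleton_nonempty y) (rich_single hC y) ?_ ?_
  · intro i hi
    rw [Finset.mem_singleton] at hi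
    rw [hi]
  · intro i hi
    rw [Finset.mem_singleton] at hi
    rw [hi]

variable {T : ℕ} {m : ℕ} {F : Finset ι}

/-- the potential grows by less than `2 k` over the union of overlapping segments with
increments at most `k` -/
theorem not_rich (hC : C.GP) (hT : ∀ w, C.Good w → w.length ≤ T)
    (hF : ∀ y ∈ F, C.pot (4 * T) (C.P y).1 ≤ m ∧ m < C.pot (4 * T) (C.Q y).1) {k : ℕ}
    (hk : ∀ y ∈ F, C.mu T y ≤ k) (hne : F.Nonempty) : ¬ C.Rich F (2 * k) := by
  intro hR
  obtain ⟨y1, hy1, hmax⟩ := F.exists_max_image (fun i => (C.Q i).1) hne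
  obtain ⟨y2, hy2, hmin⟩ := F.exists_min_image (fun i => (C.P i).1) hne
  have h1 := pot_add hC hT hne hR hmin hmax
  have h2 := hk y1 hy1
  have h3 := hk y2 hy2
  have h4 := hF y1 hy1
  have h5 := hF y2 hy2
  unfold mu at h2 h3
  omega

theorem exists_outer (hC : C.GP) (hT : ∀ w, C.Good w → w.length ≤ T)
    (hF : ∀ y ∈ F, C.pot (4 * T) (C.P y).1 ≤ m ∧ m < C.pot (4 * T) (C.Q y).1) {x0 : ℝ}
    (hx0 : ∀ i ∈ F, (C.P i).1 < x0 ∧ x0 < (C.Q i).1) {k : ℕ} (hk : ∀ y ∈ F, C.mu T y ≤ k)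
    (hk0 : 0 < k) : ∃ X Y : Bool → ℝ, Outer (C.stab x0) F X Y (2 * k) := by
  rcases F.eq_empty_or_nonempty with rfl | hne
  · refine ⟨fun _ => 0, fun _ => 0, ⟨by omega, by simp, by simp, ?_⟩⟩
    intro w a c _ hw ha _ _ _ _
    exact absurd (hw a (List.mem_of_head? ha)) (Finset.notMem_empty _)
  · have h := not_rich hC hT hF hk hne
    unfold Rich at h
    push Not at h
    obtain ⟨z, z', h1, h2, h3, h4, h5⟩ := h
    exact ⟨_, _, outer_of hC hx0 (Finset.Subset.refl F) h1 h2 h3 h4 (by omega) h5⟩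

/-- a segment with large increment is long -/
theorem long_of_mu (hC : C.GP) (hT : ∀ w, C.Good w → w.length ≤ T)
    (hF : ∀ y ∈ F, C.pot (4 * T) (C.P y).1 ≤ m ∧ m < C.pot (4 * T) (C.Q y).1) (x0 : ℝ) {k : ℕ}
    {y : ι} (hyk : 2 * k ≤ C.mu T y) :
    ∃ b, ∀ u ∈ F, C.mu T u ≤ k → ((C.stab x0).sd b).E u < ((C.stab x0).sd b).E y := by
  by_contra hcon
  push Not at hcon
  obtain ⟨u1, h1, h2, h3⟩ := hcon true
  obtain ⟨u2, h4, h5, h6⟩ := hcon false
  simp only [stab, sd] at h3 h6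
  have h7 := pot_mono hC hT (show (C.Q y).1 ≤ (C.Q u1).1 by linarith)
  have h8 := pot_mono hC hT (show (C.P u2).1 ≤ (C.P y).1 by linarith)
  have h9 := hF u1 h1
  have h10 := hF u2 h4
  have h11 := mu_pos hC hT y
  unfold mu at hyk h2 h5
  omega

/-- constant of the main estimate -/
def K7 : ℕ := 576 * K0 + 8 * K6

theorem slice_wt (hC : C.GP) (hT : ∀ w, C.Good w → w.length ≤ T) (hT1 : 1 ≤ T)
    (hF : ∀ y ∈ F, C.pot (4 * T) (C.P y).1 ≤ m ∧ m < C.pot (4 * T) (C.Q y).1) :
    ∑ y ∈ F, wgt (C.lev T) (Nat.log 2 (4 * T)) y ≤ K7 * (2 ^ Nat.log 2 (4 * T) * T) := by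
  classical
  rcases F.eq_empty_or_nonempty with rfl | hne
  · simp
  obtain ⟨x0, hx0⟩ := exists_stab (C := C) hne (fun i hi j hj => by
    by_contra h
    have h1 := pot_mono hC hT (not_lt.1 h)
    have h2 := (hF i hi).1
    have h3 := (hF j hj).2
    omega)
  set E := Nat.log 2 (4 * T) with hE
  have hmu : ∀ y, C.mu T y ≠ 0 := fun y => by
    have := mu_pos hC hT y
    unfold mu; omega
  have hlev1 : ∀ y, 2 ^ C.lev T y ≤ C.mu T y := fun y => Nat.pow_log_le_self 2 (hmu y)
  have hlev2 : ∀ y, C.mu T y < 2 ^ (C.lev T y + 1) := fun y =>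
    Nat.lt_pow_succ_log_self (by norm_num) _
  have hlevE : ∀ y, C.lev T y ≤ E := fun y => by
    refine Nat.log_mono_right ?_
    have := C.pot_le (4 * T) (C.Q y).1
    unfold mu; omega
  -- the two parities
  have hpar : ∀ ρ, ∑ y ∈ F.filter (fun y => C.lev T y % 2 = ρ), wgt (C.lev T) E y ≤
      288 * (K0 * (2 ^ E * T)) + K6 * (2 ^ E * 2 ^ E) := by
    intro ρ
    set G := F.filter (fun y => C.lev T y % 2 = ρ) with hG
    have hGF : G ⊆ F := Finset.filter_subset _ _
    have hGρ : ∀ y ∈ G, C.lev T y % 2 = ρ := fun y hy => (Finset.mem_filter.1 hy).2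
    have hex : ∀ e, ∃ X Y : Bool → ℝ,
        Outer (C.stab x0) (upTo G (C.lev T) e) X Y (2 ^ (e + 2)) := by
      intro e
      have h1 : 2 ^ (e + 2) = 2 * 2 ^ (e + 1) := by ring
      rw [h1]
      refine exists_outer hC hT (m := m) (fun y hy => hF y (hGF (mem_upTo.1 hy).1))
        (fun y hy => hx0 y (hGF (mem_upTo.1 hy).1)) ?_ (by positivity)
      intro y hy
      have h2 := (mem_upTo.1 hy).2
      have h3 := hlev2 y
      have h4 : 2 ^ (C.lev T y + 1) ≤ 2 ^ (e + 1) := Nat.pow_le_pow_right (by norm_num) (by omega)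
      omega
    choose X Y hXY using hex
    have hL : Lvl (C.stab x0) G (C.lev T) E X Y := by
      refine ⟨stab_ok hC (fun i hi => hx0 i (hGF hi)), fun i _ => hlevE i, hXY, ?_⟩
      intro y hy e he
      by_cases hpe : e % 2 = ρ
      · have h1 := hGρ y hy
        have h2 : e + 2 ≤ C.lev T y := by omega
        have h3 : 2 ^ (e + 2) ≤ 2 ^ C.lev T y := Nat.pow_le_pow_right (by norm_num) h2
        have h4 : 2 ^ (e + 2) = 2 * 2 ^ (e + 1) := by ring
        have h5 := hlev1 y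
        obtain ⟨b, hb⟩ := long_of_mu hC hT (fun y hy => hF y hy) x0 (k := 2 ^ (e + 1)) (y := y)
          (by omega)
        refine ⟨b, fun u hu hue => hb u (hGF hu) ?_⟩
        have h6 := hlev2 u
        have h7 : 2 ^ (C.lev T u + 1) ≤ 2 ^ (e + 1) :=
          Nat.pow_le_pow_right (by norm_num) (by omega)
        omega
      · have h3 : 2 ^ (e + 1) ≤ 2 ^ C.lev T y := Nat.pow_le_pow_right (by norm_num) he
        have h4 : 2 ^ (e + 1) = 2 * 2 ^ e := by ring
        have h5 := hlev1 y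
        obtain ⟨b, hb⟩ := long_of_mu hC hT (fun y hy => hF y hy) x0 (k := 2 ^ e) (y := y)
          (by omega)
        refine ⟨b, fun u hu hue => hb u (hGF hu) ?_⟩
        have h8 := hGρ u hu
        have h9 : C.lev T u + 1 ≤ e := by
          rcases lt_or_eq_of_le hue with h | h
          · exact h
          · rw [h] at h8; exact absurd h8 hpe
        have h6 := hlev2 u
        have h7 : 2 ^ (C.lev T u + 1) ≤ 2 ^ e := Nat.pow_le_pow_right (by norm_num) h9
        omega
    refine hL.total ?_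
    intro w hw hwG
    exact hT w (good_of_zig hC hL.ok hw hwG)
  have hcov : F ⊆ F.filter (fun y => C.lev T y % 2 = 0) ∪
      F.filter (fun y => C.lev T y % 2 = 1) := by
    intro y hy
    rw [Finset.mem_union, Finset.mem_filter, Finset.mem_filter]
    rcases Nat.mod_two_eq_zero_or_one (C.lev T y) with h | h
    · exact Or.inl ⟨hy, h⟩
    · exact Or.inr ⟨hy, h⟩
  have h1 := sum_le_of_cover hcov (wgt (C.lev T) E)
  have h2 := hpar 0
  have h3 := hpar 1
  have h4 : 2 ^ E ≤ 4 * T := Nat.pow_log_le_self 2 (by omega)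
  have h5 : K6 * (2 ^ E * 2 ^ E) ≤ K6 * (2 ^ E * (4 * T)) :=
    Nat.mul_le_mul_left _ (Nat.mul_le_mul_left _ h4)
  calc ∑ y ∈ F, wgt (C.lev T) E y
      ≤ 2 * (288 * (K0 * (2 ^ E * T)) + K6 * (2 ^ E * (4 * T))) := by omega
    _ = K7 * (2 ^ E * T) := by unfold K7; ring

end

/-- the number of segments is bounded by the square of the length of the longest path -/
theorem card_le_sq {n : ℕ} {C : Cfg (Fin n)} (hC : C.GP) {T : ℕ}
    (hT : ∀ w, C.Good w → w.length ≤ T) (hT1 : 1 ≤ T) : n ≤ 4 * K7 * T ^ 2 := by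
  classical
  set E := Nat.log 2 (4 * T) with hE
  have hmu : ∀ y, C.mu T y ≠ 0 := fun y => by
    have := mu_pos hC hT y
    unfold mu; omega
  have hlev1 : ∀ y, 2 ^ C.lev T y ≤ C.mu T y := fun y => Nat.pow_log_le_self 2 (hmu y)
  have hlevE : ∀ y, C.lev T y ≤ E := fun y => by
    refine Nat.log_mono_right ?_
    have := C.pot_le (4 * T) (C.Q y).1
    unfold mu; omega
  -- lower bound of the weight of a segment
  have h1 : ∀ y, 2 ^ E ≤ C.mu T y * wgt (C.lev T) E y := by
    intro y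
    have h2 : 2 ^ E = 2 ^ C.lev T y * 2 ^ (E - C.lev T y) := by
      rw [← pow_add]; congr 1; have := hlevE y; omega
    rw [h2]
    exact Nat.mul_le_mul_right _ (hlev1 y)
  set S : ℕ → Finset (Fin n) := fun m => Finset.univ.filter
    (fun y => C.pot (4 * T) (C.P y).1 ≤ m ∧ m < C.pot (4 * T) (C.Q y).1) with hS
  have h2 : ∀ y, C.mu T y = ((Finset.range (4 * T)).filter
      (fun m => C.pot (4 * T) (C.P y).1 ≤ m ∧ m < C.pot (4 * T) (C.Q y).1)).card := by
    intro y
    have h3 : (Finset.range (4 * T)).filter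
        (fun m => C.pot (4 * T) (C.P y).1 ≤ m ∧ m < C.pot (4 * T) (C.Q y).1) =
        Finset.Ico (C.pot (4 * T) (C.P y).1) (C.pot (4 * T) (C.Q y).1) := by
      ext m
      rw [Finset.mem_filter, Finset.mem_range, Finset.mem_Ico]
      constructor
      · exact fun h => h.2
      · intro h
        have := C.pot_le (4 * T) (C.Q y).1
        exact ⟨by omega, h⟩
    rw [h3, Nat.card_Ico]
    rfl
  have h3 : ∑ y : Fin n, C.mu T y * wgt (C.lev T) E y =
      ∑ m ∈ Finset.range (4 * T), ∑ y ∈ S m, wgt (C.lev T) E y := by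
    have h4 : ∀ m, ∑ y ∈ S m, wgt (C.lev T) E y = ∑ y : Fin n,
        if C.pot (4 * T) (C.P y).1 ≤ m ∧ m < C.pot (4 * T) (C.Q y).1 then
          wgt (C.lev T) E y else 0 := by
      intro m
      rw [hS, Finset.sum_filter]
    rw [Finset.sum_congr rfl (fun m _ => h4 m), Finset.sum_comm]
    refine Finset.sum_congr rfl (fun y _ => ?_)
    rw [← Finset.sum_filter, Finset.sum_const, smul_eq_mul, h2 y]
  have h4 : n * 2 ^ E ≤ ∑ y : Fin n, C.mu T y * wgt (C.lev T) E y := by
    calc n * 2 ^ E = ∑ _y : Fin n, 2 ^ E := by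
          rw [Finset.sum_const, Finset.card_univ, Fintype.card_fin, smul_eq_mul]
      _ ≤ _ := Finset.sum_le_sum (fun y _ => h1 y)
  have h5 : ∑ m ∈ Finset.range (4 * T), ∑ y ∈ S m, wgt (C.lev T) E y ≤
      ∑ _m ∈ Finset.range (4 * T), K7 * (2 ^ E * T) := by
    refine Finset.sum_le_sum (fun m _ => ?_)
    exact slice_wt hC hT hT1 (m := m) (fun y hy => (Finset.mem_filter.1 hy).2)
  rw [Finset.sum_const, Finset.card_range, smul_eq_mul] at h5
  have h6 : n * 2 ^ E ≤ (4 * K7 * T ^ 2) * 2 ^ E := by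
    calc n * 2 ^ E ≤ 4 * T * (K7 * (2 ^ E * T)) := by rw [h3] at h4; exact h4.trans h5
      _ = (4 * K7 * T ^ 2) * 2 ^ E := by ring
  exact Nat.le_of_mul_le_mul_right h6 (by positivity)

end Cfg

/-- **Main theorem, without logarithm.** -/
theorem main_sqrt : ∃ c : ℝ, 0 < c ∧ ∀ n : ℕ, ∀ a b : Fin n → ℝ × ℝ, IsCollection a b →
    ∃ m p, IsAlternatingPath a b m p ∧
      c * Real.sqrt n ≤ (pathLength a b m p : ℝ) := by
  have hK : (0 : ℝ) < 4 * Cfg.K7 := by
    have : 0 < Cfg.K7 := by unfold Cfg.K7 K0; omega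
    exact_mod_cast (by omega : 0 < 4 * Cfg.K7)
  refine ⟨Real.sqrt (1 / (4 * Cfg.K7)), Real.sqrt_pos.2 (by positivity), ?_⟩
  intro n a b hab
  obtain ⟨C, hC, hmap⟩ := exists_shear hab
  -- the longest good list
  obtain ⟨w, hw, hwmax⟩ : ∃ w, C.Good w ∧ ∀ w', C.Good w' → w'.length ≤ w.length := by
    have hbdd : ∀ w', C.Good w' → w'.length ≤ n := by
      intro w' hw'
      have h1 := List.Nodup.length_le_card hw'.nodup
      rw [List.length_map, Fintype.card_fin] at h1
      exact h1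
    have hnil : C.Good [] := by
      refine ⟨by simp, ?_, ?_⟩
      · intro u v h
        exact absurd h adj_nil
      · intro u v u' v' h
        exact absurd h adj_nil
    classical
    obtain ⟨w, hw, hwk⟩ := Nat.findGreatest_spec (P := fun k => ∃ w, C.Good w ∧ w.length = k)
      (Nat.zero_le n) ⟨[], hnil, rfl⟩
    refine ⟨w, hw, ?_⟩
    intro w' hw'
    rw [hwk]
    exact Nat.le_findGreatest (P := fun k => ∃ w, C.Good w ∧ w.length = k) (hbdd w' hw')
      ⟨w', hw', rfl⟩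
  have hn : n ≤ 4 * Cfg.K7 * w.length ^ 2 := by
    rcases Nat.eq_zero_or_pos n with h | h
    · exact h.le.trans (Nat.zero_le _)
    · exact Cfg.card_le_sq hC hwmax (hwmax _ (C.good_single ⟨0, h⟩))
  obtain ⟨p, hp, hplen⟩ := hw.path hC
  obtain ⟨q, hq, hqlen⟩ := hmap _ p hp
  refine ⟨_, q, hq, ?_⟩
  rw [hqlen]
  obtain ⟨T, hT⟩ : ∃ T : ℝ, T = (w.length : ℝ) := ⟨_, rfl⟩
  have hT0 : 0 ≤ T := by rw [hT]; exact Nat.cast_nonneg _
  have hTp : T ≤ (pathLength C.P C.Q (2 * w.length) p : ℝ) := by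
    rw [hT]; exact_mod_cast hplen
  refine le_trans ?_ hTp
  have hmain : (n : ℝ) ≤ 4 * Cfg.K7 * T ^ 2 := by
    rw [hT]
    exact_mod_cast hn
  rw [← Real.sqrt_mul (by positivity)]
  refine (Real.sqrt_le_sqrt ?_).trans (Real.sqrt_sq hT0).le
  rw [one_div, inv_mul_le_iff₀ hK]
  exact hmain

end Pool.Agent.Lib.ALT
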