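/-
Project ALT: the upper bound, by bundles of nested chords of a parabola.
-/
import Pool.Agent.Lib.ALT.Statement

set_option autoImplicit false

noncomputable section

namespace Pool.Agent.Lib.ALT

/-- point of the parabola -/
def pp (x : ℝ) : ℝ × ℝ := (x, x ^ 2)

theorem pp_inj {x y : ℝ} (h : pp x = pp y) : x = y := congrArg Prod.fst h

theorem pp_seg {s e : ℝ} (h : s < e) {z : ℝ × ℝ} (hz : z ∈ segment ℝ (pp s) (pp e)) :
    s ≤ z.1 ∧ z.1 ≤ e ∧ z.2 = z.1 ^ 2 + (z.1 - s) * (e - z.1) := by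
  obtain ⟨α, β, hα, hβ, hαβ, rfl⟩ := hz
  obtain rfl : α = 1 - β := by linarith
  simp only [pp, Prod.fst_add, Prod.snd_add, Prod.smul_fst, Prod.smul_snd, smul_eq_mul]
  refine ⟨by nlinarith, by nlinarith, by ring⟩

theorem pp_mem_open {a c X : ℝ} (h1 : a < X) (h2 : X < c) :
    (X, X ^ 2 + (X - a) * (c - X)) ∈ openSegment ℝ (pp a) (pp c) := by
  have hd : 0 < c - a := by linarith
  refine ⟨(c - X) / (c - a), (X - a) / (c - a), by apply div_pos <;> linarith,
    by apply div_pos <;> linarith, by field_simp; ring, ?_⟩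
  refine Prod.ext ?_ ?_
  · simp only [pp, Prod.fst_add, Prod.smul_fst, smul_eq_mul]
    field_simp; ring
  · simp only [pp, Prod.snd_add, Prod.smul_snd, smul_eq_mul]
    field_simp; ring

/-- interleaved chords cross -/
theorem pp_cross {a b c d : ℝ} (h1 : a < b) (h2 : b < c) (h3 : c < d) :
    ∃ z, z ∈ openSegment ℝ (pp a) (pp c) ∧ z ∈ openSegment ℝ (pp b) (pp d) := by
  have hD : 0 < b + d - a - c := by linarith
  obtain ⟨X, hX⟩ : ∃ X, X = (b * d - a * c) / (b + d - a - c) := ⟨_, rfl⟩
  have hX' : X * (b + d - a - c) = b * d - a * c := by rw [hX]; field_simp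
  have e1 : (X - b) * (b + d - a - c) = (b - a) * (c - b) := by linear_combination hX'
  have e2 : (c - X) * (b + d - a - c) = (c - b) * (d - c) := by linear_combination -hX'
  have hXb : b < X := by
    have : 0 < (X - b) * (b + d - a - c) := by
      rw [e1]; exact mul_pos (by linarith) (by linarith)
    have := (mul_pos_iff_of_pos_right hD).1 this
    linarith
  have hXc : X < c := by
    have : 0 < (c - X) * (b + d - a - c) := by
      rw [e2]; exact mul_pos (by linarith) (by linarith)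
    have := (mul_pos_iff_of_pos_right hD).1 this
    linarith
  refine ⟨(X, X ^ 2 + (X - a) * (c - X)), pp_mem_open (by linarith) hXc, ?_⟩
  have h4 : X ^ 2 + (X - a) * (c - X) = X ^ 2 + (X - b) * (d - X) := by
    linear_combination -hX'
  rw [h4]
  exact pp_mem_open hXb (by linarith)

theorem pp_not_collinear {x y z : ℝ} (hxy : x ≠ y) (hxz : x ≠ z) (hyz : y ≠ z) :
    ¬ Collinear ℝ {pp x, pp y, pp z} := by
  intro h
  rw [collinear_iff_of_mem (p₀ := pp x) (by simp)] at h
  obtain ⟨v, hv⟩ := h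
  obtain ⟨r, hr⟩ := hv (pp y) (by simp)
  obtain ⟨t, ht⟩ := hv (pp z) (by simp)
  have r1 := congrArg Prod.fst hr
  have r2 := congrArg Prod.snd hr
  have t1 := congrArg Prod.fst ht
  have t2 := congrArg Prod.snd ht
  simp only [pp, vadd_eq_add, Prod.fst_add, Prod.snd_add, Prod.smul_fst, Prod.smul_snd,
    smul_eq_mul] at r1 r2 t1 t2
  have h1 : (y - x) * (z ^ 2 - x ^ 2) = (z - x) * (y ^ 2 - x ^ 2) := by
    have e1 : y - x = r * v.1 := by linarith
    have e2 : z ^ 2 - x ^ 2 = t * v.2 := by linarith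
    have e3 : z - x = t * v.1 := by linarith
    have e4 : y ^ 2 - x ^ 2 = r * v.2 := by linarith
    rw [e1, e2, e3, e4]; ring
  have h2 : (y - x) * (z - x) * (z - y) = 0 := by linear_combination h1
  rcases mul_eq_zero.1 h2 with h3 | h3
  · rcases mul_eq_zero.1 h3 with h4 | h4
    · exact hxy (by linarith)
    · exact hxz (by linarith)
  · exact hyz (by linarith)

/-- bundles of nested chords -/
structure Bundles {n : ℕ} (k : ℕ) (s e : Fin n → ℝ) (B : Fin n → ℕ) : Prop where
  lt : ∀ t, s t < e t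
  nested : ∀ t u, t ≠ u → B t = B u → (s t < s u ∧ e u < e t) ∨ (s u < s t ∧ e t < e u)
  apart : ∀ t u, B t < B u → e t < s u
  sum_ne : ∀ t u, t ≠ u → s t + e t ≠ s u + e u
  card : ∀ c, (Finset.univ.filter (fun t => B t = c)).card ≤ k
  bound : ∀ t, B t < k

namespace Bundles

variable {n k : ℕ} {s e : Fin n → ℝ} {B : Fin n → ℕ}

theorem cases (h : Bundles k s e B) {t u : Fin n} (htu : t ≠ u) :
    (s t < s u ∧ e u < e t) ∨ (s u < s t ∧ e t < e u) ∨ e t < s u ∨ e u < s t := by
  rcases lt_trichotomy (B t) (B u) with h1 | h1 | h1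
  · exact Or.inr (Or.inr (Or.inl (h.apart t u h1)))
  · rcases h.nested t u htu h1 with h2 | h2
    · exact Or.inl h2
    · exact Or.inr (Or.inl h2)
  · exact Or.inr (Or.inr (Or.inr (h.apart u t h1)))

theorem nested_disjoint {s e s' e' : ℝ} (h1 : s < s') (h2 : s' < e') (h3 : e' < e) :
    Disjoint (segment ℝ (pp s) (pp e)) (segment ℝ (pp s') (pp e')) := by
  rw [Set.disjoint_left]
  intro z hz hz'
  obtain ⟨a1, a2, a3⟩ := pp_seg (by linarith) hz
  obtain ⟨b1, b2, b3⟩ := pp_seg h2 hz'
  have h4 : (z.1 - s') * (e' - z.1) < (z.1 - s) * (e - z.1) :=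
    mul_lt_mul'' (by linarith) (by linarith) (by linarith) (by linarith)
  linarith

theorem apart_disjoint {s e s' e' : ℝ} (h1 : s < e) (h2 : e < s') (h3 : s' < e') :
    Disjoint (segment ℝ (pp s) (pp e)) (segment ℝ (pp s') (pp e')) := by
  rw [Set.disjoint_left]
  intro z hz hz'
  obtain ⟨a1, a2, a3⟩ := pp_seg h1 hz
  obtain ⟨b1, b2, b3⟩ := pp_seg h3 hz'
  linarith

theorem isCollection (h : Bundles k s e B) :
    IsCollection (fun t => pp (s t)) (fun t => pp (e t)) := by
  have hsu : ∀ t u, t ≠ u → s t ≠ s u := by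
    intro t u htu heq
    have h1 := h.lt t
    have h2 := h.lt u
    rcases h.cases htu with h3 | h3 | h3 | h3 <;> (try obtain ⟨h3, h4⟩ := h3) <;> linarith
  have heu : ∀ t u, t ≠ u → e t ≠ e u := by
    intro t u htu heq
    have h1 := h.lt t
    have h2 := h.lt u
    rcases h.cases htu with h3 | h3 | h3 | h3 <;> (try obtain ⟨h3, h4⟩ := h3) <;> linarith
  have hse : ∀ t u, s t ≠ e u := by
    intro t u heq
    have h1 := h.lt t
    have h2 := h.lt u
    by_cases htu : t = u
    · rw [htu] at heq; linarith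
    · rcases h.cases htu with h3 | h3 | h3 | h3 <;> (try obtain ⟨h3, h4⟩ := h3) <;> linarith
  refine ⟨?_, ?_, ?_, ?_, ?_, ?_⟩
  · intro t u htu
    have h1 := h.lt t
    have h2 := h.lt u
    rcases h.cases htu with h3 | h3 | h3 | h3
    · exact nested_disjoint h3.1 h2 h3.2
    · exact (nested_disjoint h3.1 h1 h3.2).symm
    · exact apart_disjoint h1 h3 h2
    · exact (apart_disjoint h2 h3 h1).symm
  · intro t u htu h0
    have h1 := h.lt t
    have h2 := h.lt u
    have h3 := h.sum_ne t u htu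
    simp only [cross, pp, Prod.fst_sub, Prod.snd_sub] at h0
    have h4 : (e t - s t) * (e u - s u) * ((s u + e u) - (s t + e t)) = 0 := by
      linear_combination h0
    rcases mul_eq_zero.1 h4 with h5 | h5
    · rcases mul_eq_zero.1 h5 with h6 | h6 <;> linarith
    · exact h3 (by linarith)
  · intro t u heq
    exact hse t u (pp_inj heq)
  · intro t u htu heq
    exact hsu t u htu (pp_inj heq)
  · intro t u htu heq
    exact heu t u htu (pp_inj heq)
  · have hr : ∀ x ∈ Set.range (fun t => pp (s t)) ∪ Set.range (fun t => pp (e t)),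
        ∃ x' : ℝ, x = pp x' := by
      rintro x (⟨t, rfl⟩ | ⟨t, rfl⟩)
      · exact ⟨_, rfl⟩
      · exact ⟨_, rfl⟩
    intro x hx y hy z hz hxy hxz hyz
    obtain ⟨x', rfl⟩ := hr x hx
    obtain ⟨y', rfl⟩ := hr y hy
    obtain ⟨z', rfl⟩ := hr z hz
    exact pp_not_collinear (fun h => hxy (by rw [h])) (fun h => hxz (by rw [h]))
      (fun h => hyz (by rw [h]))

/-- a vertex with abscissa in the interval of a chord belongs to the same bundle -/
theorem same (h : Bundles k s e B) {t u : Fin n} {x : ℝ} (hx : x = s u ∨ x = e u)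
    (h1 : s t < x) (h2 : x < e t) : B u = B t := by
  have h3 := h.lt u
  rcases lt_trichotomy (B u) (B t) with h4 | h4 | h4
  · have := h.apart u t h4
    rcases hx with hx | hx <;> linarith
  · exact h4
  · have := h.apart t u h4
    rcases hx with hx | hx <;> linarith

/-- a chord from inside to outside of the interval of another chord crosses it -/
theorem exists_cross {a c x y : ℝ} (h1 : a < x) (h2 : x < c) (hy : ¬ (a < y ∧ y < c))
    (hya : y ≠ a) (hyc : y ≠ c) :
    ∃ z, z ∈ openSegment ℝ (pp a) (pp c) ∧ z ∈ openSegment ℝ (pp x) (pp y) := by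
  rcases lt_or_gt_of_ne hya with h | h
  · obtain ⟨z, hz1, hz2⟩ := pp_cross h h1 h2
    exact ⟨z, hz2, by rw [openSegment_symm]; exact hz1⟩
  · have h3 : c < y := by
      rcases lt_or_gt_of_ne hyc with h' | h'
      · exact absurd ⟨h, h'⟩ hy
      · exact h'
    obtain ⟨z, hz1, hz2⟩ := pp_cross h1 h2 h3
    exact ⟨z, hz1, hz2⟩

/-- Every alternating path uses at most `3 k` chords. -/
theorem length_le (h : Bundles k s e B) (hn : 0 < n) {m : ℕ} {p : ℕ → ℝ × ℝ}
    (hp : IsAlternatingPath (fun t => pp (s t)) (fun t => pp (e t)) m p) :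
    pathLength (fun t => pp (s t)) (fun t => pp (e t)) m p ≤ 3 * k := by
  classical
  -- vertices
  have hv : ∀ i < m, ∃ u, (p i = pp (s u) ∨ p i = pp (e u)) := by
    intro i hi
    rcases hp.vertices i hi with ⟨u, hu⟩ | ⟨u, hu⟩
    · exact ⟨u, Or.inl hu.symm⟩
    · exact ⟨u, Or.inr hu.symm⟩
  have hpp : ∀ i < m, p i = pp (p i).1 := by
    intro i hi
    obtain ⟨u, hu | hu⟩ := hv i hi <;> rw [hu] <;> rfl
  have hv1 : ∀ i < m, ∃ u, ((p i).1 = s u ∨ (p i).1 = e u) := by
    intro i hi
    obtain ⟨u, hu | hu⟩ := hv i hi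
    · exact ⟨u, Or.inl (by rw [hu]; rfl)⟩
    · exact ⟨u, Or.inr (by rw [hu]; rfl)⟩
  obtain ⟨S, hS⟩ : ∃ S, S = (Finset.range (m - 1)).filter
    (fun i => IsMember (fun t => pp (s t)) (fun t => pp (e t)) (p i) (p (i + 1))) := ⟨_, rfl⟩
  have hlen : pathLength (fun t => pp (s t)) (fun t => pp (e t)) m p = S.card := by
    rw [hS]
    unfold pathLength
    congr
  rw [hlen]
  have hmem : ∀ i ∈ S, i + 1 < m ∧ ∃ t, (p i = pp (s t) ∧ p (i + 1) = pp (e t)) ∨
      (p i = pp (e t) ∧ p (i + 1) = pp (s t)) := by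
    intro i hi
    rw [hS, Finset.mem_filter, Finset.mem_range] at hi
    exact ⟨by omega, hi.2⟩
  obtain ⟨τ, hτ⟩ : ∃ τ : ℕ → Fin n, ∀ i ∈ S, (p i = pp (s (τ i)) ∧ p (i + 1) = pp (e (τ i))) ∨
      (p i = pp (e (τ i)) ∧ p (i + 1) = pp (s (τ i))) := by
    have : ∀ i, ∃ t : Fin n, i ∈ S → (p i = pp (s t) ∧ p (i + 1) = pp (e t)) ∨
        (p i = pp (e t) ∧ p (i + 1) = pp (s t)) := by
      intro i
      by_cases hi : i ∈ S
      · obtain ⟨t, ht⟩ := (hmem i hi).2
        exact ⟨t, fun _ => ht⟩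
      · exact ⟨⟨0, hn⟩, fun h => absurd h hi⟩
    choose τ hτ using this
    exact ⟨τ, hτ⟩
  -- the index function is injective
  have hτinj : ∀ i ∈ S, ∀ j ∈ S, τ i = τ j → i = j := by
    intro i hi j hj hij
    have h1 := hτ i hi
    have h2 := hτ j hj
    have hi1 := (hmem i hi).1
    have hj1 := (hmem j hj).1
    rw [← hij] at h2
    have hsim := hp.simple
    rcases h1 with ⟨h1, h1'⟩ | ⟨h1, h1'⟩ <;> rcases h2 with ⟨h2, h2'⟩ | ⟨h2, h2'⟩
    · by_contra hne
      exact hsim i (by omega) j (by omega) hne (h1.trans h2.symm)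
    · by_contra hne
      by_cases h3 : i = j + 1
      · exact hsim (i + 1) (by omega) j (by omega) (by omega) (h1'.trans h2.symm)
      · exact hsim i (by omega) (j + 1) (by omega) h3 (h1.trans h2'.symm)
    · by_contra hne
      by_cases h3 : i = j + 1
      · exact hsim (i + 1) (by omega) j (by omega) (by omega) (h1'.trans h2.symm)
      · exact hsim i (by omega) (j + 1) (by omega) h3 (h1.trans h2'.symm)
    · by_contra hne
      exact hsim i (by omega) j (by omega) hne (h1.trans h2.symm)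
  -- no edge crosses a used chord
  have hnc : ∀ i ∈ S, ∀ l, l + 1 < m → l ≠ i → ∀ z,
      z ∈ openSegment ℝ (pp (s (τ i))) (pp (e (τ i))) → z ∉ openSegment ℝ (p l) (p (l + 1)) := by
    intro i hi l hl hli z hz hz'
    have h1 : z ∈ openSegment ℝ (p i) (p (i + 1)) := by
      rcases hτ i hi with ⟨h1, h2⟩ | ⟨h1, h2⟩
      · rw [h1, h2]; exact hz
      · rw [h1, h2, openSegment_symm]; exact hz
    exact (hp.noncrossing i l (hmem i hi).1 hl (Ne.symm hli) z
      (openSegment_subset_segment ℝ _ _ h1) (openSegment_subset_segment ℝ _ _ hz')).1 h1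
  -- abscissas of the other vertices
  have hne : ∀ i ∈ S, ∀ l < m, l ≠ i → l ≠ i + 1 →
      (p l).1 ≠ s (τ i) ∧ (p l).1 ≠ e (τ i) := by
    intro i hi l hl h1 h2
    have hi1 := (hmem i hi).1
    have h3 := hpp l hl
    constructor
    · intro h4
      rw [h4] at h3
      rcases hτ i hi with ⟨h5, h6⟩ | ⟨h5, h6⟩
      · exact hp.simple l hl i (by omega) h1 (h3.trans h5.symm)
      · exact hp.simple l hl (i + 1) hi1 h2 (h3.trans h6.symm)
    · intro h4
      rw [h4] at h3
      rcases hτ i hi with ⟨h5, h6⟩ | ⟨h5, h6⟩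
      · exact hp.simple l hl (i + 1) hi1 h2 (h3.trans h6.symm)
      · exact hp.simple l hl i (by omega) h1 (h3.trans h5.symm)
  -- the end vertices
  obtain ⟨c0, hc0⟩ : ∃ c0 : ℕ, ∀ i ∈ S, s (τ i) < (p 0).1 → (p 0).1 < e (τ i) → B (τ i) = c0 := by
    rcases S.eq_empty_or_nonempty with h0 | ⟨j, hj⟩
    · exact ⟨0, fun i hi => by rw [h0] at hi; exact absurd hi (Finset.notMem_empty i)⟩
    · have := (hmem j hj).1
      obtain ⟨u, hu⟩ := hv1 0 (by omega)
      exact ⟨B u, fun i hi h1 h2 => (h.same hu h1 h2).symm⟩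
  obtain ⟨c1, hc1⟩ : ∃ c1 : ℕ, ∀ i ∈ S, s (τ i) < (p (m - 1)).1 → (p (m - 1)).1 < e (τ i) →
      B (τ i) = c1 := by
    rcases S.eq_empty_or_nonempty with h0 | ⟨j, hj⟩
    · exact ⟨0, fun i hi => by rw [h0] at hi; exact absurd hi (Finset.notMem_empty i)⟩
    · have := (hmem j hj).1
      obtain ⟨u, hu⟩ := hv1 (m - 1) (by omega)
      exact ⟨B u, fun i hi h1 h2 => (h.same hu h1 h2).symm⟩
  -- a chord nested in another one
  have key : ∀ i ∈ S, ∀ j ∈ S, s (τ i) < s (τ j) → e (τ j) < e (τ i) →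
      B (τ i) = c0 ∨ B (τ i) = c1 := by
    intro i hi j hj h1 h2
    have hlt := h.lt (τ j)
    have hi1 := (hmem i hi).1
    have hj1 := (hmem j hj).1
    have hij : i ≠ j := by
      intro hij; rw [hij] at h1; exact lt_irrefl _ h1
    have hin : s (τ i) < (p j).1 ∧ (p j).1 < e (τ i) := by
      rcases hτ j hj with ⟨h3, _⟩ | ⟨h3, _⟩ <;> rw [h3] <;> simp only [pp] <;>
        constructor <;> linarith
    rcases lt_or_gt_of_ne hij with hlt' | hlt'
    · -- the part after the chord
      right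
      have hind : ∀ d, j + d < m → s (τ i) < (p (j + d)).1 ∧ (p (j + d)).1 < e (τ i) := by
        intro d
        induction d with
        | zero => intro _; exact hin
        | succ d ih =>
          intro hd
          have ih' := ih (by omega)
          by_contra hcon
          have h3 := hne i hi (j + d + 1) (by omega) (by omega) (by omega)
          obtain ⟨z, hz1, hz2⟩ := exists_cross ih'.1 ih'.2 hcon h3.1 h3.2
          have h4 := hnc i hi (j + d) (by omega) (by omega) z hz1
          rw [hpp (j + d) (by omega), hpp (j + d + 1) (by omega)] at h4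
          exact h4 hz2
      have h5 := hind (m - 1 - j) (by omega)
      have h6 : j + (m - 1 - j) = m - 1 := by omega
      rw [h6] at h5
      exact hc1 i hi h5.1 h5.2
    · -- the part before the chord
      left
      have hind : ∀ d, d ≤ j → s (τ i) < (p (j - d)).1 ∧ (p (j - d)).1 < e (τ i) := by
        intro d
        induction d with
        | zero => intro _; exact hin
        | succ d ih =>
          intro hd
          have ih' := ih (by omega)
          by_contra hcon
          have h3 := hne i hi (j - (d + 1)) (by omega) (by omega) (by omega)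
          obtain ⟨z, hz1, hz2⟩ := exists_cross ih'.1 ih'.2 hcon h3.1 h3.2
          have h4 := hnc i hi (j - (d + 1)) (by omega) (by omega) z hz1
          have h6 : j - (d + 1) + 1 = j - d := by omega
          rw [h6, hpp (j - (d + 1)) (by omega), hpp (j - d) (by omega), openSegment_symm] at h4
          exact h4 hz2
      have h5 := hind j le_rfl
      rw [Nat.sub_self] at h5
      exact hc0 i hi h5.1 h5.2
  -- counting
  have hcard : ∀ c, (S.filter (fun i => B (τ i) = c)).card ≤ k := by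
    intro c
    refine le_trans ?_ (h.card c)
    refine Finset.card_le_card_of_injOn τ ?_ ?_
    · intro i hi
      simp only [Finset.coe_filter, Set.mem_ofPred_eq] at hi ⊢
      exact ⟨Finset.mem_univ _, hi.2⟩
    · intro i hi j hj hij
      simp only [Finset.coe_filter, Set.mem_ofPred_eq] at hi hj
      exact hτinj i hi.1 j hj.1 hij
  have hrest : (S.filter (fun i => B (τ i) ≠ c0 ∧ B (τ i) ≠ c1)).card ≤ k := by
    rw [← Finset.card_range k]
    refine Finset.card_le_card_of_injOn (fun i => B (τ i)) ?_ ?_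
    · intro i _
      exact Finset.mem_coe.2 (Finset.mem_range.2 (h.bound _))
    · intro i hi j hj hij
      simp only [Finset.coe_filter, Set.mem_ofPred_eq] at hi hj hij
      by_contra hne'
      have h1 : τ i ≠ τ j := fun h1 => hne' (hτinj i hi.1 j hj.1 h1)
      rcases h.nested _ _ h1 hij with h2 | h2
      · rcases key i hi.1 j hj.1 h2.1 h2.2 with h3 | h3
        · exact hi.2.1 h3
        · exact hi.2.2 h3
      · rcases key j hj.1 i hi.1 h2.1 h2.2 with h3 | h3
        · exact hj.2.1 h3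
        · exact hj.2.2 h3
  have hcov : S ⊆ S.filter (fun i => B (τ i) = c0) ∪ (S.filter (fun i => B (τ i) = c1) ∪
      S.filter (fun i => B (τ i) ≠ c0 ∧ B (τ i) ≠ c1)) := by
    intro i hi
    simp only [Finset.mem_union, Finset.mem_filter]
    by_cases h1 : B (τ i) = c0
    · exact Or.inl ⟨hi, h1⟩
    · by_cases h2 : B (τ i) = c1
      · exact Or.inr (Or.inl ⟨hi, h2⟩)
      · exact Or.inr (Or.inr ⟨hi, h1, h2⟩)
  have h1 := (Finset.card_le_card hcov).trans (Finset.card_union_le _ _)
  have h2 := Finset.card_union_le (S.filter (fun i => B (τ i) = c1))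
    (S.filter (fun i => B (τ i) ≠ c0 ∧ B (τ i) ≠ c1))
  have h3 := hcard c0
  have h4 := hcard c1
  omega

end Bundles

/-- bundles exist -/
theorem exists_bundles {n k : ℕ} (hk : n ≤ k * k) :
    ∃ (s e : Fin n → ℝ) (B : Fin n → ℕ), Bundles k s e B := by
  refine ⟨fun t => ((4 * k * (t.1 / k) + t.1 % k : ℕ) : ℝ),
    fun t => ((4 * k * (t.1 / k) + (3 * k - 2 * (t.1 % k)) : ℕ) : ℝ), fun t => t.1 / k, ?_⟩
  have hkpos : ∀ t : Fin n, 0 < k := by
    intro t
    rcases Nat.eq_zero_or_pos k with h | h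
    · have := t.2
      rw [h] at hk
      omega
    · exact h
  have hmod : ∀ t : Fin n, t.1 % k < k := fun t => Nat.mod_lt _ (hkpos t)
  have hq : ∀ t u : Fin n, t.1 / k < u.1 / k → 4 * k * (t.1 / k) + 4 * k ≤ 4 * k * (u.1 / k) := by
    intro t u htu
    calc 4 * k * (t.1 / k) + 4 * k = 4 * k * (t.1 / k + 1) := by ring
      _ ≤ 4 * k * (u.1 / k) := Nat.mul_le_mul_left _ htu
  refine ⟨?_, ?_, ?_, ?_, ?_, ?_⟩
  · intro t
    have h1 := hmod t
    exact_mod_cast (by omega : 4 * k * (t.1 / k) + t.1 % k <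
      4 * k * (t.1 / k) + (3 * k - 2 * (t.1 % k)))
  · intro t u htu hB
    have h1 := hmod t
    have h2 := hmod u
    have h3 : t.1 % k ≠ u.1 % k := by
      intro h3
      apply htu
      apply Fin.ext
      rw [← Nat.div_add_mod t.1 k, ← Nat.div_add_mod u.1 k, hB, h3]
    rw [hB]
    rcases lt_or_gt_of_ne h3 with h4 | h4
    · left
      constructor
      · exact_mod_cast (by omega : 4 * k * (u.1 / k) + t.1 % k < 4 * k * (u.1 / k) + u.1 % k)
      · exact_mod_cast (by omega : 4 * k * (u.1 / k) + (3 * k - 2 * (u.1 % k)) <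
          4 * k * (u.1 / k) + (3 * k - 2 * (t.1 % k)))
    · right
      constructor
      · exact_mod_cast (by omega : 4 * k * (u.1 / k) + u.1 % k < 4 * k * (u.1 / k) + t.1 % k)
      · exact_mod_cast (by omega : 4 * k * (u.1 / k) + (3 * k - 2 * (t.1 % k)) <
          4 * k * (u.1 / k) + (3 * k - 2 * (u.1 % k)))
  · intro t u htu
    have h1 := hq t u htu
    have h2 := hkpos t
    exact_mod_cast (by omega : 4 * k * (t.1 / k) + (3 * k - 2 * (t.1 % k)) <
      4 * k * (u.1 / k) + u.1 % k)
  · intro t u htu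
    have h1 := hmod t
    have h2 := hmod u
    intro h
    have h' : (4 * k * (t.1 / k) + t.1 % k) + (4 * k * (t.1 / k) + (3 * k - 2 * (t.1 % k))) =
        (4 * k * (u.1 / k) + u.1 % k) + (4 * k * (u.1 / k) + (3 * k - 2 * (u.1 % k))) := by
      exact_mod_cast h
    rcases lt_trichotomy (t.1 / k) (u.1 / k) with h3 | h3 | h3
    · have := hq t u h3
      omega
    · apply htu
      apply Fin.ext
      rw [h3] at h'
      have h4 : t.1 % k = u.1 % k := by omega
      rw [← Nat.div_add_mod t.1 k, ← Nat.div_add_mod u.1 k, h3, h4]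
    · have := hq u t h3
      omega
  · intro c
    refine le_trans (Finset.card_le_card_of_injOn (t := Finset.range k) (fun t => t.1 % k)
      ?_ ?_) (Finset.card_range k).le
    · intro t _
      exact Finset.mem_coe.2 (Finset.mem_range.2 (hmod t))
    · intro t ht u hu htu
      simp only [Finset.coe_filter, Set.mem_ofPred_eq] at ht hu htu
      apply Fin.ext
      rw [← Nat.div_add_mod t.1 k, ← Nat.div_add_mod u.1 k, ht.2, hu.2, htu]
  · intro t
    rw [Nat.div_lt_iff_lt_mul (hkpos t)]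
    exact t.2.trans_le hk

/-- **Upper bound.** -/
theorem upper {n : ℕ} (hn : 0 < n) : ∃ a b : Fin n → ℝ × ℝ, IsCollection a b ∧
    ∀ m p, IsAlternatingPath a b m p → (pathLength a b m p : ℝ) ≤ 6 * Real.sqrt n := by
  obtain ⟨k, hk⟩ : ∃ k, k = Nat.sqrt n + 1 := ⟨_, rfl⟩
  have h1 : n ≤ k * k := by
    have := Nat.lt_succ_sqrt n
    rw [hk]
    exact this.le
  obtain ⟨s, e, B, h⟩ := exists_bundles h1
  refine ⟨_, _, h.isCollection, ?_⟩
  intro m p hp
  have h2 := h.length_le hn hp
  have h3 : (Nat.sqrt n : ℝ) ≤ Real.sqrt n := Real.nat_sqrt_le_real_sqrt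
  have h4 : (1 : ℝ) ≤ Real.sqrt n := by
    rw [Real.one_le_sqrt]
    exact_mod_cast hn
  have h5 : (pathLength (fun t => pp (s t)) (fun t => pp (e t)) m p : ℝ) ≤ 3 * k := by
    exact_mod_cast h2
  have h6 : (k : ℝ) = Nat.sqrt n + 1 := by rw [hk]; push_cast; ring
  rw [h6] at h5
  linarith

end Pool.Agent.Lib.ALT
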